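import Pool.Agent.Lib.MP_a1853d_al.HY.Spec
import Pool.Agent.Lib.MP_a1853d_al.AN
import Pool.Agent.Lib.MP_a1853d_al.TR
import Pool.Agent.Lib.MP_a1853d_al.LOG

set_option autoImplicit false

/-!
# Module ANA: the analytic part
-/

namespace MPa1853dH

open Filter Topology

namespace ANA

/-- The partition function. -/
noncomputable def Y {ι : Type} (T : ℕ → Finset ι) (ℓ : ℕ → ι → ℕ) (H : ℕ) (z : ℝ) : ℝ :=
  ∑ v ∈ T H, z ^ ℓ H v

/-- The hypotheses, with the constants `z₀`, `C₀` fixed. -/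
structure Dat {ι : Type} (T : ℕ → Finset ι) (ℓ : ℕ → ι → ℕ) (E C₁ D : ℕ) (z₀ C₀ : ℝ) : Prop where
  E1 : 1 ≤ E
  D1 : 1 ≤ D
  z₀_pos : 0 < z₀
  z₀_eq : 2 * z₀ = (1 / (D : ℝ)) ^ E
  C₀_le : (D : ℝ) ≤ C₀
  low : ∀ H, ∀ v ∈ T H, H ≤ E * ℓ H v
  up : ∀ H, ∀ v ∈ T H, ℓ H v ≤ C₁ * (H + 1)
  card : ∀ H, (T H).card ≤ D ^ (H + 1)
  grow : ∀ K : ℕ, ∃ H : ℕ, K < (T H).card
  sup : ∀ z : ℝ, z₀ ≤ z → z ≤ 1 → ∀ m n : ℕ, Y T ℓ m z * Y T ℓ n z ≤ C₀ * Y T ℓ (m + n) z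

variable {ι : Type} {T : ℕ → Finset ι} {ℓ : ℕ → ι → ℕ} {E C₁ D : ℕ} {z₀ C₀ : ℝ}

theorem Y_nonneg (H : ℕ) {z : ℝ} (hz : 0 ≤ z) : 0 ≤ Y T ℓ H z :=
  Finset.sum_nonneg fun _ _ => pow_nonneg hz _

theorem Y_mono (H : ℕ) {z w : ℝ} (hz : 0 ≤ z) (hzw : z ≤ w) : Y T ℓ H z ≤ Y T ℓ H w :=
  Finset.sum_le_sum fun _ _ => pow_le_pow_left₀ hz hzw _

theorem Y_continuous (H : ℕ) : Continuous (Y T ℓ H) := by
  unfold Y
  fun_prop

theorem C₀_ge (S : Dat T ℓ E C₁ D z₀ C₀) : 1 ≤ C₀ := by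
  have h : (1 : ℝ) ≤ D := by exact_mod_cast S.D1
  exact h.trans S.C₀_le

theorem C₀_pos (S : Dat T ℓ E C₁ D z₀ C₀) : 0 < C₀ := zero_lt_one.trans_le (C₀_ge S)

theorem z₁_le (S : Dat T ℓ E C₁ D z₀ C₀) : 2 * z₀ ≤ 1 := by
  rw [S.z₀_eq]
  have hD : (1 : ℝ) ≤ D := by exact_mod_cast S.D1
  apply pow_le_one₀ (by positivity)
  rw [div_le_one (by linarith)]
  exact hD

/-- The set of `z` at which all the partition functions are at most `C₀`. -/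
def TT (T : ℕ → Finset ι) (ℓ : ℕ → ι → ℕ) (z₀ C₀ : ℝ) : Set ℝ :=
  {z : ℝ | (z₀ ≤ z ∧ z ≤ 1) ∧ ∀ H : ℕ, Y T ℓ H z ≤ C₀}

theorem TT_closed : IsClosed (TT T ℓ z₀ C₀) := by
  have h : TT T ℓ z₀ C₀ = Set.Icc z₀ 1 ∩ ⋂ H : ℕ, {z : ℝ | Y T ℓ H z ≤ C₀} := by
    ext z
    simp [TT]
  rw [h]
  exact isClosed_Icc.inter (isClosed_iInter fun H => isClosed_le (Y_continuous H) continuous_const)

theorem TT_bdd : BddAbove (TT T ℓ z₀ C₀) := ⟨1, fun _ hz => hz.1.2⟩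

theorem mem_small (S : Dat T ℓ E C₁ D z₀ C₀) : 2 * z₀ ∈ TT T ℓ z₀ C₀ := by
  have hD : (1 : ℝ) ≤ D := by exact_mod_cast S.D1
  have hD0 : (0 : ℝ) < D := by linarith
  have hD1 : 1 / (D : ℝ) ≤ 1 := by
    rw [div_le_one hD0]
    exact hD
  have hpos : (0 : ℝ) ≤ 1 / (D : ℝ) := by positivity
  refine ⟨⟨by linarith [S.z₀_pos], z₁_le S⟩, ?_⟩
  intro H
  refine le_trans ?_ S.C₀_le
  rw [S.z₀_eq]
  unfold Y
  calc ∑ v ∈ T H, ((1 / (D : ℝ)) ^ E) ^ ℓ H v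
      ≤ ∑ _v ∈ T H, (1 / (D : ℝ)) ^ H := by
        apply Finset.sum_le_sum
        intro v hv
        rw [← pow_mul]
        exact pow_le_pow_of_le_one hpos hD1 (S.low H v hv)
    _ = ((T H).card : ℝ) * (1 / (D : ℝ)) ^ H := by rw [Finset.sum_const, nsmul_eq_mul]
    _ ≤ (D : ℝ) ^ (H + 1) * (1 / (D : ℝ)) ^ H := by
        apply mul_le_mul_of_nonneg_right _ (by positivity)
        exact_mod_cast S.card H
    _ = D := by
        rw [pow_succ, mul_comm ((D : ℝ) ^ H), mul_assoc, ← mul_pow, mul_one_div_cancel hD0.ne',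
          one_pow, mul_one]

/-- The radius. -/
noncomputable def rho (T : ℕ → Finset ι) (ℓ : ℕ → ι → ℕ) (z₀ C₀ : ℝ) : ℝ := sSup (TT T ℓ z₀ C₀)

theorem rho_mem (S : Dat T ℓ E C₁ D z₀ C₀) : rho T ℓ z₀ C₀ ∈ TT T ℓ z₀ C₀ :=
  TT_closed.csSup_mem ⟨_, mem_small S⟩ TT_bdd

theorem le_rho (S : Dat T ℓ E C₁ D z₀ C₀) : 2 * z₀ ≤ rho T ℓ z₀ C₀ :=
  le_csSup TT_bdd (mem_small S)

theorem rho_pos (S : Dat T ℓ E C₁ D z₀ C₀) : 0 < rho T ℓ z₀ C₀ := by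
  have := le_rho S
  linarith [S.z₀_pos]

theorem rho_lt_one (S : Dat T ℓ E C₁ D z₀ C₀) : rho T ℓ z₀ C₀ < 1 := by
  have h := rho_mem S
  refine lt_of_le_of_ne h.1.2 ?_
  intro h1
  obtain ⟨K, hK⟩ := exists_nat_gt C₀
  obtain ⟨H, hH⟩ := S.grow K
  have h2 := h.2 H
  rw [h1] at h2
  unfold Y at h2
  simp only [one_pow, Finset.sum_const, nsmul_eq_mul, mul_one] at h2
  have h3 : (K : ℝ) < (T H).card := by exact_mod_cast hH
  linarith

theorem Y_le (S : Dat T ℓ E C₁ D z₀ C₀) {z : ℝ} (hz : 0 ≤ z) (hz1 : z ≤ rho T ℓ z₀ C₀) (H : ℕ) :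
    Y T ℓ H z ≤ C₀ :=
  (Y_mono H hz hz1).trans ((rho_mem S).2 H)

theorem exists_gt (S : Dat T ℓ E C₁ D z₀ C₀) {z : ℝ} (hz : rho T ℓ z₀ C₀ < z) (hz1 : z ≤ 1) :
    ∃ H : ℕ, C₀ < Y T ℓ H z := by
  by_contra h
  push Not at h
  have h0 := le_rho S
  have : z ∈ TT T ℓ z₀ C₀ := ⟨⟨by linarith [S.z₀_pos], hz1⟩, h⟩
  exact absurd (le_csSup TT_bdd this) (not_le.mpr hz)

theorem Y_pow_le (S : Dat T ℓ E C₁ D z₀ C₀) (H : ℕ) {z : ℝ} (hz : z₀ ≤ z) (hz1 : z ≤ 1) (j : ℕ) :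
    (Y T ℓ H z / C₀) ^ (j + 1) ≤ Y T ℓ ((j + 1) * H) z / C₀ := by
  have hC := C₀_pos S
  have hz0 : 0 ≤ z := S.z₀_pos.le.trans hz
  induction j with
  | zero => simp
  | succ j ih =>
    rw [pow_succ, Nat.succ_mul]
    have h1 : 0 ≤ Y T ℓ H z / C₀ := div_nonneg (Y_nonneg H hz0) hC.le
    refine (mul_le_mul_of_nonneg_right ih h1).trans ?_
    have h2 := S.sup z hz hz1 ((j + 1) * H) H
    rw [div_mul_div_comm, div_le_div_iff₀ (by positivity) hC]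
    nlinarith

theorem Y_le_of_le (S : Dat T ℓ E C₁ D z₀ C₀) (H : ℕ) {z w : ℝ} (hz : 0 < z) (hzw : z ≤ w) :
    Y T ℓ H w ≤ (w / z) ^ (C₁ * (H + 1)) * Y T ℓ H z := by
  unfold Y
  rw [Finset.mul_sum]
  apply Finset.sum_le_sum
  intro v hv
  have h1 : 1 ≤ w / z := by
    rw [le_div_iff₀ hz]
    linarith
  calc w ^ ℓ H v = (w / z) ^ ℓ H v * z ^ ℓ H v := by
        rw [← mul_pow, div_mul_cancel₀ _ hz.ne']
    _ ≤ (w / z) ^ (C₁ * (H + 1)) * z ^ ℓ H v := by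
        apply mul_le_mul_of_nonneg_right _ (by positivity)
        exact pow_le_pow_right₀ h1 (S.up H v hv)

theorem Y_le_pow_mul (S : Dat T ℓ E C₁ D z₀ C₀) (H m : ℕ) {w z : ℝ} (hw : 0 < w) (hwz : w ≤ z)
    (hm : E * m ≤ H) : Y T ℓ H w ≤ (w / z) ^ m * Y T ℓ H z := by
  have hz : 0 < z := hw.trans_le hwz
  unfold Y
  rw [Finset.mul_sum]
  apply Finset.sum_le_sum
  intro v hv
  have h1 : w / z ≤ 1 := (div_le_one hz).2 hwz
  have h2 : m ≤ ℓ H v := by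
    have h3 := hm.trans (S.low H v hv)
    exact Nat.le_of_mul_le_mul_left h3 S.E1
  calc w ^ ℓ H v = (w / z) ^ ℓ H v * z ^ ℓ H v := by
        rw [← mul_pow, div_mul_cancel₀ _ hz.ne']
    _ ≤ (w / z) ^ m * z ^ ℓ H v := by
        apply mul_le_mul_of_nonneg_right _ (by positivity)
        exact pow_le_pow_of_le_one (by positivity) h1 h2

theorem diverges (S : Dat T ℓ E C₁ D z₀ C₀)
    (hcut : ∀ z₀ : ℝ, 0 < z₀ → ∃ C' : ℝ, 0 < C' ∧ ∀ z : ℝ, z₀ ≤ z → z ≤ 1 → ∀ H : ℕ, 1 ≤ H →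
      (H : ℝ) * Y T ℓ H z ≤ C' * ∑ j ∈ Finset.range (H + 1), Y T ℓ j z * Y T ℓ (H - j) z) :
    ¬ Summable (fun H : ℕ => Y T ℓ H (rho T ℓ z₀ C₀) / (H : ℝ)) := by
  intro hs
  set ρ := rho T ℓ z₀ C₀ with hρ
  have hρ0 : 0 < ρ := rho_pos S
  have hρ1 : ρ < 1 := rho_lt_one S
  have hC₀ := C₀_pos S
  obtain ⟨C, hC, hC2⟩ := hcut ρ hρ0
  -- the normalized sequence
  set y : ℕ → ℝ := fun n => if n = 0 then 1 else Y T ℓ n ρ / C₀ with hy
  have hy0 : y 0 = 1 := by simp [hy]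
  have hle : ∀ n, Y T ℓ n ρ / C₀ ≤ 1 := fun n => (div_le_one hC₀).2 ((rho_mem S).2 n)
  have hnn : ∀ n, 0 ≤ Y T ℓ n ρ / C₀ := fun n => div_nonneg (Y_nonneg n hρ0.le) hC₀.le
  have hYy : ∀ n, Y T ℓ n ρ / C₀ ≤ y n := by
    intro n
    by_cases h : n = 0
    · simp only [hy, h, if_true]
      exact hle 0
    · simp only [hy, h, if_false]
      exact le_rfl
  have hyn : ∀ n, 0 ≤ y n := fun n => (hnn n).trans (hYy n)
  have hy1 : ∀ n, y n ≤ 1 := by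
    intro n
    by_cases h : n = 0
    · simp only [hy, h, if_true]
      exact le_rfl
    · simp only [hy, h, if_false]
      exact hle n
  have hav : ∀ H : ℕ, 1 ≤ H → (H : ℝ) * y H ≤
      (C * C₀) * ∑ j ∈ Finset.range (H + 1), y j * y (H - j) := by
    intro H hH
    have h0 : H ≠ 0 := by omega
    have h1 := hC2 ρ le_rfl hρ1.le H hH
    have h2 : (H : ℝ) * y H = ((H : ℝ) * Y T ℓ H ρ) / C₀ := by
      simp only [hy, h0, if_false]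
      ring
    rw [h2, div_le_iff₀ hC₀]
    refine h1.trans ?_
    have h3 : ∑ j ∈ Finset.range (H + 1), Y T ℓ j ρ * Y T ℓ (H - j) ρ ≤
        C₀ * C₀ * ∑ j ∈ Finset.range (H + 1), y j * y (H - j) := by
      rw [Finset.mul_sum]
      apply Finset.sum_le_sum
      intro j _
      have a1 : Y T ℓ j ρ = C₀ * (Y T ℓ j ρ / C₀) := by rw [mul_div_cancel₀ _ hC₀.ne']
      have a2 : Y T ℓ (H - j) ρ = C₀ * (Y T ℓ (H - j) ρ / C₀) := by
        rw [mul_div_cancel₀ _ hC₀.ne']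
      have a3 : (Y T ℓ j ρ / C₀) * (Y T ℓ (H - j) ρ / C₀) ≤ y j * y (H - j) :=
        mul_le_mul (hYy j) (hYy (H - j)) (hnn (H - j)) (hyn j)
      calc Y T ℓ j ρ * Y T ℓ (H - j) ρ
          = C₀ * C₀ * ((Y T ℓ j ρ / C₀) * (Y T ℓ (H - j) ρ / C₀)) := by
            rw [a1, a2]
            field_simp
        _ ≤ C₀ * C₀ * (y j * y (H - j)) := mul_le_mul_of_nonneg_left a3 (by positivity)
    calc C * ∑ j ∈ Finset.range (H + 1), Y T ℓ j ρ * Y T ℓ (H - j) ρ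
        ≤ C * (C₀ * C₀ * ∑ j ∈ Finset.range (H + 1), y j * y (H - j)) :=
          mul_le_mul_of_nonneg_left h3 hC.le
      _ = C * C₀ * ∑ j ∈ Finset.range (H + 1), y j * y (H - j) * C₀ := by
          rw [← Finset.sum_mul]
          ring
      _ = (C * C₀ * ∑ j ∈ Finset.range (H + 1), y j * y (H - j)) * C₀ := by
          rw [← Finset.sum_mul]
          ring
  have hsy : Summable (fun n : ℕ => y n / (n : ℝ)) := by
    refine (hs.mul_left (1 / C₀)).congr fun n => ?_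
    by_cases h : n = 0
    · simp [h]
    · simp only [hy, h, if_false]
      field_simp
  obtain ⟨A', lam, hlam, hA'⟩ := MPa1853d.specAN y (C * C₀) hy0 hyn hy1 hav hsy
  -- choose `z` slightly larger than `ρ`
  have hcont : Continuous (fun z : ℝ => (z / ρ) ^ C₁) := by fun_prop
  have h1 : ∀ᶠ z in 𝓝 ρ, (z / ρ) ^ C₁ < lam := by
    have h2 : (ρ / ρ) ^ C₁ < lam := by
      rw [div_self hρ0.ne', one_pow]
      exact hlam
    exact hcont.continuousAt.eventually_lt continuousAt_const h2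
  have h3 : ∀ᶠ z in 𝓝[>] ρ, (z / ρ) ^ C₁ < lam ∧ z < 1 ∧ ρ < z := by
    have h4 : ∀ᶠ z in 𝓝[>] ρ, ρ < z := eventually_mem_nhdsWithin
    have h5 : ∀ᶠ z in 𝓝[>] ρ, z < 1 := nhdsWithin_le_nhds (gt_mem_nhds hρ1)
    filter_upwards [nhdsWithin_le_nhds h1, h4, h5] with z a b d
    exact ⟨a, d, b⟩
  obtain ⟨z, hz1, hz2, hz3⟩ := h3.exists
  obtain ⟨H, hH⟩ := exists_gt S hz3 hz2.le
  have hz0 : 0 < z := hρ0.trans hz3
  have hz00 : z₀ ≤ z := by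
    have h0 := le_rho S
    linarith [S.z₀_pos]
  have hH0 : ∀ j : ℕ, (j + 1) * H ≠ 0 := by
    intro j h0
    have h1 : H = 0 := by
      rcases Nat.mul_eq_zero.1 h0 with h | h
      · omega
      · exact h
    -- at height `0` all powers are bounded by one value
    subst h1
    have hb : ∀ i : ℕ, (Y T ℓ 0 z / C₀) ^ (i + 1) ≤ Y T ℓ 0 z / C₀ := by
      intro i
      have := Y_pow_le S 0 hz00 hz2.le i
      simpa using this
    have h2 : 1 < Y T ℓ 0 z / C₀ := (one_lt_div hC₀).2 hH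
    obtain ⟨i, hi⟩ := pow_unbounded_of_one_lt (Y T ℓ 0 z / C₀) h2
    have h3 : (Y T ℓ 0 z / C₀) ^ i ≤ (Y T ℓ 0 z / C₀) ^ (i + 1) :=
      pow_le_pow_right₀ h2.le (Nat.le_succ i)
    linarith [hb i]
  have hA0 : 0 ≤ A' := by
    have := hA' 0
    rw [hy0] at this
    simp at this
    linarith
  have hbound : ∀ j : ℕ, (Y T ℓ H z / C₀) ^ (j + 1) ≤ lam * A' := by
    intro j
    set m := (j + 1) * H with hm
    have hm0 : m ≠ 0 := hH0 j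
    have e1 : y m = Y T ℓ m ρ / C₀ := by
      simp only [hy, hm0, if_false]
    calc (Y T ℓ H z / C₀) ^ (j + 1) ≤ Y T ℓ m z / C₀ := Y_pow_le S H hz00 hz2.le j
      _ ≤ ((z / ρ) ^ (C₁ * (m + 1)) * Y T ℓ m ρ) / C₀ :=
        div_le_div_of_nonneg_right (Y_le_of_le S _ hρ0 hz3.le) hC₀.le
      _ = (z / ρ) ^ (C₁ * (m + 1)) * y m := by rw [e1]; ring
      _ ≤ lam ^ (m + 1) * y m := by
        apply mul_le_mul_of_nonneg_right _ (hyn m)
        rw [pow_mul]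
        exact pow_le_pow_left₀ (by positivity) hz1.le _
      _ = lam * (y m * lam ^ m) := by rw [pow_succ]; ring
      _ ≤ lam * A' := mul_le_mul_of_nonneg_left (hA' m) (by linarith)
  have h2 : 1 < Y T ℓ H z / C₀ := (one_lt_div hC₀).2 hH
  obtain ⟨j, hj⟩ := pow_unbounded_of_one_lt (lam * A') h2
  have h4 : (Y T ℓ H z / C₀) ^ j ≤ (Y T ℓ H z / C₀) ^ (j + 1) :=
    pow_le_pow_right₀ h2.le (Nat.le_succ j)
  linarith [hbound j]

/-- The logarithmic series. -/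
noncomputable def Lg (y : ℝ) : ℝ := ∑' n : ℕ, y ^ (n + 1) / ((n : ℝ) + 1)

theorem Lg_hasSum {y : ℝ} (hy0 : 0 < y) (hy1 : y < 1) :
    HasSum (fun n : ℕ => y ^ (n + 1) / ((n : ℝ) + 1)) (Lg y) :=
  (Real.hasSum_pow_div_log_of_abs_lt_one (by rw [abs_of_pos hy0]; exact hy1)).summable.hasSum

theorem Lg_nonneg {y : ℝ} (hy0 : 0 < y) : 0 ≤ Lg y :=
  tsum_nonneg fun n => by positivity

theorem icc_sum_eq (f : ℕ → ℝ) (N : ℕ) :
    ∑ H ∈ Finset.Icc 1 N, f H = ∑ n ∈ Finset.range N, f (n + 1) := by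
  rw [Finset.range_eq_Ico, Finset.sum_Ico_add' f 0 N 1]
  rfl

theorem Lg_partial {y : ℝ} (hy0 : 0 < y) (hy1 : y < 1) (N : ℕ) :
    ∑ H ∈ Finset.Icc 1 N, y ^ H / (H : ℝ) ≤ Lg y := by
  rw [icc_sum_eq]
  have h := sum_le_hasSum (Finset.range N) (fun n _ => by positivity) (Lg_hasSum hy0 hy1)
  refine le_trans (le_of_eq ?_) h
  apply Finset.sum_congr rfl
  intro n _
  push_cast
  rfl

theorem Y_le_y (S : Dat T ℓ E C₁ D z₀ C₀) {w y : ℝ} (hw : rho T ℓ z₀ C₀ / 2 ≤ w)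
    (hw1 : w < rho T ℓ z₀ C₀) (hy0 : 0 < y) (hy1 : y < 1) (hy : y ^ E = w / rho T ℓ z₀ C₀)
    (H : ℕ) : Y T ℓ H w ≤ 2 * C₀ * y ^ H := by
  set ρ := rho T ℓ z₀ C₀ with hρ
  have hρ0 : 0 < ρ := rho_pos S
  have hC₀ := C₀_pos S
  have hw0 : 0 < w := by linarith
  have hE := S.E1
  have h1 : E * (H / E) ≤ H := Nat.mul_div_le H E
  have h2 : H ≤ E * (H / E) + E := by
    have := Nat.lt_mul_div_succ H (show 0 < E by omega)
    rw [Nat.mul_add, mul_one] at this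
    omega
  have h3 := Y_le_pow_mul S H (H / E) hw0 hw1.le h1
  have h4 : Y T ℓ H ρ ≤ C₀ := (rho_mem S).2 H
  have h5 : Y T ℓ H w ≤ (w / ρ) ^ (H / E) * C₀ :=
    h3.trans (mul_le_mul_of_nonneg_left h4 (by positivity))
  rw [← hy, ← pow_mul] at h5
  have h6 : y ^ (E * (H / E)) * y ^ E ≤ y ^ H := by
    rw [← pow_add]
    exact pow_le_pow_of_le_one hy0.le hy1.le h2
  have h7 : 1 / 2 ≤ y ^ E := by
    rw [hy, le_div_iff₀ hρ0]
    linarith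
  have h8 : 0 ≤ y ^ (E * (H / E)) := by positivity
  have h9 : y ^ (E * (H / E)) ≤ 2 * y ^ H := by nlinarith
  calc Y T ℓ H w ≤ y ^ (E * (H / E)) * C₀ := h5
    _ ≤ 2 * y ^ H * C₀ := mul_le_mul_of_nonneg_right h9 hC₀.le
    _ = 2 * C₀ * y ^ H := by ring

theorem main_bound (S : Dat T ℓ E C₁ D z₀ C₀) (c : ℕ → ℕ)
    (h2 : ∀ z₀ C₂ : ℝ, 0 < z₀ → ∃ C' θ : ℝ, 0 < C' ∧ 0 ≤ θ ∧ θ < 1 ∧
      ∀ z : ℝ, z₀ ≤ z → z ≤ 1 → (∀ H : ℕ, Y T ℓ H z ≤ C₂) → ∀ N : ℕ, ∃ N' : ℕ,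
        ∑ n ∈ Finset.range N, (c n : ℝ) * z ^ n ≤
          C' * (1 + ∑ H ∈ Finset.Icc 1 N', (1 / (H : ℝ) + (H : ℝ) * θ ^ H) * Y T ℓ H z)) :
    ∃ D' : ℝ, 0 < D' ∧ ∀ w y : ℝ, rho T ℓ z₀ C₀ / 2 ≤ w → w < rho T ℓ z₀ C₀ → 0 < y → y < 1 →
      y ^ E = w / rho T ℓ z₀ C₀ → ∀ N : ℕ,
        ∑ n ∈ Finset.range N, (c n : ℝ) * w ^ n ≤ D' * (1 + Lg y) := by
  have hρ0 : 0 < rho T ℓ z₀ C₀ := rho_pos S
  have hρ1 : rho T ℓ z₀ C₀ < 1 := rho_lt_one S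
  have hC₀ := C₀_pos S
  obtain ⟨C, θ, hC, hθ0, hθ1, hb⟩ := h2 (rho T ℓ z₀ C₀ / 2) C₀ (by linarith)
  have hsum : Summable (fun H : ℕ => (H : ℝ) * θ ^ H) := by
    have h := summable_pow_mul_geometric_of_norm_lt_one (R := ℝ) 1 (r := θ)
      (by rw [Real.norm_eq_abs, abs_of_nonneg hθ0]; exact hθ1)
    simpa using h
  set B : ℝ := ∑' H : ℕ, (H : ℝ) * θ ^ H with hB
  have hB0 : 0 ≤ B := tsum_nonneg fun H => by positivity
  refine ⟨C * (1 + 2 * C₀ + C₀ * B), by positivity, ?_⟩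
  intro w y hw hw1 hy0 hy1 hy N
  have hw0 : 0 < w := by linarith
  obtain ⟨N', hN'⟩ := hb w hw (hw1.le.trans hρ1.le)
    (fun H => Y_le S hw0.le hw1.le H) N
  refine hN'.trans ?_
  have hL := Lg_nonneg hy0
  have h3 : ∑ H ∈ Finset.Icc 1 N', (1 / (H : ℝ) + (H : ℝ) * θ ^ H) * Y T ℓ H w ≤
      2 * C₀ * Lg y + C₀ * B := by
    calc ∑ H ∈ Finset.Icc 1 N', (1 / (H : ℝ) + (H : ℝ) * θ ^ H) * Y T ℓ H w
        ≤ ∑ H ∈ Finset.Icc 1 N', (2 * C₀ * (y ^ H / (H : ℝ)) + C₀ * ((H : ℝ) * θ ^ H)) := by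
          apply Finset.sum_le_sum
          intro H _
          rw [add_mul]
          apply add_le_add
          · calc 1 / (H : ℝ) * Y T ℓ H w ≤ 1 / (H : ℝ) * (2 * C₀ * y ^ H) :=
                mul_le_mul_of_nonneg_left (Y_le_y S hw hw1 hy0 hy1 hy H) (by positivity)
              _ = 2 * C₀ * (y ^ H / (H : ℝ)) := by ring
          · rw [mul_comm C₀]
            exact mul_le_mul_of_nonneg_left (Y_le S hw0.le hw1.le H) (by positivity)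
      _ = 2 * C₀ * ∑ H ∈ Finset.Icc 1 N', y ^ H / (H : ℝ) +
          C₀ * ∑ H ∈ Finset.Icc 1 N', (H : ℝ) * θ ^ H := by
          rw [Finset.sum_add_distrib, Finset.mul_sum, Finset.mul_sum]
      _ ≤ 2 * C₀ * Lg y + C₀ * B := by
          apply add_le_add
          · exact mul_le_mul_of_nonneg_left (Lg_partial hy0 hy1 N') (by positivity)
          · exact mul_le_mul_of_nonneg_left
              (hsum.sum_le_tsum _ (fun H _ => by positivity)) hC₀.le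
  have h4 : (1 + ∑ H ∈ Finset.Icc 1 N', (1 / (H : ℝ) + (H : ℝ) * θ ^ H) * Y T ℓ H w) ≤
      (1 + 2 * C₀ + C₀ * B) * (1 + Lg y) := by
    have a1 : 0 ≤ C₀ * B * Lg y := by positivity
    nlinarith [mul_nonneg hC₀.le hL]
  calc C * (1 + ∑ H ∈ Finset.Icc 1 N', (1 / (H : ℝ) + (H : ℝ) * θ ^ H) * Y T ℓ H w)
      ≤ C * ((1 + 2 * C₀ + C₀ * B) * (1 + Lg y)) := mul_le_mul_of_nonneg_left h4 hC.le
    _ = C * (1 + 2 * C₀ + C₀ * B) * (1 + Lg y) := by ring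

end ANA

open ANA in
theorem specAna : SpecAna := by
  intro ι T ℓ E C₁ D c CB hE1 hD1 hCB hlow hup hcard _ hgrow hsuper hcut h1 h2
  -- the constants
  set z₀ : ℝ := (1 / (D : ℝ)) ^ E / 2 with hz₀
  have hD : (1 : ℝ) ≤ D := by exact_mod_cast hD1
  have hz₀pos : 0 < z₀ := by positivity
  obtain ⟨C', hC', hsup⟩ := hsuper z₀ hz₀pos
  set C₀ : ℝ := max C' D with hC₀
  have S : Dat T ℓ E C₁ D z₀ C₀ := by
    refine ⟨hE1, hD1, hz₀pos, by rw [hz₀]; ring, le_max_right _ _, hlow, hup, hcard, hgrow, ?_⟩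
    intro z hz hz1 m n
    refine (hsup z hz hz1 m n).trans ?_
    exact mul_le_mul_of_nonneg_right (le_max_left _ _)
      (Y_nonneg (T := T) (ℓ := ℓ) (m + n) (hz₀pos.le.trans hz))
  set ρ := rho T ℓ z₀ C₀ with hρ
  have hρ0 : 0 < ρ := rho_pos S
  have hρ1 : ρ < 1 := rho_lt_one S
  have hE' : (0 : ℝ) < E := by
    have : 0 < E := hE1
    exact_mod_cast this
  obtain ⟨D', hD', hbound⟩ := main_bound S c h2
  -- the root
  have hroot : ∀ w : ℝ, 0 < w → w < ρ → ∃ y : ℝ, 0 < y ∧ y < 1 ∧ y ^ E = w / ρ := by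
    intro w hw0 hw1
    have hz0 : 0 < w / ρ := div_pos hw0 hρ0
    have hz1 : w / ρ < 1 := (div_lt_one hρ0).mpr hw1
    refine ⟨(w / ρ) ^ ((E : ℝ)⁻¹), Real.rpow_pos_of_pos hz0 _,
      Real.rpow_lt_one hz0.le hz1 (inv_pos.mpr hE'), ?_⟩
    exact Real.rpow_inv_natCast_pow hz0.le (by omega)
  -- summability
  have hsum0 : ∀ w : ℝ, ρ / 2 ≤ w → w < ρ → Summable (fun n : ℕ => (c n : ℝ) * w ^ n) := by
    intro w hw hw1
    have hw0 : 0 < w := by linarith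
    obtain ⟨y, hy0, hy1, hy⟩ := hroot w hw0 hw1
    exact summable_of_sum_range_le (fun n => by positivity)
      (fun N => hbound w y hw hw1 hy0 hy1 hy N)
  have hsum : ∀ z : ℝ, 0 < z → z < ρ → Summable (fun n : ℕ => (c n : ℝ) * z ^ n) := by
    intro z hz0 hz1
    have h3 := hsum0 (max z (ρ / 2)) (le_max_right _ _) (max_lt hz1 (by linarith))
    refine Summable.of_nonneg_of_le (fun n => by positivity) (fun n => ?_) h3
    exact mul_le_mul_of_nonneg_left (pow_le_pow_left₀ hz0.le (le_max_left _ _) n) (by positivity)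
  set F : ℝ → ℝ := fun z => ∑' n : ℕ, (c n : ℝ) * z ^ n with hF
  have hev : ∀ᶠ z in 𝓝[<] ρ, 0 < z ∧ z < ρ := by
    have h3 : ∀ᶠ z in 𝓝[<] ρ, z < ρ := eventually_mem_nhdsWithin
    have h4 : ∀ᶠ z in 𝓝[<] ρ, 0 < z := nhdsWithin_le_nhds (lt_mem_nhds hρ0)
    filter_upwards [h3, h4] with z a b
    exact ⟨b, a⟩
  -- limit at the radius
  have hinf : Tendsto F (𝓝[<] ρ) atTop := by
    rw [tendsto_atTop]
    intro b
    have hdiv := diverges S hcut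
    have hnn : ∀ H : ℕ, 0 ≤ Y T ℓ H ρ / (H : ℝ) := fun H =>
      div_nonneg (Y_nonneg H hρ0.le) (Nat.cast_nonneg H)
    rw [not_summable_iff_tendsto_nat_atTop_of_nonneg hnn] at hdiv
    obtain ⟨N, hN⟩ := (hdiv.eventually_gt_atTop (CB * b)).exists
    have h5 : ∑ H ∈ Finset.range N, Y T ℓ H ρ / (H : ℝ) ≤
        ∑ H ∈ Finset.Icc 1 N, Y T ℓ H ρ / (H : ℝ) := by
      rw [icc_sum_eq]
      cases N with
      | zero => simp
      | succ N =>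
        rw [Finset.sum_range_succ', Finset.sum_range_succ]
        have h6 := hnn (N + 1)
        simp only [Nat.cast_zero, div_zero, add_zero]
        linarith
    have hg : Continuous (fun z : ℝ => ∑ H ∈ Finset.Icc 1 N, Y T ℓ H z / (CB * (H : ℝ))) := by
      apply continuous_finsetSum
      intro H _
      exact (Y_continuous H).div_const _
    have h7 : b < ∑ H ∈ Finset.Icc 1 N, Y T ℓ H ρ / (CB * (H : ℝ)) := by
      have h8 : ∑ H ∈ Finset.Icc 1 N, Y T ℓ H ρ / (CB * (H : ℝ)) =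
          (1 / CB) * ∑ H ∈ Finset.Icc 1 N, Y T ℓ H ρ / (H : ℝ) := by
        rw [Finset.mul_sum]
        apply Finset.sum_congr rfl
        intro H _
        rw [div_mul_eq_div_div_swap]
        ring
      rw [h8, one_div, ← div_eq_inv_mul, lt_div_iff₀ hCB, mul_comm]
      linarith
    have h9 : ∀ᶠ z in 𝓝 ρ, b < ∑ H ∈ Finset.Icc 1 N, Y T ℓ H z / (CB * (H : ℝ)) :=
      continuousAt_const.eventually_lt hg.continuousAt h7
    filter_upwards [hev, nhdsWithin_le_nhds h9] with z hz hz2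
    obtain ⟨N', hN'⟩ := h1 z hz.1 (hz.2.trans hρ1) N
    calc b ≤ ∑ H ∈ Finset.Icc 1 N, Y T ℓ H z / (CB * (H : ℝ)) := hz2.le
      _ ≤ ∑ n ∈ Finset.range N', (c n : ℝ) * z ^ n := hN'
      _ ≤ F z := (hsum z hz.1 hz.2).sum_le_tsum _ (fun n _ => by
          have := hz.1
          positivity)
  -- logarithmic growth
  have hlog : ∀ m : ℕ, Tendsto (fun z : ℝ => (ρ - z) * (F z) ^ m) (𝓝[<] ρ) (𝓝 0) := by
    apply MPa1853d.specLog ρ D' (ρ / 2) E F hρ0 (by omega) (by linarith)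
    · intro z hz hz1
      have hz0 : 0 < z := by linarith
      exact tsum_nonneg fun n => by positivity
    · intro z y hz hz0 hz1 hy0 hy1 hy
      exact (hsum z hz0 hz1).tsum_le_of_sum_range_le
        (fun N => hbound z y hz.le hz1 hy0 hy1 hy N)
  exact MPa1853d.specTR c ρ hρ0 hsum hinf hlog

end MPa1853dH
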