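import Pool.Agent.Lib.MP_a1853d_al.HY.Spec

set_option autoImplicit false

/-! # Module B1: many conjugacy classes (helper27) -/

namespace MPa1853dH

namespace B1M

variable {V : Type} [AddCommGroup V] {M : V ≃ₗ[ℤ] V} {B : AddSubgroup V} {nu ns : V → ℝ}
  {C κ : ℝ} {L : Finset (V × ℤ)} {E Ct : ℕ}

theorem ht_conj {G : Type} [Group G] (Mo : Model G V M) {g h : G} (hc : IsConj g h) :
    Mo.ht g = Mo.ht h := by
  obtain ⟨c, hc⟩ := isConj_iff.1 hc
  have h1 : c * g = h * c := by rw [← hc]; group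
  have h2 := congrArg Mo.ht h1
  rw [Mo.ht_mul, Mo.ht_mul] at h2
  linarith

theorem InJ.add {H : ℕ} {x y : V} (hx : InJ M H x) (hy : InJ M H y) : InJ M H (x + y) := by
  obtain ⟨a, rfl⟩ := hx
  obtain ⟨b, rfl⟩ := hy
  exact ⟨a + b, by rw [map_add]; abel⟩

theorem InJ.neg {H : ℕ} {x : V} (hx : InJ M H x) : InJ M H (-x) := by
  obtain ⟨a, rfl⟩ := hx
  exact ⟨-a, by rw [map_neg]; abel⟩

/-- `(M ^ (q H) - 1) a` is in `(M ^ H - 1) V`. -/
theorem InJ.period {H : ℕ} (a : V) (q : ℤ) : InJ M H ((M ^ (q * (H : ℤ))) a - a) := by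
  have key : ∀ (n : ℕ) (a : V), InJ M H ((M ^ ((n : ℤ) * (H : ℤ))) a - a) := by
    intro n
    induction n with
    | zero => intro a; exact ⟨0, by simp⟩
    | succ n ih =>
      intro a
      have h1 := ih ((M ^ (H : ℤ)) a)
      have h2 : InJ M H ((M ^ (H : ℤ)) a - a) := ⟨a, rfl⟩
      have h3 := InJ.add h1 h2
      rw [← Mp_add] at h3
      convert h3 using 1
      rw [show ((n + 1 : ℕ) : ℤ) * (H : ℤ) = (n : ℤ) * (H : ℤ) + (H : ℤ) by push_cast; ring]
      abel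
  rcases le_total 0 q with hq | hq
  · obtain ⟨n, rfl⟩ := Int.eq_ofNat_of_zero_le hq
    exact key n a
  · obtain ⟨n, hn⟩ := Int.eq_ofNat_of_zero_le (neg_nonneg.2 hq)
    have h1 := InJ.neg (key n ((M ^ (q * (H : ℤ))) a))
    rw [← Mp_add] at h1
    have e : (n : ℤ) * (H : ℤ) + q * (H : ℤ) = 0 := by rw [← hn]; ring
    rw [e, Mp_zero] at h1
    convert h1 using 1
    abel

theorem inJ_conj {G : Type} [Group G] (Mo : Model G V M) (c₀ : ℕ) {H : ℕ}
    {g h : G} (hc : IsConj g h) (hh : Mo.ht h = H) :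
    ∃ j : ℤ, InJ M H ((M ^ (c₀ : ℤ)) (Mo.val h) - (M ^ j) ((M ^ (c₀ : ℤ)) (Mo.val g))) := by
  obtain ⟨c, hc⟩ := isConj_iff.1 hc
  have h1 : c * g = h * c := by rw [← hc]; group
  have h2 := congrArg Mo.val h1
  rw [Mo.val_mul, Mo.val_mul, hh] at h2
  refine ⟨Mo.ht c, -((M ^ (c₀ : ℤ)) (Mo.val c)), ?_⟩
  have h3 : Mo.val h = Mo.val c + (M ^ Mo.ht c) (Mo.val g) - (M ^ (H : ℤ)) (Mo.val c) := by
    rw [h2]; abel
  rw [h3, map_sub, map_add, map_neg, Mp_comm M (c₀ : ℤ) (Mo.ht c), Mp_comm M (c₀ : ℤ) (H : ℤ)]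
  abel

theorem exists_mod {H : ℕ} (hH : 1 ≤ H) {a b : V} {j : ℤ} (h : InJ M H (b - (M ^ j) a)) :
    ∃ r ∈ Finset.range H, InJ M H (b - (M ^ (r : ℤ)) a) := by
  have hH' : (0 : ℤ) < H := by exact_mod_cast hH
  have b1 := Int.emod_nonneg j hH'.ne'
  have b2 := Int.emod_lt_of_pos j hH'
  have e2 : ((j % (H : ℤ)).toNat : ℤ) = j % (H : ℤ) := Int.toNat_of_nonneg b1
  refine ⟨(j % (H : ℤ)).toNat, ?_, ?_⟩
  · rw [Finset.mem_range]; omega
  · have h3 := InJ.period (M := M) (H := H) ((M ^ (j % (H : ℤ))) a) (j / (H : ℤ))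
    have h4 := InJ.add h h3
    rw [← Mp_add, show j / (H : ℤ) * (H : ℤ) + j % (H : ℤ) = j by
      have := Int.emod_add_mul_ediv j (H : ℤ)
      linarith [mul_comm (H : ℤ) (j / (H : ℤ))]] at h4
    rw [e2]
    convert h4 using 1
    abel

end B1M

theorem specB1 (hJ : SpecJmod) : SpecB1 := by
  classical
  intro G _ V _ M Mo B nu ns C κ S len c₀ L E Ct Hy hlen hS hR
  obtain ⟨-, -, hJ3⟩ := hJ V M B nu ns C κ Hy
  obtain ⟨K, hK⟩ := hJ3 (R0 C)
  refine ⟨(K : ℝ) + 1, by positivity, ?_⟩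
  intro z hz hz1 N
  have hex : ∀ (H : ℕ) (v : V), ∃ g : G, (M ^ (c₀ : ℤ)) (Mo.val g) = v ∧ Mo.ht g = (H : ℤ) := by
    intro H v
    obtain ⟨g, h1, h2⟩ := Mo.surj ((M ^ (-(c₀ : ℤ))) v) H
    exact ⟨g, by rw [h1, Mp_neg'], h2⟩
  choose g hg1 hg2 using hex
  have hlen' : ∀ (H : ℕ), ∀ v ∈ Box M B nu ns H (R0 C),
      len (ConjClasses.mk (g H v)) ≤ yl M L H v := by
    intro H v hv
    rw [hlen]
    refine ⟨g H v, rfl, ?_⟩
    rw [hR, hg1, hg2]
    exact yl_spec hS ((Hy.mem_Box).1 hv).1 H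
  let I : ℕ → Finset (ConjClasses G) := fun H =>
    (Box M B nu ns H (R0 C)).image (fun v => ConjClasses.mk (g H v))
  have hdisj : ∀ H ∈ Finset.Icc 1 N, ∀ H' ∈ Finset.Icc 1 N, H ≠ H' → Disjoint (I H) (I H') := by
    intro H _ H' _ hne
    rw [Finset.disjoint_left]
    intro κ h1 h2
    obtain ⟨W, _, hW⟩ := Finset.mem_image.1 h1
    obtain ⟨W', _, hW'⟩ := Finset.mem_image.1 h2
    apply hne
    have h3 : IsConj (g H W) (g H' W') := by
      rw [← ConjClasses.mk_eq_mk_iff_isConj]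
      rw [hW, hW']
    have h4 := B1M.ht_conj Mo h3
    rw [hg2, hg2] at h4
    exact_mod_cast h4
  refine ⟨(Finset.Icc 1 N).biUnion I, ?_⟩
  rw [Finset.sum_biUnion (by
    intro H hH H' hH' hne
    exact hdisj H hH H' hH' hne)]
  apply Finset.sum_le_sum
  intro H hH
  have hH1 : 1 ≤ H := (Finset.mem_Icc.1 hH).1
  have hpos : (0 : ℝ) < ((K : ℝ) + 1) * (H : ℝ) := by
    have : (0 : ℝ) < H := by exact_mod_cast hH1
    positivity
  rw [div_le_iff₀ hpos]
  have e1 : YY M B nu ns L (R0 C) H z ≤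
      ∑ v ∈ Box M B nu ns H (R0 C), z ^ len (ConjClasses.mk (g H v)) := by
    unfold YY
    apply Finset.sum_le_sum
    intro v hv
    exact pow_le_pow_of_le_one hz.le hz1.le (hlen' H v hv)
  refine e1.trans ?_
  have e2 : ∑ v ∈ Box M B nu ns H (R0 C), z ^ len (ConjClasses.mk (g H v)) =
      ∑ κ ∈ I H, ∑ v ∈ (Box M B nu ns H (R0 C)).filter
        (fun v => ConjClasses.mk (g H v) = κ), z ^ len (ConjClasses.mk (g H v)) := by
    rw [Finset.sum_fiberwise_of_maps_to]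
    intro v hv
    exact Finset.mem_image_of_mem _ hv
  rw [e2, Finset.sum_mul]
  apply Finset.sum_le_sum
  intro κ _
  have e3 : ∑ v ∈ (Box M B nu ns H (R0 C)).filter
        (fun v => ConjClasses.mk (g H v) = κ), z ^ len (ConjClasses.mk (g H v)) =
      (((Box M B nu ns H (R0 C)).filter
        (fun v => ConjClasses.mk (g H v) = κ)).card : ℝ) * z ^ len κ := by
    rw [← nsmul_eq_mul, ← Finset.sum_const]
    apply Finset.sum_congr rfl
    intro v hv
    rw [(Finset.mem_filter.1 hv).2]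
  rw [e3, mul_comm]
  apply mul_le_mul_of_nonneg_left _ (pow_nonneg hz.le _)
  -- a class contains at most `K H` of the elements
  have h5 : ((Box M B nu ns H (R0 C)).filter
      (fun v => ConjClasses.mk (g H v) = κ)).card ≤ H * K := by
    set s := (Box M B nu ns H (R0 C)).filter (fun v => ConjClasses.mk (g H v) = κ) with hs
    rcases s.eq_empty_or_nonempty with h0 | ⟨v₀, hv₀⟩
    · rw [h0]; simp
    have hsub : s ⊆ (Finset.range H).biUnion
        (fun r => s.filter (fun v => InJ M H (v - (M ^ (r : ℤ)) v₀))) := by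
      intro v hv
      have h1 : IsConj (g H v₀) (g H v) := by
        rw [← ConjClasses.mk_eq_mk_iff_isConj, (Finset.mem_filter.1 hv).2,
          (Finset.mem_filter.1 hv₀).2]
      obtain ⟨j, hj⟩ := B1M.inJ_conj Mo c₀ h1 (hg2 H v)
      rw [hg1, hg1] at hj
      obtain ⟨r, hr, hd⟩ := B1M.exists_mod hH1 hj
      rw [Finset.mem_biUnion]
      exact ⟨r, hr, Finset.mem_filter.2 ⟨hv, hd⟩⟩
    calc s.card ≤ _ := Finset.card_le_card hsub
      _ ≤ (Finset.range H).card * K := by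
          apply Finset.card_biUnion_le_card_mul
          intro r _
          refine hK H hH1 ((M ^ (r : ℤ)) v₀) _ ?_ ?_
          · exact (Finset.filter_subset _ _).trans (Finset.filter_subset _ _)
          · intro a ha
            exact (Finset.mem_filter.1 ha).2
      _ = H * K := by rw [Finset.card_range]
  have h6 : (((Box M B nu ns H (R0 C)).filter
      (fun v => ConjClasses.mk (g H v) = κ)).card : ℝ) ≤ (H : ℝ) * (K : ℝ) := by exact_mod_cast h5
  have h7 : (0 : ℝ) ≤ H := Nat.cast_nonneg _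
  nlinarith

end MPa1853dH
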