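import Mathlib

set_option autoImplicit false

/-!
# Conjugacy growth of hyperbolic abelian-by-cyclic groups: paths of letters

`V` is an abelian group (the kernel), `M` an automorphism of `V` (the action of the stable letter),
`B` the subgroup of integral elements (`M B ⊆ B`, `V = ⋃ M^(-i) B`).
A letter is a pair `(a, e) : V × ℤ`; read at height `h` it contributes `M ^ h a` and moves to
height `h + e`.
-/

namespace MPa1853dH

/-- Sum of `f` over the letters of a word started at height `h`. -/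
def psum {V N : Type*} [AddCommMonoid N] (f : ℤ → V × ℤ → N) : ℤ → List (V × ℤ) → N
  | _, [] => 0
  | h, p :: l => f h p + psum f (h + p.2) l

/-- Final height of a word started at height `h`. -/
def fin {V : Type*} : ℤ → List (V × ℤ) → ℤ
  | h, [] => h
  | h, p :: l => fin (h + p.2) l

/-- The contribution of a letter. -/
def ctr {V : Type*} [AddCommGroup V] (M : V ≃ₗ[ℤ] V) (h : ℤ) (p : V × ℤ) : V := (M ^ h) p.1

/-- `PP M L h h' v n`: some path of at most `n` letters leads from height `h` to height `h'` with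
total contribution `v`. -/
def PP {V : Type*} [AddCommGroup V] (M : V ≃ₗ[ℤ] V) (L : Finset (V × ℤ)) (h h' : ℤ) (v : V)
    (n : ℕ) : Prop :=
  ∃ l : List (V × ℤ), (∀ p ∈ l, p ∈ L) ∧ l.length ≤ n ∧ fin h l = h' ∧ psum (ctr M) h l = v

/-- The hyperbolic automorphism `M`: `nu` is the size in the expanding directions, `ns` the size in
the contracting directions. -/
structure Hyp {V : Type*} [AddCommGroup V] (M : V ≃ₗ[ℤ] V) (B : AddSubgroup V) (nu ns : V → ℝ)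
    (C κ : ℝ) : Prop where
  one_le : 1 ≤ C
  one_lt : 1 < κ
  inv : ∀ b ∈ B, M b ∈ B
  exh : ∀ v, ∃ i : ℕ, (M ^ (i : ℤ)) v ∈ B
  nu_nonneg : ∀ v, 0 ≤ nu v
  ns_nonneg : ∀ v, 0 ≤ ns v
  nu_zero : nu 0 = 0
  ns_zero : ns 0 = 0
  nu_neg : ∀ v, nu (-v) = nu v
  ns_neg : ∀ v, ns (-v) = ns v
  nu_add : ∀ v w, nu (v + w) ≤ nu v + nu w
  ns_add : ∀ v w, ns (v + w) ≤ ns v + ns w
  nu_con : ∀ (h : ℕ) (v : V), nu ((M ^ (-(h : ℤ))) v) ≤ C / κ ^ h * nu v
  ns_con : ∀ (h : ℕ) (v : V), ns ((M ^ (h : ℤ)) v) ≤ C / κ ^ h * ns v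
  nu_lip : ∀ v, nu (M v) ≤ C * nu v
  ns_lip : ∀ v, ns ((M ^ (-1 : ℤ)) v) ≤ C * ns v
  fin : ∀ R : ℝ, {b : V | b ∈ B ∧ nu b ≤ R ∧ ns b ≤ R}.Finite
  covu : ∀ v, ∃ w ∈ B, nu (v - w) ≤ C ∧ ns w ≤ C
  covs : ∀ v, ∃ w ∈ B, ns (v - w) ≤ C ∧ nu w ≤ C
  exp : ∃ c ∈ B, 0 < nu c

/-- The hypotheses on the set of letters. -/
structure Sys {V : Type*} [AddCommGroup V] (M : V ≃ₗ[ℤ] V) (B : AddSubgroup V)
    (L : Finset (V × ℤ)) (E Ct : ℕ) : Prop where
  int : ∀ p ∈ L, p.1 ∈ B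
  inv : ∀ p ∈ L, ∃ q ∈ L, q.2 = - p.2 ∧ q.1 = - (M ^ (- p.2)) p.1
  hE : ∀ p ∈ L, |p.2| ≤ (E : ℤ)
  hE1 : 1 ≤ E
  up : PP M L 0 1 0 Ct
  reach : ∀ b ∈ B, ∃ n : ℕ, PP M L 0 0 b n

/-- The box of height `H` and radius `R`. -/
def BoxS {V : Type*} [AddCommGroup V] (M : V ≃ₗ[ℤ] V) (B : AddSubgroup V) (nu ns : V → ℝ)
    (H : ℕ) (R : ℝ) : Set V :=
  {v | v ∈ B ∧ nu ((M ^ (-(H : ℤ))) v) ≤ R ∧ ns v ≤ R}

/-- The box as a finite set (see `mem_Box`). -/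
noncomputable def Box {V : Type*} [AddCommGroup V] (M : V ≃ₗ[ℤ] V) (B : AddSubgroup V)
    (nu ns : V → ℝ) (H : ℕ) (R : ℝ) : Finset V :=
  open Classical in if h : (BoxS M B nu ns H R).Finite then h.toFinset else ∅

/-- The least number of letters of a path from height `0` to height `H` with contribution `v`. -/
noncomputable def yl {V : Type*} [AddCommGroup V] (M : V ≃ₗ[ℤ] V) (L : Finset (V × ℤ)) (H : ℕ)
    (v : V) : ℕ := sInf {n : ℕ | PP M L 0 H v n}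

/-- The partition function. -/
noncomputable def YY {V : Type*} [AddCommGroup V] (M : V ≃ₗ[ℤ] V) (B : AddSubgroup V)
    (nu ns : V → ℝ) (L : Finset (V × ℤ)) (R : ℝ) (H : ℕ) (z : ℝ) : ℝ :=
  ∑ v ∈ Box M B nu ns H R, z ^ (yl M L H v)

/-- `x` lies in `(M ^ H - 1) V`. -/
def InJ {V : Type*} [AddCommGroup V] (M : V ≃ₗ[ℤ] V) (H : ℕ) (x : V) : Prop :=
  ∃ y : V, x = (M ^ (H : ℤ)) y - y

end MPa1853dH
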