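import Mathlib
import Pool.Agent.Lib.MP_a1853d_al.HY.Defs

set_option autoImplicit false

/-!
# Paths of letters

A letter is a pair `(a, e)`; read at height `h` it contributes `a * k ^ h` and moves to height `h + e`.
-/

namespace MPa1853dH

variable {V : Type*}

@[simp] theorem fin_nil (h : ℤ) : fin h ([] : List (V × ℤ)) = h := rfl
@[simp] theorem fin_cons (h : ℤ) (p : V × ℤ) (l : List (V × ℤ)) :
    fin h (p :: l) = fin (h + p.2) l := rfl

theorem fin_append (l₁ l₂ : List (V × ℤ)) (h : ℤ) : fin h (l₁ ++ l₂) = fin (fin h l₁) l₂ := by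
  induction l₁ generalizing h with
  | nil => rfl
  | cons p l ih => simp [ih]

theorem fin_shift (l : List (V × ℤ)) (h i : ℤ) : fin (h + i) l = fin h l + i := by
  induction l generalizing h with
  | nil => rfl
  | cons p l ih =>
    simp only [fin_cons]
    rw [← ih]
    congr 1
    ring

section
variable {N : Type*} [AddCommMonoid N]

@[simp] theorem psum_nil (f : ℤ → V × ℤ → N) (h : ℤ) : psum f h ([] : List (V × ℤ)) = 0 := rfl
@[simp] theorem psum_cons (f : ℤ → V × ℤ → N) (h : ℤ) (p : V × ℤ) (l : List (V × ℤ)) :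
    psum f h (p :: l) = f h p + psum f (h + p.2) l := rfl

theorem psum_append (f : ℤ → V × ℤ → N) (l₁ l₂ : List (V × ℤ)) (h : ℤ) :
    psum f h (l₁ ++ l₂) = psum f h l₁ + psum f (fin h l₁) l₂ := by
  induction l₁ generalizing h with
  | nil => simp
  | cons p l ih => simp [ih, add_assoc]

theorem psum_shift (f : ℤ → V × ℤ → N) (l : List (V × ℤ)) (h i : ℤ) :
    psum f (h + i) l = psum (fun h' p => f (h' + i) p) h l := by
  induction l generalizing h with
  | nil => rfl
  | cons p l ih =>
    simp only [psum_cons]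
    rw [← ih]
    congr 2
    ring

theorem psum_add (f g : ℤ → V × ℤ → N) (l : List (V × ℤ)) (h : ℤ) :
    psum (fun h p => f h p + g h p) h l = psum f h l + psum g h l := by
  induction l generalizing h with
  | nil => simp
  | cons p l ih =>
    simp only [psum_cons, ih]
    exact add_add_add_comm _ _ _ _

theorem psum_zero (l : List (V × ℤ)) (h : ℤ) :
    psum (fun _ _ => (0 : N)) h l = 0 := by
  induction l generalizing h with
  | nil => rfl
  | cons p l ih => simp [ih]

theorem psum_finset_sum {ι : Type*} (s : Finset ι) (f : ι → ℤ → V × ℤ → N)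
    (l : List (V × ℤ)) (h : ℤ) :
    psum (fun h p => ∑ i ∈ s, f i h p) h l = ∑ i ∈ s, psum (f i) h l := by
  induction l generalizing h with
  | nil => simp
  | cons p l ih => simp only [psum_cons, ih, Finset.sum_add_distrib]

theorem psum_map {N' : Type*} [AddCommMonoid N'] (φ : N →+ N') (f : ℤ → V × ℤ → N)
    (l : List (V × ℤ)) (h : ℤ) :
    φ (psum f h l) = psum (fun h p => φ (f h p)) h l := by
  induction l generalizing h with
  | nil => simp
  | cons p l ih => simp only [psum_cons, map_add, ih]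

theorem psum_const (l : List (V × ℤ)) (h : ℤ) (c : N) :
    psum (fun _ _ => c) h l = l.length • c := by
  induction l generalizing h with
  | nil => simp
  | cons p l ih => simp only [psum_cons, ih, List.length_cons, add_smul, one_smul, add_comm]
end

/-- all visited (starting) heights satisfy `p` and all letters belong to `L`. -/
def allH (p : ℤ → Prop) : ℤ → List (V × ℤ) → Prop
  | _, [] => True
  | h, q :: l => p h ∧ allH p (h + q.2) l

theorem psum_congr {M : Type*} [AddCommMonoid M] {f g : ℤ → V × ℤ → M} {P : ℤ → Prop}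
    (l : List (V × ℤ)) (h : ℤ) (hP : allH P h l)
    (hfg : ∀ h, P h → ∀ p ∈ l, f h p = g h p) : psum f h l = psum g h l := by
  induction l generalizing h with
  | nil => rfl
  | cons p l ih =>
    simp only [psum_cons]
    rw [hfg h hP.1 p (by simp), ih _ hP.2 (fun h hh q hq => hfg h hh q (by simp [hq]))]

theorem psum_congr' {M : Type*} [AddCommMonoid M] {f g : ℤ → V × ℤ → M}
    (l : List (V × ℤ)) (h : ℤ)
    (hfg : ∀ h, ∀ p ∈ l, f h p = g h p) : psum f h l = psum g h l := by
  induction l generalizing h with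
  | nil => rfl
  | cons p l ih =>
    simp only [psum_cons]
    rw [hfg h p (by simp), ih _ (fun h q hq => hfg h q (by simp [hq]))]

theorem psum_le {M : Type*} [AddCommMonoid M] [PartialOrder M] [IsOrderedAddMonoid M]
    {f g : ℤ → V × ℤ → M} (l : List (V × ℤ)) (h : ℤ)
    (hfg : ∀ h, ∀ p ∈ l, f h p ≤ g h p) : psum f h l ≤ psum g h l := by
  induction l generalizing h with
  | nil => exact le_rfl
  | cons p l ih =>
    simp only [psum_cons]
    exact add_le_add (hfg h p (by simp)) (ih _ (fun h q hq => hfg h q (by simp [hq])))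

theorem psum_le_allH {M : Type*} [AddCommMonoid M] [PartialOrder M] [IsOrderedAddMonoid M]
    {f g : ℤ → V × ℤ → M} {P : ℤ → Prop} (l : List (V × ℤ)) (h : ℤ) (hP : allH P h l)
    (hfg : ∀ h, P h → ∀ p ∈ l, f h p ≤ g h p) : psum f h l ≤ psum g h l := by
  induction l generalizing h with
  | nil => exact le_rfl
  | cons p l ih =>
    simp only [psum_cons]
    exact add_le_add (hfg h hP.1 p (by simp)) (ih _ hP.2 (fun h hh q hq => hfg h hh q (by simp [hq])))

theorem psum_mul_left {R : Type*} [NonUnitalNonAssocSemiring R] (c : R) (f : ℤ → V × ℤ → R)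
    (l : List (V × ℤ)) (h : ℤ) :
    psum (fun h p => c * f h p) h l = c * psum f h l := by
  induction l generalizing h with
  | nil => simp
  | cons p l ih => simp only [psum_cons, ih, mul_add]

/-- heights stay within `E * length` of the start. -/
theorem allH_bound {E : ℕ} (l : List (V × ℤ)) (hE : ∀ p ∈ l, |p.2| ≤ (E : ℤ)) (h : ℤ) (B : ℤ)
    (hB : |h| + E * l.length ≤ B) : allH (fun x => |x| ≤ B) h l ∧ |fin h l| ≤ B := by
  induction l generalizing h with
  | nil =>
    refine ⟨trivial, ?_⟩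
    simpa using hB
  | cons p l ih =>
    have h1 : |p.2| ≤ (E : ℤ) := hE p (by simp)
    have h2 : |h + p.2| ≤ |h| + |p.2| := abs_add_le _ _
    have h3 : (0 : ℤ) ≤ E * l.length := by positivity
    have h4 : ((p :: l).length : ℤ) = l.length + 1 := by simp
    rw [h4] at hB
    have h5 := ih (fun q hq => hE q (by simp [hq])) (h + p.2) (by nlinarith)
    refine ⟨⟨?_, h5.1⟩, h5.2⟩
    nlinarith [abs_nonneg p.2]

/-! ### Powers of `M` -/

section Pow
variable {V : Type*} [AddCommGroup V] (M : V ≃ₗ[ℤ] V)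

theorem Mp_add (a b : ℤ) (v : V) : (M ^ (a + b)) v = (M ^ a) ((M ^ b) v) := by
  rw [zpow_add, LinearEquiv.mul_apply]

theorem Mp_zero (v : V) : (M ^ (0 : ℤ)) v = v := by
  rw [zpow_zero]; rfl

theorem Mp_one (v : V) : (M ^ (1 : ℤ)) v = M v := by
  rw [zpow_one]

theorem Mp_neg (a : ℤ) (v : V) : (M ^ (-a)) ((M ^ a) v) = v := by
  rw [← Mp_add, neg_add_cancel, Mp_zero]

theorem Mp_neg' (a : ℤ) (v : V) : (M ^ a) ((M ^ (-a)) v) = v := by
  rw [← Mp_add, add_neg_cancel, Mp_zero]

theorem Mp_inj {a : ℤ} {v w : V} (h : (M ^ a) v = (M ^ a) w) : v = w :=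
  (M ^ a).injective h

theorem Mp_comm (a b : ℤ) (v : V) : (M ^ a) ((M ^ b) v) = (M ^ b) ((M ^ a) v) := by
  rw [← Mp_add, ← Mp_add, add_comm]

theorem Mp_psum (i : ℤ) (f : ℤ → V × ℤ → V) (h : ℤ) (l : List (V × ℤ)) :
    (M ^ i) (psum f h l) = psum (fun h p => (M ^ i) (f h p)) h l := by
  induction l generalizing h with
  | nil => simp
  | cons p l ih => simp only [psum_cons, map_add, ih]

end Pow

variable [AddCommGroup V] {M : V ≃ₗ[ℤ] V} {B : AddSubgroup V} {L : Finset (V × ℤ)} {E Ct : ℕ}

namespace PP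

theorem mono {h h' : ℤ} {v : V} {n m : ℕ} (hp : PP M L h h' v n) (hnm : n ≤ m) :
    PP M L h h' v m := by
  obtain ⟨l, h1, h2, h3, h4⟩ := hp
  exact ⟨l, h1, h2.trans hnm, h3, h4⟩

theorem of_eq {h h' : ℤ} {v w : V} {n m : ℕ} (hp : PP M L h h' v n) (hv : v = w)
    (hn : n ≤ m) : PP M L h h' w m := by
  subst hv; exact hp.mono hn

theorem refl (h : ℤ) : PP M L h h 0 0 := ⟨[], by simp, by simp, rfl, rfl⟩

theorem trans {h h' h'' : ℤ} {v w : V} {n m : ℕ} (hp : PP M L h h' v n)
    (hq : PP M L h' h'' w m) : PP M L h h'' (v + w) (n + m) := by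
  obtain ⟨l, h1, h2, h3, h4⟩ := hp
  obtain ⟨l', h1', h2', h3', h4'⟩ := hq
  refine ⟨l ++ l', ?_, ?_, ?_, ?_⟩
  · intro p hp
    rcases List.mem_append.1 hp with hp | hp
    · exact h1 p hp
    · exact h1' p hp
  · rw [List.length_append]; omega
  · rw [fin_append, h3, h3']
  · rw [psum_append, h3, h4, h4']

theorem letter {p : V × ℤ} (hp : p ∈ L) (h : ℤ) : PP M L h (h + p.2) (ctr M h p) 1 :=
  ⟨[p], by simpa using hp, by simp, rfl, by simp⟩

/-- Shift of a path by `i` levels. -/
theorem shift {h h' : ℤ} {v : V} {n : ℕ} (hp : PP M L h h' v n)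
    (i : ℤ) : PP M L (h + i) (h' + i) ((M ^ i) v) n := by
  obtain ⟨l, h1, h2, h3, h4⟩ := hp
  refine ⟨l, h1, h2, ?_, ?_⟩
  · rw [fin_shift, h3]
  · rw [psum_shift, ← h4, Mp_psum]
    apply psum_congr'
    intro h p _
    unfold ctr
    rw [← Mp_add, add_comm]

theorem shift' {h h' : ℤ} {v : V} {n : ℕ} (hp : PP M L h h' v n)
    (i a b : ℤ) (ha : h + i = a) (hb : h' + i = b) : PP M L a b ((M ^ i) v) n := by
  subst ha; subst hb; exact hp.shift i

/-- The reversed path. -/
theorem symm (S : Sys M B L E Ct) {h h' : ℤ} {v : V} {n : ℕ} (hp : PP M L h h' v n) :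
    PP M L h' h (-v) n := by
  obtain ⟨l, h1, h2, h3, h4⟩ := hp
  refine PP.mono ?_ h2
  clear h2
  induction l generalizing h v with
  | nil =>
    simp only [fin_nil] at h3
    simp only [psum_nil] at h4
    subst h3; subst h4
    simpa using PP.refl (M := M) (L := L) h
  | cons p l ih =>
    have h5 := ih (fun q hq => h1 q (by simp [hq])) (by simpa using h3) rfl
    obtain ⟨q, hq, hq2, hq1⟩ := S.inv p (h1 p (by simp))
    have h6 := PP.letter (M := M) hq (h + p.2)
    have h7 := h5.trans h6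
    have e1 : h + p.2 + q.2 = h := by rw [hq2]; ring
    rw [e1] at h7
    have e2 : -psum (ctr M) (h + p.2) l + ctr M (h + p.2) q = -v := by
      rw [← h4]
      simp only [psum_cons, ctr]
      rw [hq1, map_neg, ← Mp_add, show h + p.2 + -p.2 = h by ring]
      abel
    rw [e2] at h7
    simpa using h7

/-- Moving between levels without contribution. -/
theorem tmove (S : Sys M B L E Ct) (h h' : ℤ) :
    PP M L h h' 0 (Ct * (h' - h).natAbs) := by
  have key : ∀ (n : ℕ) (h : ℤ), PP M L h (h + n) 0 (Ct * n) := by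
    intro n
    induction n with
    | zero => intro h; simpa using PP.refl (M := M) (L := L) h
    | succ n ih =>
      intro h
      have h1 := ih h
      have h2 := PP.shift' S.up (h + n) (h + n) (h + ((n + 1 : ℕ) : ℤ)) (by ring)
        (by push_cast; ring)
      exact (h1.trans h2).of_eq (by simp) (by rw [Nat.mul_succ])
  rcases le_total h h' with hh | hh
  · obtain ⟨n, hn⟩ := Int.eq_ofNat_of_zero_le (sub_nonneg.2 hh)
    have e : h' = h + n := by linarith
    subst e
    simpa using key n h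
  · obtain ⟨n, hn⟩ := Int.eq_ofNat_of_zero_le (sub_nonneg.2 hh)
    have e : h = h' + n := by linarith
    subst e
    have := (key n h').symm S
    simpa using this

end PP

/-- A common cost for the elements of a finite set of integral elements, at every level. -/
theorem Sys.exists_cost (S : Sys M B L E Ct) (F : Set V) (hF : F.Finite) (hFB : ∀ b ∈ F, b ∈ B) :
    ∃ N : ℕ, ∀ b ∈ F, ∀ h : ℤ, PP M L h h ((M ^ h) b) N := by
  classical
  choose! n hn using S.reach
  refine ⟨hF.toFinset.sup n, fun b hb h => ?_⟩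
  have h1 := (hn b (hFB b hb)).shift' h h h (by ring) (by ring)
  exact h1.mono (Finset.le_sup (f := n) (hF.mem_toFinset.2 hb))

/-- Every integral element is reached on the way from `0` to `H`. -/
theorem PP.exists_of_mem (S : Sys M B L E Ct) {b : V} (hb : b ∈ B) (h : ℤ) :
    ∃ n : ℕ, PP M L 0 h b n := by
  obtain ⟨n, hn⟩ := S.reach b hb
  exact ⟨_, (hn.trans (PP.tmove S 0 h)).of_eq (by simp) le_rfl⟩

/-- The height difference of a path is at most `E` times its length. -/
theorem PP.height_le (S : Sys M B L E Ct) {h h' : ℤ} {v : V} {n : ℕ} (hp : PP M L h h' v n) :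
    |h' - h| ≤ E * n := by
  obtain ⟨l, h1, h2, h3, h4⟩ := hp
  have key : ∀ (l : List (V × ℤ)), (∀ p ∈ l, p ∈ L) → ∀ h, |fin h l - h| ≤ E * l.length := by
    intro l
    induction l with
    | nil => intro _ h; simp
    | cons p l ih =>
      intro hl h
      have h5 := ih (fun q hq => hl q (by simp [hq])) (h + p.2)
      have h6 := S.hE p (hl p (by simp))
      simp only [fin_cons, List.length_cons]
      have : fin (h + p.2) l - h = (fin (h + p.2) l - (h + p.2)) + p.2 := by ring
      rw [this]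
      refine (abs_add_le _ _).trans ?_
      push_cast
      linarith
  have := key l h1 h
  rw [h3] at this
  refine this.trans ?_
  have : (l.length : ℤ) ≤ n := by exact_mod_cast h2
  exact mul_le_mul_of_nonneg_left this (by positivity)

/-! ### Clamps -/

/-- cost of a letter in the clamped path. -/
noncomputable def ccost {V : Type*} (Ct : ℕ) (cl : ℤ → ℤ) (inn : ℤ → Prop) (h : ℤ)
    (p : V × ℤ) : ℕ :=
  open Classical in
  if inn h then 1 + Ct * (cl (h + p.2) - (h + p.2)).natAbs
  else Ct * (cl (h + p.2) - cl h).natAbs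

/-- contribution of a letter in the clamped path. -/
noncomputable def cctr {V : Type*} [AddCommGroup V] (M : V ≃ₗ[ℤ] V) (inn : ℤ → Prop) (h : ℤ)
    (p : V × ℤ) : V :=
  open Classical in if inn h then ctr M h p else 0

theorem clamp_path (S : Sys M B L E Ct) (cl : ℤ → ℤ) (inn : ℤ → Prop)
    (hin : ∀ h, inn h → cl h = h) (l : List (V × ℤ)) (hl : ∀ p ∈ l, p ∈ L) (h : ℤ) :
    PP M L (cl h) (cl (fin h l)) (psum (cctr M inn) h l) (psum (ccost Ct cl inn) h l) := by
  induction l generalizing h with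
  | nil => exact PP.refl _
  | cons p l ih =>
    have h1 := ih (fun q hq => hl q (by simp [hq])) (h + p.2)
    have h2 : PP M L (cl h) (cl (h + p.2)) (cctr M inn h p) (ccost Ct cl inn h p) := by
      unfold cctr ccost
      by_cases hi : inn h
      · rw [if_pos hi, if_pos hi, hin h hi]
        have h3 := PP.letter (M := M) (hl p (by simp)) h
        have h4 := PP.tmove S (h + p.2) (cl (h + p.2))
        exact (h3.trans h4).of_eq (by simp) le_rfl
      · rw [if_neg hi, if_neg hi]
        exact PP.tmove S _ _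
    exact h2.trans h1

/-- Intermediate level property: a path from `h` to `h'` passes near every level between. -/
theorem PP.split (S : Sys M B L E Ct) {h h' : ℤ} {v : V} {n : ℕ} (hp : PP M L h h' v n)
    {m : ℤ} (h1 : h ≤ m) (h2 : m ≤ h') :
    ∃ (m' : ℤ) (v₁ v₂ : V) (n₁ n₂ : ℕ), m ≤ m' ∧ m' ≤ m + E ∧ v₁ + v₂ = v ∧ n₁ + n₂ ≤ n ∧
      PP M L h m' v₁ n₁ ∧ PP M L m' h' v₂ n₂ := by
  obtain ⟨l, hl, hn, hf, hv⟩ := hp
  suffices H : ∀ (l : List (V × ℤ)), (∀ p ∈ l, p ∈ L) → ∀ h, h ≤ m → m ≤ fin h l →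
      ∃ (m' : ℤ) (v₁ v₂ : V) (n₁ n₂ : ℕ), m ≤ m' ∧ m' ≤ m + E ∧ v₁ + v₂ = psum (ctr M) h l ∧
      n₁ + n₂ ≤ l.length ∧ PP M L h m' v₁ n₁ ∧ PP M L m' (fin h l) v₂ n₂ by
    obtain ⟨m', v₁, v₂, n₁, n₂, a1, a2, a3, a4, a5, a6⟩ := H l hl h h1 (by rw [hf]; exact h2)
    rw [hv] at a3
    rw [hf] at a6
    exact ⟨m', v₁, v₂, n₁, n₂, a1, a2, a3, a4.trans hn, a5, a6⟩
  intro l
  induction l with
  | nil =>
    intro _ h h1 h2
    simp only [fin_nil] at h2
    have : h = m := le_antisymm h1 h2
    subst this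
    exact ⟨h, 0, 0, 0, 0, le_rfl, by simp, by simp, by simp, PP.refl _, PP.refl _⟩
  | cons p l ih =>
    intro hl h h1 h2
    by_cases hm : m ≤ h + p.2
    · refine ⟨h + p.2, ctr M h p, psum (ctr M) (h + p.2) l, 1, l.length, hm, ?_, rfl, ?_,
        PP.letter (hl p (by simp)) h, ?_⟩
      · have := S.hE p (hl p (by simp))
        rw [abs_le] at this
        linarith [this.2]
      · simp [add_comm]
      · exact ⟨l, fun q hq => hl q (by simp [hq]), le_rfl, rfl, rfl⟩
    · obtain ⟨m', v₁, v₂, n₁, n₂, a1, a2, a3, a4, a5, a6⟩ :=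
        ih (fun q hq => hl q (by simp [hq])) (h + p.2) (not_le.1 hm).le (by simpa using h2)
      refine ⟨m', ctr M h p + v₁, v₂, 1 + n₁, n₂, a1, a2, ?_, ?_,
        (PP.letter (hl p (by simp)) h).trans a5, by simpa using a6⟩
      · rw [psum_cons, ← a3]; abel
      · simp only [List.length_cons]; omega

/-- Insertion of `M ^ m b` at a level between the ends; `N` is the cost of `b`. -/
theorem PP.insert (S : Sys M B L E Ct) {h h' : ℤ} {v : V} {n : ℕ} (hp : PP M L h h' v n)
    {m : ℤ} (h1 : h ≤ m) (h2 : m ≤ h') {b : V} {N : ℕ} (hb : PP M L m m ((M ^ m) b) N) :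
    PP M L h h' (v + (M ^ m) b) (n + (2 * Ct * E + N)) := by
  obtain ⟨m', v₁, v₂, n₁, n₂, a1, a2, a3, a4, a5, a6⟩ := hp.split S h1 h2
  have t1 := PP.tmove S m' m
  have t3 := PP.tmove S m m'
  have hb1 : (m - m').natAbs ≤ E := by omega
  have hb2 : (m' - m).natAbs ≤ E := by omega
  refine ((((a5.trans t1).trans hb).trans t3).trans a6).of_eq ?_ ?_
  · rw [← a3]; abel
  · have c1 : Ct * (m - m').natAbs ≤ Ct * E := Nat.mul_le_mul_left _ hb1
    have c2 : Ct * (m' - m).natAbs ≤ Ct * E := Nat.mul_le_mul_left _ hb2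
    have c3 : 2 * Ct * E = Ct * E + Ct * E := by ring
    omega

end MPa1853dH
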