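import Mathlib
import Pool.Agent.Lib.MP_a1853d_al.HY.Path

set_option autoImplicit false

/-! # Boxes, costs, partition functions: basic facts -/

namespace MPa1853dH

variable {V : Type*} [AddCommGroup V] {M : V ≃ₗ[ℤ] V} {B : AddSubgroup V} {nu ns : V → ℝ}
  {C κ : ℝ} {L : Finset (V × ℤ)} {E Ct : ℕ}

/-! ### Sums over maps with bounded fibres -/

theorem sum_le_of_fiber {α β : Type*} (s : Finset α) (t : Finset β) (φ : α → β)
    (f : α → ℝ) (g : β → ℝ) (m : ℕ) (hmap : ∀ a ∈ s, φ a ∈ t)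
    (hfib : ∀ b ∈ t, ∀ u : Finset α, u ⊆ s → (∀ a ∈ u, φ a = b) → u.card ≤ m)
    (hfg : ∀ a ∈ s, f a ≤ g (φ a)) (hg : ∀ b ∈ t, 0 ≤ g b) :
    ∑ a ∈ s, f a ≤ m * ∑ b ∈ t, g b := by
  classical
  calc ∑ a ∈ s, f a ≤ ∑ a ∈ s, g (φ a) := Finset.sum_le_sum hfg
    _ = ∑ b ∈ t, ∑ a ∈ s.filter (fun a => φ a = b), g (φ a) :=
        (Finset.sum_fiberwise_of_maps_to hmap _).symm
    _ ≤ ∑ b ∈ t, m * g b := by
        apply Finset.sum_le_sum
        intro b hb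
        have h1 : ∑ a ∈ s.filter (fun a => φ a = b), g (φ a) =
            ((s.filter (fun a => φ a = b)).card : ℝ) * g b := by
          rw [← nsmul_eq_mul, ← Finset.sum_const]
          apply Finset.sum_congr rfl
          intro a ha
          rw [(Finset.mem_filter.1 ha).2]
        rw [h1]
        apply mul_le_mul_of_nonneg_right _ (hg b hb)
        exact_mod_cast hfib b hb _ (Finset.filter_subset _ _)
          (fun a ha => (Finset.mem_filter.1 ha).2)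
    _ = m * ∑ b ∈ t, g b := by rw [Finset.mul_sum]

theorem sum_le_of_inj {α β : Type*} (s : Finset α) (t : Finset β) (φ : α → β)
    (f : α → ℝ) (g : β → ℝ) (hmap : ∀ a ∈ s, φ a ∈ t) (hinj : Set.InjOn φ s)
    (hfg : ∀ a ∈ s, f a ≤ g (φ a)) (hg : ∀ b ∈ t, 0 ≤ g b) :
    ∑ a ∈ s, f a ≤ ∑ b ∈ t, g b := by
  classical
  calc ∑ a ∈ s, f a ≤ ∑ a ∈ s, g (φ a) := Finset.sum_le_sum hfg
    _ = ∑ b ∈ s.image φ, g b := (Finset.sum_image hinj).symm
    _ ≤ ∑ b ∈ t, g b := by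
        apply Finset.sum_le_sum_of_subset_of_nonneg
        · intro b hb
          obtain ⟨a, ha, rfl⟩ := Finset.mem_image.1 hb
          exact hmap a ha
        · intro b hb _
          exact hg b hb

/-- comparison of powers of `z ∈ [z₀, 1]`. -/
theorem pow_le_of_le {z₀ z : ℝ} (hz₀ : 0 < z₀) (hz : z₀ ≤ z) (hz1 : z ≤ 1) {a b N : ℕ}
    (h : b ≤ a + N) : z ^ a ≤ (z₀ ^ N)⁻¹ * z ^ b := by
  have hzpos : 0 < z := hz₀.trans_le hz
  rw [inv_mul_eq_div, le_div_iff₀ (by positivity)]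
  calc z ^ a * z₀ ^ N ≤ z ^ a * z ^ N :=
        mul_le_mul_of_nonneg_left (pow_le_pow_left₀ hz₀.le hz _) (by positivity)
    _ = z ^ (a + N) := (pow_add _ _ _).symm
    _ ≤ z ^ b := pow_le_pow_of_le_one hzpos.le hz1 h

/-! ### Sizes -/

namespace Hyp

theorem C_pos (Hy : Hyp M B nu ns C κ) : 0 < C := lt_of_lt_of_le one_pos Hy.one_le

theorem κ_pos (Hy : Hyp M B nu ns C κ) : 0 < κ := one_pos.trans Hy.one_lt

theorem div_le (Hy : Hyp M B nu ns C κ) (h : ℕ) : C / κ ^ h ≤ C :=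
  div_le_self Hy.C_pos.le (one_le_pow₀ Hy.one_lt.le)

theorem nu_sub (Hy : Hyp M B nu ns C κ) (v w : V) : nu (v - w) ≤ nu v + nu w := by
  have := Hy.nu_add v (-w)
  rwa [Hy.nu_neg, ← sub_eq_add_neg] at this

theorem ns_sub (Hy : Hyp M B nu ns C κ) (v w : V) : ns (v - w) ≤ ns v + ns w := by
  have := Hy.ns_add v (-w)
  rwa [Hy.ns_neg, ← sub_eq_add_neg] at this

theorem mem_pow (Hy : Hyp M B nu ns C κ) {b : V} (hb : b ∈ B) (h : ℕ) :
    (M ^ (h : ℤ)) b ∈ B := by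
  induction h with
  | zero => simpa using hb
  | succ h ih =>
    have := Hy.inv _ ih
    rw [← Mp_one M, ← Mp_add] at this
    rw [show ((h + 1 : ℕ) : ℤ) = 1 + (h : ℤ) by push_cast; ring]
    exact this

theorem mem_zpow (Hy : Hyp M B nu ns C κ) {b : V} (hb : b ∈ B) {h : ℤ} (hh : 0 ≤ h) :
    (M ^ h) b ∈ B := by
  obtain ⟨n, rfl⟩ := Int.eq_ofNat_of_zero_le hh
  exact Hy.mem_pow hb n

theorem nu_pow_le (Hy : Hyp M B nu ns C κ) (h : ℕ) (v : V) :
    nu ((M ^ (h : ℤ)) v) ≤ C ^ h * nu v := by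
  induction h with
  | zero => simp
  | succ h ih =>
    rw [show ((h + 1 : ℕ) : ℤ) = 1 + (h : ℤ) by push_cast; ring, Mp_add, Mp_one, pow_succ']
    refine (Hy.nu_lip _).trans ?_
    rw [mul_assoc]
    exact mul_le_mul_of_nonneg_left ih Hy.C_pos.le

theorem nu_down (Hy : Hyp M B nu ns C κ) (h : ℕ) (v : V) :
    nu ((M ^ (-(h : ℤ))) v) ≤ C * nu v :=
  (Hy.nu_con h v).trans (mul_le_mul_of_nonneg_right (Hy.div_le h) (Hy.nu_nonneg v))

theorem ns_up (Hy : Hyp M B nu ns C κ) (h : ℕ) (v : V) :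
    ns ((M ^ (h : ℤ)) v) ≤ C * ns v :=
  (Hy.ns_con h v).trans (mul_le_mul_of_nonneg_right (Hy.div_le h) (Hy.ns_nonneg v))

theorem nu_psum (Hy : Hyp M B nu ns C κ) (f : ℤ → V × ℤ → V) (h : ℤ) (l : List (V × ℤ)) :
    nu (psum f h l) ≤ psum (fun h p => nu (f h p)) h l := by
  induction l generalizing h with
  | nil => simp [Hy.nu_zero]
  | cons p l ih =>
    simp only [psum_cons]
    exact (Hy.nu_add _ _).trans (add_le_add le_rfl (ih _))

theorem ns_psum (Hy : Hyp M B nu ns C κ) (f : ℤ → V × ℤ → V) (h : ℤ) (l : List (V × ℤ)) :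
    ns (psum f h l) ≤ psum (fun h p => ns (f h p)) h l := by
  induction l generalizing h with
  | nil => simp [Hy.ns_zero]
  | cons p l ih =>
    simp only [psum_cons]
    exact (Hy.ns_add _ _).trans (add_le_add le_rfl (ih _))

theorem nu_sum (Hy : Hyp M B nu ns C κ) {ι : Type*} (s : Finset ι) (f : ι → V) :
    nu (∑ i ∈ s, f i) ≤ ∑ i ∈ s, nu (f i) := by
  classical
  induction s using Finset.induction_on with
  | empty => simp [Hy.nu_zero]
  | insert i s hi ih =>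
    rw [Finset.sum_insert hi, Finset.sum_insert hi]
    exact (Hy.nu_add _ _).trans (add_le_add le_rfl ih)

theorem ns_sum (Hy : Hyp M B nu ns C κ) {ι : Type*} (s : Finset ι) (f : ι → V) :
    ns (∑ i ∈ s, f i) ≤ ∑ i ∈ s, ns (f i) := by
  classical
  induction s using Finset.induction_on with
  | empty => simp [Hy.ns_zero]
  | insert i s hi ih =>
    rw [Finset.sum_insert hi, Finset.sum_insert hi]
    exact (Hy.ns_add _ _).trans (add_le_add le_rfl ih)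

/-- `(M ^ H - 1) y` integral implies `y` integral. -/
theorem mem_of_sub_mem (Hy : Hyp M B nu ns C κ) {H : ℕ} (hH : 1 ≤ H) {y : V}
    (hy : (M ^ (H : ℤ)) y - y ∈ B) : y ∈ B := by
  -- the least `i` with `M ^ i y ∈ B` is `0`
  classical
  by_contra hcon
  have hex := Hy.exh y
  have h1 := Nat.find_spec hex
  have h2 : Nat.find hex ≠ 0 := by
    intro h0
    rw [h0] at h1
    apply hcon
    simpa using h1
  obtain ⟨i, hi⟩ := Nat.exists_eq_succ_of_ne_zero h2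
  rw [hi] at h1
  -- `M ^ i y = M ^ (i + H) y - M ^ i (M ^ H y - y)`
  have h3 : (M ^ ((i : ℕ) : ℤ)) y ∈ B := by
    have h4 : (M ^ ((i + H : ℕ) : ℤ)) y ∈ B := by
      have := Hy.mem_pow h1 (H - 1)
      rw [← Mp_add] at this
      rwa [show ((H - 1 : ℕ) : ℤ) + ((i.succ : ℕ) : ℤ) = ((i + H : ℕ) : ℤ) by
        rw [Nat.cast_sub hH]; push_cast; ring] at this
    have h5 := Hy.mem_pow hy i
    have h6 : (M ^ ((i : ℕ) : ℤ)) y = (M ^ ((i + H : ℕ) : ℤ)) y -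
        (M ^ ((i : ℕ) : ℤ)) ((M ^ (H : ℤ)) y - y) := by
      rw [map_sub, ← Mp_add]
      push_cast
      abel
    rw [h6]
    exact B.sub_mem h4 h5
  exact Nat.find_min hex (by omega : i < Nat.find hex) h3

end Hyp

/-! ### Small integral elements -/

/-- Integral elements of sizes at most `R`. -/
def Sm {V : Type*} [AddCommGroup V] (B : AddSubgroup V) (nu ns : V → ℝ) (R : ℝ) : Set V :=
  {b : V | b ∈ B ∧ nu b ≤ R ∧ ns b ≤ R}

theorem Hyp.Sm_finite (Hy : Hyp M B nu ns C κ) (R : ℝ) : (Sm B nu ns R).Finite := Hy.fin R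

theorem Hyp.exists_cost (Hy : Hyp M B nu ns C κ) (S : Sys M B L E Ct) (R : ℝ) :
    ∃ N : ℕ, ∀ b ∈ Sm B nu ns R, ∀ h : ℤ, PP M L h h ((M ^ h) b) N :=
  S.exists_cost _ (Hy.Sm_finite R) (fun _ hb => hb.1)

/-- insertion of a small element. -/
theorem Hyp.exists_insert (Hy : Hyp M B nu ns C κ) (S : Sys M B L E Ct) (R : ℝ) :
    ∃ N : ℕ, ∀ b ∈ Sm B nu ns R, ∀ (h h' m : ℤ) (v : V) (n : ℕ), h ≤ m → m ≤ h' →
      PP M L h h' v n → PP M L h h' (v + (M ^ m) b) (n + N) := by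
  obtain ⟨N, hN⟩ := Hy.exists_cost S R
  exact ⟨2 * Ct * E + N, fun b hb h h' m v n h1 h2 hp => hp.insert S h1 h2 (hN b hb m)⟩

/-! ### Boxes -/

theorem Hyp.BoxS_finite (Hy : Hyp M B nu ns C κ) (H : ℕ) (R : ℝ) :
    (BoxS M B nu ns H R).Finite := by
  apply (Hy.fin (max (C ^ H * R) R)).subset
  rintro v ⟨h1, h2, h3⟩
  refine ⟨h1, le_max_of_le_left ?_, le_max_of_le_right h3⟩
  have h4 := Hy.nu_pow_le H ((M ^ (-(H : ℤ))) v)
  rw [Mp_neg'] at h4
  exact h4.trans (mul_le_mul_of_nonneg_left h2 (pow_nonneg Hy.C_pos.le _))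

theorem Hyp.mem_Box (Hy : Hyp M B nu ns C κ) {H : ℕ} {R : ℝ} {v : V} :
    v ∈ Box M B nu ns H R ↔ v ∈ B ∧ nu ((M ^ (-(H : ℤ))) v) ≤ R ∧ ns v ≤ R := by
  unfold Box
  rw [dif_pos (Hy.BoxS_finite H R), Set.Finite.mem_toFinset]
  rfl

theorem Hyp.Box_mono (Hy : Hyp M B nu ns C κ) (H : ℕ) {R R' : ℝ} (h : R ≤ R') :
    Box M B nu ns H R ⊆ Box M B nu ns H R' := by
  intro v hv
  rw [Hy.mem_Box] at hv ⊢
  exact ⟨hv.1, hv.2.1.trans h, hv.2.2.trans h⟩

/-! ### Costs -/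

theorem yl_spec (S : Sys M B L E Ct) {v : V} (hv : v ∈ B) (H : ℕ) :
    PP M L 0 H v (yl M L H v) := by
  have : (yl M L H v) ∈ {n : ℕ | PP M L 0 H v n} :=
    Nat.sInf_mem (PP.exists_of_mem S hv H)
  exact this

theorem yl_le {H : ℕ} {v : V} {n : ℕ} (h : PP M L 0 H v n) : yl M L H v ≤ n := Nat.sInf_le h

theorem le_yl (S : Sys M B L E Ct) {v : V} (hv : v ∈ B) (H : ℕ) : H ≤ E * yl M L H v := by
  have := (yl_spec S hv H).height_le S
  simp only [sub_zero] at this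
  have h2 : |(H : ℤ)| = H := abs_of_nonneg (by positivity)
  rw [h2] at this
  exact_mod_cast this

/-! ### Partition functions -/

theorem YY_nonneg {R : ℝ} (H : ℕ) {z : ℝ} (hz : 0 ≤ z) : 0 ≤ YY M B nu ns L R H z :=
  Finset.sum_nonneg fun _ _ => pow_nonneg hz _

theorem YY_mono {R : ℝ} (H : ℕ) {z w : ℝ} (hz : 0 ≤ z) (hzw : z ≤ w) :
    YY M B nu ns L R H z ≤ YY M B nu ns L R H w :=
  Finset.sum_le_sum fun _ _ => pow_le_pow_left₀ hz hzw _

theorem YY_continuous {R : ℝ} (H : ℕ) : Continuous (YY M B nu ns L R H) := by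
  unfold YY
  fun_prop

theorem Hyp.YY_mono_R (Hy : Hyp M B nu ns C κ) {R R' : ℝ} (h : R ≤ R') (H : ℕ) {z : ℝ}
    (hz : 0 ≤ z) : YY M B nu ns L R H z ≤ YY M B nu ns L R' H z :=
  Finset.sum_le_sum_of_subset_of_nonneg (Hy.Box_mono H h) fun _ _ _ => pow_nonneg hz _

/-- The standard radius. -/
def R0 (C : ℝ) : ℝ := C + C * C

theorem Hyp.one_le_R0 (Hy : Hyp M B nu ns C κ) : 1 ≤ R0 C := by
  unfold R0
  nlinarith [Hy.one_le]

/-- An element of a large box, corrected by two small elements, is in the standard box. -/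
theorem Hyp.box_correct (Hy : Hyp M B nu ns C κ) {R : ℝ} {H : ℕ} {v : V}
    (hv : v ∈ Box M B nu ns H R) :
    ∃ w ∈ Sm B nu ns (R + C), ∃ w' ∈ Sm B nu ns (R + C),
      v - (M ^ (H : ℤ)) w - w' ∈ Box M B nu ns H (R0 C) := by
  rw [Hy.mem_Box] at hv
  obtain ⟨h1, h2, h3⟩ := hv
  have hC := Hy.one_le
  have hR : 0 ≤ R := (Hy.ns_nonneg v).trans h3
  obtain ⟨w, hw, a1, a2⟩ := Hy.covu ((M ^ (-(H : ℤ))) v)
  obtain ⟨w', hw', b1, b2⟩ := Hy.covs v
  refine ⟨w, ⟨hw, ?_, by linarith⟩, w', ⟨hw', by linarith, ?_⟩, ?_⟩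
  · have := Hy.nu_sub ((M ^ (-(H : ℤ))) v) ((M ^ (-(H : ℤ))) v - w)
    rw [sub_sub_cancel] at this
    linarith
  · have := Hy.ns_sub v (v - w')
    rw [sub_sub_cancel] at this
    linarith
  · rw [Hy.mem_Box]
    refine ⟨B.sub_mem (B.sub_mem h1 (Hy.mem_pow hw H)) hw', ?_, ?_⟩
    · rw [map_sub, map_sub, Mp_neg]
      have c1 := Hy.nu_sub ((M ^ (-(H : ℤ))) v - w) ((M ^ (-(H : ℤ))) w')
      have c2 := Hy.nu_down H w'
      have c3 : C * nu w' ≤ C * C := mul_le_mul_of_nonneg_left b2 Hy.C_pos.le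
      unfold R0
      linarith
    · have c1 := Hy.ns_sub (v - w') ((M ^ (H : ℤ)) w)
      have c2 := Hy.ns_up H w
      have c3 : C * ns w ≤ C * C := mul_le_mul_of_nonneg_left a2 Hy.C_pos.le
      rw [sub_right_comm]
      unfold R0
      linarith

/-- Comparison of boxes: the radius does not matter. -/
theorem Hyp.YY_box (Hy : Hyp M B nu ns C κ) (S : Sys M B L E Ct) (R : ℝ) {z₀ : ℝ}
    (hz₀ : 0 < z₀) : ∃ C' : ℝ, 0 < C' ∧ ∀ z : ℝ, z₀ ≤ z → z ≤ 1 → ∀ H : ℕ,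
      YY M B nu ns L R H z ≤ C' * YY M B nu ns L (R0 C) H z := by
  classical
  obtain ⟨N, hN⟩ := Hy.exists_insert S (R + C)
  set F := (Hy.Sm_finite (R + C)).toFinset with hF
  have hFm : ∀ b, b ∈ F ↔ b ∈ Sm B nu ns (R + C) := fun b => Set.Finite.mem_toFinset _
  refine ⟨((F.card * F.card : ℕ) : ℝ) * (z₀ ^ (N + N))⁻¹ + 1, by positivity, ?_⟩
  intro z hz hz1 H
  have hzpos : 0 < z := hz₀.trans_le hz
  choose! w hw w' hw' hb using fun (v : V) (hv : v ∈ Box M B nu ns H R) => Hy.box_correct hv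
  have hmain := sum_le_of_fiber (Box M B nu ns H R) (Box M B nu ns H (R0 C))
    (fun v => v - (M ^ (H : ℤ)) (w v) - w' v) (fun v => z ^ yl M L H v)
    (fun v => (z₀ ^ (N + N))⁻¹ * z ^ yl M L H v) (F.card * F.card) hb ?_ ?_ ?_
  · refine hmain.trans ?_
    rw [← Finset.mul_sum, ← mul_assoc]
    have h0 : 0 ≤ YY M B nu ns L (R0 C) H z := YY_nonneg H hzpos.le
    unfold YY at h0 ⊢
    nlinarith
  · intro b _ u hu hub
    rw [← Finset.card_product]
    apply Finset.card_le_card_of_injOn (fun v => (w v, w' v))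
    · intro v hv
      have hv' := hu hv
      rw [Finset.mem_coe, Finset.mem_product, hFm, hFm]
      exact ⟨hw v hv', hw' v hv'⟩
    · intro v hv v' hv' hvv
      rw [Prod.mk.injEq] at hvv
      have e1 := hub v hv
      have e2 := hub v' hv'
      rw [← e2, hvv.1, hvv.2, sub_left_inj, sub_left_inj] at e1
      exact e1
  · intro v hv
    apply pow_le_of_le hz₀ hz hz1
    apply yl_le
    have hv' := (Hy.mem_Box).1 hv
    have p0 := yl_spec S hv'.1 H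
    have n1 : -(w v) ∈ Sm B nu ns (R + C) := by
      obtain ⟨q1, q2, q3⟩ := hw v hv
      exact ⟨B.neg_mem q1, by rwa [Hy.nu_neg], by rwa [Hy.ns_neg]⟩
    have n2 : -(w' v) ∈ Sm B nu ns (R + C) := by
      obtain ⟨q1, q2, q3⟩ := hw' v hv
      exact ⟨B.neg_mem q1, by rwa [Hy.nu_neg], by rwa [Hy.ns_neg]⟩
    have p1 := hN _ n1 0 H H v _ (by positivity) le_rfl p0
    have p2 := hN _ n2 0 H 0 _ _ le_rfl (by positivity) p1
    refine p2.of_eq ?_ (by omega)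
    rw [Mp_zero, map_neg]
    abel
  · intro b _
    positivity

end MPa1853dH
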