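import Mathlib
import Pool.Agent.Lib.MP_a1853d_al.HY.Basic

set_option autoImplicit false

/-! # Congruence modulo `(M ^ H - 1) V` -/

namespace MPa1853dH

variable {V : Type*} [AddCommGroup V] {M : V ≃ₗ[ℤ] V} {H : ℕ}

namespace InJ

theorem zero (M : V ≃ₗ[ℤ] V) (H : ℕ) : InJ M H 0 := ⟨0, by simp⟩

theorem neg {x : V} (h : InJ M H x) : InJ M H (-x) := by
  obtain ⟨y, rfl⟩ := h
  exact ⟨-y, by rw [map_neg]; abel⟩

theorem add {x y : V} (hx : InJ M H x) (hy : InJ M H y) : InJ M H (x + y) := by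
  obtain ⟨a, rfl⟩ := hx
  obtain ⟨b, rfl⟩ := hy
  exact ⟨a + b, by rw [map_add]; abel⟩

theorem sub {x y : V} (hx : InJ M H x) (hy : InJ M H y) : InJ M H (x - y) := by
  rw [sub_eq_add_neg]; exact hx.add hy.neg

theorem symm {x y : V} (h : InJ M H (x - y)) : InJ M H (y - x) := by
  have := h.neg
  rwa [neg_sub] at this

theorem trans {x y z : V} (h : InJ M H (x - y)) (h' : InJ M H (y - z)) : InJ M H (x - z) := by
  have := h.add h'
  rwa [sub_add_sub_cancel] at this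

theorem refl (M : V ≃ₗ[ℤ] V) (H : ℕ) (x : V) : InJ M H (x - x) := by
  rw [sub_self]; exact zero M H

/-- application of a power of `M` -/
theorem zpow {x : V} (h : InJ M H x) (j : ℤ) : InJ M H ((M ^ j) x) := by
  obtain ⟨y, rfl⟩ := h
  exact ⟨(M ^ j) y, by rw [map_sub, Mp_comm]⟩

theorem zpow_sub {x y : V} (h : InJ M H (x - y)) (j : ℤ) :
    InJ M H ((M ^ j) x - (M ^ j) y) := by
  rw [← map_sub]; exact h.zpow j

theorem of_zpow {x : V} {j : ℤ} (h : InJ M H ((M ^ j) x)) : InJ M H x := by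
  have := h.zpow (-j)
  rwa [Mp_neg] at this

/-- `M^(q H)` is the identity modulo `(M^H - 1) V`. -/
theorem period (M : V ≃ₗ[ℤ] V) (H : ℕ) (q : ℤ) (x : V) :
    InJ M H ((M ^ (q * (H : ℤ))) x - x) := by
  have key : ∀ (n : ℕ) (x : V), InJ M H ((M ^ ((n : ℤ) * (H : ℤ))) x - x) := by
    intro n
    induction n with
    | zero => intro x; simpa using zero M H
    | succ n ih =>
      intro x
      have h1 := ih ((M ^ (H : ℤ)) x)
      rw [← Mp_add] at h1
      have h2 : InJ M H ((M ^ (H : ℤ)) x - x) := ⟨x, rfl⟩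
      have h3 := h1.trans h2
      rwa [show ((n : ℤ) * (H : ℤ) + (H : ℤ)) = ((n + 1 : ℕ) : ℤ) * (H : ℤ) by
        push_cast; ring] at h3
  rcases le_total 0 q with hq | hq
  · obtain ⟨n, rfl⟩ := Int.eq_ofNat_of_zero_le hq
    exact key n x
  · obtain ⟨n, hn⟩ := Int.eq_ofNat_of_zero_le (neg_nonneg.2 hq)
    have h1 := (key n ((M ^ (q * (H : ℤ))) x)).symm
    rw [← Mp_add, ← hn, show -q * (H : ℤ) + q * (H : ℤ) = 0 by ring, Mp_zero] at h1
    exact h1

theorem period' (M : V ≃ₗ[ℤ] V) (H : ℕ) (a q : ℤ) (x : V) :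
    InJ M H ((M ^ (a + q * (H : ℤ))) x - (M ^ a) x) := by
  rw [add_comm, Mp_add]
  exact period M H q _

/-- reduction of the exponent modulo `H`. -/
theorem emod (M : V ≃ₗ[ℤ] V) (H : ℕ) (a : ℤ) (x : V) :
    InJ M H ((M ^ a) x - (M ^ (a % (H : ℤ))) x) := by
  have h1 := period' M H (a % (H : ℤ)) (a / (H : ℤ)) x
  rwa [show a % (H : ℤ) + a / (H : ℤ) * (H : ℤ) = a by
    rw [mul_comm]; exact Int.emod_add_mul_ediv a (H : ℤ)] at h1

end InJ

end MPa1853dH
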