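import Mathlib
import Pool.Agent.Lib.MP_a1853d_al.HY.Basic
import Pool.Agent.Lib.MP_a1853d_al.Spec3

set_option autoImplicit false

/-!
# Conjugacy growth of hyperbolic abelian-by-cyclic groups: the modules

Module `XXX` is one file `HY/XXX.lean` with `theorem specXxx (earlier Specs as hypotheses) : SpecXxx`
in the namespace `MPa1853dH`.  It imports `HY.Spec`.  The paper is
`/team-store/MP_a1853d_al_HY_h47.md`; the models are the files of `Pool/Agent/Lib/MP_a1853d_al`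
(the case `V = ℤ[1/k]`).
-/

namespace MPa1853dH

open Filter Topology

/-! ### Paths and boxes -/

/-- EXPD. Model: none. Digits: for `v ∈ Box H R` choose `w ∈ B` with `nu (M^(-H) v - w) ≤ C`,
`ns w ≤ C` (`covu`), put `v' = v - M^H w`; then `nu (M^(-(H-1)) v') ≤ C * C` (`nu_lip`) and
`ns v' ≤ ns v + (C / κ^H) * C` (`ns_con`), so after the first step `v'` lies in the box of height
`H - 1` and radius `R' + (geometric sum)`. After `H + 1` steps `v` is a sum of `M^h w_h`,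
`0 ≤ h ≤ H`, and of an integral element of bounded sizes, all `w_h` in one `Sm B nu ns R''`.
Use `Hyp.exists_insert` for each of them, starting from `PP.tmove S 0 H`. -/
def SpecExpd : Prop :=
  ∀ (V : Type) [AddCommGroup V] (M : V ≃ₗ[ℤ] V) (B : AddSubgroup V) (nu ns : V → ℝ) (C κ : ℝ)
    (L : Finset (V × ℤ)) (E Ct : ℕ), Hyp M B nu ns C κ → Sys M B L E Ct →
    ∀ R : ℝ, ∃ C₁ : ℕ, ∀ H : ℕ, ∀ v ∈ Box M B nu ns H R, yl M L H v ≤ C₁ * (H + 1)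

/-- SUPER. `(v₁, v₂) ↦ v₁ + M^m v₂` maps `Box m R₀ × Box n R₀` to `Box (m + n) R'`; the fibres are
bounded: `v₁ + M^m v₂ = v₁' + M^m v₂'` gives `M^m (v₂' - v₂) = v₁ - v₁'`, so `x = v₂' - v₂ ∈ B` has
`nu x ≤ 2 R₀`, `ns x ≤ 2 R₀` (`Sm_finite`), and `x` determines the pair. Then `Hyp.YY_box`. -/
def SpecSuper : Prop :=
  ∀ (V : Type) [AddCommGroup V] (M : V ≃ₗ[ℤ] V) (B : AddSubgroup V) (nu ns : V → ℝ) (C κ : ℝ)
    (L : Finset (V × ℤ)) (E Ct : ℕ), Hyp M B nu ns C κ → Sys M B L E Ct →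
    ∀ z₀ : ℝ, 0 < z₀ → ∃ C' : ℝ, 0 < C' ∧ ∀ z : ℝ, z₀ ≤ z → z ≤ 1 → ∀ m n : ℕ,
      YY M B nu ns L (R0 C) m z * YY M B nu ns L (R0 C) n z ≤
        C' * YY M B nu ns L (R0 C) (m + n) z

/-- CUT (from EXPD). Model: `Cut.lean`. `Ψ j = ∑ (letters) κ^(-|h - j|)`; for half of the levels `j`
it is at most a constant (EXPD bounds the length); clamp the path to `(-∞, j]` and `[j, ∞)`:
`v = x₁ + M^j v₂`, `x₁, v₂ ∈ B`, in boxes of height `j`, `H - j` and a fixed radius. -/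
def SpecCut : Prop :=
  ∀ (V : Type) [AddCommGroup V] (M : V ≃ₗ[ℤ] V) (B : AddSubgroup V) (nu ns : V → ℝ) (C κ : ℝ)
    (L : Finset (V × ℤ)) (E Ct : ℕ), Hyp M B nu ns C κ → Sys M B L E Ct →
    ∀ z₀ : ℝ, 0 < z₀ → ∃ C' : ℝ, 0 < C' ∧ ∀ z : ℝ, z₀ ≤ z → z ≤ 1 → ∀ H : ℕ, 1 ≤ H →
      (H : ℝ) * YY M B nu ns L (R0 C) H z ≤
        C' * ∑ j ∈ Finset.range (H + 1),
          YY M B nu ns L (R0 C) j z * YY M B nu ns L (R0 C) (H - j) z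

/-- The perturbation `∑_{i ∈ I} M^(q i) c`. -/
noncomputable def del {V : Type*} [AddCommGroup V] (M : V ≃ₗ[ℤ] V) (q : ℕ) (c : V)
    (I : Finset ℕ) : V := ∑ i ∈ I, (M ^ ((q * i : ℕ) : ℤ)) c

/-- The properties of the perturbations. -/
structure Pert {V : Type*} [AddCommGroup V] (M : V ≃ₗ[ℤ] V) (B : AddSubgroup V) (nu ns : V → ℝ)
    (L : Finset (V × ℤ)) (q : ℕ) (c : V) (N : ℕ) (R : ℝ) : Prop where
  q_pos : 1 ≤ q
  c_mem : c ∈ B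
  inj : ∀ I J : Finset ℕ, del M q c I = del M q c J → I = J
  nu_le : ∀ (H : ℕ) (I : Finset ℕ), (∀ i ∈ I, q * i ≤ H) →
    nu ((M ^ (-(H : ℤ))) (del M q c I)) ≤ R
  ns_le : ∀ (h : ℕ) (I : Finset ℕ), (∀ i ∈ I, h ≤ q * i) →
    (M ^ (-(h : ℤ))) (del M q c I) ∈ B ∧ ns ((M ^ (-(h : ℤ))) (del M q c I)) ≤ R
  path : ∀ (H : ℕ) (I : Finset ℕ) (v : V) (n : ℕ), (∀ i ∈ I, q * i ≤ H) → PP M L 0 H v n →
    PP M L 0 H (v + del M q c I) (n + N * I.card)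

/-- PERT. `c ∈ B` with `nu c > 0` (`Hyp.exp`), `nu ((M^h) c) ≥ (κ^h / C) nu c`; take `q` with
`C / (κ^q - 1) < 1`, so that the largest index of the symmetric difference of `I` and `J` dominates
(`nu (M^(q i) c) ≤ C κ^(-q (i' - i)) nu (M^(q i') c)` for `i < i'`). `nu_le`: a geometric series
(`nu_con`), `ns_le`: `ns_con` and `Hyp.mem_pow`. `path`: `Hyp.exists_insert` for each `i ∈ I`. -/
def SpecPert : Prop :=
  ∀ (V : Type) [AddCommGroup V] (M : V ≃ₗ[ℤ] V) (B : AddSubgroup V) (nu ns : V → ℝ) (C κ : ℝ)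
    (L : Finset (V × ℤ)) (E Ct : ℕ), Hyp M B nu ns C κ → Sys M B L E Ct →
    ∃ (q : ℕ) (c : V) (N : ℕ) (R : ℝ), Pert M B nu ns L q c N R

/-- JMOD. The equation `(M^H - 1) y = w`.
(a) `nu y ≤ C' nu (M^(-H) w)`, `ns y ≤ C' ns w`: for `k` with `C / κ^k ≤ 1/2` (so for all
`H k ≥ k`), `(M^(H k) - 1) y = ∑_{i<k} M^(H i) w` and `y = M^(-Hk) (M^(Hk) - 1) y + M^(-Hk) y`,
`nu (M^(-Hk) y) ≤ (1/2) nu y`; in the same way for `ns` with `y = M^(Hk) y - (M^(Hk) - 1) y`.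
(b) Representatives: replace `x` by `M^(k H) x` (congruent), integral with `ns ≤ 1`; for `m` large
let `u = ∑_{i=1}^m M^(-i H) x`, `y ∈ B` with `nu (u - y) ≤ C`, `ns y ≤ C` (`covu`), and
`v = x - (M^H - 1) y = M^(-m H) x + (M^H - 1) (u - y)`.
(c) `a, a' ∈ u` congruent: `a - a' = (M^H - 1) y`, `y ∈ B` (`Hyp.mem_of_sub_mem`) of bounded sizes
by (a), `Sm_finite`. -/
def SpecJmod : Prop :=
  ∀ (V : Type) [AddCommGroup V] (M : V ≃ₗ[ℤ] V) (B : AddSubgroup V) (nu ns : V → ℝ) (C κ : ℝ),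
    Hyp M B nu ns C κ →
    (∃ C' : ℝ, 0 < C' ∧ ∀ H : ℕ, 1 ≤ H → ∀ y : V,
      nu y ≤ C' * nu ((M ^ (-(H : ℤ))) ((M ^ (H : ℤ)) y - y)) ∧
      ns y ≤ C' * ns ((M ^ (H : ℤ)) y - y)) ∧
    (∃ R : ℝ, ∀ H : ℕ, 1 ≤ H → ∀ x : V, ∃ v ∈ Box M B nu ns H R, InJ M H (x - v)) ∧
    (∀ R : ℝ, ∃ K : ℕ, ∀ H : ℕ, 1 ≤ H → ∀ (x : V) (u : Finset V), u ⊆ Box M B nu ns H R →
      (∀ a ∈ u, InJ M H (a - x)) → u.card ≤ K)

/-- letters near the cut levels -/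
def near {V : Type*} (E H : ℕ) (h : ℤ) (_ : V × ℤ) : ℕ :=
  if (h % (H : ℤ)) < E ∨ (H : ℤ) - h % (H : ℤ) < E then 1 else 0

/-- the contribution inside one period -/
def cyc {V : Type*} [AddCommGroup V] (M : V ≃ₗ[ℤ] V) (H : ℕ) (h : ℤ) (p : V × ℤ) : V :=
  (M ^ (h % (H : ℤ))) p.1

/-- REAS. Model: `Cyc.lean` (`reassemble`, `cost_letter`, nearly unchanged) and `inJ_cyc` of
`Cong.lean` (`(M^(q H) - 1) a ∈ (M^H - 1) V` for all integers `q`). -/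
def SpecReas : Prop :=
  ∀ (V : Type) [AddCommGroup V] (M : V ≃ₗ[ℤ] V) (B : AddSubgroup V)
    (L : Finset (V × ℤ)) (E Ct : ℕ), Sys M B L E Ct →
    ∀ (H : ℕ), 1 ≤ H → ∀ (l : List (V × ℤ)) (s : ℤ), (∀ p ∈ l, p ∈ L) → fin s l = s + H →
      PP M L 0 H (psum (cyc M H) s l) (l.length + 2 * Ct * E * psum (near E H) s l) ∧
      InJ M H (psum (cyc M H) s l - psum (ctr M) s l)

/-- ROT (from EXPD, JMOD, REAS). Model: `rot_one` and the counting in `UpFinal.lean`.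
The length `n` is at most a constant times `H + 1` (JMOD (b) and EXPD, the minimality). For the
path started at height `j` (contribution `M^j x`) put `Ψ j = ∑ κ^(-dist(height, H ℤ))`; the sum over
`j < H` is at most `2 n κ/(κ-1)`, so `Ψ j` is bounded for half of the `j < H`; then `psum (cyc M H)`
is in a box of fixed radius and `psum (near E H) ≤ κ^E Ψ j`. -/
def SpecRot : Prop :=
  ∀ (V : Type) [AddCommGroup V] (M : V ≃ₗ[ℤ] V) (B : AddSubgroup V) (nu ns : V → ℝ) (C κ : ℝ)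
    (L : Finset (V × ℤ)) (E Ct : ℕ), Hyp M B nu ns C κ → Sys M B L E Ct →
    ∃ (R : ℝ) (N : ℕ), ∀ H : ℕ, 1 ≤ H → ∀ (x : V) (n : ℕ), PP M L 0 H x n →
      (∀ (v : V) (m : ℕ), PP M L 0 H v m → InJ M H (v - x) → n ≤ m) →
      ∃ J : Finset ℕ, J ⊆ Finset.range H ∧ H ≤ 2 * J.card ∧
        ∀ j ∈ J, ∃ v ∈ Box M B nu ns H R, InJ M H (v - (M ^ (j : ℤ)) x) ∧ yl M L H v ≤ n + N

/-- PER (from PERT, JMOD). The weight of the periodic elements. For `v ∈ P` and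
`I ⊆ {i | H ≤ 2 q i, q i ≤ H}` (at least `H / (2 q) - 1` indices, use `h₀ = H - H / 2 ≥ d`, all
`q i ≥ h₀`): `∑_I z^(yl (v + del I)) ≥ z^(yl v) (1 + z^N)^(number of indices)`. The map
`(v, I) ↦ v + del I` has bounded fibres: for two pairs over the same element let
`y = v - w = del J - del I`; `M^d y - y = M^H p - p`, `p' = M^(-d) p` satisfies
`(M^H - 1) p' = y - M^(-d) y ∈ B` (`y ∈ M^(h₀) B`, `d ≤ h₀`), so `p' ∈ B`
(`Hyp.mem_of_sub_mem`), of bounded sizes (JMOD (a): `nu (M^(-H) (y - M^(-d) y))`,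
`ns (y - M^(-d) y)` with `y = M^(h₀) y'`, `ns y' ≤ 2 R`): finitely many `p'`; and `y` is determined
by `p'` up to the finite set `Sm B nu ns 0` (`M^d y₀ = y₀` implies `y₀ ∈ B`, `nu y₀ = ns y₀ = 0`).
`I` is determined by `del I` (`Pert.inj`). -/
def SpecPer : Prop :=
  ∀ (V : Type) [AddCommGroup V] (M : V ≃ₗ[ℤ] V) (B : AddSubgroup V) (nu ns : V → ℝ) (C κ : ℝ)
    (L : Finset (V × ℤ)) (E Ct : ℕ), Hyp M B nu ns C κ → Sys M B L E Ct →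
    ∀ (R z₀ : ℝ), 0 < z₀ → z₀ ≤ 1 → ∃ C' θ : ℝ, 0 < C' ∧ 0 ≤ θ ∧ θ < 1 ∧
      ∀ z : ℝ, z₀ ≤ z → z ≤ 1 → ∀ H d : ℕ, 1 ≤ d → 2 * d ≤ H →
      ∀ P : Finset V, P ⊆ Box M B nu ns H R → (∀ v ∈ P, InJ M H ((M ^ (d : ℤ)) v - v)) →
        ∑ v ∈ P, z ^ (yl M L H v) ≤ C' * θ ^ H * YY M B nu ns L (R0 C) H z

/-- UP (from ROT, PER). Conjugacy classes of height `H ≥ 1`. Model: `UpFinal.lean`. -/
def SpecUp : Prop :=
  ∀ (V : Type) [AddCommGroup V] (M : V ≃ₗ[ℤ] V) (B : AddSubgroup V) (nu ns : V → ℝ) (C κ : ℝ)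
    (L : Finset (V × ℤ)) (E Ct : ℕ), Hyp M B nu ns C κ → Sys M B L E Ct →
    ∀ z₀ : ℝ, 0 < z₀ → ∃ C' θ : ℝ, 0 < C' ∧ 0 ≤ θ ∧ θ < 1 ∧ ∀ z : ℝ, z₀ ≤ z → z ≤ 1 →
      ∀ (H : ℕ), 1 ≤ H → ∀ (ι : Type) (s : Finset ι) (n : ι → ℕ) (x : ι → V),
        (∀ i ∈ s, PP M L 0 H (x i) (n i)) →
        (∀ i ∈ s, ∀ (j : ℤ) (v : V) (m : ℕ), PP M L 0 H v m →
          InJ M H (v - (M ^ j) (x i)) → n i ≤ m) →
        (∀ i ∈ s, ∀ i' ∈ s, ∀ j : ℤ, InJ M H (x i' - (M ^ j) (x i)) → i = i') →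
        ∑ i ∈ s, z ^ (n i) ≤ (C' / H + C' * H * θ ^ H) * YY M B nu ns L (R0 C) H z

/-- ZERO (from EXPD, PERT). Conjugacy classes of height `0`. Model: `ZERO.lean`; instead of LOOP use
the perturbations `(u + del I, v + del I)` of the pairs `(u, v)` (same difference, all distinct):
for pairs in `Box H' R` with distinct differences
`∑ z^(yl u + yl v) (1 + z^(2N))^(number of i with q i ≤ H') ≤ (YY R' H' z)^2`.
The lift to a box: if `u, v` are the contributions between the minimum and the maximum `M'` of the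
heights, `r = n / N₁ + const`, take `M^r u`, `M^r v` and `H' = M' + 2 r`. -/
def SpecZero : Prop :=
  ∀ (V : Type) [AddCommGroup V] (M : V ≃ₗ[ℤ] V) (B : AddSubgroup V) (nu ns : V → ℝ) (C κ : ℝ)
    (L : Finset (V × ℤ)) (E Ct : ℕ), Hyp M B nu ns C κ → Sys M B L E Ct →
    ∀ z₀ C₂ : ℝ, 0 < z₀ → ∃ C' : ℝ, 0 < C' ∧ ∀ z : ℝ, z₀ ≤ z → z ≤ 1 →
      (∀ H : ℕ, YY M B nu ns L (R0 C) H z ≤ C₂) →
      ∀ (ι : Type) (s : Finset ι) (n : ι → ℕ) (x : ι → V),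
        (∀ i ∈ s, PP M L 0 0 (x i) (n i)) →
        (∀ i ∈ s, ∀ (j : ℤ) (m : ℕ), PP M L 0 0 ((M ^ j) (x i)) m → n i ≤ m) →
        (∀ i ∈ s, ∀ i' ∈ s, ∀ j : ℤ, x i' = (M ^ j) (x i) → i = i') →
        ∑ i ∈ s, z ^ (n i) ≤ C'

/-! ### The analytic part -/

/-- ANA (from `MPa1853d.SpecAN`, `SpecTR`, `SpecLog`, or directly the proved theorems `specAN`,
`specTR`, `specLog`). Model: `ANA.lean`. `Y H z = ∑_{v ∈ T H} z^(ℓ H v)`. Fix `z₁ = D^(-E)` (so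
`Y H z₁ ≤ D`), `z₀ = z₁ / 2`, `C₀ ≥ D, 1` the constant of `super` for `z₀`;
`ρ = sup {z ∈ [z₀, 1] | ∀ H, Y H z ≤ C₀}`; `ρ < 1` by `grow`. -/
def SpecAna : Prop :=
  ∀ (ι : Type) (T : ℕ → Finset ι) (ℓ : ℕ → ι → ℕ) (E C₁ D : ℕ) (c : ℕ → ℕ) (CB : ℝ),
    1 ≤ E → 1 ≤ D → 0 < CB →
    (∀ H, ∀ v ∈ T H, H ≤ E * ℓ H v) →
    (∀ H, ∀ v ∈ T H, ℓ H v ≤ C₁ * (H + 1)) →
    (∀ H, (T H).card ≤ D ^ (H + 1)) →
    (∀ H, (T H).Nonempty) →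
    (∀ K : ℕ, ∃ H : ℕ, K < (T H).card) →
    (∀ z₀ : ℝ, 0 < z₀ → ∃ C' : ℝ, 0 < C' ∧ ∀ z : ℝ, z₀ ≤ z → z ≤ 1 → ∀ m n : ℕ,
      (∑ v ∈ T m, z ^ ℓ m v) * (∑ v ∈ T n, z ^ ℓ n v) ≤ C' * ∑ v ∈ T (m + n), z ^ ℓ (m + n) v) →
    (∀ z₀ : ℝ, 0 < z₀ → ∃ C' : ℝ, 0 < C' ∧ ∀ z : ℝ, z₀ ≤ z → z ≤ 1 → ∀ H : ℕ, 1 ≤ H →
      (H : ℝ) * ∑ v ∈ T H, z ^ ℓ H v ≤ C' * ∑ j ∈ Finset.range (H + 1),
        (∑ v ∈ T j, z ^ ℓ j v) * ∑ v ∈ T (H - j), z ^ ℓ (H - j) v) →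
    (∀ z : ℝ, 0 < z → z < 1 → ∀ N : ℕ, ∃ N' : ℕ,
      ∑ H ∈ Finset.Icc 1 N, (∑ v ∈ T H, z ^ ℓ H v) / (CB * (H : ℝ)) ≤
        ∑ n ∈ Finset.range N', (c n : ℝ) * z ^ n) →
    (∀ z₀ C₂ : ℝ, 0 < z₀ → ∃ C' θ : ℝ, 0 < C' ∧ 0 ≤ θ ∧ θ < 1 ∧
      ∀ z : ℝ, z₀ ≤ z → z ≤ 1 → (∀ H : ℕ, ∑ v ∈ T H, z ^ ℓ H v ≤ C₂) → ∀ N : ℕ, ∃ N' : ℕ,
        ∑ n ∈ Finset.range N, (c n : ℝ) * z ^ n ≤
          C' * (1 + ∑ H ∈ Finset.Icc 1 N', (1 / (H : ℝ) + (H : ℝ) * θ ^ H) *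
            ∑ v ∈ T H, z ^ ℓ H v)) →
    ¬ ∃ P : Polynomial (Polynomial ℚ), P ≠ 0 ∧
      Polynomial.eval₂ Polynomial.coeToPowerSeries.ringHom
        (PowerSeries.mk (fun n : ℕ => ((c n : ℕ) : ℚ))) P = 0

/-! ### The group -/

/-- Description of a group as the group of pairs `(x, m)`, `x ∈ V`, `m ∈ ℤ`, with product
`(x, m) (y, n) = (x + M^m y, m + n)`. -/
structure Model (G : Type) [Group G] (V : Type) [AddCommGroup V] (M : V ≃ₗ[ℤ] V) where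
  /-- first coordinate -/
  val : G → V
  /-- second coordinate (height) -/
  ht : G → ℤ
  val_mul : ∀ g h : G, val (g * h) = val g + (M ^ (ht g)) (val h)
  ht_mul : ∀ g h : G, ht (g * h) = ht g + ht h
  inj : ∀ g h : G, val g = val h → ht g = ht h → g = h
  surj : ∀ (v : V) (i : ℤ), ∃ g : G, val g = v ∧ ht g = i

/-- SYS. Model: `SYS.lean`. `c₀` with `M^(c₀) (val s) ∈ B` for all `s ∈ S ∪ S⁻¹`. -/
def SpecSys : Prop :=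
  ∀ (G : Type) [Group G] (V : Type) [AddCommGroup V] (M : V ≃ₗ[ℤ] V) (Mo : Model G V M)
    (B : AddSubgroup V) (nu ns : V → ℝ) (C κ : ℝ) (S : Finset G), Hyp M B nu ns C κ →
    Subgroup.closure (S : Set G) = ⊤ →
    ∃ (c₀ : ℕ) (L : Finset (V × ℤ)) (E Ct : ℕ), Sys M B L E Ct ∧
      ∀ (g : G) (n : ℕ), MPa1853d.Rch S g n ↔
        PP M L 0 (Mo.ht g) ((M ^ (c₀ : ℤ)) (Mo.val g)) n

/-- B1 (from JMOD): many classes. Model: `B1.lean`. For `v ∈ Box H R₀` the element over `H` with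
`M^(c₀) val = v`; its class has length at most `yl v`, and contains at most `K H` of these elements
(`x, x'` conjugate iff `x' = M^j x + y - M^H y`, `j` modulo `H`). -/
def SpecB1 : Prop :=
  ∀ (G : Type) [Group G] (V : Type) [AddCommGroup V] (M : V ≃ₗ[ℤ] V) (Mo : Model G V M)
    (B : AddSubgroup V) (nu ns : V → ℝ) (C κ : ℝ) (S : Finset G) (len : ConjClasses G → ℕ)
    (c₀ : ℕ) (L : Finset (V × ℤ)) (E Ct : ℕ), Hyp M B nu ns C κ → MPa1853d.IsLen S len →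
    Sys M B L E Ct →
    (∀ (g : G) (n : ℕ), MPa1853d.Rch S g n ↔
      PP M L 0 (Mo.ht g) ((M ^ (c₀ : ℤ)) (Mo.val g)) n) →
    ∃ CB : ℝ, 0 < CB ∧ ∀ z : ℝ, 0 < z → z < 1 → ∀ N : ℕ, ∃ s : Finset (ConjClasses G),
      ∑ H ∈ Finset.Icc 1 N, YY M B nu ns L (R0 C) H z / (CB * (H : ℝ)) ≤ ∑ κ ∈ s, z ^ (len κ)

/-- B2 (from UP, ZERO): few classes. Model: `B2.lean`. -/
def SpecB2 : Prop :=
  ∀ (G : Type) [Group G] (V : Type) [AddCommGroup V] (M : V ≃ₗ[ℤ] V) (Mo : Model G V M)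
    (B : AddSubgroup V) (nu ns : V → ℝ) (C κ : ℝ) (S : Finset G) (len : ConjClasses G → ℕ)
    (c₀ : ℕ) (L : Finset (V × ℤ)) (E Ct : ℕ), Hyp M B nu ns C κ → MPa1853d.IsLen S len →
    Sys M B L E Ct →
    (∀ (g : G) (n : ℕ), MPa1853d.Rch S g n ↔
      PP M L 0 (Mo.ht g) ((M ^ (c₀ : ℤ)) (Mo.val g)) n) →
    ∀ z₀ C₂ : ℝ, 0 < z₀ → ∃ C' θ : ℝ, 0 < C' ∧ 0 ≤ θ ∧ θ < 1 ∧
      ∀ z : ℝ, z₀ ≤ z → z ≤ 1 → (∀ H : ℕ, YY M B nu ns L (R0 C) H z ≤ C₂) →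
        ∀ s : Finset (ConjClasses G), ∃ N' : ℕ,
          ∑ κ ∈ s, z ^ (len κ) ≤
            C' * (1 + ∑ H ∈ Finset.Icc 1 N', (1 / (H : ℝ) + (H : ℝ) * θ ^ H) *
              YY M B nu ns L (R0 C) H z)

/-! ### The sizes -/

/-- LINA. A real invertible matrix without complex eigenvalues of modulus `1` has an invariant
splitting into expanding and contracting parts. Proof: over `ℂ`, `ℂ^n` is the sum of the generalized
eigenspaces (`Module.End.iSup_maxGenEigenspace_eq_top`); `U` = those with `|μ| > 1`, `S` = those with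
`|μ| < 1`; on `S` the powers `A^h` decay exponentially (spectral radius formula
`spectrum.pow_nnnorm_pow_one_div_tendsto_nhds_spectralRadius`, or the binomial formula on each
generalized eigenspace), on `U` the powers `A^(-h)`. The projections are real: if
`x = u + s` is real, then `conj u ∈ U` and `conj s ∈ S`, because `U` (`S`) is the set of the vectors
with `A^(-h) x → 0` (`A^h x → 0`). -/
def SpecLinA : Prop :=
  ∀ (n : ℕ) (A A' : Matrix (Fin n) (Fin n) ℝ), A * A' = 1 →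
    (∀ (μ : ℂ) (x : Fin n → ℂ), ‖μ‖ = 1 → (A.map (algebraMap ℝ ℂ)).mulVec x = μ • x → x = 0) →
    ∃ (P Q : Matrix (Fin n) (Fin n) ℝ) (C κ : ℝ), P + Q = 1 ∧ P * P = P ∧ Q * Q = Q ∧
      A * P = P * A ∧ A * Q = Q * A ∧ 1 ≤ C ∧ 1 < κ ∧
      (∀ (h : ℕ) (x : Fin n → ℝ), ‖(A' ^ h * P).mulVec x‖ ≤ C / κ ^ h * ‖x‖) ∧
      (∀ (h : ℕ) (x : Fin n → ℝ), ‖(A ^ h * Q).mulVec x‖ ≤ C / κ ^ h * ‖x‖)

/-- LINB (from LINA). `B ≅ ℤ^n × finite` (`AddCommGroup.equiv_free_prod_directSum_zmod`), so there is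
a surjection `π : B → ℤ^n` with finite kernel (the torsion); `M` induces an integer matrix `A`,
`det A ≠ 0` since `M` is injective; `ψ v = A^(-i) π (M^i v)`, `nu v = ‖P ψ v‖`, `ns v = ‖Q ψ v‖`
(enlarge `C`). No eigenvalue of modulus `1`: an eigenvector of the transpose gives `χ`. `covu`: round
the coordinates of the vector `P ψ v`. `exp`: `P = 0` would give `A^h → 0`, but
`|det A^h| ≥ 1`, `n ≥ 1`. -/
def SpecLinB : Prop :=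
  ∀ (V : Type) [AddCommGroup V] (M : V ≃ₗ[ℤ] V) (B : AddSubgroup V)
    (hinv : ∀ b ∈ B, M b ∈ B), B.FG → (B : Set V).Infinite →
    (∀ v, ∃ i : ℕ, (M ^ (i : ℤ)) v ∈ B) →
    (∀ (χ : B → ℂ) (μ : ℂ), (∀ a b : B, χ (a + b) = χ a + χ b) → ‖μ‖ = 1 →
      (∀ b : B, χ ⟨M b, hinv b b.2⟩ = μ * χ b) → ∀ b, χ b = 0) →
    ∃ (nu ns : V → ℝ) (C κ : ℝ), Hyp M B nu ns C κ

/-- MODA. The kernel: `A = ⋃ t^(-i) B₀ t^i` is an abelian normal subgroup, `V = Additive A`, `M` the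
conjugation by `t`. -/
def SpecModA : Prop :=
  ∀ (G : Type) [Group G] (B₀ : Subgroup G) (t : G) (hinv : ∀ b ∈ B₀, t * b * t⁻¹ ∈ B₀),
    (∀ a ∈ B₀, ∀ b ∈ B₀, a * b = b * a) → B₀.FG → (B₀ : Set G).Infinite →
    Subgroup.closure ((B₀ : Set G) ∪ {t}) = ⊤ →
    (∀ (χ : B₀ → ℂ) (μ : ℂ), (∀ a b : B₀, χ (a * b) = χ a + χ b) → ‖μ‖ = 1 →
      (∀ b : B₀, χ ⟨t * b * t⁻¹, hinv b b.2⟩ = μ * χ b) → ∀ b, χ b = 0) →
    ∃ (V : Type) (_ : AddCommGroup V) (M : V ≃ₗ[ℤ] V) (B : AddSubgroup V)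
      (hinv' : ∀ b ∈ B, M b ∈ B) (i : V → G),
      B.FG ∧ (B : Set V).Infinite ∧ (∀ v, ∃ j : ℕ, (M ^ (j : ℤ)) v ∈ B) ∧
      (∀ (χ : B → ℂ) (μ : ℂ), (∀ a b : B, χ (a + b) = χ a + χ b) → ‖μ‖ = 1 →
        (∀ b : B, χ ⟨M b, hinv' b b.2⟩ = μ * χ b) → ∀ b, χ b = 0) ∧
      Function.Injective i ∧ (∀ v w, i (v + w) = i v * i w) ∧ (∀ v, t * i v * t⁻¹ = i (M v)) ∧
      (∀ b ∈ B₀, ∃ v, i v = b)

/-- MODB. The model: every element is uniquely `i v * t^m`. Existence by induction over the closure;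
uniqueness: `t^m = i v`, `m ≥ 1`, would give `M^m = 1`, but `nu c > 0` and
`nu c = nu (M^(-m k) c) ≤ C / κ^(m k) nu c` for all `k`. -/
def SpecModB : Prop :=
  ∀ (G : Type) [Group G] (B₀ : Subgroup G) (t : G) (V : Type) [AddCommGroup V] (M : V ≃ₗ[ℤ] V)
    (B : AddSubgroup V) (nu ns : V → ℝ) (C κ : ℝ) (i : V → G), Hyp M B nu ns C κ →
    Subgroup.closure ((B₀ : Set G) ∪ {t}) = ⊤ →
    Function.Injective i → (∀ v w, i (v + w) = i v * i w) → (∀ v, t * i v * t⁻¹ = i (M v)) →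
    (∀ b ∈ B₀, ∃ v, i v = b) → Nonempty (Model G V M)

/-- MAIN. -/
def SpecMain : Prop :=
  ∀ (G : Type) [Group G] (B₀ : Subgroup G) (t : G) (hinv : ∀ b ∈ B₀, t * b * t⁻¹ ∈ B₀),
    (∀ a ∈ B₀, ∀ b ∈ B₀, a * b = b * a) → B₀.FG → (B₀ : Set G).Infinite →
    Subgroup.closure ((B₀ : Set G) ∪ {t}) = ⊤ →
    (∀ (χ : B₀ → ℂ) (μ : ℂ), (∀ a b : B₀, χ (a * b) = χ a + χ b) → ‖μ‖ = 1 →
      (∀ b : B₀, χ ⟨t * b * t⁻¹, hinv b b.2⟩ = μ * χ b) → ∀ b, χ b = 0) →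
    ∀ S : Finset G, Subgroup.closure (S : Set G) = ⊤ →
    ¬ ∃ P : Polynomial (Polynomial ℚ), P ≠ 0 ∧
      Polynomial.eval₂ Polynomial.coeToPowerSeries.ringHom
        (PowerSeries.mk (fun n : ℕ => ((MPa1853d.cgc G S n : ℕ) : ℚ))) P = 0

end MPa1853dH
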