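import Mathlib
import Pool.Agent.Lib.MP_a1853d_al.HY.Spec
import Pool.Agent.Lib.MP_a1853d_al.HY.Cong

set_option autoImplicit false

/-! # Few conjugacy classes -/

namespace MPa1853dH

namespace B2X

variable {G : Type} [Group G] {V : Type} [AddCommGroup V] {M : V ≃ₗ[ℤ] V}

theorem ht_one (Mo : Model G V M) : Mo.ht 1 = 0 := by
  have := Mo.ht_mul 1 1
  rw [mul_one] at this
  omega

theorem ht_inv (Mo : Model G V M) (g : G) : Mo.ht g⁻¹ = - Mo.ht g := by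
  have := Mo.ht_mul g g⁻¹
  rw [mul_inv_cancel, ht_one Mo] at this
  omega

theorem val_one (Mo : Model G V M) : Mo.val 1 = 0 := by
  have := Mo.val_mul 1 1
  rw [mul_one, ht_one Mo, Mp_zero] at this
  simpa using this

theorem val_inv (Mo : Model G V M) (g : G) : Mo.val g⁻¹ = - (M ^ (- Mo.ht g)) (Mo.val g) := by
  have := Mo.val_mul g g⁻¹
  rw [mul_inv_cancel, val_one Mo] at this
  have h1 := congrArg (fun v => (M ^ (- Mo.ht g)) v) this
  simp only [map_add, Mp_neg, map_zero] at h1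
  exact eq_neg_of_add_eq_zero_right h1.symm

theorem conj_val (Mo : Model G V M) (c g : G) :
    Mo.val (c * g * c⁻¹) = (M ^ (Mo.ht c)) (Mo.val g) +
      (Mo.val c - (M ^ (Mo.ht g)) (Mo.val c)) := by
  rw [Mo.val_mul, Mo.val_mul, Mo.ht_mul, val_inv Mo, map_neg, ← Mp_add,
    show Mo.ht c + Mo.ht g + -Mo.ht c = Mo.ht g by ring]
  abel

theorem conj_ht (Mo : Model G V M) (c g : G) : Mo.ht (c * g * c⁻¹) = Mo.ht g := by
  rw [Mo.ht_mul, Mo.ht_mul, ht_inv Mo]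
  ring

theorem isConj_of (Mo : Model G V M) {g g' : G} (hh : Mo.ht g' = Mo.ht g) (j : ℤ) (y : V)
    (h : Mo.val g' = (M ^ j) (Mo.val g) + (y - (M ^ (Mo.ht g)) y)) : IsConj g g' := by
  obtain ⟨c, hc1, hc2⟩ := Mo.surj y j
  rw [isConj_iff]
  refine ⟨c, ?_⟩
  apply Mo.inj
  · rw [conj_val Mo, hc1, hc2, h]
  · rw [conj_ht Mo, hh]

theorem isConj_of_inJ (Mo : Model G V M) {g g' : G} {H : ℕ} (c₀ : ℕ) (hg : Mo.ht g = H)
    (hg' : Mo.ht g' = H) (j : ℤ)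
    (h : InJ M H ((M ^ (c₀ : ℤ)) (Mo.val g') - (M ^ j) ((M ^ (c₀ : ℤ)) (Mo.val g)))) :
    IsConj g g' := by
  rw [Mp_comm M j, ← map_sub] at h
  obtain ⟨y, hy⟩ := h.of_zpow
  refine isConj_of Mo (by rw [hg, hg']) j (-y) ?_
  rw [hg, map_neg]
  rw [sub_eq_iff_eq_add] at hy
  rw [hy]
  abel

theorem rch_inv {B : AddSubgroup V} {L : Finset (V × ℤ)} {E Ct : ℕ} (Mo : Model G V M)
    (S : Finset G) (c₀ : ℕ) (Sy : Sys M B L E Ct)
    (hlen : ∀ (g : G) (n : ℕ), MPa1853d.Rch S g n ↔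
      PP M L 0 (Mo.ht g) ((M ^ (c₀ : ℤ)) (Mo.val g)) n)
    {g : G} {n : ℕ} (h : MPa1853d.Rch S g n) : MPa1853d.Rch S g⁻¹ n := by
  rw [hlen] at h ⊢
  have h1 := (h.symm Sy).shift' (-(Mo.ht g)) 0 (-(Mo.ht g)) (by ring) (by ring)
  rw [ht_inv Mo, val_inv Mo]
  refine h1.of_eq ?_ le_rfl
  rw [map_neg, map_neg, Mp_comm]

end B2X

theorem specB2 (hUp : SpecUp) (hZero : SpecZero) : SpecB2 := by
  classical
  intro G _ V _ M Mo B nu ns C κ₀ S len c₀ L E Ct Hy hL Sy hlen z₀ C₂ hz₀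
  obtain ⟨C', θ, hC, hθ0, hθ1, hUp⟩ := hUp V M B nu ns C κ₀ L E Ct Hy Sy z₀ hz₀
  obtain ⟨C₀, hC₀, hZero⟩ := hZero V M B nu ns C κ₀ L E Ct Hy Sy z₀ C₂ hz₀
  refine ⟨C₀ + 2 * C', θ, by positivity, hθ0, hθ1, ?_⟩
  intro z hz hz1 hY s
  have hzpos : 0 < z := hz₀.trans_le hz
  -- representatives
  have hrep : ∀ κ : ConjClasses G, ∃ g : G, ConjClasses.mk g = κ ∧ MPa1853d.Rch S g (len κ) :=
    fun κ => (hL κ (len κ)).1 le_rfl
  choose g hg1 hg2 using hrep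
  -- general bound for height H
  have hgen : ∀ (H : ℕ), 1 ≤ H → ∀ (t : Finset (ConjClasses G)) (γ : ConjClasses G → G),
      (∀ κ ∈ t, Mo.ht (γ κ) = H) → (∀ κ ∈ t, MPa1853d.Rch S (γ κ) (len κ)) →
      (∀ κ ∈ t, ∀ g' : G, IsConj (γ κ) g' → ∀ m, MPa1853d.Rch S g' m → len κ ≤ m) →
      (∀ κ ∈ t, ∀ κ' ∈ t, IsConj (γ κ) (γ κ') → κ = κ') →
      ∑ κ ∈ t, z ^ (len κ) ≤ (C' / H + C' * H * θ ^ H) * YY M B nu ns L (R0 C) H z := by
    intro H hH t γ h1 h2 h3 h4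
    apply hUp z hz hz1 H hH (ConjClasses G) t len (fun κ => (M ^ (c₀ : ℤ)) (Mo.val (γ κ)))
    · intro κ hκ
      have := (hlen _ _).1 (h2 κ hκ)
      rwa [h1 κ hκ] at this
    · intro κ hκ j v m hv hJ
      obtain ⟨g', hg'1, hg'2⟩ := Mo.surj ((M ^ (-(c₀ : ℤ))) v) (H : ℤ)
      have e : (M ^ (c₀ : ℤ)) (Mo.val g') = v := by
        rw [hg'1, Mp_neg']
      apply h3 κ hκ g'
      · apply B2X.isConj_of_inJ Mo c₀ (h1 κ hκ) hg'2 j
        rw [e]; exact hJ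
      · rw [hlen, e, hg'2]; exact hv
    · intro κ hκ κ' hκ' j hJ
      exact h4 κ hκ κ' hκ' (B2X.isConj_of_inJ Mo c₀ (h1 κ hκ) (h1 κ' hκ') j hJ)
  -- positive heights
  have hpos : ∀ H : ℕ, 1 ≤ H → ∑ κ ∈ s.filter (fun κ => Mo.ht (g κ) = H), z ^ (len κ) ≤
      (C' / H + C' * H * θ ^ H) * YY M B nu ns L (R0 C) H z := by
    intro H hH
    apply hgen H hH _ g
    · intro κ hκ; exact (Finset.mem_filter.1 hκ).2
    · intro κ _; exact hg2 κ
    · intro κ _ g' hc m hm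
      rw [hL]
      refine ⟨g', ?_, hm⟩
      rw [← hg1 κ]
      exact (ConjClasses.mk_eq_mk_iff_isConj.2 hc).symm
    · intro κ _ κ' _ hc
      rw [← hg1 κ, ← hg1 κ']
      exact ConjClasses.mk_eq_mk_iff_isConj.2 hc
  -- negative heights
  have hconjinv : ∀ a b : G, IsConj a⁻¹ b → IsConj a b⁻¹ := by
    intro a b hab
    obtain ⟨c, hc⟩ := isConj_iff.1 hab
    rw [isConj_iff]
    refine ⟨c, ?_⟩
    rw [← hc]
    group
  have hneg : ∀ H : ℕ, 1 ≤ H → ∑ κ ∈ s.filter (fun κ => Mo.ht (g κ) = -(H : ℤ)), z ^ (len κ) ≤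
      (C' / H + C' * H * θ ^ H) * YY M B nu ns L (R0 C) H z := by
    intro H hH
    apply hgen H hH _ (fun κ => (g κ)⁻¹)
    · intro κ hκ
      rw [B2X.ht_inv Mo, (Finset.mem_filter.1 hκ).2]
      ring
    · intro κ _; exact B2X.rch_inv Mo S c₀ Sy hlen (hg2 κ)
    · intro κ _ g' hc m hm
      rw [hL]
      refine ⟨g'⁻¹, ?_, B2X.rch_inv Mo S c₀ Sy hlen hm⟩
      rw [← hg1 κ]
      exact (ConjClasses.mk_eq_mk_iff_isConj.2 (hconjinv _ _ hc)).symm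
    · intro κ _ κ' _ hc
      rw [← hg1 κ, ← hg1 κ']
      have := hconjinv _ _ hc
      rw [inv_inv] at this
      exact ConjClasses.mk_eq_mk_iff_isConj.2 this
  -- height zero
  have hzero : ∑ κ ∈ s.filter (fun κ => Mo.ht (g κ) = 0), z ^ (len κ) ≤ C₀ := by
    apply hZero z hz hz1 hY (ConjClasses G) _ len (fun κ => (M ^ (c₀ : ℤ)) (Mo.val (g κ)))
    · intro κ hκ
      have := (hlen _ _).1 (hg2 κ)
      rwa [(Finset.mem_filter.1 hκ).2] at this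
    · intro κ hκ j m hm
      have h0 := (Finset.mem_filter.1 hκ).2
      obtain ⟨g', hg'1, hg'2⟩ := Mo.surj ((M ^ j) (Mo.val (g κ))) 0
      have hc : IsConj (g κ) g' := by
        apply B2X.isConj_of Mo (by rw [hg'2, h0]) j 0
        rw [hg'1]; simp
      rw [hL]
      refine ⟨g', ?_, ?_⟩
      · rw [← hg1 κ]
        exact (ConjClasses.mk_eq_mk_iff_isConj.2 hc).symm
      · rw [hlen, hg'2, hg'1, Mp_comm]
        exact hm
    · intro κ hκ κ' hκ' j hj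
      have h0 := (Finset.mem_filter.1 hκ).2
      have h0' := (Finset.mem_filter.1 hκ').2
      rw [← hg1 κ, ← hg1 κ']
      apply ConjClasses.mk_eq_mk_iff_isConj.2
      apply B2X.isConj_of Mo (by rw [h0, h0']) j 0
      have h1 : (M ^ (c₀ : ℤ)) (Mo.val (g κ')) = (M ^ (c₀ : ℤ)) ((M ^ j) (Mo.val (g κ))) := by
        rw [Mp_comm]; exact hj
      have h2 := Mp_inj M h1
      rw [h2]; simp
  -- assembly
  set N := s.sup (fun κ => (Mo.ht (g κ)).natAbs) with hN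
  refine ⟨N, ?_⟩
  have hmaps : ∀ κ ∈ s, (Mo.ht (g κ)).natAbs ∈ Finset.range (N + 1) := by
    intro κ hκ
    rw [Finset.mem_range]
    exact Nat.lt_succ_of_le (Finset.le_sup (f := fun κ => (Mo.ht (g κ)).natAbs) hκ)
  rw [← Finset.sum_fiberwise_of_maps_to hmaps, Finset.sum_range_succ' ]
  have e0 : ∑ κ ∈ s.filter (fun κ => (Mo.ht (g κ)).natAbs = 0), z ^ (len κ) ≤ C₀ := by
    refine le_trans (le_of_eq ?_) hzero
    apply Finset.sum_congr _ (fun _ _ => rfl)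
    apply Finset.filter_congr
    intro κ _
    rw [Int.natAbs_eq_zero]
  have e1 : ∀ H ∈ Finset.range N, ∑ κ ∈ s.filter (fun κ => (Mo.ht (g κ)).natAbs = H + 1),
      z ^ (len κ) ≤ 2 * C' * ((1 / ((H + 1 : ℕ) : ℝ) + ((H + 1 : ℕ) : ℝ) * θ ^ (H + 1)) *
        YY M B nu ns L (R0 C) (H + 1) z) := by
    intro H _
    have h1 := hpos (H + 1) (by omega)
    have h2 := hneg (H + 1) (by omega)
    have h3 : ∑ κ ∈ s.filter (fun κ => (Mo.ht (g κ)).natAbs = H + 1), z ^ (len κ) ≤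
        ∑ κ ∈ s.filter (fun κ => Mo.ht (g κ) = ((H + 1 : ℕ) : ℤ)), z ^ (len κ) +
        ∑ κ ∈ s.filter (fun κ => Mo.ht (g κ) = -((H + 1 : ℕ) : ℤ)), z ^ (len κ) := by
      rw [← Finset.sum_union]
      · apply Finset.sum_le_sum_of_subset_of_nonneg
        · intro κ hκ
          rw [Finset.mem_filter] at hκ
          rw [Finset.mem_union, Finset.mem_filter, Finset.mem_filter]
          rcases Int.natAbs_eq (Mo.ht (g κ)) with h | h
          · left; exact ⟨hκ.1, by rw [h, hκ.2]⟩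
          · right; exact ⟨hκ.1, by rw [h, hκ.2]⟩
        · intro κ _ _; positivity
      · rw [Finset.disjoint_left]
        intro κ h1 h2
        have a1 := (Finset.mem_filter.1 h1).2
        have a2 := (Finset.mem_filter.1 h2).2
        omega
    refine h3.trans ?_
    refine (add_le_add h1 h2).trans (le_of_eq ?_)
    ring
  have hnn : ∀ H ∈ Finset.Icc 1 N, 0 ≤ (1 / (H : ℝ) + (H : ℝ) * θ ^ H) *
      YY M B nu ns L (R0 C) H z := by
    intro H _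
    have := YY_nonneg (M := M) (B := B) (nu := nu) (ns := ns) (L := L) (R := R0 C) H hzpos.le
    positivity
  have e2 : ∑ H ∈ Finset.range N, 2 * C' * ((1 / ((H + 1 : ℕ) : ℝ) +
      ((H + 1 : ℕ) : ℝ) * θ ^ (H + 1)) * YY M B nu ns L (R0 C) (H + 1) z) =
      2 * C' * ∑ H ∈ Finset.Icc 1 N, (1 / (H : ℝ) + (H : ℝ) * θ ^ H) *
        YY M B nu ns L (R0 C) H z := by
    rw [← Finset.mul_sum]
    congr 1
    rw [Finset.range_eq_Ico, Finset.sum_Ico_add' (fun H : ℕ =>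
      (1 / (H : ℝ) + (H : ℝ) * θ ^ H) * YY M B nu ns L (R0 C) H z) 0 N 1]
    apply Finset.sum_congr _ (fun _ _ => rfl)
    ext H
    simp only [Finset.mem_Ico, Finset.mem_Icc]
    omega
  have e3 := Finset.sum_le_sum e1
  rw [e2] at e3
  have e4 : 0 ≤ ∑ H ∈ Finset.Icc 1 N, (1 / (H : ℝ) + (H : ℝ) * θ ^ H) *
      YY M B nu ns L (R0 C) H z :=
    Finset.sum_nonneg hnn
  have e5 : 0 ≤ C₀ * ∑ H ∈ Finset.Icc 1 N, (1 / (H : ℝ) + (H : ℝ) * θ ^ H) *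
      YY M B nu ns L (R0 C) H z :=
    mul_nonneg hC₀.le e4
  calc _ ≤ 2 * C' * ∑ H ∈ Finset.Icc 1 N, (1 / (H : ℝ) + (H : ℝ) * θ ^ H) *
        YY M B nu ns L (R0 C) H z + C₀ :=
        add_le_add e3 e0
    _ ≤ _ := by nlinarith

end MPa1853dH
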