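import Mathlib
import Pool.Agent.Lib.MP_a1853d_al.HY.Spec

set_option autoImplicit false

/-! # Cutting a path at a level: averaged submultiplicativity -/

namespace MPa1853dH

namespace CutAux

theorem geo_finset {x : ℝ} (hx : 0 ≤ x) (hx1 : x < 1) (t : Finset ℕ) :
    ∑ i ∈ t, x ^ i ≤ (1 - x)⁻¹ := by
  rw [← tsum_geometric_of_lt_one hx hx1]
  exact (summable_geometric_of_lt_one hx hx1).sum_le_tsum t (fun i _ => pow_nonneg hx i)

theorem geo_inj {ι : Type*} (s : Finset ι) (g : ι → ℕ) (hg : Set.InjOn g s) {x : ℝ} (hx : 0 ≤ x)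
    (hx1 : x < 1) : ∑ j ∈ s, x ^ (g j) ≤ (1 - x)⁻¹ := by
  classical
  rw [← Finset.sum_image (f := fun i => x ^ i) hg]
  exact geo_finset hx hx1 _

theorem markov {ι : Type*} (s : Finset ι) (Ψ : ι → ℝ) (hΨ : ∀ i ∈ s, 0 ≤ Ψ i) (c : ℝ) :
    c * ((s.filter (fun i => c < Ψ i)).card : ℝ) ≤ ∑ i ∈ s, Ψ i := by
  calc c * ((s.filter (fun i => c < Ψ i)).card : ℝ)
      = ∑ i ∈ s.filter (fun i => c < Ψ i), c := by
        rw [Finset.sum_const, nsmul_eq_mul, mul_comm]
    _ ≤ ∑ i ∈ s.filter (fun i => c < Ψ i), Ψ i := by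
        apply Finset.sum_le_sum
        intro i hi
        exact (Finset.mem_filter.1 hi).2.le
    _ ≤ ∑ i ∈ s, Ψ i := by
        apply Finset.sum_le_sum_of_subset_of_nonneg (Finset.filter_subset _ _)
        intro i hi _
        exact hΨ i hi

variable {V : Type*} [AddCommGroup V] {M : V ≃ₗ[ℤ] V} {B : AddSubgroup V} {nu ns : V → ℝ}
  {C κ : ℝ} {L : Finset (V × ℤ)} {E Ct : ℕ}

theorem psum_nonneg {f : ℤ → V × ℤ → ℝ} (hf : ∀ h p, 0 ≤ f h p) (h : ℤ) (l : List (V × ℤ)) :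
    0 ≤ psum f h l := by
  induction l generalizing h with
  | nil => exact le_rfl
  | cons p l ih => exact add_nonneg (hf h p) (ih _)

theorem psum_cast (f : ℤ → V × ℤ → ℕ) (h : ℤ) (l : List (V × ℤ)) :
    ((psum f h l : ℕ) : ℝ) = psum (fun h p => (f h p : ℝ)) h l := by
  have := psum_map (Nat.castAddMonoidHom ℝ) f l h
  simpa using this

/-- sums of elements of `B` -/
theorem psum_mem {f : ℤ → V × ℤ → V} (l : List (V × ℤ)) (h : ℤ)
    (hf : ∀ h, ∀ p ∈ l, f h p ∈ B) : psum f h l ∈ B := by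
  induction l generalizing h with
  | nil => exact B.zero_mem
  | cons p l ih =>
    exact B.add_mem (hf h p (by simp)) (ih _ (fun h q hq => hf h q (by simp [hq])))

/-- the weight functional at level `j`. -/
noncomputable def Psi (κ : ℝ) (j : ℤ) (h : ℤ) (_ : V × ℤ) : ℝ := (κ⁻¹) ^ ((h - j).natAbs)

theorem κ_inv (Hy : Hyp M B nu ns C κ) : 0 ≤ κ⁻¹ ∧ κ⁻¹ < 1 :=
  ⟨inv_nonneg.2 Hy.κ_pos.le, inv_lt_one_of_one_lt₀ Hy.one_lt⟩

theorem sum_Psi_le (Hy : Hyp M B nu ns C κ) (s : Finset ℕ) (l : List (V × ℤ)) (h : ℤ) :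
    ∑ j ∈ s, psum (Psi κ (j : ℤ)) h l ≤ 2 * (1 - κ⁻¹)⁻¹ * l.length := by
  obtain ⟨k0, k1⟩ := κ_inv Hy
  rw [← psum_finset_sum]
  have h1 : psum (fun h p => ∑ i ∈ s, Psi κ (i : ℤ) h p) h l ≤
      psum (fun _ _ => 2 * (1 - κ⁻¹)⁻¹) h l := by
    apply psum_le
    intro h p _
    unfold Psi
    rw [← Finset.sum_filter_add_sum_filter_not s (fun j : ℕ => (j : ℤ) ≤ h)]
    have a1 : ∑ x ∈ s.filter (fun j : ℕ => (j : ℤ) ≤ h), (κ⁻¹) ^ (h - x).natAbs ≤
        (1 - κ⁻¹)⁻¹ := by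
      apply geo_inj _ (fun x : ℕ => (h - x).natAbs) _ k0 k1
      intro x hx y hy hxy
      simp only [Finset.coe_filter, Set.mem_ofPred_eq] at hx hy
      simp only at hxy
      omega
    have a2 : ∑ x ∈ s.filter (fun j : ℕ => ¬ (j : ℤ) ≤ h), (κ⁻¹) ^ (h - x).natAbs ≤
        (1 - κ⁻¹)⁻¹ := by
      apply geo_inj _ (fun x : ℕ => (h - x).natAbs) _ k0 k1
      intro x hx y hy hxy
      simp only [Finset.coe_filter, Set.mem_ofPred_eq] at hx hy
      simp only at hxy
      omega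
    linarith
  refine h1.trans ?_
  rw [psum_const]
  simp [mul_comm]

theorem close_le (Hy : Hyp M B nu ns C κ) (j h : ℤ) (p : V × ℤ) :
    ((if (h - j).natAbs < E then 1 else 0 : ℕ) : ℝ) ≤ κ ^ E * Psi κ j h p := by
  have hK := Hy.κ_pos
  unfold Psi
  split_ifs with hh
  · push_cast
    rw [inv_pow, ← div_eq_mul_inv, le_div_iff₀ (by positivity), one_mul]
    exact pow_le_pow_right₀ Hy.one_lt.le hh.le
  · push_cast
    positivity

/-- bound for the letters -/
theorem letters_bound (Hy : Hyp M B nu ns C κ) (L : Finset (V × ℤ)) :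
    ∃ A : ℝ, 0 ≤ A ∧ ∀ p ∈ L, nu p.1 ≤ A ∧ ns p.1 ≤ A := by
  refine ⟨∑ p ∈ L, (nu p.1 + ns p.1), Finset.sum_nonneg fun p _ =>
    add_nonneg (Hy.nu_nonneg _) (Hy.ns_nonneg _), fun p hp => ?_⟩
  have h1 := Finset.single_le_sum (f := fun p : V × ℤ => nu p.1 + ns p.1)
    (fun q _ => add_nonneg (Hy.nu_nonneg _) (Hy.ns_nonneg _)) hp
  have h2 := Hy.nu_nonneg p.1
  have h3 := Hy.ns_nonneg p.1
  constructor <;> linarith

theorem nu_letter (Hy : Hyp M B nu ns C κ) {A : ℝ} {a : V} (ha : nu a ≤ A) {i : ℤ} (hi : i ≤ 0) :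
    nu ((M ^ i) a) ≤ C * A * (κ⁻¹) ^ i.natAbs := by
  obtain ⟨n, hn⟩ := Int.eq_ofNat_of_zero_le (neg_nonneg.2 hi)
  have e : i = -(n : ℤ) := by linarith
  have e2 : i.natAbs = n := by omega
  rw [e2, e]
  have h1 := Hy.nu_con n a
  have h2 : C / κ ^ n * nu a ≤ C / κ ^ n * A :=
    mul_le_mul_of_nonneg_left ha (div_nonneg Hy.C_pos.le (pow_nonneg Hy.κ_pos.le _))
  refine (h1.trans h2).trans (le_of_eq ?_)
  rw [inv_pow]
  ring

theorem ns_letter (Hy : Hyp M B nu ns C κ) {A : ℝ} {a : V} (ha : ns a ≤ A) {i : ℤ} (hi : 0 ≤ i) :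
    ns ((M ^ i) a) ≤ C * A * (κ⁻¹) ^ i.natAbs := by
  obtain ⟨n, hn⟩ := Int.eq_ofNat_of_zero_le hi
  subst hn
  rw [Int.natAbs_natCast]
  have h1 := Hy.ns_con n a
  have h2 : C / κ ^ n * ns a ≤ C / κ ^ n * A :=
    mul_le_mul_of_nonneg_left ha (div_nonneg Hy.C_pos.le (pow_nonneg Hy.κ_pos.le _))
  refine (h1.trans h2).trans (le_of_eq ?_)
  rw [inv_pow]
  ring

theorem cut_one (Hy : Hyp M B nu ns C κ) (S : Sys M B L E Ct) {A : ℝ} (hA0 : 0 ≤ A)
    (hA : ∀ p ∈ L, nu p.1 ≤ A ∧ ns p.1 ≤ A) {c R : ℝ} (hc0 : 0 ≤ c) {H j : ℕ} (hj : j ≤ H)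
    {v : V} (hv : v ∈ Box M B nu ns H R)
    (l : List (V × ℤ)) (hl : ∀ p ∈ l, p ∈ L) (hfin : fin 0 l = H)
    (hval : psum (ctr M) 0 l = v)
    (hgood : psum (Psi κ (j : ℤ)) 0 l ≤ c) :
    ∃ x₁ ∈ Box M B nu ns j (R + C * (C * A * c) + C * A * c),
      ∃ v₂ ∈ Box M B nu ns (H - j) (R + C * (C * A * c) + C * A * c),
      v = x₁ + (M ^ (j : ℤ)) v₂ ∧
      yl M L j x₁ + yl M L (H - j) v₂ ≤ l.length + 2 * Ct * E * ⌈κ ^ E * c⌉₊ := by
  classical
  have hC := Hy.C_pos
  have hCA : 0 ≤ C * A * c := by positivity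
  rw [Hy.mem_Box] at hv
  obtain ⟨hvB, hvu, hvs⟩ := hv
  have hR : 0 ≤ R := (Hy.ns_nonneg v).trans hvs
  -- the two clamped paths
  have p1 := clamp_path S (fun h => min h (j : ℤ)) (fun h => h < j)
    (fun h hh => min_eq_left (le_of_lt hh)) l hl 0
  have p2 := clamp_path S (fun h => max h (j : ℤ)) (fun h => ¬ h < j)
    (fun h hh => max_eq_left (not_lt.1 hh)) l hl 0
  simp only [hfin] at p1 p2
  have e1 : min (0 : ℤ) (j : ℤ) = 0 := min_eq_left (by positivity)
  have e2 : min (H : ℤ) (j : ℤ) = j := min_eq_right (by exact_mod_cast hj)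
  have e3 : max (0 : ℤ) (j : ℤ) = j := max_eq_right (by positivity)
  have e4 : max (H : ℤ) (j : ℤ) = H := max_eq_left (by exact_mod_cast hj)
  rw [e1, e2] at p1
  rw [e3, e4] at p2
  set N₁ := psum (ccost Ct (fun h => min h (j : ℤ)) (fun h => h < j)) 0 l with hN₁
  set N₂ := psum (ccost Ct (fun h => max h (j : ℤ)) (fun h => ¬ h < j)) 0 l with hN₂
  set x₁ := psum (cctr M (fun h => h < j)) 0 l with hx₁
  set x₂ := psum (cctr M (fun h => ¬ h < j)) 0 l with hx₂
  -- values add up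
  have hx : x₁ + x₂ = v := by
    rw [hx₁, hx₂, ← psum_add, ← hval]
    apply psum_congr'
    intro h p _
    unfold cctr
    by_cases hh : h < j
    · simp [hh]
    · simp [hh]
  -- costs
  have hN : N₁ + N₂ ≤ l.length + 2 * Ct * E * ⌈κ ^ E * c⌉₊ := by
    have h1 : N₁ + N₂ ≤ psum (fun h _ => 1 + 2 * Ct * E * (if (h - j).natAbs < E then 1 else 0))
        0 l := by
      rw [hN₁, hN₂, ← psum_add]
      apply psum_le
      intro h p hp
      have hE := S.hE p (hl p hp)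
      rw [abs_le] at hE
      unfold ccost
      by_cases hh : h < j
      · simp only [hh, if_true, not_true_eq_false, if_false]
        by_cases hcl : (h - j).natAbs < E
        · rw [if_pos hcl]
          have b1 : (min (h + p.2) (j : ℤ) - (h + p.2)).natAbs ≤ E := by omega
          have b2 : (max (h + p.2) (j : ℤ) - max h (j : ℤ)).natAbs ≤ E := by omega
          have c1 := Nat.mul_le_mul_left Ct b1
          have c2 := Nat.mul_le_mul_left Ct b2
          have c3 : 2 * Ct * E * 1 = Ct * E + Ct * E := by ring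
          omega
        · rw [if_neg hcl]
          have b1 : (min (h + p.2) (j : ℤ) - (h + p.2)).natAbs = 0 := by omega
          have b2 : (max (h + p.2) (j : ℤ) - max h (j : ℤ)).natAbs = 0 := by omega
          rw [b1, b2]
          simp
      · simp only [hh, if_false, not_false_eq_true, if_true]
        by_cases hcl : (h - j).natAbs < E
        · rw [if_pos hcl]
          have b1 : (max (h + p.2) (j : ℤ) - (h + p.2)).natAbs ≤ E := by omega
          have b2 : (min (h + p.2) (j : ℤ) - min h (j : ℤ)).natAbs ≤ E := by omega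
          have c1 := Nat.mul_le_mul_left Ct b1
          have c2 := Nat.mul_le_mul_left Ct b2
          have c3 : 2 * Ct * E * 1 = Ct * E + Ct * E := by ring
          omega
        · rw [if_neg hcl]
          have b1 : (max (h + p.2) (j : ℤ) - (h + p.2)).natAbs = 0 := by omega
          have b2 : (min (h + p.2) (j : ℤ) - min h (j : ℤ)).natAbs = 0 := by omega
          rw [b1, b2]
          simp
    refine h1.trans ?_
    have h2 : psum (fun h _ => 1 + 2 * Ct * E * (if (h - j).natAbs < E then 1 else 0)) 0 l =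
        l.length + 2 * Ct * E * psum (fun h _ => (if (h - j).natAbs < E then 1 else 0 : ℕ)) 0 l := by
      rw [psum_add (fun _ _ => (1 : ℕ)), psum_const, psum_mul_left]
      simp
    rw [h2]
    have h3 : psum (fun h _ => (if (h - (j : ℤ)).natAbs < E then 1 else 0 : ℕ)) 0 l ≤
        ⌈κ ^ E * c⌉₊ := by
      have h4 : ((psum (fun h _ => (if (h - (j : ℤ)).natAbs < E then 1 else 0 : ℕ)) 0 l : ℕ) : ℝ) ≤
          κ ^ E * c := by
        rw [psum_cast]
        refine le_trans ?_ (mul_le_mul_of_nonneg_left hgood (pow_nonneg Hy.κ_pos.le _))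
        rw [← psum_mul_left]
        exact psum_le _ _ (fun h p _ => close_le Hy (j : ℤ) h p)
      have h5 := h4.trans (Nat.le_ceil _)
      exact_mod_cast h5
    exact Nat.add_le_add_left (Nat.mul_le_mul_left _ h3) _
  -- the upper part
  set v₂ := (M ^ (-(j : ℤ))) x₂ with hv₂
  have hxv : x₂ = (M ^ (j : ℤ)) v₂ := by rw [hv₂, Mp_neg']
  have hv₂s : v₂ = psum (fun h p => (M ^ (-(j : ℤ))) (cctr M (fun h => ¬ h < j) h p)) 0 l := by
    rw [hv₂, hx₂, Mp_psum]
  have hv₂B : v₂ ∈ B := by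
    rw [hv₂s]
    apply psum_mem
    intro h p hp
    unfold cctr
    by_cases hh : h < j
    · simp [hh, B.zero_mem]
    · simp only [hh, not_false_eq_true, if_true]
      unfold ctr
      rw [← Mp_add]
      exact Hy.mem_zpow (S.int p (hl p hp)) (by omega)
  have hx₁B : x₁ ∈ B := by
    have : x₁ = v - x₂ := by rw [← hx]; abel
    rw [this, hxv]
    exact B.sub_mem hvB (Hy.mem_pow hv₂B j)
  -- sizes
  have s1 : nu ((M ^ (-(j : ℤ))) x₁) ≤ C * A * c := by
    rw [hx₁, Mp_psum]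
    refine (Hy.nu_psum _ _ _).trans ?_
    refine le_trans ?_ (mul_le_mul_of_nonneg_left hgood (by positivity))
    rw [← psum_mul_left]
    apply psum_le
    intro h p hp
    unfold cctr
    by_cases hh : h < j
    · simp only [hh, if_true]
      unfold ctr Psi
      rw [← Mp_add]
      have := nu_letter Hy (hA p (hl p hp)).1 (i := -(j : ℤ) + h) (by omega)
      have e : (-(j : ℤ) + h).natAbs = (h - j).natAbs := by omega
      rwa [e] at this
    · simp only [hh, if_false, map_zero, Hy.nu_zero]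
      unfold Psi
      have := (κ_inv Hy).1
      positivity
  have s2 : ns v₂ ≤ C * A * c := by
    rw [hv₂s]
    refine (Hy.ns_psum _ _ _).trans ?_
    refine le_trans ?_ (mul_le_mul_of_nonneg_left hgood (by positivity))
    rw [← psum_mul_left]
    apply psum_le
    intro h p hp
    unfold cctr
    by_cases hh : h < j
    · simp only [hh, not_true_eq_false, if_false, map_zero, Hy.ns_zero]
      unfold Psi
      have := (κ_inv Hy).1
      positivity
    · simp only [hh, not_false_eq_true, if_true]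
      unfold ctr Psi
      rw [← Mp_add]
      have := ns_letter Hy (hA p (hl p hp)).2 (i := -(j : ℤ) + h) (by omega)
      have e : (-(j : ℤ) + h).natAbs = (h - j).natAbs := by omega
      rwa [e] at this
  have s3 : ns x₁ ≤ R + C * (C * A * c) := by
    have a1 : x₁ = v - x₂ := by rw [← hx]; abel
    rw [a1, hxv]
    have a2 := Hy.ns_sub v ((M ^ (j : ℤ)) v₂)
    have a3 := Hy.ns_up j v₂
    have a4 : C * ns v₂ ≤ C * (C * A * c) := mul_le_mul_of_nonneg_left s2 hC.le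
    linarith
  have s4 : nu ((M ^ (-((H - j : ℕ) : ℤ))) v₂) ≤ R + C * (C * A * c) := by
    have a0 : -((H - j : ℕ) : ℤ) + -(j : ℤ) = -(H : ℤ) := by
      rw [Nat.cast_sub hj]; ring
    have a1 : (M ^ (-((H - j : ℕ) : ℤ))) v₂ =
        (M ^ (-(H : ℤ))) v - (M ^ (-((H - j : ℕ) : ℤ))) ((M ^ (-(j : ℤ))) x₁) := by
      rw [hv₂, ← Mp_add, ← Mp_add, a0, ← map_sub]
      congr 1
      rw [← hx]; abel
    rw [a1]
    have a2 := Hy.nu_sub ((M ^ (-(H : ℤ))) v) ((M ^ (-((H - j : ℕ) : ℤ))) ((M ^ (-(j : ℤ))) x₁))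
    have a3 := Hy.nu_down (H - j) ((M ^ (-(j : ℤ))) x₁)
    have a4 : C * nu ((M ^ (-(j : ℤ))) x₁) ≤ C * (C * A * c) := mul_le_mul_of_nonneg_left s1 hC.le
    linarith
  have hCC : 0 ≤ C * (C * A * c) := by positivity
  refine ⟨x₁, ?_, v₂, ?_, ?_, ?_⟩
  · rw [Hy.mem_Box]
    exact ⟨hx₁B, by linarith, by linarith⟩
  · rw [Hy.mem_Box]
    exact ⟨hv₂B, by linarith, by linarith⟩
  · rw [← hxv, hx]
  · have q1 : yl M L j x₁ ≤ N₁ := yl_le p1
    have q2 : yl M L (H - j) v₂ ≤ N₂ := by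
      apply yl_le
      exact p2.shift' (-(j : ℤ)) 0 ((H - j : ℕ) : ℤ) (by ring)
        (by rw [Nat.cast_sub hj]; ring)
    omega

theorem good_levels {H : ℕ} (hH : 1 ≤ H) (Ψ : ℕ → ℝ) (hΨ : ∀ i, 0 ≤ Ψ i) {G : ℝ} (hG : 0 ≤ G)
    (hsum : ∑ i ∈ Finset.range (H + 1), Ψ i ≤ G * H) :
    H ≤ 2 * ((Finset.range (H + 1)).filter (fun j => Ψ j ≤ 2 * G + 1)).card := by
  have h1 := markov (Finset.range (H + 1)) Ψ (fun i _ => hΨ i) (2 * G + 1)
  have h2 : ((Finset.range (H + 1)).filter (fun j => Ψ j ≤ 2 * G + 1)).card +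
      ((Finset.range (H + 1)).filter (fun j => 2 * G + 1 < Ψ j)).card = H + 1 := by
    have := Finset.card_filter_add_card_filter_not (s := Finset.range (H + 1))
      (fun j => Ψ j ≤ 2 * G + 1)
    simpa only [not_le, Finset.card_range] using this
  have h3 := h1.trans hsum
  set bad := ((Finset.range (H + 1)).filter (fun j => 2 * G + 1 < Ψ j)).card
  have h5 : 2 * bad ≤ H := by
    by_contra hcon
    push Not at hcon
    have hb : (H : ℝ) + 1 ≤ 2 * (bad : ℝ) := by exact_mod_cast hcon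
    have hH' : (1 : ℝ) ≤ H := by exact_mod_cast hH
    nlinarith
  omega

end CutAux

open CutAux

theorem specCut (hE : SpecExpd) : SpecCut := by
  classical
  intro V _ M B nu ns C κ L E Ct Hy S z₀ hz₀
  obtain ⟨C₁, hC₁⟩ := hE V M B nu ns C κ L E Ct Hy S (R0 C)
  obtain ⟨A, hA0, hA⟩ := letters_bound Hy L
  obtain ⟨k0, k1⟩ := κ_inv Hy
  have hk : 0 < (1 - κ⁻¹)⁻¹ := inv_pos.2 (by linarith)
  set G : ℝ := 2 * (1 - κ⁻¹)⁻¹ * (2 * C₁) with hG
  have hG0 : 0 ≤ G := by positivity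
  set c : ℝ := 2 * G + 1 with hc
  have hc0 : 0 ≤ c := by positivity
  set R : ℝ := R0 C + C * (C * A * c) + C * A * c with hR
  obtain ⟨C₂, hC₂, hbox⟩ := Hy.YY_box S R hz₀
  set N : ℕ := 2 * Ct * E * ⌈κ ^ E * c⌉₊ with hN
  refine ⟨2 * ((z₀ ^ N)⁻¹ * (C₂ * C₂)), by positivity, ?_⟩
  intro z hz hz1 H hH
  have hzpos : 0 < z := hz₀.trans_le hz
  have hw : ∀ v ∈ Box M B nu ns H (R0 C), ∃ l : List (V × ℤ), (∀ p ∈ l, p ∈ L) ∧
      l.length ≤ yl M L H v ∧ fin 0 l = H ∧ psum (ctr M) 0 l = v := fun v hv =>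
    yl_spec S (Hy.mem_Box.1 hv).1 H
  choose! lw hlw1 hlw2 hlw3 hlw4 using hw
  set good : V → ℕ → Prop := fun v j => psum (Psi κ (j : ℤ)) 0 (lw v) ≤ c with hgood
  -- many good levels
  have hmany : ∀ v ∈ Box M B nu ns H (R0 C),
      H ≤ 2 * ((Finset.range (H + 1)).filter (good v)).card := by
    intro v hv
    apply good_levels hH (fun j => psum (Psi κ (j : ℤ)) 0 (lw v)) (fun i => by
      apply psum_nonneg
      intro h p
      unfold Psi
      positivity) hG0
    refine (sum_Psi_le Hy _ _ _).trans ?_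
    have h1 : (lw v).length ≤ C₁ * (H + 1) := (hlw2 v hv).trans (hC₁ H v hv)
    have h2 : ((lw v).length : ℝ) ≤ 2 * C₁ * H := by
      have h3 : ((lw v).length : ℝ) ≤ C₁ * (H + 1) := by exact_mod_cast h1
      have h4 : (1 : ℝ) ≤ H := by exact_mod_cast hH
      have h5 : (0 : ℝ) ≤ C₁ := Nat.cast_nonneg _
      nlinarith
    calc 2 * (1 - κ⁻¹)⁻¹ * ((lw v).length : ℝ) ≤ 2 * (1 - κ⁻¹)⁻¹ * (2 * C₁ * H) :=
          mul_le_mul_of_nonneg_left h2 (by positivity)
      _ = G * H := by rw [hG]; ring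
  have hstep : ∀ v ∈ Box M B nu ns H (R0 C), (H : ℝ) * z ^ yl M L H v ≤
      2 * ∑ j ∈ Finset.range (H + 1), if good v j then z ^ yl M L H v else 0 := by
    intro v hv
    rw [← Finset.sum_filter, Finset.sum_const, nsmul_eq_mul]
    have h1 : (H : ℝ) ≤ 2 * (((Finset.range (H + 1)).filter (good v)).card : ℝ) := by
      exact_mod_cast hmany v hv
    have h2 : 0 ≤ z ^ yl M L H v := by positivity
    nlinarith
  have hmain : ∀ j ∈ Finset.range (H + 1),
      ∑ v ∈ Box M B nu ns H (R0 C), (if good v j then z ^ yl M L H v else 0) ≤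
        (z₀ ^ N)⁻¹ * (C₂ * C₂) *
          (YY M B nu ns L (R0 C) j z * YY M B nu ns L (R0 C) (H - j) z) := by
    intro j hj
    have hjH : j ≤ H := Nat.lt_succ_iff.1 (Finset.mem_range.1 hj)
    rw [← Finset.sum_filter]
    have key : ∀ v ∈ (Box M B nu ns H (R0 C)).filter (fun v => good v j),
        ∃ q : V × V, q.1 ∈ Box M B nu ns j R ∧ q.2 ∈ Box M B nu ns (H - j) R ∧
          v = q.1 + (M ^ (j : ℤ)) q.2 ∧
          yl M L j q.1 + yl M L (H - j) q.2 ≤ yl M L H v + N := by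
      intro v hv
      rw [Finset.mem_filter] at hv
      obtain ⟨x₁, h1, v₂, h2, h3, h4⟩ :=
        cut_one Hy S hA0 hA hc0 hjH hv.1 (lw v) (hlw1 v hv.1) (hlw3 v hv.1) (hlw4 v hv.1) hv.2
      exact ⟨(x₁, v₂), h1, h2, h3, h4.trans (Nat.add_le_add_right (hlw2 v hv.1) _)⟩
    choose! q hq1 hq2 hq3 hq4 using key
    have hbound := sum_le_of_inj ((Box M B nu ns H (R0 C)).filter (fun v => good v j))
      (Box M B nu ns j R ×ˢ Box M B nu ns (H - j) R) q
      (fun v => z ^ yl M L H v)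
      (fun r => (z₀ ^ N)⁻¹ * (z ^ yl M L j r.1 * z ^ yl M L (H - j) r.2))
      (fun v hv => Finset.mem_product.2 ⟨hq1 v hv, hq2 v hv⟩)
      (by
        intro v hv v' hv' hvv
        rw [hq3 v hv, hq3 v' hv', hvv])
      (by
        intro v hv
        rw [← pow_add]
        exact pow_le_of_le hz₀ hz hz1 (hq4 v hv))
      (by intro b _; positivity)
    refine hbound.trans ?_
    rw [← Finset.mul_sum, Finset.sum_product, mul_assoc]
    apply mul_le_mul_of_nonneg_left _ (by positivity)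
    have h1 : ∑ x ∈ Box M B nu ns j R, ∑ y ∈ Box M B nu ns (H - j) R,
        z ^ yl M L j x * z ^ yl M L (H - j) y =
        YY M B nu ns L R j z * YY M B nu ns L R (H - j) z := by
      unfold YY
      rw [Finset.sum_mul_sum]
    rw [h1]
    have a1 := hbox z hz hz1 j
    have a2 := hbox z hz hz1 (H - j)
    have a3 : 0 ≤ YY M B nu ns L R (H - j) z := YY_nonneg _ hzpos.le
    have a4 : 0 ≤ YY M B nu ns L (R0 C) j z := YY_nonneg _ hzpos.le
    calc YY M B nu ns L R j z * YY M B nu ns L R (H - j) z ≤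
        (C₂ * YY M B nu ns L (R0 C) j z) * (C₂ * YY M B nu ns L (R0 C) (H - j) z) :=
          mul_le_mul a1 a2 a3 (by positivity)
      _ = _ := by ring
  calc (H : ℝ) * YY M B nu ns L (R0 C) H z =
        ∑ v ∈ Box M B nu ns H (R0 C), (H : ℝ) * z ^ yl M L H v := by
        unfold YY; rw [Finset.mul_sum]
    _ ≤ ∑ v ∈ Box M B nu ns H (R0 C),
        2 * ∑ j ∈ Finset.range (H + 1), (if good v j then z ^ yl M L H v else 0) :=
        Finset.sum_le_sum hstep
    _ = 2 * ∑ j ∈ Finset.range (H + 1), ∑ v ∈ Box M B nu ns H (R0 C),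
        (if good v j then z ^ yl M L H v else 0) := by
        rw [← Finset.mul_sum, Finset.sum_comm]
    _ ≤ 2 * ∑ j ∈ Finset.range (H + 1),
        (z₀ ^ N)⁻¹ * (C₂ * C₂) *
          (YY M B nu ns L (R0 C) j z * YY M B nu ns L (R0 C) (H - j) z) := by
        apply mul_le_mul_of_nonneg_left (Finset.sum_le_sum hmain) (by norm_num)
    _ = _ := by
        rw [← Finset.mul_sum]; ring

end MPa1853dH
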