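import Pool.Agent.Lib.MP_a1853d_al.HY.Spec

set_option autoImplicit false

/-! # EXPD: the elements of a box of height `H` have linear cost -/

namespace MPa1853dH

theorem specExpd : SpecExpd := by
  intro V _ M B nu ns C κ L E Ct Hy S R
  have hC := Hy.one_le
  have hκ := Hy.one_lt
  set r : ℝ := κ⁻¹ with hr
  have hr0 : 0 < r := inv_pos.2 Hy.κ_pos
  have hr1 : r < 1 := inv_lt_one_of_one_lt₀ hκ
  have h1r : 0 < 1 - r := by linarith
  have hdiv : ∀ h : ℕ, C / κ ^ h = C * r ^ h := fun h => by
    rw [hr, inv_pow, div_eq_mul_inv]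
  set A : ℝ := max R (C * C) with hA
  set R'' : ℝ := A + C + |R| + C * C * (r / (1 - r)) with hR''
  have hA0 : 1 ≤ A := le_max_of_le_right (by nlinarith)
  have hgeo : 0 ≤ C * C * (r / (1 - r)) := by positivity
  obtain ⟨N, hN⟩ := Hy.exists_insert S R''
  have key : ∀ (H h : ℕ), h ≤ H → ∀ v ∈ B, nu ((M ^ (-(h : ℤ))) v) ≤ A →
      ns v ≤ R + C * C * (r ^ (h + 1) / (1 - r)) → PP M L 0 H v (Ct * H + N * (h + 1)) := by
    intro H h
    induction h with
    | zero =>
      intro _ v hv h1 h2
      have h3 : v ∈ Sm B nu ns R'' := by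
        refine ⟨hv, ?_, ?_⟩
        · rw [Nat.cast_zero, neg_zero, Mp_zero] at h1
          have := abs_nonneg R
          linarith
        · rw [zero_add, pow_one] at h2
          have := le_abs_self R
          linarith
      have h4 := hN v h3 0 H 0 0 _ le_rfl (by positivity) (PP.tmove (M := M) S 0 H)
      refine h4.of_eq ?_ ?_
      · rw [Mp_zero, zero_add]
      · simp
    | succ h ih =>
      intro hh v hv h1 h2
      obtain ⟨w, hw, a1, a2⟩ := Hy.covu ((M ^ (-((h + 1 : ℕ) : ℤ))) v)
      have hwS : w ∈ Sm B nu ns R'' := by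
        refine ⟨hw, ?_, ?_⟩
        · have := Hy.nu_sub ((M ^ (-((h + 1 : ℕ) : ℤ))) v) ((M ^ (-((h + 1 : ℕ) : ℤ))) v - w)
          rw [sub_sub_cancel] at this
          have := abs_nonneg R
          linarith
        · have := abs_nonneg R
          linarith
      have hv' : v - (M ^ ((h + 1 : ℕ) : ℤ)) w ∈ B := B.sub_mem hv (Hy.mem_pow hw _)
      have hnu : nu ((M ^ (-(h : ℤ))) (v - (M ^ ((h + 1 : ℕ) : ℤ)) w)) ≤ A := by
        have e1 : (M ^ (-(h : ℤ))) (v - (M ^ ((h + 1 : ℕ) : ℤ)) w) =
            M ((M ^ (-((h + 1 : ℕ) : ℤ))) v - w) := by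
          rw [← Mp_one M, map_sub, map_sub, ← Mp_add, ← Mp_add]
          congr 2
          · push_cast
            congr 2
            ring
          · push_cast
            congr 2
            ring
        rw [e1]
        refine (Hy.nu_lip _).trans ?_
        exact (mul_le_mul_of_nonneg_left a1 Hy.C_pos.le).trans (le_max_right _ _)
      have hns : ns (v - (M ^ ((h + 1 : ℕ) : ℤ)) w) ≤ R + C * C * (r ^ (h + 1) / (1 - r)) := by
        have b1 := Hy.ns_sub v ((M ^ ((h + 1 : ℕ) : ℤ)) w)
        have b2 := Hy.ns_con (h + 1) w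
        rw [hdiv] at b2
        have b3 : C * r ^ (h + 1) * ns w ≤ C * r ^ (h + 1) * C :=
          mul_le_mul_of_nonneg_left a2 (by positivity)
        have b4 : r ^ (h + 1) / (1 - r) = r ^ (h + 1) + r ^ (h + 1 + 1) / (1 - r) := by
          field_simp
          ring
        rw [b4]
        nlinarith
      have h3 := ih (by omega) _ hv' hnu hns
      have h4 := hN w hwS 0 H ((h + 1 : ℕ) : ℤ) _ _ (by positivity) (by exact_mod_cast hh) h3
      refine h4.of_eq (sub_add_cancel _ _) ?_
      rw [mul_add N (h + 1) 1]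
      omega
  refine ⟨Ct + N, fun H v hv => ?_⟩
  rw [Hy.mem_Box] at hv
  obtain ⟨hv1, hv2, hv3⟩ := hv
  have h1 := key H H le_rfl v hv1 (hv2.trans (le_max_left _ _)) (by
    have : 0 ≤ C * C * (r ^ (H + 1) / (1 - r)) := by positivity
    linarith)
  refine (yl_le h1).trans ?_
  nlinarith

end MPa1853dH
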