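import Mathlib
import Pool.Agent.Lib.MP_a1853d_al.HY.Spec
import Pool.Agent.Lib.MP_a1853d_al.HY.Cong

set_option autoImplicit false

/-! # The equation `(M ^ H - 1) y = w` -/

namespace MPa1853dH

namespace JMODAux

open Filter Topology

variable {V : Type} [AddCommGroup V] {M : V ≃ₗ[ℤ] V} {B : AddSubgroup V} {nu ns : V → ℝ}
  {C κ : ℝ}

theorem tendsto_con (Hy : Hyp M B nu ns C κ) (a : ℝ) :
    Tendsto (fun n : ℕ => C / κ ^ n * a) atTop (𝓝 0) := by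
  have h1 : Tendsto (fun n : ℕ => (κ⁻¹) ^ n) atTop (𝓝 0) :=
    tendsto_pow_atTop_nhds_zero_of_lt_one (inv_nonneg.2 Hy.κ_pos.le)
      (inv_lt_one_of_one_lt₀ Hy.one_lt)
  have h2 : Tendsto (fun n : ℕ => C * (κ⁻¹) ^ n * a) atTop (𝓝 (C * 0 * a)) :=
    (h1.const_mul C).mul_const a
  simp only [mul_zero, zero_mul] at h2
  refine h2.congr fun n => ?_
  rw [inv_pow, div_eq_mul_inv]

theorem exists_con (Hy : Hyp M B nu ns C κ) (a : ℝ) {ε : ℝ} (hε : 0 < ε) :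
    ∃ n₀ : ℕ, ∀ n, n₀ ≤ n → C / κ ^ n * a ≤ ε := by
  have h := (tendsto_con Hy a).eventually (eventually_le_nhds hε)
  exact eventually_atTop.1 h

/-- `∑_{i<k} M^(a i) (M^a y - y) = M^(a k) y - y`. -/
theorem telescope (a : ℤ) (y : V) (k : ℕ) :
    ∑ i ∈ Finset.range k, (M ^ (a * (i : ℤ))) ((M ^ a) y - y) = (M ^ (a * (k : ℤ))) y - y := by
  induction k with
  | zero => simp
  | succ k ih =>
    rw [Finset.sum_range_succ, ih, map_sub, ← Mp_add,
      show a * (k : ℤ) + a = a * ((k + 1 : ℕ) : ℤ) by push_cast; ring]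
    abel

theorem nu_bound (Hy : Hyp M B nu ns C κ) {k : ℕ} (hk : ∀ n, k ≤ n → C / κ ^ n * 1 ≤ 1 / 2)
    {H : ℕ} (hH : 1 ≤ H) (y : V) :
    nu y ≤ (2 * k * C + 1) * nu ((M ^ (-(H : ℤ))) ((M ^ (H : ℤ)) y - y)) := by
  set w := (M ^ (-(H : ℤ))) ((M ^ (H : ℤ)) y - y) with hw
  have hw' : w = - ((M ^ (-(H : ℤ))) y - y) := by
    rw [hw, map_sub, Mp_neg]; abel
  have h1 := telescope (M := M) (-(H : ℤ)) y k
  have h2 : y = (M ^ (-(H : ℤ) * (k : ℤ))) y +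
      ∑ i ∈ Finset.range k, (M ^ (-(H : ℤ) * (i : ℤ))) w := by
    have : ∑ i ∈ Finset.range k, (M ^ (-(H : ℤ) * (i : ℤ))) w =
        - ((M ^ (-(H : ℤ) * (k : ℤ))) y - y) := by
      rw [← h1, ← Finset.sum_neg_distrib]
      apply Finset.sum_congr rfl
      intro i _
      rw [hw', map_neg]
    rw [this]; abel
  have h3 : nu ((M ^ (-(H : ℤ) * (k : ℤ))) y) ≤ 1 / 2 * nu y := by
    have e : -(H : ℤ) * (k : ℤ) = -((H * k : ℕ) : ℤ) := by push_cast; ring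
    rw [e]
    refine (Hy.nu_con _ _).trans ?_
    apply mul_le_mul_of_nonneg_right _ (Hy.nu_nonneg y)
    have := hk (H * k) (Nat.le_mul_of_pos_left k hH)
    linarith
  have h4 : nu (∑ i ∈ Finset.range k, (M ^ (-(H : ℤ) * (i : ℤ))) w) ≤ k * (C * nu w) := by
    refine (Hy.nu_sum _ _).trans ?_
    have : ∀ i ∈ Finset.range k, nu ((M ^ (-(H : ℤ) * (i : ℤ))) w) ≤ C * nu w := by
      intro i _
      have e : -(H : ℤ) * (i : ℤ) = -((H * i : ℕ) : ℤ) := by push_cast; ring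
      rw [e]
      exact Hy.nu_down _ _
    refine (Finset.sum_le_sum this).trans ?_
    rw [Finset.sum_const, Finset.card_range, nsmul_eq_mul]
  have h5 : nu y ≤ 1 / 2 * nu y + k * (C * nu w) := by
    have h6 := Hy.nu_add ((M ^ (-(H : ℤ) * (k : ℤ))) y)
      (∑ i ∈ Finset.range k, (M ^ (-(H : ℤ) * (i : ℤ))) w)
    rw [← h2] at h6
    linarith
  have h7 := Hy.nu_nonneg w
  nlinarith

theorem ns_bound (Hy : Hyp M B nu ns C κ) {k : ℕ} (hk : ∀ n, k ≤ n → C / κ ^ n * 1 ≤ 1 / 2)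
    {H : ℕ} (hH : 1 ≤ H) (y : V) :
    ns y ≤ (2 * k * C + 1) * ns ((M ^ (H : ℤ)) y - y) := by
  set w := (M ^ (H : ℤ)) y - y with hw
  have h1 := telescope (M := M) (H : ℤ) y k
  have h2 : y = (M ^ ((H : ℤ) * (k : ℤ))) y -
      ∑ i ∈ Finset.range k, (M ^ ((H : ℤ) * (i : ℤ))) w := by
    rw [h1]; abel
  have h3 : ns ((M ^ ((H : ℤ) * (k : ℤ))) y) ≤ 1 / 2 * ns y := by
    have e : (H : ℤ) * (k : ℤ) = ((H * k : ℕ) : ℤ) := by push_cast; ring
    rw [e]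
    refine (Hy.ns_con _ _).trans ?_
    apply mul_le_mul_of_nonneg_right _ (Hy.ns_nonneg y)
    have := hk (H * k) (Nat.le_mul_of_pos_left k hH)
    linarith
  have h4 : ns (∑ i ∈ Finset.range k, (M ^ ((H : ℤ) * (i : ℤ))) w) ≤ k * (C * ns w) := by
    refine (Hy.ns_sum _ _).trans ?_
    have : ∀ i ∈ Finset.range k, ns ((M ^ ((H : ℤ) * (i : ℤ))) w) ≤ C * ns w := by
      intro i _
      have e : (H : ℤ) * (i : ℤ) = ((H * i : ℕ) : ℤ) := by push_cast; ring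
      rw [e]
      exact Hy.ns_up _ _
    refine (Finset.sum_le_sum this).trans ?_
    rw [Finset.sum_const, Finset.card_range, nsmul_eq_mul]
  have h5 : ns y ≤ 1 / 2 * ns y + k * (C * ns w) := by
    have h6 := Hy.ns_sub ((M ^ ((H : ℤ) * (k : ℤ))) y)
      (∑ i ∈ Finset.range k, (M ^ ((H : ℤ) * (i : ℤ))) w)
    rw [← h2] at h6
    linarith
  have h7 := Hy.ns_nonneg w
  nlinarith

/-- part (a) -/
theorem partA (Hy : Hyp M B nu ns C κ) :
    ∃ C' : ℝ, 0 < C' ∧ ∀ H : ℕ, 1 ≤ H → ∀ y : V,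
      nu y ≤ C' * nu ((M ^ (-(H : ℤ))) ((M ^ (H : ℤ)) y - y)) ∧
      ns y ≤ C' * ns ((M ^ (H : ℤ)) y - y) := by
  obtain ⟨k, hk⟩ := exists_con Hy 1 (show (0 : ℝ) < 1 / 2 by norm_num)
  refine ⟨2 * k * C + 1, by have := Hy.C_pos; positivity, fun H hH y => ⟨?_, ?_⟩⟩
  · exact nu_bound Hy hk hH y
  · exact ns_bound Hy hk hH y

/-- part (b) -/
theorem partB (Hy : Hyp M B nu ns C κ) :
    ∃ R : ℝ, ∀ H : ℕ, 1 ≤ H → ∀ x : V, ∃ v ∈ Box M B nu ns H R, InJ M H (x - v) := by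
  refine ⟨1 + (C + C * C), fun H hH x => ?_⟩
  -- integral representative with small `ns`
  obtain ⟨i, hi⟩ := Hy.exh x
  obtain ⟨n₀, hn₀⟩ := exists_con Hy (ns x) one_pos
  set n := max i n₀ with hn
  have hnH : n ≤ n * H := Nat.le_mul_of_pos_right n hH
  set x' := (M ^ ((n * H : ℕ) : ℤ)) x with hx'
  have hx'B : x' ∈ B := by
    have h1 := Hy.mem_pow hi (n * H - i)
    have h2 : i ≤ n * H := (le_max_left _ _).trans hnH
    rwa [← Mp_add, show ((n * H - i : ℕ) : ℤ) + (i : ℤ) = ((n * H : ℕ) : ℤ) by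
      rw [Nat.cast_sub h2]; ring] at h1
  have hx's : ns x' ≤ 1 := by
    refine (Hy.ns_con _ _).trans ?_
    exact hn₀ _ ((le_max_right _ _).trans hnH)
  have hxx' : InJ M H (x' - x) := by
    have := InJ.period M H (n : ℤ) x
    rw [hx']
    rwa [show ((n * H : ℕ) : ℤ) = (n : ℤ) * (H : ℤ) by push_cast; ring]
  -- the sum
  obtain ⟨m, hm⟩ := exists_con Hy (nu x') one_pos
  set u := ∑ j ∈ Finset.range m, (M ^ (-(H : ℤ) * (j : ℤ))) ((M ^ (-(H : ℤ))) x') with hu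
  have hu' : (M ^ (H : ℤ)) u - u = x' - (M ^ (-((m * H : ℕ) : ℤ))) x' := by
    have h1 : (M ^ (H : ℤ)) u - u =
        - ∑ j ∈ Finset.range m, (M ^ (-(H : ℤ) * (j : ℤ))) ((M ^ (-(H : ℤ))) x' - x') := by
      rw [hu, map_sum, ← Finset.sum_sub_distrib, ← Finset.sum_neg_distrib]
      apply Finset.sum_congr rfl
      intro j _
      rw [Mp_comm, Mp_neg', map_sub]
      abel
    rw [h1, telescope, show -(H : ℤ) * (m : ℤ) = -((m * H : ℕ) : ℤ) by push_cast; ring]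
    abel
  obtain ⟨y, hyB, hy1, hy2⟩ := Hy.covu u
  set v := x' - ((M ^ (H : ℤ)) y - y) with hv
  have hvB : v ∈ B := B.sub_mem hx'B (B.sub_mem (Hy.mem_pow hyB H) hyB)
  have hC := Hy.one_le
  have hCp := Hy.C_pos
  refine ⟨v, ?_, ?_⟩
  · rw [Hy.mem_Box]
    refine ⟨hvB, ?_, ?_⟩
    · have h1 : v = (M ^ (-((m * H : ℕ) : ℤ))) x' + ((M ^ (H : ℤ)) (u - y) - (u - y)) := by
        rw [map_sub]
        have : x' = (M ^ (H : ℤ)) u - u + (M ^ (-((m * H : ℕ) : ℤ))) x' := by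
          rw [hu']; abel
        rw [hv]
        nth_rewrite 1 [this]
        abel
      have h2 : (M ^ (-(H : ℤ))) v = (M ^ (-((m * H + H : ℕ) : ℤ))) x' +
          ((u - y) - (M ^ (-(H : ℤ))) (u - y)) := by
        rw [h1, map_add, map_sub, Mp_neg, ← Mp_add,
          show -(H : ℤ) + -((m * H : ℕ) : ℤ) = -((m * H + H : ℕ) : ℤ) by push_cast; ring]
      rw [h2]
      have h3 : nu ((M ^ (-((m * H + H : ℕ) : ℤ))) x') ≤ 1 := by
        refine (Hy.nu_con _ _).trans ?_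
        apply hm
        have : m ≤ m * H := Nat.le_mul_of_pos_right m hH
        omega
      have h4 := Hy.nu_add ((M ^ (-((m * H + H : ℕ) : ℤ))) x')
        ((u - y) - (M ^ (-(H : ℤ))) (u - y))
      have h5 := Hy.nu_sub (u - y) ((M ^ (-(H : ℤ))) (u - y))
      have h6 := Hy.nu_down H (u - y)
      have h7 : C * nu (u - y) ≤ C * C := mul_le_mul_of_nonneg_left hy1 hCp.le
      linarith
    · have h4 := Hy.ns_sub x' ((M ^ (H : ℤ)) y - y)
      have h5 := Hy.ns_sub ((M ^ (H : ℤ)) y) y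
      have h6 := Hy.ns_up H y
      have h7 : C * ns y ≤ C * C := mul_le_mul_of_nonneg_left hy2 hCp.le
      linarith
  · have h1 : x - v = -(x' - x) + ((M ^ (H : ℤ)) y - y) := by rw [hv]; abel
    rw [h1]
    exact hxx'.neg.add ⟨y, rfl⟩

/-- part (c) -/
theorem partC (Hy : Hyp M B nu ns C κ) (R : ℝ) :
    ∃ K : ℕ, ∀ H : ℕ, 1 ≤ H → ∀ (x : V) (u : Finset V), u ⊆ Box M B nu ns H R →
      (∀ a ∈ u, InJ M H (a - x)) → u.card ≤ K := by
  classical
  obtain ⟨C', hC', hA⟩ := partA Hy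
  set F := (Hy.Sm_finite (C' * (2 * R))).toFinset with hF
  have hFm : ∀ b, b ∈ F ↔ b ∈ Sm B nu ns (C' * (2 * R)) := fun b => Set.Finite.mem_toFinset _
  refine ⟨F.card, fun H hH x u hu hux => ?_⟩
  rcases u.eq_empty_or_nonempty with rfl | ⟨a₀, ha₀⟩
  · simp
  have key : ∀ a ∈ u, ∃ y : V, y ∈ F ∧ a = a₀ + ((M ^ (H : ℤ)) y - y) := by
    intro a ha
    have h1 : InJ M H (a - a₀) := (hux a ha).trans (hux a₀ ha₀).symm
    obtain ⟨y, hy⟩ := h1
    have ba := (Hy.mem_Box).1 (hu ha)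
    have ba₀ := (Hy.mem_Box).1 (hu ha₀)
    have hyB : y ∈ B := by
      apply Hy.mem_of_sub_mem hH
      rw [← hy]
      exact B.sub_mem ba.1 ba₀.1
    obtain ⟨b1, b2⟩ := hA H hH y
    rw [← hy] at b1 b2
    refine ⟨y, ?_, by rw [← hy]; abel⟩
    rw [hFm]
    refine ⟨hyB, b1.trans ?_, b2.trans ?_⟩
    · apply mul_le_mul_of_nonneg_left _ hC'.le
      rw [map_sub]
      have := Hy.nu_sub ((M ^ (-(H : ℤ))) a) ((M ^ (-(H : ℤ))) a₀)
      linarith [ba.2.1, ba₀.2.1]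
    · apply mul_le_mul_of_nonneg_left _ hC'.le
      have := Hy.ns_sub a a₀
      linarith [ba.2.2, ba₀.2.2]
  choose! y hy hay using key
  apply Finset.card_le_card_of_injOn y
  · intro a ha
    exact hy a ha
  · intro a ha b hb hab
    rw [hay a ha, hay b hb, hab]

end JMODAux

/-- The equation `(M ^ H - 1) y = w`. -/
theorem specJmod : SpecJmod := by
  intro V _ M B nu ns C κ Hy
  exact ⟨JMODAux.partA Hy, JMODAux.partB Hy, JMODAux.partC Hy⟩

end MPa1853dH
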