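import Mathlib
import Pool.Agent.Lib.MP_a1853d_al.HY.Spec

set_option autoImplicit false

/-!
# LINA: the splitting of a real matrix without eigenvalues of modulus one (helper88)
-/

namespace MPa1853dH

namespace LINAaux

open Polynomial

/-- A sequence with `u (h+1) ≤ a u h + K r^h`, `a, r < 1`, decays exponentially. -/
theorem rec_decay (u : ℕ → ℝ) (a K r : ℝ) (ha0 : 0 ≤ a) (ha : a < 1) (hK : 0 ≤ K) (hr0 : 0 ≤ r)
    (hr : r < 1) (hu0 : ∀ h, 0 ≤ u h) (hu : ∀ h, u (h + 1) ≤ a * u h + K * r ^ h) :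
    ∃ C q : ℝ, 0 ≤ C ∧ 0 ≤ q ∧ q < 1 ∧ ∀ h, u h ≤ C * q ^ h := by
  set m := max a r with hm
  have hma : a ≤ m := le_max_left _ _
  have hmr : r ≤ m := le_max_right _ _
  have hm1 : m < 1 := max_lt ha hr
  have hm0 : 0 ≤ m := ha0.trans hma
  set q := (1 + m) / 2 with hq
  have hq1 : q < 1 := by rw [hq]; linarith
  have hqm : m < q := by rw [hq]; linarith
  have hq0 : 0 ≤ q := hm0.trans hqm.le
  have hqa : 0 < q - a := by linarith
  set D := u 0 + K / (q - a) with hD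
  have hD0 : 0 ≤ D := add_nonneg (hu0 0) (div_nonneg hK hqa.le)
  have hDK : K ≤ D * (q - a) := by
    have : K / (q - a) * (q - a) = K := div_mul_cancel₀ _ hqa.ne'
    have h2 : 0 ≤ u 0 * (q - a) := mul_nonneg (hu0 0) hqa.le
    rw [hD]; nlinarith
  refine ⟨D, q, hD0, hq0, hq1, ?_⟩
  intro h
  induction h with
  | zero => simp only [pow_zero, mul_one]; rw [hD]; have := div_nonneg hK hqa.le; linarith
  | succ h ih =>
    have h1 : r ^ h ≤ q ^ h := pow_le_pow_left₀ hr0 (hmr.trans hqm.le) h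
    have hqh : 0 ≤ q ^ h := pow_nonneg hq0 h
    calc u (h + 1) ≤ a * u h + K * r ^ h := hu h
      _ ≤ a * (D * q ^ h) + K * q ^ h :=
          add_le_add (mul_le_mul_of_nonneg_left ih ha0) (mul_le_mul_of_nonneg_left h1 hK)
      _ ≤ a * (D * q ^ h) + (D * (q - a)) * q ^ h := by
          have := mul_le_mul_of_nonneg_right hDK hqh
          linarith
      _ = D * q ^ (h + 1) := by ring

variable {R : Type*} [NormedRing R] [NormedAlgebra ℂ R]

/-- contracting part -/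
theorem decay_in (T : R) (s : Multiset ℂ) : (∀ μ ∈ s, ‖μ‖ < 1) →
    ∀ Y : R, aeval T ((s.map (fun μ => (X - C μ : ℂ[X]))).prod) * Y = 0 →
    ∃ C q : ℝ, 0 ≤ C ∧ 0 ≤ q ∧ q < 1 ∧ ∀ h : ℕ, ‖T ^ h * Y‖ ≤ C * q ^ h := by
  induction s using Multiset.induction_on with
  | empty =>
    intro _ Y hY
    simp only [Multiset.map_zero, Multiset.prod_zero, map_one, one_mul] at hY
    refine ⟨0, 0, le_rfl, le_rfl, zero_lt_one, ?_⟩
    intro h; simp [hY]
  | cons μ s ih =>
    intro hs Y hY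
    have hμ : ‖μ‖ < 1 := hs μ (Multiset.mem_cons_self μ s)
    have hs' : ∀ ν ∈ s, ‖ν‖ < 1 := fun ν hν => hs ν (Multiset.mem_cons_of_mem hν)
    set Z : R := T * Y - μ • Y with hZ
    have hZ' : aeval T ((s.map (fun μ => (X - C μ : ℂ[X]))).prod) * Z = 0 := by
      have h1 : Z = aeval T (X - C μ : ℂ[X]) * Y := by
        rw [hZ, map_sub, aeval_X, aeval_C, sub_mul, Algebra.algebraMap_eq_smul_one, smul_mul_assoc,
          one_mul]
      rw [h1, ← mul_assoc, ← map_mul, mul_comm]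
      rw [Multiset.map_cons, Multiset.prod_cons] at hY
      exact hY
    obtain ⟨K, r, hK, hr0, hr1, hKr⟩ := ih hs' Z hZ'
    refine rec_decay (fun h => ‖T ^ h * Y‖) ‖μ‖ K r (norm_nonneg _) hμ hK hr0 hr1
      (fun h => norm_nonneg _) ?_
    intro h
    have h2 : T ^ (h + 1) * Y = μ • (T ^ h * Y) + T ^ h * Z := by
      rw [hZ, mul_sub, mul_smul_comm, ← mul_assoc, ← pow_succ]; abel
    show ‖T ^ (h + 1) * Y‖ ≤ _
    rw [h2]
    refine (norm_add_le _ _).trans (add_le_add ?_ (hKr h))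
    rw [norm_smul]

/-- expanding part -/
theorem decay_out (T T' : R) (hT : T' * T = 1) (s : Multiset ℂ) : (∀ μ ∈ s, 1 < ‖μ‖) →
    ∀ Y : R, aeval T ((s.map (fun μ => (X - C μ : ℂ[X]))).prod) * Y = 0 →
    ∃ C q : ℝ, 0 ≤ C ∧ 0 ≤ q ∧ q < 1 ∧ ∀ h : ℕ, ‖T' ^ h * Y‖ ≤ C * q ^ h := by
  induction s using Multiset.induction_on with
  | empty =>
    intro _ Y hY
    simp only [Multiset.map_zero, Multiset.prod_zero, map_one, one_mul] at hY
    refine ⟨0, 0, le_rfl, le_rfl, zero_lt_one, ?_⟩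
    intro h; simp [hY]
  | cons μ s ih =>
    intro hs Y hY
    have hμ : 1 < ‖μ‖ := hs μ (Multiset.mem_cons_self μ s)
    have hμ0 : μ ≠ 0 := by
      intro h0; rw [h0, norm_zero] at hμ; linarith
    have hs' : ∀ ν ∈ s, 1 < ‖ν‖ := fun ν hν => hs ν (Multiset.mem_cons_of_mem hν)
    set Z : R := T * Y - μ • Y with hZ
    have hZ' : aeval T ((s.map (fun μ => (X - C μ : ℂ[X]))).prod) * Z = 0 := by
      have h1 : Z = aeval T (X - C μ : ℂ[X]) * Y := by
        rw [hZ, map_sub, aeval_X, aeval_C, sub_mul, Algebra.algebraMap_eq_smul_one, smul_mul_assoc,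
          one_mul]
      rw [h1, ← mul_assoc, ← map_mul, mul_comm]
      rw [Multiset.map_cons, Multiset.prod_cons] at hY
      exact hY
    obtain ⟨K, r, hK, hr0, hr1, hKr⟩ := ih hs' Z hZ'
    have hinv1 : ‖μ‖⁻¹ < 1 := inv_lt_one_of_one_lt₀ hμ
    have hinv0 : 0 ≤ ‖μ‖⁻¹ := inv_nonneg.mpr (norm_nonneg _)
    refine rec_decay (fun h => ‖T' ^ h * Y‖) ‖μ‖⁻¹ K r hinv0 hinv1 hK hr0 hr1
      (fun h => norm_nonneg _) ?_
    intro h
    have h2 : T' ^ (h + 1) * Y = μ⁻¹ • (T' ^ h * Y - T' ^ (h + 1) * Z) := by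
      have h3 : T' ^ (h + 1) * Z = T' ^ h * Y - μ • (T' ^ (h + 1) * Y) := by
        rw [hZ, mul_sub, mul_smul_comm, ← mul_assoc, pow_succ, mul_assoc (T' ^ h) T' T, hT, mul_one]
      rw [h3, sub_sub_cancel, smul_smul, inv_mul_cancel₀ hμ0, one_smul]
    show ‖T' ^ (h + 1) * Y‖ ≤ _
    rw [h2, norm_smul, norm_inv]
    have h4 : ‖T' ^ (h + 1) * Z‖ ≤ K * r ^ h := by
      refine (hKr (h + 1)).trans ?_
      rw [pow_succ]
      have : 0 ≤ K * r ^ h := mul_nonneg hK (pow_nonneg hr0 h)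
      nlinarith
    calc ‖μ‖⁻¹ * ‖T' ^ h * Y - T' ^ (h + 1) * Z‖
        ≤ ‖μ‖⁻¹ * (‖T' ^ h * Y‖ + ‖T' ^ (h + 1) * Z‖) :=
          mul_le_mul_of_nonneg_left (norm_sub_le _ _) hinv0
      _ ≤ ‖μ‖⁻¹ * ‖T' ^ h * Y‖ + K * r ^ h := by
          rw [mul_add]
          have h5 : ‖μ‖⁻¹ * ‖T' ^ (h + 1) * Z‖ ≤ 1 * ‖T' ^ (h + 1) * Z‖ :=
            mul_le_mul_of_nonneg_right hinv1.le (norm_nonneg _)
          linarith

open Matrix

attribute [local instance] Matrix.linftyOpNormedRing Matrix.linftyOpNormedAlgebra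

/-- the splitting over the complex numbers -/
theorem split_complex (n : ℕ) (A A' : Matrix (Fin n) (Fin n) ℂ) (hA : A' * A = 1)
    (hev : ∀ (μ : ℂ) (x : Fin n → ℂ), ‖μ‖ = 1 → A.mulVec x = μ • x → x = 0) :
    ∃ (P Q : Matrix (Fin n) (Fin n) ℂ) (C q : ℝ), P + Q = 1 ∧ P * P = P ∧ Q * Q = Q ∧
      A * P = P * A ∧ A * Q = Q * A ∧ 0 ≤ C ∧ 0 ≤ q ∧ q < 1 ∧
      (∀ h : ℕ, ‖A' ^ h * P‖ ≤ C * q ^ h) ∧ (∀ h : ℕ, ‖A ^ h * Q‖ ≤ C * q ^ h) := by
  classical
  set χ : ℂ[X] := A.charpoly with hχ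
  have hroot : ∀ μ ∈ χ.roots, ‖μ‖ ≠ 1 := by
    intro μ hμ h1
    have h2 : χ.eval μ = 0 := (Polynomial.mem_roots'.1 hμ).2
    have h3 : (Matrix.scalar (Fin n) μ - A).det = 0 := by
      rw [← Matrix.eval_charpoly]; exact h2
    obtain ⟨x, hx0, hx⟩ := Matrix.exists_mulVec_eq_zero_iff.2 h3
    apply hx0
    apply hev μ x h1
    rw [Matrix.sub_mulVec, sub_eq_zero] at hx
    rw [← hx]
    simp [Matrix.scalar_apply]
  set si := χ.roots.filter (fun μ => ‖μ‖ < 1) with hsi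
  set so := χ.roots.filter (fun μ => ¬ ‖μ‖ < 1) with hso
  have hsplit : χ = (si.map (fun μ => (X - C μ : ℂ[X]))).prod *
      (so.map (fun μ => (X - C μ : ℂ[X]))).prod := by
    rw [← Multiset.prod_add, ← Multiset.map_add, hsi, hso, Multiset.filter_add_not]
    have hmon : χ.Monic := Matrix.charpoly_monic A
    exact (IsAlgClosed.splits χ).eq_prod_roots_of_monic hmon
  set pi := (si.map (fun μ => (X - C μ : ℂ[X]))).prod with hpi
  set po := (so.map (fun μ => (X - C μ : ℂ[X]))).prod with hpo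
  have hsi1 : ∀ μ ∈ si, ‖μ‖ < 1 := fun μ hμ => (Multiset.mem_filter.1 hμ).2
  have hso1 : ∀ μ ∈ so, 1 < ‖μ‖ := by
    intro μ hμ
    have h1 := Multiset.mem_filter.1 hμ
    exact lt_of_le_of_ne (not_lt.1 h1.2) (fun h => hroot μ h1.1 h.symm)
  have hcop : IsCoprime pi po := by
    rw [hpi, hpo]
    have key : ∀ t : Multiset ℂ, (∀ μ ∈ t, ‖μ‖ < 1) → ∀ t' : Multiset ℂ, (∀ μ ∈ t', 1 < ‖μ‖) →
        IsCoprime ((t.map (fun μ => (X - C μ : ℂ[X]))).prod)
          ((t'.map (fun μ => (X - C μ : ℂ[X]))).prod) := by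
      intro t
      induction t using Multiset.induction_on with
      | empty => intro _ t' _; simpa using isCoprime_one_left
      | cons a t iht =>
        intro ht t' ht'
        rw [Multiset.map_cons, Multiset.prod_cons]
        refine IsCoprime.mul_left ?_ (iht (fun μ hμ => ht μ (Multiset.mem_cons_of_mem hμ)) t' ht')
        have ha : ‖a‖ < 1 := ht a (Multiset.mem_cons_self a t)
        clear iht ht
        induction t' using Multiset.induction_on with
        | empty => simpa using isCoprime_one_right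
        | cons b t' ih' =>
          rw [Multiset.map_cons, Multiset.prod_cons]
          refine IsCoprime.mul_right ?_ (ih' (fun μ hμ => ht' μ (Multiset.mem_cons_of_mem hμ)))
          have hb : 1 < ‖b‖ := ht' b (Multiset.mem_cons_self b t')
          have hab : a ≠ b := by
            intro h; rw [h] at ha; linarith
          exact Polynomial.isCoprime_X_sub_C_of_isUnit_sub (sub_ne_zero.2 hab).isUnit
    exact key si hsi1 so hso1
  obtain ⟨a, b, hab⟩ := hcop
  have hzero : aeval A χ = 0 := Matrix.aeval_self_charpoly A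
  set P : Matrix (Fin n) (Fin n) ℂ := aeval A (a * pi) with hP
  set Q : Matrix (Fin n) (Fin n) ℂ := aeval A (b * po) with hQ
  have hPQ : P + Q = 1 := by rw [hP, hQ, ← map_add, hab, map_one]
  have hPQ0 : P * Q = 0 := by
    rw [hP, hQ, ← map_mul]
    have : a * pi * (b * po) = a * b * χ := by rw [hsplit]; ring
    rw [this, map_mul, hzero, mul_zero]
  have hQP0 : Q * P = 0 := by
    rw [hP, hQ, ← map_mul]
    have : b * po * (a * pi) = a * b * χ := by rw [hsplit]; ring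
    rw [this, map_mul, hzero, mul_zero]
  have hPP : P * P = P := by
    have : P * (P + Q) = P := by rw [hPQ, mul_one]
    rwa [mul_add, hPQ0, add_zero] at this
  have hQQ : Q * Q = Q := by
    have : Q * (P + Q) = Q := by rw [hPQ, mul_one]
    rwa [mul_add, hQP0, zero_add] at this
  have hcomm : ∀ p : ℂ[X], A * aeval A p = aeval A p * A := by
    intro p
    have h1 : aeval A (X * p) = A * aeval A p := by rw [map_mul, aeval_X]
    have h2 : aeval A (p * X) = aeval A p * A := by rw [map_mul, aeval_X]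
    rw [← h1, ← h2, mul_comm]
  have hPz : aeval A po * P = 0 := by
    rw [hP, ← map_mul]
    have : po * (a * pi) = a * χ := by rw [hsplit]; ring
    rw [this, map_mul, hzero, mul_zero]
  have hQz : aeval A pi * Q = 0 := by
    rw [hQ, ← map_mul]
    have : pi * (b * po) = b * χ := by rw [hsplit]; ring
    rw [this, map_mul, hzero, mul_zero]
  obtain ⟨C1, q1, hC1, hq10, hq11, h1⟩ := decay_out A A' hA so hso1 P hPz
  obtain ⟨C2, q2, hC2, hq20, hq21, h2⟩ := decay_in A si hsi1 Q hQz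
  refine ⟨P, Q, max C1 C2, max q1 q2, hPQ, hPP, hQQ, hcomm _, hcomm _,
    hC1.trans (le_max_left _ _), hq10.trans (le_max_left _ _), max_lt hq11 hq21, ?_, ?_⟩
  · intro h
    refine (h1 h).trans ?_
    exact mul_le_mul (le_max_left _ _) (pow_le_pow_left₀ hq10 (le_max_left _ _) h)
      (pow_nonneg hq10 h) (hC1.trans (le_max_left _ _))
  · intro h
    refine (h2 h).trans ?_
    exact mul_le_mul (le_max_right _ _) (pow_le_pow_left₀ hq20 (le_max_right _ _) h)
      (pow_nonneg hq20 h) (hC1.trans (le_max_left _ _))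

theorem norm_map_conj {n : ℕ} (M : Matrix (Fin n) (Fin n) ℂ) :
    ‖M.map (starRingEnd ℂ)‖ = ‖M‖ := by
  rw [Matrix.linfty_opNorm_def, Matrix.linfty_opNorm_def]
  simp

theorem norm_map_ofReal {n : ℕ} (M : Matrix (Fin n) (Fin n) ℝ) :
    ‖M.map (algebraMap ℝ ℂ)‖ = ‖M‖ := by
  rw [Matrix.linfty_opNorm_def, Matrix.linfty_opNorm_def]
  simp

theorem linA (n : ℕ) (A A' : Matrix (Fin n) (Fin n) ℝ) (hAA : A * A' = 1)
    (hev : ∀ (μ : ℂ) (x : Fin n → ℂ), ‖μ‖ = 1 →
      (A.map (algebraMap ℝ ℂ)).mulVec x = μ • x → x = 0) :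
    ∃ (P Q : Matrix (Fin n) (Fin n) ℝ) (C κ : ℝ), P + Q = 1 ∧ P * P = P ∧ Q * Q = Q ∧
      A * P = P * A ∧ A * Q = Q * A ∧ 1 ≤ C ∧ 1 < κ ∧
      (∀ (h : ℕ) (x : Fin n → ℝ), ‖(A' ^ h * P).mulVec x‖ ≤ C / κ ^ h * ‖x‖) ∧
      (∀ (h : ℕ) (x : Fin n → ℝ), ‖(A ^ h * Q).mulVec x‖ ≤ C / κ ^ h * ‖x‖) := by
  have hA'A : A' * A = 1 := mul_eq_one_comm.1 hAA
  set Ac := A.map (algebraMap ℝ ℂ) with hAc
  set Bc := A'.map (algebraMap ℝ ℂ) with hBc
  have hBA : Bc * Ac = 1 := by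
    rw [hAc, hBc, ← Matrix.map_mul, hA'A, Matrix.map_one _ (map_zero _) (map_one _)]
  have hAB : Ac * Bc = 1 := mul_eq_one_comm.1 hBA
  obtain ⟨P, Q, C, q, hPQ, hPP, hQQ, hAP, hAQ, hC, hq0, hq1, hdP, hdQ⟩ :=
    split_complex n Ac Bc hBA hev
  -- powers
  have hpow : ∀ h : ℕ, Bc ^ h * Ac ^ h = 1 := by
    intro h
    have hc : Commute Bc Ac := by rw [Commute, SemiconjBy, hBA, hAB]
    rw [← hc.mul_pow, hBA, one_pow]
  have hpow' : ∀ h : ℕ, Ac ^ h * Bc ^ h = 1 := fun h => mul_eq_one_comm.1 (hpow h)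
  have hcP : ∀ h : ℕ, P * Ac ^ h = Ac ^ h * P := by
    intro h
    have hc : Commute P Ac := hAP.symm
    exact (hc.pow_right h)
  have hcQ : ∀ h : ℕ, Q * Bc ^ h = Bc ^ h * Q := by
    intro h
    have hc : Commute Q Ac := hAQ.symm
    have h1 : Q * Ac ^ h = Ac ^ h * Q := hc.pow_right h
    calc Q * Bc ^ h = (Bc ^ h * Ac ^ h) * (Q * Bc ^ h) := by rw [hpow, one_mul]
      _ = Bc ^ h * (Ac ^ h * Q) * Bc ^ h := by simp only [mul_assoc]
      _ = Bc ^ h * (Q * Ac ^ h) * Bc ^ h := by rw [h1]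
      _ = Bc ^ h * Q * (Ac ^ h * Bc ^ h) := by simp only [mul_assoc]
      _ = Bc ^ h * Q := by rw [hpow', mul_one]
  -- conjugation
  set cj : Matrix (Fin n) (Fin n) ℂ → Matrix (Fin n) (Fin n) ℂ :=
    fun M => M.map (starRingEnd ℂ) with hcj
  have hcmul : ∀ M N, cj (M * N) = cj M * cj N := fun M N => Matrix.map_mul
  have hcAc : cj Ac = Ac := by
    ext i j; simp [hcj, hAc]
  have hcBc : cj Bc = Bc := by
    ext i j; simp [hcj, hBc]
  have hc1 : cj 1 = 1 := Matrix.map_one _ (map_zero _) (map_one _)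
  have hcadd : ∀ M N, cj (M + N) = cj M + cj N := by
    intro M N; ext i j; simp [hcj]
  have hcpow : ∀ (M : Matrix (Fin n) (Fin n) ℂ) (h : ℕ), cj (M ^ h) = cj M ^ h := by
    intro M h
    induction h with
    | zero => rw [pow_zero, pow_zero, hc1]
    | succ h ih => rw [pow_succ, pow_succ, hcmul, ih]
  have hcn : ∀ M, ‖cj M‖ = ‖M‖ := fun M => norm_map_conj M
  have hsmall : ∀ W : Matrix (Fin n) (Fin n) ℂ, (∀ h : ℕ, ‖W‖ ≤ (C * q ^ h) * (C * q ^ h)) →
      W = 0 := by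
    intro W hW
    have hlim : Filter.Tendsto (fun h : ℕ => (C * q ^ h) * (C * q ^ h)) Filter.atTop
        (nhds ((C * 0) * (C * 0))) := by
      have h1 := (tendsto_pow_atTop_nhds_zero_of_lt_one hq0 hq1).const_mul C
      exact h1.mul h1
    have h2 : ‖W‖ ≤ (C * 0) * (C * 0) := ge_of_tendsto' hlim hW
    have h3 : ‖W‖ ≤ 0 := by simpa using h2
    exact norm_le_zero_iff.1 h3
  have hPQc : P * cj Q = 0 := by
    apply hsmall
    intro h
    have h1 : P * cj Q = (Bc ^ h * P) * (Ac ^ h * cj Q) := by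
      calc P * cj Q = (Bc ^ h * Ac ^ h) * P * cj Q := by rw [hpow, one_mul]
        _ = Bc ^ h * (Ac ^ h * P) * cj Q := by simp only [mul_assoc]
        _ = Bc ^ h * (P * Ac ^ h) * cj Q := by rw [hcP]
        _ = (Bc ^ h * P) * (Ac ^ h * cj Q) := by simp only [mul_assoc]
    have h2 : Ac ^ h * cj Q = cj (Ac ^ h * Q) := by rw [hcmul, hcpow, hcAc]
    rw [h1, h2]
    refine (norm_mul_le _ _).trans (mul_le_mul (hdP h) ?_ (norm_nonneg _)
      (mul_nonneg hC (pow_nonneg hq0 h)))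
    rw [hcn]; exact hdQ h
  have hQPc : Q * cj P = 0 := by
    apply hsmall
    intro h
    have h1 : Q * cj P = (Ac ^ h * Q) * (Bc ^ h * cj P) := by
      calc Q * cj P = (Ac ^ h * Bc ^ h) * Q * cj P := by rw [hpow', one_mul]
        _ = Ac ^ h * (Bc ^ h * Q) * cj P := by simp only [mul_assoc]
        _ = Ac ^ h * (Q * Bc ^ h) * cj P := by rw [hcQ]
        _ = (Ac ^ h * Q) * (Bc ^ h * cj P) := by simp only [mul_assoc]
    have h2 : Bc ^ h * cj P = cj (Bc ^ h * P) := by rw [hcmul, hcpow, hcBc]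
    rw [h1, h2]
    refine (norm_mul_le _ _).trans (mul_le_mul (hdQ h) ?_ (norm_nonneg _)
      (mul_nonneg hC (pow_nonneg hq0 h)))
    rw [hcn]; exact hdP h
  have hsumc : cj P + cj Q = 1 := by rw [← hcadd, hPQ, hc1]
  have hPreal : cj P = P := by
    have h1 : P = P * cj P := by
      calc P = P * (cj P + cj Q) := by rw [hsumc, mul_one]
        _ = P * cj P := by rw [mul_add, hPQc, add_zero]
    have h2 : cj P = P * cj P := by
      calc cj P = (P + Q) * cj P := by rw [hPQ, one_mul]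
        _ = P * cj P := by rw [add_mul, hQPc, add_zero]
    rw [h2]; exact h1.symm
  -- real parts
  set Pr : Matrix (Fin n) (Fin n) ℝ := P.map Complex.re with hPr
  have hPrP : Pr.map (algebraMap ℝ ℂ) = P := by
    ext i j
    have h1 : (starRingEnd ℂ) (P i j) = P i j := by
      have := congrFun (congrFun hPreal i) j
      simpa [hcj] using this
    have h2 := Complex.conj_eq_iff_re.1 h1
    simpa [hPr] using h2
  set Qr : Matrix (Fin n) (Fin n) ℝ := 1 - Pr with hQr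
  have hQrQ : Qr.map (algebraMap ℝ ℂ) = Q := by
    have h1 : Q = 1 - P := by rw [← hPQ]; abel
    rw [h1, hQr, ← hPrP]
    rw [Matrix.map_sub _ (fun a b => map_sub _ a b), Matrix.map_one _ (map_zero _) (map_one _)]
  have hinj : Function.Injective
      (fun M : Matrix (Fin n) (Fin n) ℝ => M.map (algebraMap ℝ ℂ)) :=
    Matrix.map_injective (algebraMap ℝ ℂ).injective
  have hmapmul : ∀ M N : Matrix (Fin n) (Fin n) ℝ, (M * N).map (algebraMap ℝ ℂ) =
      M.map (algebraMap ℝ ℂ) * N.map (algebraMap ℝ ℂ) := fun M N => Matrix.map_mul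
  have hmappow : ∀ (M : Matrix (Fin n) (Fin n) ℝ) (h : ℕ), (M ^ h).map (algebraMap ℝ ℂ) =
      (M.map (algebraMap ℝ ℂ)) ^ h := by
    intro M h
    induction h with
    | zero => rw [pow_zero, pow_zero, Matrix.map_one _ (map_zero _) (map_one _)]
    | succ h ih => rw [pow_succ, pow_succ, hmapmul, ih]
  set m := max q (1 / 2) with hm
  have hm0 : 0 < m := lt_of_lt_of_le (by norm_num) (le_max_right _ _)
  have hm1 : m < 1 := max_lt hq1 (by norm_num)
  have hbound : ∀ (M : Matrix (Fin n) (Fin n) ℝ) (h : ℕ),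
      ‖M.map (algebraMap ℝ ℂ)‖ ≤ C * q ^ h → ∀ x : Fin n → ℝ,
      ‖M.mulVec x‖ ≤ max 1 C / (m⁻¹) ^ h * ‖x‖ := by
    intro M h hM x
    refine (Matrix.linfty_opNorm_mulVec M x).trans ?_
    refine mul_le_mul_of_nonneg_right ?_ (norm_nonneg _)
    rw [← norm_map_ofReal M]
    refine hM.trans ?_
    rw [inv_pow, div_inv_eq_mul]
    exact mul_le_mul (le_max_right _ _) (pow_le_pow_left₀ hq0 (le_max_left _ _) h)
      (pow_nonneg hq0 h) (zero_le_one.trans (le_max_left _ _))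
  refine ⟨Pr, Qr, max 1 C, m⁻¹, ?_, ?_, ?_, ?_, ?_, le_max_left _ _, (one_lt_inv₀ hm0).2 hm1,
    ?_, ?_⟩
  · rw [hQr]; abel
  · apply hinj
    show (Pr * Pr).map (algebraMap ℝ ℂ) = Pr.map (algebraMap ℝ ℂ)
    rw [hmapmul, hPrP, hPP]
  · apply hinj
    show (Qr * Qr).map (algebraMap ℝ ℂ) = Qr.map (algebraMap ℝ ℂ)
    rw [hmapmul, hQrQ, hQQ]
  · apply hinj
    show (A * Pr).map (algebraMap ℝ ℂ) = (Pr * A).map (algebraMap ℝ ℂ)
    rw [hmapmul, hmapmul, hPrP]; exact hAP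
  · apply hinj
    show (A * Qr).map (algebraMap ℝ ℂ) = (Qr * A).map (algebraMap ℝ ℂ)
    rw [hmapmul, hmapmul, hQrQ]; exact hAQ
  · intro h x
    apply hbound
    rw [hmapmul, hmappow, hPrP]; exact hdP h
  · intro h x
    apply hbound
    rw [hmapmul, hmappow, hQrQ]; exact hdQ h

end LINAaux

theorem specLinA : SpecLinA := fun n A A' h hev => LINAaux.linA n A A' h hev

end MPa1853dH
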