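import Mathlib
import Pool.Agent.Lib.MP_a1853d_al.HY.Spec

set_option autoImplicit false

/-! # LINB: the sizes of a hyperbolic automorphism -/

namespace MPa1853dH

namespace LINBAux

/-! ### The free quotient -/

theorem exists_pi (B : Type) [AddCommGroup B] [AddGroup.FG B] [Infinite B] :
    ∃ (n : ℕ) (π : B →+ (Fin n → ℤ)), Function.Surjective π ∧ Finite π.ker ∧ 0 < n := by
  classical
  obtain ⟨n, ι, _, p, hp, e, ⟨f⟩⟩ := AddCommGroup.equiv_free_prod_directSum_zmod B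
  have : ∀ i, NeZero (p i ^ e i) := fun i => ⟨pow_ne_zero _ (hp i).ne_zero⟩
  have h1 : Finite (DirectSum ι (fun i => ZMod (p i ^ e i))) :=
    Finite.of_equiv _ (DFinsupp.equivFunOnFintype (ι := ι) (β := fun i => ZMod (p i ^ e i))).symm
  let g : (Fin n →₀ ℤ) ≃+ (Fin n → ℤ) := (Finsupp.linearEquivFunOnFinite ℤ ℤ (Fin n)).toAddEquiv
  let π : B →+ (Fin n → ℤ) :=
    g.toAddMonoidHom.comp ((AddMonoidHom.fst _ _).comp f.toAddMonoidHom)
  have hπ : ∀ b, π b = g (f b).1 := fun b => rfl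
  have hk : Finite π.ker := by
    apply Finite.of_injective (fun b : π.ker => (f b.1).2)
    intro a b hab
    have ha : π a.1 = 0 := a.2
    have hb : π b.1 = 0 := b.2
    rw [hπ] at ha hb
    have ha' : (f a.1).1 = 0 := by
      apply g.injective
      rw [ha, map_zero]
    have hb' : (f b.1).1 = 0 := by
      apply g.injective
      rw [hb, map_zero]
    apply Subtype.ext
    apply f.injective
    exact Prod.ext (ha'.trans hb'.symm) hab
  refine ⟨n, π, ?_, hk, ?_⟩
  · intro x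
    refine ⟨f.symm (g.symm x, 0), ?_⟩
    rw [hπ]
    simp
  · rcases Nat.eq_zero_or_pos n with h | h
    · exfalso
      subst h
      have : Finite B := by
        apply Finite.of_injective (fun b : B => (⟨b, Subsingleton.elim _ _⟩ : π.ker))
        intro a b hab
        exact congrArg Subtype.val hab
      exact not_finite B
    · exact h

/-! ### The matrix -/

section
variable {B : Type} [AddCommGroup B] {n : ℕ}

theorem pi_eq_zero_of_nsmul (π : B →+ (Fin n → ℤ)) {N : ℕ} (hN : 0 < N) {b : B}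
    (h : N • b = 0) : π b = 0 := by
  have h1 : N • π b = 0 := by rw [← map_nsmul, h, map_zero]
  funext i
  have h2 := congrFun h1 i
  rw [Pi.smul_apply, Pi.zero_apply, nsmul_eq_mul, mul_eq_zero] at h2
  rcases h2 with h2 | h2
  · exfalso
    have : N = 0 := by exact_mod_cast h2
    omega
  · exact h2

theorem nsmul_of_pi_eq_zero (π : B →+ (Fin n → ℤ)) [Finite π.ker] {b : B}
    (h : π b = 0) : ∃ N : ℕ, 0 < N ∧ N • b = 0 := by
  have h1 : IsOfFinAddOrder (⟨b, h⟩ : π.ker) := isOfFinAddOrder_of_finite _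
  obtain ⟨N, hN, h2⟩ := isOfFinAddOrder_iff_nsmul_eq_zero.1 h1
  refine ⟨N, hN, ?_⟩
  exact congrArg Subtype.val h2

theorem exists_matrix (π : B →+ (Fin n → ℤ)) (m : B →+ B) (hs : Function.Surjective π)
    [Finite π.ker] (hm : Function.Injective m) :
    ∃ A : Matrix (Fin n) (Fin n) ℤ, (∀ b, π (m b) = A.mulVec (π b)) ∧
      (∀ x, A.mulVec x = 0 → x = 0) := by
  classical
  choose b hb using fun j : Fin n => hs (Pi.single j 1)
  have key : ∀ c : B, π c = 0 → π (m c) = 0 := by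
    intro c hc
    obtain ⟨N, hN, h⟩ := nsmul_of_pi_eq_zero π hc
    apply pi_eq_zero_of_nsmul π hN
    rw [← map_nsmul, h, map_zero]
  set A : Matrix (Fin n) (Fin n) ℤ := Matrix.of fun i j => π (m (b j)) i with hA
  have hAx : ∀ c, π (m c) = A.mulVec (π c) := by
    intro c
    have h1 : π (c - ∑ j, (π c j) • b j) = 0 := by
      rw [map_sub, map_sum]
      simp_rw [map_zsmul, hb]
      rw [sub_eq_zero]
      funext i
      simp [Finset.sum_apply, Pi.single_apply]
    have h2 := key _ h1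
    rw [map_sub, map_sub, sub_eq_zero, map_sum, map_sum] at h2
    rw [h2]
    funext i
    simp_rw [map_zsmul]
    rw [Finset.sum_apply, Matrix.mulVec, dotProduct]
    apply Finset.sum_congr rfl
    intro j _
    rw [hA, Matrix.of_apply, Pi.smul_apply, smul_eq_mul, mul_comm]
  refine ⟨A, hAx, ?_⟩
  intro x hx
  obtain ⟨c, rfl⟩ := hs x
  rw [← hAx] at hx
  obtain ⟨N, hN, h⟩ := nsmul_of_pi_eq_zero π hx
  rw [← map_nsmul] at h
  have h3 : N • c = 0 := by
    apply hm
    rw [h, map_zero]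
  exact pi_eq_zero_of_nsmul π hN h3

end

/-! ### Real vectors -/

section
variable {n : ℕ}

/-- the real vector of an integer vector -/
def rv (x : Fin n → ℤ) : Fin n → ℝ := fun i => (x i : ℝ)

theorem rv_add (x y : Fin n → ℤ) : rv (x + y) = rv x + rv y := by
  funext i; simp [rv]

theorem rv_mulVec (A : Matrix (Fin n) (Fin n) ℤ) (x : Fin n → ℤ) :
    rv (A.mulVec x) = (A.map (Int.cast : ℤ → ℝ)).mulVec (rv x) := by
  funext i
  simp [rv, Matrix.mulVec, dotProduct]

theorem bound (X : Matrix (Fin n) (Fin n) ℝ) : ∃ K : ℝ, 0 ≤ K ∧ ∀ x, ‖X.mulVec x‖ ≤ K * ‖x‖ := by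
  refine ⟨‖LinearMap.toContinuousLinearMap (Matrix.toLin' X)‖, norm_nonneg _, fun x => ?_⟩
  have := (LinearMap.toContinuousLinearMap (Matrix.toLin' X)).le_opNorm x
  simpa using this

/-- rounding -/
theorem exists_round (x : Fin n → ℝ) : ∃ y : Fin n → ℤ, ‖x - rv y‖ ≤ 1 := by
  refine ⟨fun i => round (x i), ?_⟩
  rw [pi_norm_le_iff_of_nonneg zero_le_one]
  intro i
  rw [Pi.sub_apply, rv, Real.norm_eq_abs]
  have := abs_sub_round (x i)
  linarith

theorem rv_finite (R : ℝ) : {y : Fin n → ℤ | ‖rv y‖ ≤ R}.Finite := by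
  apply (Set.Finite.pi' (t := fun _ : Fin n => Set.Icc (-⌈R⌉) ⌈R⌉)
    (fun _ => Set.finite_Icc _ _)).subset
  intro y hy i
  have h1 : |(y i : ℝ)| ≤ R := (norm_le_pi_norm (rv y) i).trans hy
  rw [abs_le] at h1
  have h2 := Int.le_ceil R
  constructor
  · have : ((-⌈R⌉ : ℤ) : ℝ) ≤ y i := by push_cast; linarith
    exact_mod_cast this
  · have : (y i : ℝ) ≤ (⌈R⌉ : ℤ) := by linarith
    exact_mod_cast this

theorem one_le_norm_rv {y : Fin n → ℤ} (hy : y ≠ 0) : 1 ≤ ‖rv y‖ := by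
  obtain ⟨i, hi⟩ := Function.ne_iff.1 hy
  refine le_trans ?_ (norm_le_pi_norm (rv y) i)
  rw [rv, Real.norm_eq_abs]
  have h1 : 1 ≤ |y i| := Int.one_le_abs hi
  exact_mod_cast h1

end

/-! ### The coordinates of the elements of `V` -/

section
variable {V : Type} [AddCommGroup V] {M : V ≃ₗ[ℤ] V} {B : AddSubgroup V} {n : ℕ}

open Classical in
/-- the coordinates of an integral element -/
noncomputable def pr (π : B →+ (Fin n → ℤ)) (v : V) : Fin n → ℝ :=
  if h : v ∈ B then rv (π ⟨v, h⟩) else 0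

theorem pr_of_mem (π : B →+ (Fin n → ℤ)) {v : V} (h : v ∈ B) : pr π v = rv (π ⟨v, h⟩) := by
  rw [pr, dif_pos h]

theorem pr_add (π : B →+ (Fin n → ℤ)) {v w : V} (h : v ∈ B) (h' : w ∈ B) :
    pr π (v + w) = pr π v + pr π w := by
  rw [pr_of_mem π h, pr_of_mem π h', pr_of_mem π (B.add_mem h h'), ← rv_add, ← map_add]
  rfl

theorem exists_psi (π : B →+ (Fin n → ℤ)) (A A' : Matrix (Fin n) (Fin n) ℝ) (h1 : A * A' = 1)
    (h2 : A' * A = 1) (hinv : ∀ b ∈ B, M b ∈ B) (hexh : ∀ v, ∃ i : ℕ, (M ^ (i : ℤ)) v ∈ B)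
    (hA : ∀ b ∈ B, pr π (M b) = A.mulVec (pr π b)) :
    ∃ ψ : V → Fin n → ℝ, (∀ v w, ψ (v + w) = ψ v + ψ w) ∧ (∀ v, ψ (M v) = A.mulVec (ψ v)) ∧
      (∀ b ∈ B, ψ b = pr π b) := by
  classical
  have hup : ∀ (v : V) (i j : ℕ), (M ^ (i : ℤ)) v ∈ B → (M ^ ((i + j : ℕ) : ℤ)) v ∈ B ∧
      (A' ^ (i + j)).mulVec (pr π ((M ^ ((i + j : ℕ) : ℤ)) v)) =
      (A' ^ i).mulVec (pr π ((M ^ (i : ℤ)) v)) := by
    intro v i j hi
    induction j with
    | zero => exact ⟨hi, rfl⟩
    | succ j ih =>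
      have e : (M ^ ((i + (j + 1) : ℕ) : ℤ)) v = M ((M ^ ((i + j : ℕ) : ℤ)) v) := by
        rw [← Mp_one M, ← Mp_add]
        congr 2
        push_cast; ring
      rw [e]
      refine ⟨hinv _ ih.1, ?_⟩
      rw [hA _ ih.1, ← add_assoc, pow_succ, Matrix.mulVec_mulVec, Matrix.mul_assoc, h2,
        Matrix.mul_one]
      exact ih.2
  set ψ : V → Fin n → ℝ := fun v =>
    (A' ^ (Nat.find (hexh v))).mulVec (pr π ((M ^ ((Nat.find (hexh v) : ℕ) : ℤ)) v)) with hψ
  have hψe : ∀ (v : V) (i : ℕ), (M ^ (i : ℤ)) v ∈ B →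
      ψ v = (A' ^ i).mulVec (pr π ((M ^ (i : ℤ)) v)) := by
    intro v i hi
    have hle : Nat.find (hexh v) ≤ i := Nat.find_min' _ hi
    obtain ⟨j, hj⟩ := Nat.exists_eq_add_of_le hle
    have := (hup v _ j (Nat.find_spec (hexh v))).2
    rw [← hj] at this
    exact this.symm
  refine ⟨ψ, ?_, ?_, ?_⟩
  · intro v w
    obtain ⟨i, hi⟩ := hexh v
    obtain ⟨j, hj⟩ := hexh w
    have hi' := (hup v i j hi).1
    have hj' := (hup w j i hj).1
    rw [add_comm j i] at hj'
    have hvw : (M ^ ((i + j : ℕ) : ℤ)) (v + w) ∈ B := by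
      rw [map_add]; exact B.add_mem hi' hj'
    rw [hψe v _ hi', hψe w _ hj', hψe _ _ hvw, map_add, pr_add π hi' hj', Matrix.mulVec_add]
  · intro v
    obtain ⟨i, hi⟩ := hexh v
    have hi1 := (hup v i 1 hi).1
    have e : (M ^ ((i : ℕ) : ℤ)) (M v) = (M ^ ((i + 1 : ℕ) : ℤ)) v := by
      rw [← Mp_one M v, ← Mp_add]
      congr 2
    have e' : (M ^ ((i : ℕ) : ℤ)) (M v) = M ((M ^ ((i : ℕ) : ℤ)) v) := by
      rw [← Mp_one M v, ← Mp_one M ((M ^ ((i : ℕ) : ℤ)) v), ← Mp_add, ← Mp_add]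
      congr 2
      ring
    have hi2 : (M ^ ((i : ℕ) : ℤ)) (M v) ∈ B := by rw [e]; exact hi1
    rw [hψe _ _ hi2, hψe _ _ hi, e', hA _ hi, Matrix.mulVec_mulVec, Matrix.mulVec_mulVec]
    congr 1
    exact ((show Commute A' A by rw [Commute, SemiconjBy, h1, h2]).pow_left i)
  · intro b hb
    have h0 : (M ^ ((0 : ℕ) : ℤ)) b ∈ B := by
      rw [Nat.cast_zero, Mp_zero]; exact hb
    rw [hψe _ 0 h0, pow_zero, Matrix.one_mulVec, Nat.cast_zero, Mp_zero]

end

/-! ### Eigenvalues -/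

theorem no_eigen {B : Type} [AddCommGroup B] {n : ℕ} (π : B →+ (Fin n → ℤ)) (m : B →+ B)
    (hs : Function.Surjective π) (A : Matrix (Fin n) (Fin n) ℤ)
    (hA : ∀ b, π (m b) = A.mulVec (π b))
    (hchi : ∀ (χ : B → ℂ) (μ : ℂ), (∀ a b : B, χ (a + b) = χ a + χ b) → ‖μ‖ = 1 →
      (∀ b : B, χ (m b) = μ * χ b) → ∀ b, χ b = 0)
    (μ : ℂ) (x : Fin n → ℂ) (hμ : ‖μ‖ = 1)
    (hx : ((A.map (Int.cast : ℤ → ℝ)).map (algebraMap ℝ ℂ)).mulVec x = μ • x) : x = 0 := by
  classical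
  by_contra hx0
  set AC := (A.map (Int.cast : ℤ → ℝ)).map (algebraMap ℝ ℂ) with hAC
  have h1 : (AC - μ • (1 : Matrix (Fin n) (Fin n) ℂ)).mulVec x = 0 := by
    rw [Matrix.sub_mulVec, hx, Matrix.smul_mulVec, Matrix.one_mulVec, sub_self]
  have h2 : (AC - μ • (1 : Matrix (Fin n) (Fin n) ℂ)).det = 0 :=
    Matrix.exists_mulVec_eq_zero_iff.1 ⟨x, hx0, h1⟩
  obtain ⟨y, hy0, hy⟩ := Matrix.exists_vecMul_eq_zero_iff.2 h2
  have h3 : Matrix.vecMul y AC = μ • y := by
    rw [Matrix.vecMul_sub, Matrix.vecMul_smul, Matrix.vecMul_one, sub_eq_zero] at hy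
    exact hy
  have h4 := hchi (fun b => ∑ i, y i * ((π b i : ℤ) : ℂ)) μ ?_ hμ ?_
  · apply hy0
    funext i
    obtain ⟨b, hb⟩ := hs (Pi.single i 1)
    have h5 := h4 b
    simp only [hb] at h5
    rw [Finset.sum_eq_single i] at h5
    · simpa using h5
    · intro j _ hj
      rw [Pi.single_eq_of_ne hj]
      simp
    · intro hi
      exact absurd (Finset.mem_univ i) hi
  · intro a b
    rw [← Finset.sum_add_distrib]
    apply Finset.sum_congr rfl
    intro i _
    rw [map_add, Pi.add_apply]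
    push_cast
    ring
  · intro b
    have e1 : ∀ i, ((π (m b) i : ℤ) : ℂ) = AC.mulVec (fun j => ((π b j : ℤ) : ℂ)) i := by
      intro i
      rw [hA]
      simp [Matrix.mulVec, dotProduct, hAC]
    simp only [e1]
    have e2 : ∑ i, y i * AC.mulVec (fun j => ((π b j : ℤ) : ℂ)) i =
        y ⬝ᵥ AC.mulVec (fun j => ((π b j : ℤ) : ℂ)) := rfl
    rw [e2, Matrix.dotProduct_mulVec, h3, smul_dotProduct, smul_eq_mul]
    rfl

/-! ### Assembly -/

end LINBAux

open LINBAux in
theorem specLinB (h : SpecLinA) : SpecLinB := by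
  classical
  intro V _ M B hinv hfg hinf hexh hchi
  have : AddGroup.FG B := (AddGroup.fg_iff_addSubgroup_fg B).2 hfg
  have : Infinite B := Set.infinite_coe_iff.2 hinf
  obtain ⟨n, π, hs, hk, hn⟩ := exists_pi B
  let m : B →+ B :=
    { toFun := fun b => ⟨M b, hinv b b.2⟩
      map_zero' := Subtype.ext (map_zero M)
      map_add' := fun a b => Subtype.ext (map_add M (a : V) (b : V)) }
  have hmdef : ∀ b : B, m b = ⟨M b, hinv b b.2⟩ := fun b => rfl
  have hm : Function.Injective m := by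
    intro a b hab
    apply Subtype.ext
    apply M.injective
    exact congrArg Subtype.val hab
  obtain ⟨A, hA, hA0⟩ := exists_matrix π m hs hm
  set AR : Matrix (Fin n) (Fin n) ℝ := A.map (Int.cast : ℤ → ℝ) with hAR
  have hdet : A.det ≠ 0 := by
    intro h0
    obtain ⟨v, hv, hv'⟩ := Matrix.exists_mulVec_eq_zero_iff.2 h0
    exact hv (hA0 v hv')
  have hdetR : AR.det ≠ 0 := by
    have : AR.det = ((A.det : ℤ) : ℝ) := by
      rw [hAR]
      exact ((Int.castRingHom ℝ).map_det A).symm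
    rw [this]
    exact_mod_cast hdet
  have h1 : AR * AR⁻¹ = 1 := Matrix.mul_nonsing_inv AR (isUnit_iff_ne_zero.2 hdetR)
  have h2 : AR⁻¹ * AR = 1 := Matrix.nonsing_inv_mul AR (isUnit_iff_ne_zero.2 hdetR)
  set A' := AR⁻¹ with hA'
  have hpr : ∀ b ∈ B, pr π (M b) = AR.mulVec (pr π b) := by
    intro b hb
    rw [pr_of_mem π hb, pr_of_mem π (hinv b hb), ← rv_mulVec, ← hA]
    rfl
  obtain ⟨ψ, ψadd, ψM, ψB⟩ := exists_psi π AR A' h1 h2 hinv hexh hpr
  obtain ⟨P, Q, C, κ, hPQ, hPP, hQQ, hAP, hAQ, hC, hκ, hcu, hcs⟩ := h n AR A' h1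
    (fun μ x hμ hx => no_eigen π m hs A hA hchi μ x hμ hx)
  have hκ0 : 0 < κ := by linarith
  obtain ⟨KA, hKA0, hKA⟩ := bound AR
  obtain ⟨KA', hKA'0, hKA'⟩ := bound A'
  obtain ⟨KP, hKP0, hKP⟩ := bound P
  obtain ⟨KQ, hKQ0, hKQ⟩ := bound Q
  have hPQ0 : P * Q = 0 := by
    have : P * (P + Q) = P := by rw [hPQ, Matrix.mul_one]
    rw [Matrix.mul_add, hPP] at this
    simpa using this
  have hQP0 : Q * P = 0 := by
    have : Q * (P + Q) = Q := by rw [hPQ, Matrix.mul_one]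
    rw [Matrix.mul_add, hQQ] at this
    simpa using this
  have hA'P : A' * P = P * A' := by
    calc A' * P = A' * P * (AR * A') := by rw [h1, Matrix.mul_one]
      _ = A' * (P * AR) * A' := by simp only [Matrix.mul_assoc]
      _ = A' * (AR * P) * A' := by rw [hAP]
      _ = (A' * AR) * P * A' := by simp only [Matrix.mul_assoc]
      _ = P * A' := by rw [h2, Matrix.one_mul]
  have hA'Q : A' * Q = Q * A' := by
    calc A' * Q = A' * Q * (AR * A') := by rw [h1, Matrix.mul_one]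
      _ = A' * (Q * AR) * A' := by simp only [Matrix.mul_assoc]
      _ = A' * (AR * Q) * A' := by rw [hAQ]
      _ = (A' * AR) * Q * A' := by simp only [Matrix.mul_assoc]
      _ = Q * A' := by rw [h2, Matrix.one_mul]
  have ψ0 : ψ 0 = 0 := by
    have := ψadd 0 0
    rw [add_zero] at this
    simpa using this
  have ψneg : ∀ v, ψ (-v) = -ψ v := by
    intro v
    have := ψadd v (-v)
    rw [add_neg_cancel, ψ0] at this
    exact (neg_eq_of_add_eq_zero_right this.symm).symm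
  have ψsub : ∀ v w, ψ (v - w) = ψ v - ψ w := by
    intro v w
    rw [sub_eq_add_neg, ψadd, ψneg, sub_eq_add_neg]
  have ψup : ∀ (i : ℕ) v, ψ ((M ^ (i : ℤ)) v) = (AR ^ i).mulVec (ψ v) := by
    intro i v
    induction i with
    | zero => rw [Nat.cast_zero, Mp_zero, pow_zero, Matrix.one_mulVec]
    | succ i ih =>
      have e : (M ^ ((i + 1 : ℕ) : ℤ)) v = M ((M ^ (i : ℤ)) v) := by
        rw [← Mp_one M ((M ^ (i : ℤ)) v), ← Mp_add]
        congr 2
        push_cast; ring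
      rw [e, ψM, ih, Matrix.mulVec_mulVec, pow_succ']
  have ψdn : ∀ (i : ℕ) v, ψ ((M ^ (-(i : ℤ))) v) = (A' ^ i).mulVec (ψ v) := by
    intro i v
    have e := ψup i ((M ^ (-(i : ℤ))) v)
    rw [Mp_neg'] at e
    rw [e, Matrix.mulVec_mulVec]
    have : A' ^ i * AR ^ i = 1 := by
      have hc : Commute A' AR := by rw [Commute, SemiconjBy, h1, h2]
      rw [← hc.mul_pow, h2, one_pow]
    rw [this, Matrix.one_mulVec]
  -- the constant
  set D : ℝ := C + KA + KA' + KP + KQ with hD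
  have hCD : C ≤ D := by rw [hD]; linarith
  have hD1 : 1 ≤ D := by linarith
  have hKAD : KA ≤ D := by rw [hD]; linarith
  have hKA'D : KA' ≤ D := by rw [hD]; linarith
  have hKPD : KP ≤ D := by rw [hD]; linarith
  have hKQD : KQ ≤ D := by rw [hD]; linarith
  have hdiv : ∀ i : ℕ, C / κ ^ i ≤ D / κ ^ i := fun i =>
    div_le_div_of_nonneg_right hCD (by positivity)
  have hψb : ∀ b (hb : b ∈ B), ψ b = rv (π ⟨b, hb⟩) := fun b hb => by
    rw [ψB b hb, pr_of_mem π hb]
  refine ⟨fun v => ‖P.mulVec (ψ v)‖, fun v => ‖Q.mulVec (ψ v)‖, D, κ, ?_⟩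
  refine
    { one_le := hD1
      one_lt := hκ
      inv := hinv
      exh := hexh
      nu_nonneg := fun v => norm_nonneg _
      ns_nonneg := fun v => norm_nonneg _
      nu_zero := by simp [ψ0]
      ns_zero := by simp [ψ0]
      nu_neg := fun v => by simp [ψneg, Matrix.mulVec_neg]
      ns_neg := fun v => by simp [ψneg, Matrix.mulVec_neg]
      nu_add := fun v w => by
        simp only [ψadd, Matrix.mulVec_add]; exact norm_add_le _ _
      ns_add := fun v w => by
        simp only [ψadd, Matrix.mulVec_add]; exact norm_add_le _ _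
      nu_con := ?_
      ns_con := ?_
      nu_lip := ?_
      ns_lip := ?_
      fin := ?_
      covu := ?_
      covs := ?_
      exp := ?_ }
  · -- nu_con
    intro i v
    have hc : Commute (A' ^ i) P := (show Commute A' P from hA'P).pow_left i
    have e : P.mulVec (ψ ((M ^ (-(i : ℤ))) v)) = (A' ^ i * P).mulVec (P.mulVec (ψ v)) := by
      rw [ψdn, Matrix.mulVec_mulVec, Matrix.mulVec_mulVec, Matrix.mul_assoc, hPP, hc.eq]
    simp only [e]
    exact (hcu i _).trans (mul_le_mul_of_nonneg_right (hdiv i) (norm_nonneg _))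
  · -- ns_con
    intro i v
    have hc : Commute (AR ^ i) Q := (show Commute AR Q from hAQ).pow_left i
    have e : Q.mulVec (ψ ((M ^ (i : ℤ)) v)) = (AR ^ i * Q).mulVec (Q.mulVec (ψ v)) := by
      rw [ψup, Matrix.mulVec_mulVec, Matrix.mulVec_mulVec, Matrix.mul_assoc, hQQ, hc.eq]
    simp only [e]
    exact (hcs i _).trans (mul_le_mul_of_nonneg_right (hdiv i) (norm_nonneg _))
  · -- nu_lip
    intro v
    have e : P.mulVec (ψ (M v)) = AR.mulVec (P.mulVec (ψ v)) := by
      rw [ψM, Matrix.mulVec_mulVec, Matrix.mulVec_mulVec, hAP]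
    simp only [e]
    exact (hKA _).trans (mul_le_mul_of_nonneg_right hKAD (norm_nonneg _))
  · -- ns_lip
    intro v
    have e : Q.mulVec (ψ ((M ^ (-1 : ℤ)) v)) = A'.mulVec (Q.mulVec (ψ v)) := by
      have := ψdn 1 v
      rw [Nat.cast_one, pow_one] at this
      rw [this, Matrix.mulVec_mulVec, Matrix.mulVec_mulVec, hA'Q]
    simp only [e]
    exact (hKA' _).trans (mul_le_mul_of_nonneg_right hKA'D (norm_nonneg _))
  · -- fin
    intro R
    have hfin := rv_finite (n := n) (2 * R)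
    have hpre : {b : B | ‖rv (π b)‖ ≤ 2 * R}.Finite := by
      have : {b : B | ‖rv (π b)‖ ≤ 2 * R} = π ⁻¹' {y | ‖rv y‖ ≤ 2 * R} := rfl
      rw [this]
      apply Set.Finite.preimage' hfin
      intro y _
      rcases (π ⁻¹' {y}).eq_empty_or_nonempty with h0 | ⟨b₀, hb₀⟩
      · rw [h0]; exact Set.finite_empty
      · have hb₀' : π b₀ = y := hb₀
        apply ((Set.finite_range (fun k : π.ker => b₀ + (k : B)))).subset
        intro b hb
        have hb' : π b = y := hb
        refine ⟨⟨b - b₀, ?_⟩, ?_⟩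
        · rw [AddMonoidHom.mem_ker, map_sub, hb', hb₀', sub_self]
        · simp
    apply (hpre.image (Subtype.val : B → V)).subset
    rintro b ⟨hb, hu, hsb⟩
    refine ⟨⟨b, hb⟩, ?_, rfl⟩
    have e : rv (π ⟨b, hb⟩) = P.mulVec (ψ b) + Q.mulVec (ψ b) := by
      rw [← Matrix.add_mulVec, hPQ, Matrix.one_mulVec, hψb b hb]
    show ‖rv (π ⟨b, hb⟩)‖ ≤ 2 * R
    rw [e]
    refine (norm_add_le _ _).trans ?_
    linarith
  · -- covu
    intro v
    obtain ⟨y, hy⟩ := exists_round (P.mulVec (ψ v))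
    obtain ⟨w, hw⟩ := hs y
    have hψw : ψ (w : V) = rv y := by rw [hψb _ w.2]; rw [← hw]
    refine ⟨w, w.2, ?_, ?_⟩
    · have e : P.mulVec (ψ (v - (w : V))) = P.mulVec (P.mulVec (ψ v) - rv y) := by
        rw [ψsub, hψw, Matrix.mulVec_sub, Matrix.mulVec_sub, Matrix.mulVec_mulVec, hPP]
      simp only [e]
      have := hKP (P.mulVec (ψ v) - rv y)
      nlinarith
    · have e : Q.mulVec (ψ (w : V)) = - Q.mulVec (P.mulVec (ψ v) - rv y) := by
        rw [hψw, Matrix.mulVec_sub, Matrix.mulVec_mulVec, hQP0, Matrix.zero_mulVec, zero_sub,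
          neg_neg]
      simp only [e, norm_neg]
      have := hKQ (P.mulVec (ψ v) - rv y)
      nlinarith
  · -- covs
    intro v
    obtain ⟨y, hy⟩ := exists_round (Q.mulVec (ψ v))
    obtain ⟨w, hw⟩ := hs y
    have hψw : ψ (w : V) = rv y := by rw [hψb _ w.2]; rw [← hw]
    refine ⟨w, w.2, ?_, ?_⟩
    · have e : Q.mulVec (ψ (v - (w : V))) = Q.mulVec (Q.mulVec (ψ v) - rv y) := by
        rw [ψsub, hψw, Matrix.mulVec_sub, Matrix.mulVec_sub, Matrix.mulVec_mulVec, hQQ]
      simp only [e]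
      have := hKQ (Q.mulVec (ψ v) - rv y)
      nlinarith
    · have e : P.mulVec (ψ (w : V)) = - P.mulVec (Q.mulVec (ψ v) - rv y) := by
        rw [hψw, Matrix.mulVec_sub, Matrix.mulVec_mulVec, hPQ0, Matrix.zero_mulVec, zero_sub,
          neg_neg]
      simp only [e, norm_neg]
      have := hKP (Q.mulVec (ψ v) - rv y)
      nlinarith
  · -- exp
    by_contra hcon
    push Not at hcon
    have hP0 : ∀ b ∈ B, P.mulVec (ψ b) = 0 := fun b hb =>
      norm_le_zero_iff.1 (hcon b hb)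
    set i₀ : Fin n := ⟨0, hn⟩ with hi₀
    obtain ⟨b, hb⟩ := hs (Pi.single i₀ 1)
    have hb0 : π b ≠ 0 := by
      rw [hb]
      intro h0
      have := congrFun h0 i₀
      simp at this
    have hitn : ∀ i : ℕ, (A ^ i).mulVec (π b) ≠ 0 := by
      intro i
      induction i with
      | zero => rw [pow_zero, Matrix.one_mulVec]; exact hb0
      | succ i ih =>
        intro h0
        rw [pow_succ', ← Matrix.mulVec_mulVec] at h0
        exact ih (hA0 _ h0)
    have hitr : ∀ i : ℕ, rv ((A ^ i).mulVec (π b)) = (AR ^ i).mulVec (ψ b) := by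
      intro i
      rw [rv_mulVec, hψb _ b.2, hAR]
      congr 1
      exact ((Int.castRingHom ℝ).mapMatrix (m := Fin n)).map_pow A i
    have hψQ : Q.mulVec (ψ (b : V)) = ψ b := by
      have e : P.mulVec (ψ (b : V)) + Q.mulVec (ψ (b : V)) = ψ b := by
        rw [← Matrix.add_mulVec, hPQ, Matrix.one_mulVec]
      rw [hP0 _ b.2, zero_add] at e
      exact e
    have hle : ∀ i : ℕ, 1 ≤ C / κ ^ i * ‖ψ b‖ := by
      intro i
      have e1 := one_le_norm_rv (hitn i)
      rw [hitr i] at e1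
      have e2 : (AR ^ i).mulVec (ψ (b : V)) = (AR ^ i * Q).mulVec (ψ b) := by
        rw [← Matrix.mulVec_mulVec, hψQ]
      rw [e2] at e1
      exact e1.trans (hcs i _)
    have hlim : Filter.Tendsto (fun i : ℕ => C / κ ^ i * ‖ψ (b : V)‖) Filter.atTop
        (nhds (0 * ‖ψ (b : V)‖)) := by
      apply Filter.Tendsto.mul_const
      exact Filter.Tendsto.div_atTop tendsto_const_nhds (tendsto_pow_atTop_atTop_of_one_lt hκ)
    rw [zero_mul] at hlim
    have := ge_of_tendsto' hlim hle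
    linarith

end MPa1853dH
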