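import Mathlib
import Pool.Agent.Lib.MP_a1853d_al.HY.Spec
import Pool.Agent.Lib.MP_a1853d_al.COUNT

set_option autoImplicit false

/-! # Assembly -/

namespace MPa1853dH

namespace MainAux

variable {V : Type} [AddCommGroup V] {M : V ≃ₗ[ℤ] V} {B : AddSubgroup V} {nu ns : V → ℝ}
  {C κ : ℝ} {L : Finset (V × ℤ)} {E Ct : ℕ}

/-- At most `(|L| + 1) ^ m` elements are reached by paths of at most `m` letters. -/
theorem words (M : V ≃ₗ[ℤ] V) (L : Finset (V × ℤ)) (m : ℕ) :
    ∃ F : Finset (ℤ × V), F.card ≤ (L.card + 1) ^ m ∧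
      ∀ (h : ℤ) (v : V), PP M L 0 h v m → (h, v) ∈ F := by
  classical
  induction m with
  | zero =>
    refine ⟨{(0, 0)}, by simp, ?_⟩
    rintro h v ⟨l, _, h2, h3, h4⟩
    have : l = [] := List.length_eq_zero_iff.1 (Nat.le_zero.1 h2)
    subst this
    simp only [fin_nil] at h3
    simp only [psum_nil] at h4
    rw [Finset.mem_singleton, ← h3, ← h4]
  | succ m ih =>
    obtain ⟨F, hF, hF2⟩ := ih
    refine ⟨F ∪ (F ×ˢ L).image (fun q => (q.1.1 + q.2.2, q.1.2 + ctr M q.1.1 q.2)), ?_, ?_⟩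
    · refine (Finset.card_union_le _ _).trans ?_
      have h1 : ((F ×ˢ L).image (fun q => (q.1.1 + q.2.2, q.1.2 + ctr M q.1.1 q.2))).card ≤
          F.card * L.card := by
        refine Finset.card_image_le.trans ?_
        rw [Finset.card_product]
      calc F.card + _ ≤ F.card + F.card * L.card := Nat.add_le_add_left h1 _
        _ = F.card * (L.card + 1) := by ring
        _ ≤ (L.card + 1) ^ m * (L.card + 1) := Nat.mul_le_mul_right _ hF
        _ = _ := (pow_succ _ _).symm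
    · rintro h v ⟨l, h1, h2, h3, h4⟩
      rw [Finset.mem_union]
      rcases l.eq_nil_or_concat with rfl | ⟨l', p, rfl⟩
      · left
        exact hF2 h v ⟨[], by simp, by simp, h3, h4⟩
      · right
        rw [List.concat_eq_append] at h1 h2 h3 h4
        rw [Finset.mem_image]
        have a1 : (fin 0 l', psum (ctr M) 0 l') ∈ F := by
          apply hF2
          refine ⟨l', fun q hq => h1 q (List.mem_append_left _ hq), ?_, rfl, rfl⟩
          rw [List.length_append, List.length_singleton] at h2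
          omega
        have a2 : p ∈ L := h1 p (List.mem_append_right _ (List.mem_singleton_self p))
        refine ⟨((fin 0 l', psum (ctr M) 0 l'), p), Finset.mem_product.2 ⟨a1, a2⟩, ?_⟩
        rw [fin_append, fin_cons, fin_nil] at h3
        rw [psum_append, psum_cons, psum_nil, add_zero] at h4
        rw [← h3, ← h4]

theorem card_le (Hy : Hyp M B nu ns C κ) (S : Sys M B L E Ct) {C₁ : ℕ} {R : ℝ}
    (h : ∀ H : ℕ, ∀ v ∈ Box M B nu ns H R, yl M L H v ≤ C₁ * (H + 1)) (H : ℕ) :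
    (Box M B nu ns H R).card ≤ ((L.card + 1) ^ C₁) ^ (H + 1) := by
  classical
  obtain ⟨F, hF, hF2⟩ := words M L (C₁ * (H + 1))
  rw [← pow_mul]
  refine le_trans ?_ hF
  apply Finset.card_le_card_of_injOn (fun v => ((H : ℤ), v))
  · intro v hv
    have h1 := yl_spec S (Hy.mem_Box.1 hv).1 H
    exact hF2 _ _ (h1.mono (h H v hv))
  · intro v _ v' _ hvv
    simpa using hvv

theorem grow (Hy : Hyp M B nu ns C κ) (S : Sys M B L E Ct) (hP : SpecPert) (K : ℕ) :
    ∃ H : ℕ, K < (Box M B nu ns H (R0 C)).card := by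
  classical
  obtain ⟨q, c, N, R, P⟩ := hP V M B nu ns C κ L E Ct Hy S
  obtain ⟨C', hC', hbox⟩ := Hy.YY_box S R (one_pos : (0 : ℝ) < 1)
  obtain ⟨n, hn⟩ := exists_nat_gt (C' * K)
  refine ⟨q * n, ?_⟩
  have h1 : ∀ H : ℕ, ∀ r : ℝ, YY M B nu ns L r H 1 = (Box M B nu ns H r).card := by
    intro H r
    unfold YY
    simp
  have h2 := hbox 1 le_rfl le_rfl (q * n)
  rw [h1, h1] at h2
  have h3 : 2 ^ n ≤ (Box M B nu ns (q * n) R).card := by
    have e : (Finset.range n).powerset.card = 2 ^ n := by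
      rw [Finset.card_powerset, Finset.card_range]
    rw [← e]
    apply Finset.card_le_card_of_injOn (fun I => del M q c I)
    · intro I hI
      have hI' := Finset.mem_powerset.1 (Finset.mem_coe.1 hI)
      have hb : ∀ i ∈ I, q * i ≤ q * n := fun i hi =>
        Nat.mul_le_mul_left q (Finset.mem_range.1 (hI' hi)).le
      rw [Finset.mem_coe, Hy.mem_Box]
      have a1 := P.ns_le 0 I (fun i _ => Nat.zero_le _)
      simp only [Nat.cast_zero, neg_zero, Mp_zero] at a1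
      exact ⟨a1.1, P.nu_le _ I hb, a1.2⟩
    · intro I _ J _ hIJ
      exact P.inj I J hIJ
  have h4 : ((2 ^ n : ℕ) : ℝ) ≤ C' * ((Box M B nu ns (q * n) (R0 C)).card : ℝ) := by
    refine le_trans ?_ h2
    exact_mod_cast h3
  have h5 : (n : ℝ) ≤ ((2 ^ n : ℕ) : ℝ) := by exact_mod_cast Nat.lt_two_pow_self.le
  have h6 : C' * (K : ℝ) < C' * ((Box M B nu ns (q * n) (R0 C)).card : ℝ) := by linarith
  have h7 := lt_of_mul_lt_mul_left h6 hC'.le
  exact_mod_cast h7

end MainAux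

open MainAux

theorem specMain (hExpd : SpecExpd) (hSuper : SpecSuper) (hCut : SpecCut) (hPert : SpecPert)
    (hAna : SpecAna) (hSys : SpecSys) (hB1 : SpecB1) (hB2 : SpecB2) (hLinB : SpecLinB)
    (hModA : SpecModA) (hModB : SpecModB) : SpecMain := by
  classical
  intro G _ B₀ t hinv hcomm hfg hinf hgen hyp S hS
  obtain ⟨V, _, M, B, hinv', i, hBfg, hBinf, hexh, hyp', hi1, hi2, hi3, hi4⟩ :=
    hModA G B₀ t hinv hcomm hfg hinf hgen hyp
  obtain ⟨nu, ns, C, κ, Hy⟩ := hLinB V M B hinv' hBfg hBinf hexh hyp'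
  obtain ⟨Mo⟩ := hModB G B₀ t V M B nu ns C κ i Hy hgen hi1 hi2 hi3 hi4
  obtain ⟨c₀, L, E, Ct, Sy, hR⟩ := hSys G V M Mo B nu ns C κ S Hy hS
  obtain ⟨len, hlen, hT⟩ := MPa1853d.specCount G S hS
  obtain ⟨CB, hCB, hlow⟩ := hB1 G V M Mo B nu ns C κ S len c₀ L E Ct Hy hlen Sy hR
  obtain ⟨C₁, hC₁⟩ := hExpd V M B nu ns C κ L E Ct Hy Sy (R0 C)
  apply hAna V (fun H => Box M B nu ns H (R0 C)) (fun H v => yl M L H v) E C₁
    ((L.card + 1) ^ C₁) (MPa1853d.cgc G S) CB Sy.hE1 (Nat.one_le_pow _ _ (Nat.succ_pos _)) hCB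
  · intro H v hv
    exact le_yl Sy (Hy.mem_Box.1 hv).1 H
  · exact hC₁
  · exact card_le Hy Sy hC₁
  · intro H
    refine ⟨0, ?_⟩
    rw [Hy.mem_Box, map_zero, Hy.nu_zero, Hy.ns_zero]
    have := Hy.one_le_R0
    exact ⟨B.zero_mem, by linarith, by linarith⟩
  · exact grow Hy Sy hPert
  · exact hSuper V M B nu ns C κ L E Ct Hy Sy
  · exact hCut V M B nu ns C κ L E Ct Hy Sy
  · intro z hz hz1 N
    obtain ⟨s, hs⟩ := hlow z hz hz1 N
    obtain ⟨T, hT1, hT2⟩ := hT (s.sup len + 1)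
    refine ⟨s.sup len + 1, hs.trans ?_⟩
    rw [hT2 z]
    apply Finset.sum_le_sum_of_subset_of_nonneg
    · intro κ hκ
      rw [hT1]
      exact Nat.lt_succ_of_le (Finset.le_sup (f := len) hκ)
    · intro κ _ _
      positivity
  · intro z₀ C₂ hz₀
    obtain ⟨C', θ, hC', hθ0, hθ1, hb⟩ :=
      hB2 G V M Mo B nu ns C κ S len c₀ L E Ct Hy hlen Sy hR z₀ C₂ hz₀
    refine ⟨C', θ, hC', hθ0, hθ1, ?_⟩
    intro z hz hz1 hY N
    obtain ⟨T, _, hT2⟩ := hT N
    obtain ⟨N', hN'⟩ := hb z hz hz1 hY T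
    exact ⟨N', by rw [hT2 z]; exact hN'⟩

end MPa1853dH
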