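import Mathlib
import Pool.Agent.Lib.MP_a1853d_al.HY.Spec

set_option autoImplicit false

/-!
# MODA: the kernel `A = ⋃ t^(-i) B₀ t^i` of the group
-/

namespace MPa1853dH

namespace ModA

variable {G : Type} [Group G]

/-- `t^i g t^(-i)`. -/
def cj (t : G) (i : ℕ) (g : G) : G := t ^ i * g * (t ^ i)⁻¹

theorem cj_zero (t g : G) : cj t 0 g = g := by simp [cj]

theorem cj_add (t : G) (i j : ℕ) (g : G) : cj t (i + j) g = cj t i (cj t j g) := by
  simp only [cj, pow_add, mul_inv_rev, mul_assoc]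

theorem cj_one (t g : G) : cj t 1 g = t * g * t⁻¹ := by simp [cj]

theorem cj_mul (t : G) (i : ℕ) (g h : G) : cj t i (g * h) = cj t i g * cj t i h := by
  simp only [cj]
  group

theorem cj_inv (t : G) (i : ℕ) (g : G) : cj t i g⁻¹ = (cj t i g)⁻¹ := by
  simp only [cj]
  group

theorem cj_inj (t : G) (i : ℕ) {g h : G} (e : cj t i g = cj t i h) : g = h := by
  simpa [cj] using e

theorem cj_mem {B₀ : Subgroup G} {t : G} (hinv : ∀ b ∈ B₀, t * b * t⁻¹ ∈ B₀) (i : ℕ) {g : G}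
    (hg : g ∈ B₀) : cj t i g ∈ B₀ := by
  induction i with
  | zero => rwa [cj_zero]
  | succ i ih =>
    rw [add_comm, cj_add, cj_one]
    exact hinv _ ih

theorem cj_mem_le {B₀ : Subgroup G} {t : G} (hinv : ∀ b ∈ B₀, t * b * t⁻¹ ∈ B₀) {i j : ℕ}
    (hij : i ≤ j) {g : G} (hg : cj t i g ∈ B₀) : cj t j g ∈ B₀ := by
  obtain ⟨k, rfl⟩ := Nat.exists_eq_add_of_le hij
  rw [add_comm, cj_add]
  exact cj_mem hinv k hg

/-- The kernel. -/
def ker (B₀ : Subgroup G) (t : G) (hinv : ∀ b ∈ B₀, t * b * t⁻¹ ∈ B₀) : Subgroup G where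
  carrier := {g | ∃ i : ℕ, cj t i g ∈ B₀}
  one_mem' := ⟨0, by rw [cj_zero]; exact B₀.one_mem⟩
  mul_mem' := by
    rintro g h ⟨i, hi⟩ ⟨j, hj⟩
    refine ⟨i + j, ?_⟩
    rw [cj_mul]
    exact B₀.mul_mem (cj_mem_le hinv (Nat.le_add_right i j) hi)
      (cj_mem_le hinv (Nat.le_add_left j i) hj)
  inv_mem' := by
    rintro g ⟨i, hi⟩
    refine ⟨i, ?_⟩
    rw [cj_inv]
    exact B₀.inv_mem hi

variable (B₀ : Subgroup G) (t : G) (hinv : ∀ b ∈ B₀, t * b * t⁻¹ ∈ B₀)

theorem mem_ker {g : G} : g ∈ ker B₀ t hinv ↔ ∃ i : ℕ, cj t i g ∈ B₀ := Iff.rfl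

theorem le_ker {g : G} (hg : g ∈ B₀) : g ∈ ker B₀ t hinv :=
  ⟨0, by rwa [cj_zero]⟩

theorem ker_comm (hcomm : ∀ a ∈ B₀, ∀ b ∈ B₀, a * b = b * a) (a b : G)
    (ha : a ∈ ker B₀ t hinv) (hb : b ∈ ker B₀ t hinv) : a * b = b * a := by
  obtain ⟨i, hi⟩ := ha
  obtain ⟨j, hj⟩ := hb
  apply cj_inj t (i + j)
  rw [cj_mul, cj_mul]
  exact hcomm _ (cj_mem_le hinv (Nat.le_add_right i j) hi) _
    (cj_mem_le hinv (Nat.le_add_left j i) hj)

theorem conj_mem_ker {g : G} (hg : g ∈ ker B₀ t hinv) : t * g * t⁻¹ ∈ ker B₀ t hinv := by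
  obtain ⟨i, hi⟩ := hg
  refine ⟨i, ?_⟩
  rw [← cj_one, ← cj_add, add_comm, cj_add, cj_one]
  exact hinv _ hi

theorem conj_inv_mem_ker {g : G} (hg : g ∈ ker B₀ t hinv) : t⁻¹ * g * t ∈ ker B₀ t hinv := by
  obtain ⟨i, hi⟩ := hg
  refine ⟨i + 1, ?_⟩
  rw [cj_add, cj_one]
  have : t * (t⁻¹ * g * t) * t⁻¹ = g := by group
  rwa [this]

/-- The kernel is commutative. -/
@[reducible] def kerComm (hcomm : ∀ a ∈ B₀, ∀ b ∈ B₀, a * b = b * a) :
    CommGroup (ker B₀ t hinv) :=
  { (inferInstance : Group (ker B₀ t hinv)) with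
    mul_comm := fun a b => Subtype.ext (ker_comm B₀ t hinv hcomm a b a.2 b.2) }

/-- The conjugation by `t` on the kernel. -/
def conjEquiv : ker B₀ t hinv ≃* ker B₀ t hinv where
  toFun g := ⟨t * g * t⁻¹, conj_mem_ker B₀ t hinv g.2⟩
  invFun g := ⟨t⁻¹ * g * t, conj_inv_mem_ker B₀ t hinv g.2⟩
  left_inv g := by
    apply Subtype.ext
    simp only
    group
  right_inv g := by
    apply Subtype.ext
    simp only
    group
  map_mul' g h := by
    apply Subtype.ext
    simp only [Subgroup.coe_mul]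
    group

end ModA

open ModA in
theorem specModA : SpecModA := by
  intro G _ B₀ t hinv hcomm hfg hinf _ hχ
  letI : CommGroup (ker B₀ t hinv) := kerComm B₀ t hinv hcomm
  let V := Additive (ker B₀ t hinv)
  let M : V ≃ₗ[ℤ] V := (MulEquiv.toAdditive (conjEquiv B₀ t hinv)).toIntLinearEquiv
  let i : V → G := fun v => ((Additive.toMul v : ker B₀ t hinv) : G)
  have hi_add : ∀ v w, i (v + w) = i v * i w := fun v w => rfl
  have hi_M : ∀ v, i (M v) = t * i v * t⁻¹ := fun v => rfl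
  have hi_inj : Function.Injective i := by
    intro v w h
    exact Additive.toMul.injective (Subtype.ext h)
  have hi_zero : i 0 = 1 := rfl
  have hi_neg : ∀ v, i (-v) = (i v)⁻¹ := fun v => rfl
  have hi_surj : ∀ b ∈ B₀, ∃ v, i v = b := fun b hb =>
    ⟨Additive.ofMul ⟨b, le_ker B₀ t hinv hb⟩, rfl⟩
  let B : AddSubgroup V :=
    { carrier := {v | i v ∈ B₀}
      zero_mem' := by
        change i 0 ∈ B₀
        rw [hi_zero]
        exact B₀.one_mem
      add_mem' := by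
        intro a b ha hb
        change i (a + b) ∈ B₀
        rw [hi_add]
        exact B₀.mul_mem ha hb
      neg_mem' := by
        intro a ha
        change i (-a) ∈ B₀
        rw [hi_neg]
        exact B₀.inv_mem ha }
  have hB : ∀ v, v ∈ B ↔ i v ∈ B₀ := fun v => Iff.rfl
  have hinv' : ∀ b ∈ B, M b ∈ B := by
    intro b hb
    rw [hB] at hb ⊢
    rw [hi_M]
    exact hinv _ hb
  have hpow : ∀ (j : ℕ) (v : V), i ((M ^ (j : ℤ)) v) = cj t j (i v) := by
    intro j
    induction j with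
    | zero =>
      intro v
      rw [Nat.cast_zero, Mp_zero, cj_zero]
    | succ j ih =>
      intro v
      rw [Nat.cast_succ, Mp_add, Mp_one, ih, hi_M, cj_add, cj_one]
  refine ⟨V, inferInstance, M, B, hinv', i, ?_, ?_, ?_, ?_, hi_inj, hi_add,
    fun v => (hi_M v).symm, hi_surj⟩
  · -- finitely generated
    obtain ⟨S, hS⟩ := hfg
    classical
    choose! f hf using hi_surj
    refine ⟨S.image f, ?_⟩
    have hSB : ∀ s ∈ S, s ∈ B₀ := by
      intro s hs
      rw [← hS]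
      exact Subgroup.subset_closure hs
    apply le_antisymm
    · rw [AddSubgroup.closure_le]
      intro v hv
      rw [Finset.coe_image] at hv
      obtain ⟨s, hs, rfl⟩ := hv
      change i (f s) ∈ B₀
      rw [hf s (hSB s hs)]
      exact hSB s hs
    · intro v hv
      have hv' : i v ∈ Subgroup.closure (S : Set G) := by rw [hS]; exact hv
      have key : ∀ g ∈ Subgroup.closure (S : Set G),
          ∃ w ∈ AddSubgroup.closure ((S.image f : Finset V) : Set V), i w = g := by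
        intro g hg
        induction hg using Subgroup.closure_induction with
        | mem x hx =>
          refine ⟨f x, AddSubgroup.subset_closure ?_, hf x (hSB x hx)⟩
          rw [Finset.coe_image]
          exact ⟨x, hx, rfl⟩
        | one => exact ⟨0, AddSubgroup.zero_mem _, hi_zero⟩
        | mul x y _ _ hx hy =>
          obtain ⟨a, ha, rfl⟩ := hx
          obtain ⟨b, hb, rfl⟩ := hy
          exact ⟨a + b, AddSubgroup.add_mem _ ha hb, hi_add a b⟩
        | inv x _ hx =>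
          obtain ⟨a, ha, rfl⟩ := hx
          exact ⟨-a, AddSubgroup.neg_mem _ ha, hi_neg a⟩
      obtain ⟨w, hw, hwv⟩ := key _ hv'
      rwa [← hi_inj hwv]
  · -- infinite
    have hsub : (B₀ : Set G) ⊆ i '' (B : Set V) := by
      intro b hb
      obtain ⟨v, rfl⟩ := hi_surj b hb
      exact ⟨v, hb, rfl⟩
    exact Set.Infinite.of_image i (hinf.mono hsub)
  · intro v
    obtain ⟨j, hj⟩ := (Additive.toMul v : ker B₀ t hinv).2
    refine ⟨j, ?_⟩
    rw [hB, hpow]
    exact hj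
  · intro χ μ hadd hμ hM b
    have hker : ∀ c : B₀, Additive.ofMul (⟨(c : G), le_ker B₀ t hinv c.2⟩ : ker B₀ t hinv) ∈ B :=
      fun c => c.2
    have := hχ (fun c => χ ⟨Additive.ofMul (⟨(c : G), le_ker B₀ t hinv c.2⟩ : ker B₀ t hinv),
      hker c⟩) μ (fun a c => ?_) hμ (fun c => ?_) ⟨i b, b.2⟩
    · exact this
    · rw [← hadd]
      rfl
    · rw [← hM]
      rfl

end MPa1853dH
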