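import Mathlib
import Pool.Agent.Lib.MP_a1853d_al.HY.Spec

set_option autoImplicit false

/-!
# MODB: every element is uniquely `i v * t^m`
-/

namespace MPa1853dH

/-- No positive power of `M` is the identity. -/
theorem Hyp.pow_ne {V : Type*} [AddCommGroup V] {M : V ≃ₗ[ℤ] V} {B : AddSubgroup V}
    {nu ns : V → ℝ} {C κ : ℝ} (Hy : Hyp M B nu ns C κ) {k : ℕ} (hk : 1 ≤ k)
    (h : ∀ v : V, (M ^ (k : ℤ)) v = v) : False := by
  obtain ⟨c, -, hc⟩ := Hy.exp
  have h1 : ∀ j : ℕ, (M ^ (-((k * j : ℕ) : ℤ))) c = c := by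
    intro j
    have h2 : (M ^ (((k * j : ℕ)) : ℤ)) c = c := by
      induction j with
      | zero => simp
      | succ j ih =>
        rw [show ((k * (j + 1) : ℕ) : ℤ) = (k : ℤ) + ((k * j : ℕ) : ℤ) by push_cast; ring,
          Mp_add, ih, h]
    conv_lhs => rw [← h2]
    rw [Mp_neg]
  -- `κ ^ (k j) > C` for a large `j`
  obtain ⟨j, hj⟩ := pow_unbounded_of_one_lt C Hy.one_lt
  have h3 : C < κ ^ (k * j) := hj.trans_le (pow_le_pow_right₀ Hy.one_lt.le (by nlinarith))
  have h4 := Hy.nu_con (k * j) c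
  rw [h1 j] at h4
  have h5 : (0 : ℝ) < κ ^ (k * j) := pow_pos Hy.κ_pos _
  have h6 : C / κ ^ (k * j) < 1 := (div_lt_one h5).2 h3
  have h7 : C / κ ^ (k * j) * nu c < 1 * nu c := mul_lt_mul_of_pos_right h6 hc
  linarith

section
variable {G : Type} [Group G] {V : Type} [AddCommGroup V] {M : V ≃ₗ[ℤ] V}
  {t : G} {i : V → G}

theorem modB_zero (hadd : ∀ v w, i (v + w) = i v * i w) : i 0 = 1 := by
  have h := hadd 0 0
  rw [add_zero] at h
  exact (mul_eq_left.1 h.symm)

theorem modB_neg (hadd : ∀ v w, i (v + w) = i v * i w) (v : V) : i (-v) = (i v)⁻¹ := by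
  apply eq_inv_of_mul_eq_one_left
  rw [← hadd, neg_add_cancel, modB_zero hadd]

theorem modB_nat (hM : ∀ v, t * i v * t⁻¹ = i (M v)) (m : ℕ) (v : V) :
    t ^ (m : ℤ) * i v = i ((M ^ (m : ℤ)) v) * t ^ (m : ℤ) := by
  induction m with
  | zero =>
    rw [Nat.cast_zero, Mp_zero, zpow_zero, one_mul, mul_one]
  | succ m ih =>
    have h1 : ((m + 1 : ℕ) : ℤ) = 1 + (m : ℤ) := by push_cast; ring
    rw [h1, zpow_add, zpow_one, Mp_add, Mp_one, mul_assoc, ih, ← hM]
    group

theorem modB_int (hM : ∀ v, t * i v * t⁻¹ = i (M v)) (m : ℤ) (v : V) :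
    t ^ m * i v = i ((M ^ m) v) * t ^ m := by
  obtain ⟨n, rfl | rfl⟩ := Int.eq_nat_or_neg m
  · exact modB_nat hM n v
  · have h := modB_nat hM n ((M ^ (-(n : ℤ))) v)
    rw [Mp_neg'] at h
    rw [zpow_neg, inv_mul_eq_iff_eq_mul, ← mul_assoc, h, mul_assoc, mul_inv_cancel, mul_one]

end

theorem specModB : SpecModB := by
  intro G _ B₀ t V _ M B nu ns C κ i Hy hgen hinj hadd hM hB₀
  have h0 := modB_zero hadd
  have hex : ∀ g : G, ∃ (v : V) (m : ℤ), g = i v * t ^ m := by
    intro g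
    have hg : g ∈ Subgroup.closure ((B₀ : Set G) ∪ {t}) := by rw [hgen]; trivial
    induction hg using Subgroup.closure_induction with
    | mem x hx =>
      rcases hx with hx | hx
      · obtain ⟨v, hv⟩ := hB₀ x hx
        exact ⟨v, 0, by rw [zpow_zero, mul_one, hv]⟩
      · rw [Set.mem_singleton_iff] at hx
        exact ⟨0, 1, by rw [h0, one_mul, zpow_one, hx]⟩
    | one => exact ⟨0, 0, by rw [h0, one_mul, zpow_zero]⟩
    | mul x y _ _ hx hy =>
      obtain ⟨v, m, rfl⟩ := hx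
      obtain ⟨w, n, rfl⟩ := hy
      refine ⟨v + (M ^ m) w, m + n, ?_⟩
      rw [hadd, zpow_add, mul_assoc (i v), ← mul_assoc (t ^ m), modB_int hM]
      simp only [mul_assoc]
    | inv x _ hx =>
      obtain ⟨v, m, rfl⟩ := hx
      refine ⟨(M ^ (-m)) (-v), -m, ?_⟩
      rw [mul_inv_rev, ← zpow_neg, ← modB_neg hadd, modB_int hM]
  have hpow : ∀ (k : ℤ) (u : V), t ^ k = i u → k = 0 := by
    intro k u hk
    by_contra hne
    have h1 : ∀ v : V, (M ^ k) v = v := by
      intro v
      apply hinj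
      have h2 := modB_int hM k v
      rw [hk, ← hadd, add_comm, hadd] at h2
      exact (mul_right_cancel h2).symm
    have h3 : ∀ v : V, (M ^ ((k.natAbs : ℕ) : ℤ)) v = v := by
      intro v
      rcases Int.natAbs_eq k with h | h
      · rw [← h]
        exact h1 v
      · have h4 : ((k.natAbs : ℕ) : ℤ) = -k := by omega
        rw [h4]
        conv_lhs => rw [← h1 v]
        rw [Mp_neg]
    exact Hy.pow_ne (by omega) h3
  have huniq : ∀ (v w : V) (m n : ℤ), i v * t ^ m = i w * t ^ n → v = w ∧ m = n := by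
    intro v w m n h
    have h1 : t ^ (m - n) = i (-v + w) := by
      rw [hadd, modB_neg hadd, zpow_sub]
      have h2 : t ^ m = (i v)⁻¹ * (i w * t ^ n) := by rw [← h, inv_mul_cancel_left]
      rw [h2]
      group
    have h2 := hpow _ _ h1
    have h3 : m = n := by omega
    subst h3
    exact ⟨hinj (mul_right_cancel h), rfl⟩
  choose val ht hval using hex
  refine ⟨{ val := val, ht := ht, val_mul := ?_, ht_mul := ?_, inj := ?_, surj := ?_ }⟩
  · intro g h
    have h1 := hval (g * h)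
    have h2 : g * h = i (val g + (M ^ (ht g)) (val h)) * t ^ (ht g + ht h) := by
      conv_lhs => rw [hval g, hval h]
      rw [hadd, zpow_add, mul_assoc (i (val g)), ← mul_assoc (t ^ (ht g)), modB_int hM]
      simp only [mul_assoc]
    exact (huniq _ _ _ _ (h1.symm.trans h2)).1
  · intro g h
    have h1 := hval (g * h)
    have h2 : g * h = i (val g + (M ^ (ht g)) (val h)) * t ^ (ht g + ht h) := by
      conv_lhs => rw [hval g, hval h]
      rw [hadd, zpow_add, mul_assoc (i (val g)), ← mul_assoc (t ^ (ht g)), modB_int hM]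
      simp only [mul_assoc]
    exact (huniq _ _ _ _ (h1.symm.trans h2)).2
  · intro g h h1 h2
    rw [hval g, hval h, h1, h2]
  · intro v m
    exact ⟨i v * t ^ m, huniq _ _ _ _ (hval (i v * t ^ m)).symm⟩

end MPa1853dH
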