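import Mathlib
import Pool.Agent.Lib.MP_a1853d_al.HY.Spec

set_option autoImplicit false

/-! # PER: the weight of the periodic elements -/

namespace MPa1853dH

section aux

variable {V : Type} [AddCommGroup V] {M : V ≃ₗ[ℤ] V} {B : AddSubgroup V} {nu ns : V → ℝ}
  {C κ : ℝ} {L : Finset (V × ℤ)} {E Ct : ℕ}

/-- iterates of a periodic element. -/
theorem per_iter {d : ℕ} {y : V} (hy : (M ^ (-(d : ℤ))) y = y) (k : ℕ) :
    (M ^ (-((d * k : ℕ) : ℤ))) y = y := by
  induction k with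
  | zero => simp
  | succ k ih =>
    rw [show (-((d * (k + 1) : ℕ) : ℤ)) = -(d : ℤ) + -((d * k : ℕ) : ℤ) by push_cast; ring,
      Mp_add, ih, hy]

theorem per_iter' {d : ℕ} {y : V} (hy : (M ^ (-(d : ℤ))) y = y) (k : ℕ) :
    (M ^ (((d * k : ℕ) : ℤ))) y = y := by
  conv_lhs => rw [← per_iter hy k]
  rw [Mp_neg']

/-- a number which is at most `C / κ ^ (d k) a` for all `k` vanishes. -/
theorem zero_of_le {C κ a : ℝ} (hκ : 1 < κ) {d : ℕ} (hd : 1 ≤ d) (ha : 0 ≤ a)
    (h : ∀ k : ℕ, a ≤ C / κ ^ (d * k) * a) : a = 0 := by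
  by_contra hne
  have hpos : 0 < a := lt_of_le_of_ne ha (Ne.symm hne)
  have h1 : ∀ k : ℕ, κ ^ k ≤ C := by
    intro k
    have h2 := h k
    have h3 : 1 ≤ C / κ ^ (d * k) := by
      by_contra hcon
      push Not at hcon
      nlinarith
    have hk : 0 < κ ^ (d * k) := by positivity
    rw [le_div_iff₀ hk, one_mul] at h3
    refine le_trans (pow_le_pow_right₀ hκ.le ?_) h3
    nlinarith
  obtain ⟨n, hn⟩ := pow_unbounded_of_one_lt C hκ
  exact absurd (h1 n) (not_le.2 hn)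

theorem per_small (Hy : Hyp M B nu ns C κ) {d : ℕ} (hd : 1 ≤ d) {y : V} (hyB : y ∈ B)
    (hy : (M ^ (-(d : ℤ))) y = y) : y ∈ Sm B nu ns 0 := by
  refine ⟨hyB, ?_, ?_⟩
  · apply le_of_eq
    apply zero_of_le Hy.one_lt hd (Hy.nu_nonneg y)
    intro k
    have := Hy.nu_con (d * k) y
    rwa [per_iter hy k] at this
  · apply le_of_eq
    apply zero_of_le Hy.one_lt hd (Hy.ns_nonneg y)
    intro k
    have := Hy.ns_con (d * k) y
    rwa [per_iter' hy k] at this

theorem quot_eq {d H : ℕ} {y p : V} (h : (M ^ (d : ℤ)) y - y = (M ^ (H : ℤ)) p - p) :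
    y - (M ^ (-(d : ℤ))) y = (M ^ (H : ℤ)) ((M ^ (-(d : ℤ))) p) - (M ^ (-(d : ℤ))) p := by
  have h5 : (M ^ (-(d : ℤ))) ((M ^ (d : ℤ)) y - y) =
      (M ^ (-(d : ℤ))) ((M ^ (H : ℤ)) p - p) := by rw [h]
  rw [map_sub, Mp_neg, map_sub, Mp_comm M (-(d : ℤ)) (H : ℤ)] at h5
  exact h5

/-- The real number `θ`. -/
theorem exists_theta {η : ℝ} (h0 : 0 < η) (h1 : η < 1) (q : ℕ) (hq : 1 ≤ q) :
    ∃ θ : ℝ, 0 < θ ∧ θ < 1 ∧ η ≤ θ ^ (2 * q) := by
  have hq' : (1 : ℝ) ≤ (q : ℝ) := by exact_mod_cast hq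
  have hx : 0 < (1 - η) / (2 * q) := by
    apply div_pos (by linarith) (by linarith)
  have hx1 : (1 - η) / (2 * q) < 1 := by
    rw [div_lt_one (by linarith)]
    linarith
  refine ⟨1 - (1 - η) / (2 * q), by linarith, by linarith, ?_⟩
  have hb := one_add_mul_le_pow (a := -((1 - η) / (2 * q))) (by linarith) (2 * q)
  have e1 : (1 : ℝ) + ((2 * q : ℕ) : ℝ) * -((1 - η) / (2 * q)) = η := by
    push_cast
    field_simp
    ring
  rw [e1] at hb
  calc η ≤ (1 + -((1 - η) / (2 * (q : ℝ)))) ^ (2 * q) := hb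
    _ = _ := by rw [← sub_eq_add_neg]

end aux

theorem specPer (hPert : SpecPert) (hJmod : SpecJmod) : SpecPer := by
  intro V _ M B nu ns C κ L E Ct Hy S R z₀ hz₀ hz₀1
  classical
  obtain ⟨q, c, N, Rp, hP⟩ := hPert V M B nu ns C κ L E Ct Hy S
  obtain ⟨⟨CJ, hCJ, hJ⟩, -, -⟩ := hJmod V M B nu ns C κ Hy
  obtain ⟨C₁, hC₁, hYY⟩ := Hy.YY_box S (R + Rp) hz₀
  have hC := Hy.one_le
  -- the size of the quotients
  set R₃ : ℝ := max (CJ * (2 * Rp + C * (2 * Rp))) (CJ * (C * (2 * Rp) + C * (2 * Rp))) with hR₃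
  set F := (Hy.Sm_finite R₃).toFinset with hF
  set F₀ := (Hy.Sm_finite 0).toFinset with hF₀
  have hFm : ∀ b, b ∈ F ↔ b ∈ Sm B nu ns R₃ := fun b => Set.Finite.mem_toFinset _
  have hF₀m : ∀ b, b ∈ F₀ ↔ b ∈ Sm B nu ns 0 := fun b => Set.Finite.mem_toFinset _
  set m : ℕ := F₀.card * F.card with hm
  have hq := hP.q_pos
  set η : ℝ := (1 + z₀ ^ N)⁻¹ with hη
  have hz₀N : 0 < z₀ ^ N := by positivity
  have hη0 : 0 < η := by positivity
  have hη1 : η < 1 := by
    rw [hη]
    apply inv_lt_one_of_one_lt₀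
    linarith
  obtain ⟨θ, hθ0, hθ1, hθ⟩ := exists_theta hη0 hη1 q hq
  refine ⟨(θ ^ (2 * q))⁻¹ * (m * C₁ + 1), θ, by positivity, hθ0.le, hθ1, ?_⟩
  intro z hz hz1 H d hd hdH P hPB hPJ
  have hzpos : 0 < z := hz₀.trans_le hz
  have hH1 : 1 ≤ H := by omega
  set h₀ : ℕ := H - H / 2 with hh₀
  set n : ℕ := (H / 2) / q with hn
  set a : ℕ := (h₀ + q - 1) / q with ha
  set K : Finset ℕ := Finset.Ico a (a + n) with hK
  have hKc : K.card = n := by simp [hK]
  have hqa : h₀ ≤ q * a := by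
    have := Nat.lt_mul_div_succ (h₀ + q - 1) (show 0 < q by omega)
    rw [← ha] at this
    have e : q * (a + 1) = q * a + q := by ring
    omega
  have hqa' : q * a ≤ h₀ + q - 1 := Nat.mul_div_le _ _
  have hqn : q * n ≤ H / 2 := Nat.mul_div_le _ _
  have hqn' : H / 2 < q * (n + 1) := Nat.lt_mul_div_succ _ (by omega)
  have hKlo : ∀ i ∈ K, h₀ ≤ q * i := by
    intro i hi
    rw [hK, Finset.mem_Ico] at hi
    exact hqa.trans (Nat.mul_le_mul_left q hi.1)
  have hKhi : ∀ i ∈ K, q * i ≤ H := by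
    intro i hi
    rw [hK, Finset.mem_Ico] at hi
    have h1 : q * (i + 1) ≤ q * (a + n) := Nat.mul_le_mul_left q hi.2
    have e1 : q * (i + 1) = q * i + q := by ring
    have e2 : q * (a + n) = q * a + q * n := by ring
    omega
  -- the main inequality
  have hmain := sum_le_of_fiber (P ×ˢ K.powerset) (Box M B nu ns H (R + Rp))
    (fun p => p.1 + del M q c p.2) (fun p => z ^ yl M L H p.1 * (z ^ N) ^ p.2.card)
    (fun b => z ^ yl M L H b) m ?_ ?_ ?_ ?_
  · -- conclusion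
    have hsum : ∑ p ∈ P ×ˢ K.powerset, z ^ yl M L H p.1 * (z ^ N) ^ p.2.card =
        (∑ v ∈ P, z ^ yl M L H v) * (1 + z ^ N) ^ n := by
      rw [Finset.sum_product, Finset.sum_mul]
      apply Finset.sum_congr rfl
      intro v _
      simp only
      rw [← Finset.mul_sum]
      congr 1
      have := Finset.sum_pow_mul_eq_add_pow (z ^ N) 1 K
      simp only [one_pow, mul_one] at this
      rw [this, hKc, add_comm]
    rw [hsum] at hmain
    have hsP : 0 ≤ ∑ v ∈ P, z ^ yl M L H v := Finset.sum_nonneg fun _ _ => by positivity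
    have hb : (1 + z₀ ^ N) ^ n ≤ (1 + z ^ N) ^ n := by
      apply pow_le_pow_left₀ (by positivity)
      have := pow_le_pow_left₀ hz₀.le hz N
      linarith
    have h1 : (∑ v ∈ P, z ^ yl M L H v) * (1 + z₀ ^ N) ^ n ≤
        m * ∑ b ∈ Box M B nu ns H (R + Rp), z ^ yl M L H b :=
      (mul_le_mul_of_nonneg_left hb hsP).trans hmain
    have h2 : (∑ v ∈ P, z ^ yl M L H v) ≤
        η ^ n * (m * ∑ b ∈ Box M B nu ns H (R + Rp), z ^ yl M L H b) := by
      have e : η ^ n * (1 + z₀ ^ N) ^ n = 1 := by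
        rw [← mul_pow, hη, inv_mul_cancel₀ (by positivity), one_pow]
      calc (∑ v ∈ P, z ^ yl M L H v)
          = η ^ n * ((∑ v ∈ P, z ^ yl M L H v) * (1 + z₀ ^ N) ^ n) := by
            rw [mul_left_comm, e, mul_one]
        _ ≤ _ := mul_le_mul_of_nonneg_left h1 (by positivity)
    have h3 : η ^ n ≤ (θ ^ (2 * q))⁻¹ * θ ^ H := by
      rw [inv_mul_eq_div, le_div_iff₀ (by positivity)]
      calc η ^ n * θ ^ (2 * q) ≤ (θ ^ (2 * q)) ^ n * θ ^ (2 * q) := by
            apply mul_le_mul_of_nonneg_right _ (by positivity)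
            exact pow_le_pow_left₀ hη0.le hθ n
        _ = θ ^ (2 * q * n + 2 * q) := by rw [← pow_mul, ← pow_add]
        _ ≤ θ ^ H := by
            apply pow_le_pow_of_le_one hθ0.le hθ1.le
            have e : 2 * q * n + 2 * q = 2 * (q * (n + 1)) := by ring
            omega
    have h4 : ∑ b ∈ Box M B nu ns H (R + Rp), z ^ yl M L H b ≤
        C₁ * YY M B nu ns L (R0 C) H z := hYY z hz hz1 H
    have hY0 : 0 ≤ YY M B nu ns L (R0 C) H z := YY_nonneg H hzpos.le
    have hm0 : (0 : ℝ) ≤ m := by positivity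
    calc (∑ v ∈ P, z ^ yl M L H v)
        ≤ η ^ n * (m * ∑ b ∈ Box M B nu ns H (R + Rp), z ^ yl M L H b) := h2
      _ ≤ η ^ n * (m * (C₁ * YY M B nu ns L (R0 C) H z)) := by gcongr
      _ ≤ ((θ ^ (2 * q))⁻¹ * θ ^ H) * (m * (C₁ * YY M B nu ns L (R0 C) H z)) := by
          apply mul_le_mul_of_nonneg_right h3
          positivity
      _ ≤ ((θ ^ (2 * q))⁻¹ * θ ^ H) * ((m * C₁ + 1) * YY M B nu ns L (R0 C) H z) := by
          apply mul_le_mul_of_nonneg_left _ (by positivity)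
          nlinarith
      _ = _ := by ring
  · -- into the box
    rintro ⟨v, I⟩ hp
    rw [Finset.mem_product, Finset.mem_powerset] at hp
    have hv := Hy.mem_Box.1 (hPB hp.1)
    have hI : I ⊆ K := hp.2
    rw [Hy.mem_Box]
    have a1 := hP.nu_le H I (fun i hi => hKhi i (hI hi))
    have a2 := hP.ns_le 0 I (fun i _ => Nat.zero_le _)
    simp only [Nat.cast_zero, neg_zero, Mp_zero] at a2
    refine ⟨B.add_mem hv.1 a2.1, ?_, ?_⟩
    · rw [map_add]
      exact (Hy.nu_add _ _).trans (add_le_add hv.2.1 a1)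
    · exact (Hy.ns_add _ _).trans (add_le_add hv.2.2 a2.2)
  · -- the fibres
    intro b _ u hu hub
    -- `v` determines the pair
    have hinj : Set.InjOn Prod.fst (u : Set (V × Finset ℕ)) := by
      rintro ⟨v, I⟩ hp ⟨w, J⟩ hq' hvw
      have e1 := hub _ hp
      have e2 := hub _ hq'
      simp only at hvw e1 e2
      subst hvw
      rw [← e2] at e1
      have := add_left_cancel e1
      rw [hP.inj I J this]
    rw [← Finset.card_image_of_injOn hinj]
    set w := u.image Prod.fst with hw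
    rcases w.eq_empty_or_nonempty with h0 | ⟨v₀, hv₀⟩
    · rw [h0]; simp
    have hwdata : ∀ v ∈ w, v ∈ P ∧ ∃ I, I ⊆ K ∧ v + del M q c I = b := by
      intro v hv
      rw [hw, Finset.mem_image] at hv
      obtain ⟨⟨v', I⟩, hp, rfl⟩ := hv
      have := hu hp
      rw [Finset.mem_product, Finset.mem_powerset] at this
      exact ⟨this.1, I, this.2, hub _ hp⟩
    -- the quotients
    have hquot : ∀ v ∈ w, ∃ p' ∈ F, (v - v₀) - (M ^ (-(d : ℤ))) (v - v₀) =
        (M ^ (H : ℤ)) p' - p' := by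
      intro v hv
      obtain ⟨hvP, I, hIK, hI⟩ := hwdata v hv
      obtain ⟨hv₀P, I₀, hI₀K, hI₀⟩ := hwdata v₀ hv₀
      obtain ⟨p₁, hp₁⟩ := hPJ v hvP
      obtain ⟨p₂, hp₂⟩ := hPJ v₀ hv₀P
      set y := v - v₀ with hy
      have hyd : y = del M q c I₀ - del M q c I := by
        rw [hy, sub_eq_sub_iff_add_eq_add, add_comm (del M q c I₀), hI₀, hI]
      have hyp : (M ^ (d : ℤ)) y - y = (M ^ (H : ℤ)) (p₁ - p₂) - (p₁ - p₂) := by
        rw [hy, map_sub, map_sub]
        calc (M ^ (d : ℤ)) v - (M ^ (d : ℤ)) v₀ - (v - v₀)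
            = ((M ^ (d : ℤ)) v - v) - ((M ^ (d : ℤ)) v₀ - v₀) := by abel
          _ = _ := by rw [hp₁, hp₂]; abel
      set p' := (M ^ (-(d : ℤ))) (p₁ - p₂) with hp'
      have hp'e : y - (M ^ (-(d : ℤ))) y = (M ^ (H : ℤ)) p' - p' := by
        exact quot_eq hyp
      -- `y = M ^ h₀ y'`
      have a1 := hP.ns_le h₀ I (fun i hi => hKlo i (hIK hi))
      have a2 := hP.ns_le h₀ I₀ (fun i hi => hKlo i (hI₀K hi))
      have b1 := hP.nu_le H I (fun i hi => hKhi i (hIK hi))
      have b2 := hP.nu_le H I₀ (fun i hi => hKhi i (hI₀K hi))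
      set y' := (M ^ (-(h₀ : ℤ))) y with hy'
      have hy'B : y' ∈ B := by
        rw [hy', hyd, map_sub]
        exact B.sub_mem a2.1 a1.1
      have hy'ns : ns y' ≤ 2 * Rp := by
        rw [hy', hyd, map_sub]
        refine (Hy.ns_sub _ _).trans ?_
        linarith [a1.2, a2.2]
      have hynu : nu ((M ^ (-(H : ℤ))) y) ≤ 2 * Rp := by
        rw [hyd, map_sub]
        refine (Hy.nu_sub _ _).trans ?_
        linarith
      have hyy' : y = (M ^ (h₀ : ℤ)) y' := by rw [hy', Mp_neg']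
      have hdh₀ : d ≤ h₀ := by omega
      have hdy : (M ^ (-(d : ℤ))) y = (M ^ ((h₀ - d : ℕ) : ℤ)) y' := by
        rw [hyy', ← Mp_add, Nat.cast_sub hdh₀]
        congr 2
        ring
      have hp'B : p' ∈ B := by
        apply Hy.mem_of_sub_mem hH1
        rw [← hp'e, hdy]
        apply B.sub_mem _ (Hy.mem_pow hy'B _)
        rw [hyy']
        exact Hy.mem_pow hy'B _
      have hC0 : 0 ≤ C := Hy.C_pos.le
      obtain ⟨j1, j2⟩ := hJ H hH1 p'
      rw [← hp'e] at j1 j2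
      refine ⟨p', (hFm _).2 ⟨hp'B, ?_, ?_⟩, hp'e⟩
      · refine le_max_of_le_left (j1.trans (mul_le_mul_of_nonneg_left ?_ hCJ.le))
        rw [map_sub, Mp_comm]
        refine (Hy.nu_sub _ _).trans (add_le_add hynu ?_)
        exact (Hy.nu_down d _).trans (mul_le_mul_of_nonneg_left hynu hC0)
      · refine le_max_of_le_right (j2.trans (mul_le_mul_of_nonneg_left ?_ hCJ.le))
        refine (Hy.ns_sub _ _).trans (add_le_add ?_ ?_)
        · rw [hyy']
          exact (Hy.ns_up h₀ _).trans (mul_le_mul_of_nonneg_left hy'ns hC0)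
        · rw [hdy]
          exact (Hy.ns_up _ _).trans (mul_le_mul_of_nonneg_left hy'ns hC0)
    choose! pf hpf1 hpf2 using hquot
    have hcard := Finset.card_le_mul_card_image (f := pf) w F₀.card ?_
    · refine hcard.trans (Nat.mul_le_mul_left _ (Finset.card_le_card ?_))
      intro x hx
      obtain ⟨v, hv, rfl⟩ := Finset.mem_image.1 hx
      exact hpf1 v hv
    · intro x hx
      obtain ⟨v₁, hv₁, rfl⟩ := Finset.mem_image.1 hx
      apply Finset.card_le_card_of_injOn (fun v => v - v₁)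
      · intro v hv
        rw [Finset.mem_coe, Finset.mem_filter] at hv
        rw [Finset.mem_coe, hF₀m]
        have c1 := hpf2 v hv.1
        have c2 := hpf2 v₁ hv₁
        rw [hv.2] at c1
        apply per_small Hy hd
        · exact B.sub_mem (Hy.mem_Box.1 (hPB (hwdata v hv.1).1)).1
            (Hy.mem_Box.1 (hPB (hwdata v₁ hv₁).1)).1
        · rw [← c2] at c1
          have c3 : (v - v₁) - (M ^ (-(d : ℤ))) (v - v₁) = 0 := by
            have c4 : (v - v₁) - (M ^ (-(d : ℤ))) (v - v₁) =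
                ((v - v₀) - (M ^ (-(d : ℤ))) (v - v₀)) -
                ((v₁ - v₀) - (M ^ (-(d : ℤ))) (v₁ - v₀)) := by
              simp only [map_sub]
              abel
            rw [c4, c1, sub_self]
          exact (sub_eq_zero.1 c3).symm
      · intro v _ v' _ hvv
        exact sub_left_injective hvv
  · -- costs
    rintro ⟨v, I⟩ hp
    rw [Finset.mem_product, Finset.mem_powerset] at hp
    have hv := Hy.mem_Box.1 (hPB hp.1)
    have hI : I ⊆ K := hp.2
    have a1 := hP.path H I v _ (fun i hi => hKhi i (hI hi)) (yl_spec S hv.1 H)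
    have a2 := yl_le a1
    rw [← pow_mul, ← pow_add]
    exact pow_le_pow_of_le_one hzpos.le hz1 a2
  · intro b _
    positivity

end MPa1853dH
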