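import Pool.Agent.Lib.MP_a1853d_al.HY.Spec

set_option autoImplicit false

/-! # PERT: the perturbations -/

namespace MPa1853dH

namespace PERTAux

theorem geom_le {r : ℝ} (hr0 : 0 ≤ r) (hr1 : r < 1) (I : Finset ℕ) (f : ℕ → ℕ)
    (hf : Set.InjOn f I) : ∑ i ∈ I, r ^ f i ≤ (1 - r)⁻¹ := by
  classical
  rw [← Finset.sum_image (f := fun k => r ^ k) hf, ← tsum_geometric_of_lt_one hr0 hr1]
  exact (summable_geometric_of_lt_one hr0 hr1).sum_le_tsum _ fun k _ => pow_nonneg hr0 k

end PERTAux

open PERTAux in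
theorem specPert : SpecPert := by
  classical
  intro V _ M B nu ns C κ L E Ct Hy S
  have hC := Hy.one_le
  have hκ := Hy.one_lt
  set r : ℝ := κ⁻¹ with hr
  have hr0 : 0 < r := inv_pos.2 Hy.κ_pos
  have hr1 : r < 1 := inv_lt_one_of_one_lt₀ hκ
  have h1r : 0 < 1 - r := by linarith
  have hdiv : ∀ h : ℕ, C / κ ^ h = C * r ^ h := fun h => by
    rw [hr, inv_pow, div_eq_mul_inv]
  obtain ⟨c, hcB, hc⟩ := Hy.exp
  obtain ⟨n₀, hn₀⟩ := exists_pow_lt_of_lt_one (show 0 < (1 - r) / C by positivity) hr1
  set q : ℕ := n₀ + 1 with hq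
  have hq1 : 1 ≤ q := by omega
  have hrq : C * r ^ q * (1 - r)⁻¹ < 1 := by
    have h1 : r ^ q ≤ r ^ n₀ := pow_le_pow_of_le_one hr0.le hr1.le (by omega)
    have h2 : r ^ q < (1 - r) / C := h1.trans_lt hn₀
    rw [lt_div_iff₀ (by linarith)] at h2
    rw [← div_eq_mul_inv, div_lt_one h1r]
    linarith
  obtain ⟨N, hN⟩ := Hy.exists_insert S (nu c + ns c)
  have hns0 := Hy.ns_nonneg c
  refine ⟨q, c, N, C * (1 - r)⁻¹ * (nu c + ns c), ?_⟩
  have hexpand : ∀ k : ℕ, 0 < nu ((M ^ (k : ℤ)) c) := by
    intro k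
    have h1 := Hy.nu_con k ((M ^ (k : ℤ)) c)
    rw [Mp_neg] at h1
    by_contra hcon
    have h2 : nu ((M ^ (k : ℤ)) c) = 0 := le_antisymm (not_lt.1 hcon) (Hy.nu_nonneg _)
    rw [h2, mul_zero] at h1
    linarith
  -- `I` and `J` with a largest index `m` in `I` but not in `J`
  have hinj : ∀ (I J : Finset ℕ) (m : ℕ), m ∈ I → m ∉ J → (∀ i ∈ I, m < i → i ∈ J) →
      (∀ i ∈ J, m < i → i ∈ I) → del M q c I ≠ del M q c J := by
    intro I J m hmI hmJ h1 h2 heq
    set g : ℕ → V := fun i => (M ^ ((q * i : ℕ) : ℤ)) c with hg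
    have hgi : ∀ i, i < m → nu (g i) ≤ C * r ^ q * r ^ (m - i - 1) * nu (g m) := by
      intro i hi
      have e1 : g i = (M ^ (-((q * (m - i) : ℕ) : ℤ))) (g m) := by
        rw [hg]
        beta_reduce
        rw [← Mp_add]
        congr 2
        rw [Nat.cast_mul, Nat.cast_mul, Nat.cast_mul, Nat.cast_sub hi.le]
        ring
      have e2 := Hy.nu_con (q * (m - i)) (g m)
      rw [← e1, hdiv] at e2
      refine e2.trans (mul_le_mul_of_nonneg_right ?_ (Hy.nu_nonneg _))
      rw [mul_assoc]
      refine mul_le_mul_of_nonneg_left ?_ Hy.C_pos.le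
      rw [← pow_add]
      refine pow_le_pow_of_le_one hr0.le hr1.le ?_
      obtain ⟨k, hk⟩ : ∃ k, m - i = k + 1 := ⟨m - i - 1, by omega⟩
      rw [hk, mul_add, mul_one, Nat.add_sub_cancel]
      nlinarith
    -- the part of `I` and `J` below `m`
    have hsplit : g m + (∑ i ∈ I.filter (fun i => i < m ∧ i ∉ J), g i -
        ∑ i ∈ J.filter (fun i => i < m ∧ i ∉ I), g i) = 0 := by
      have e1 : ∑ i ∈ I, g i = ∑ i ∈ I ∩ J, g i + (g m +
          ∑ i ∈ I.filter (fun i => i < m ∧ i ∉ J), g i) := by
        have e2 : I = (I ∩ J) ∪ (insert m (I.filter (fun i => i < m ∧ i ∉ J))) := by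
          ext i
          simp only [Finset.mem_union, Finset.mem_inter, Finset.mem_insert, Finset.mem_filter]
          constructor
          · intro hi
            by_cases hiJ : i ∈ J
            · exact Or.inl ⟨hi, hiJ⟩
            · right
              rcases lt_trichotomy i m with h | h | h
              · exact Or.inr ⟨hi, h, hiJ⟩
              · exact Or.inl h
              · exact absurd (h1 i hi h) hiJ
          · rintro (h | h | h)
            · exact h.1
            · rw [h]
              exact hmI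
            · exact h.1
        have e3 : Disjoint (I ∩ J) (insert m (I.filter (fun i => i < m ∧ i ∉ J))) := by
          rw [Finset.disjoint_left]
          intro i hi hi'
          rw [Finset.mem_inter] at hi
          rw [Finset.mem_insert, Finset.mem_filter] at hi'
          rcases hi' with h | h
          · rw [h] at hi
            exact hmJ hi.2
          · exact h.2.2 hi.2
        conv_lhs => rw [e2]
        rw [Finset.sum_union e3, Finset.sum_insert (by simp)]
      have e4 : ∑ i ∈ J, g i = ∑ i ∈ I ∩ J, g i +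
          ∑ i ∈ J.filter (fun i => i < m ∧ i ∉ I), g i := by
        have e2 : J = (I ∩ J) ∪ (J.filter (fun i => i < m ∧ i ∉ I)) := by
          ext i
          simp only [Finset.mem_union, Finset.mem_inter, Finset.mem_filter]
          constructor
          · intro hi
            by_cases hiI : i ∈ I
            · exact Or.inl ⟨hiI, hi⟩
            · right
              rcases lt_trichotomy i m with h | h | h
              · exact ⟨hi, h, hiI⟩
              · rw [h] at hi
                exact absurd hi hmJ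
              · exact absurd (h2 i hi h) hiI
          · rintro (h | h)
            · exact h.2
            · exact h.1
        have e3 : Disjoint (I ∩ J) (J.filter (fun i => i < m ∧ i ∉ I)) := by
          rw [Finset.disjoint_left]
          intro i hi hi'
          rw [Finset.mem_inter] at hi
          rw [Finset.mem_filter] at hi'
          exact hi'.2.2 hi.1
        conv_lhs => rw [e2]
        rw [Finset.sum_union e3]
      have e5 : ∑ i ∈ I, g i = ∑ i ∈ J, g i := heq
      rw [e1, e4] at e5
      have e6 := add_left_cancel e5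
      rw [← add_sub_assoc, e6, sub_self]
    have hgm : g m = ∑ i ∈ J.filter (fun i => i < m ∧ i ∉ I), g i -
        ∑ i ∈ I.filter (fun i => i < m ∧ i ∉ J), g i := by
      rw [← sub_eq_zero, ← hsplit]
      abel
    have hbound : nu (g m) ≤ ∑ i ∈ J.filter (fun i => i < m ∧ i ∉ I), nu (g i) +
        ∑ i ∈ I.filter (fun i => i < m ∧ i ∉ J), nu (g i) := by
      have := Hy.nu_sub (∑ i ∈ J.filter (fun i => i < m ∧ i ∉ I), g i)
        (∑ i ∈ I.filter (fun i => i < m ∧ i ∉ J), g i)
      rw [← hgm] at this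
      exact this.trans (add_le_add (Hy.nu_sum _ _) (Hy.nu_sum _ _))
    have hdisj : Disjoint (J.filter (fun i => i < m ∧ i ∉ I))
        (I.filter (fun i => i < m ∧ i ∉ J)) := by
      rw [Finset.disjoint_left]
      intro i hi hi'
      rw [Finset.mem_filter] at hi hi'
      exact hi.2.2 hi'.1
    rw [← Finset.sum_union hdisj] at hbound
    set U := (J.filter (fun i => i < m ∧ i ∉ I)) ∪ (I.filter (fun i => i < m ∧ i ∉ J)) with hU
    have hUm : ∀ i ∈ U, i < m := by
      intro i hi
      rw [hU, Finset.mem_union, Finset.mem_filter, Finset.mem_filter] at hi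
      rcases hi with h | h
      · exact h.2.1
      · exact h.2.1
    have h3 : ∑ i ∈ U, nu (g i) ≤ C * r ^ q * (1 - r)⁻¹ * nu (g m) := by
      calc ∑ i ∈ U, nu (g i) ≤ ∑ i ∈ U, C * r ^ q * r ^ (m - i - 1) * nu (g m) :=
            Finset.sum_le_sum fun i hi => hgi i (hUm i hi)
        _ = C * r ^ q * (∑ i ∈ U, r ^ (m - i - 1)) * nu (g m) := by
            rw [Finset.mul_sum, Finset.sum_mul]
        _ ≤ C * r ^ q * (1 - r)⁻¹ * nu (g m) := by
            refine mul_le_mul_of_nonneg_right ?_ (Hy.nu_nonneg _)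
            refine mul_le_mul_of_nonneg_left ?_ (by positivity)
            refine geom_le hr0.le hr1 U (fun i => m - i - 1) ?_
            intro i hi j hj hij
            have := hUm i hi
            have := hUm j hj
            simp only at hij
            omega
    have h4 : 0 < nu (g m) := hexpand (q * m)
    nlinarith
  refine
    { q_pos := hq1
      c_mem := hcB
      inj := ?_
      nu_le := ?_
      ns_le := ?_
      path := ?_ }
  · intro I J heq
    by_contra hne
    have hS : (symmDiff I J).Nonempty := by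
      rw [Finset.nonempty_iff_ne_empty]
      intro h
      exact hne (symmDiff_eq_bot.1 h)
    have hm := (symmDiff I J).max'_mem hS
    set m := (symmDiff I J).max' hS with hmdef
    have hmax : ∀ i, i ∈ symmDiff I J → i ≤ m := fun i hi => Finset.le_max' _ i hi
    have hIJ : ∀ i, i ∈ symmDiff I J ↔ (i ∈ I ∧ i ∉ J) ∨ (i ∈ J ∧ i ∉ I) := fun i =>
      Finset.mem_symmDiff
    rcases (hIJ m).1 hm with h | h
    · refine hinj I J m h.1 h.2 (fun i hi hmi => ?_) (fun i hi hmi => ?_) heq
      · by_contra hi'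
        exact absurd (hmax i ((hIJ i).2 (Or.inl ⟨hi, hi'⟩))) (not_le.2 hmi)
      · by_contra hi'
        exact absurd (hmax i ((hIJ i).2 (Or.inr ⟨hi, hi'⟩))) (not_le.2 hmi)
    · refine hinj J I m h.1 h.2 (fun i hi hmi => ?_) (fun i hi hmi => ?_) heq.symm
      · by_contra hi'
        exact absurd (hmax i ((hIJ i).2 (Or.inr ⟨hi, hi'⟩))) (not_le.2 hmi)
      · by_contra hi'
        exact absurd (hmax i ((hIJ i).2 (Or.inl ⟨hi, hi'⟩))) (not_le.2 hmi)
  · intro H I hI
    unfold del
    rw [map_sum]
    refine (Hy.nu_sum _ _).trans ?_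
    have h1 : ∀ i ∈ I, nu ((M ^ (-(H : ℤ))) ((M ^ ((q * i : ℕ) : ℤ)) c)) ≤
        C * r ^ (H - q * i) * nu c := by
      intro i hi
      have e1 : (M ^ (-(H : ℤ))) ((M ^ ((q * i : ℕ) : ℤ)) c) =
          (M ^ (-((H - q * i : ℕ) : ℤ))) c := by
        rw [← Mp_add, Nat.cast_sub (hI i hi)]
        congr 2
        ring
      rw [e1, ← hdiv]
      exact Hy.nu_con _ _
    refine (Finset.sum_le_sum h1).trans ?_
    rw [← Finset.sum_mul, ← Finset.mul_sum]
    have h2 : ∑ i ∈ I, r ^ (H - q * i) ≤ (1 - r)⁻¹ := by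
      refine geom_le hr0.le hr1 I (fun i => H - q * i) ?_
      intro i hi j hj hij
      have a1 := hI i hi
      have a2 := hI j hj
      simp only at hij
      have a3 : q * i = q * j := by omega
      exact Nat.eq_of_mul_eq_mul_left hq1 a3
    have h3 : 0 ≤ (1 - r)⁻¹ := inv_nonneg.2 h1r.le
    calc C * (∑ i ∈ I, r ^ (H - q * i)) * nu c ≤ C * (1 - r)⁻¹ * nu c :=
          mul_le_mul_of_nonneg_right (mul_le_mul_of_nonneg_left h2 Hy.C_pos.le) hc.le
      _ ≤ C * (1 - r)⁻¹ * (nu c + ns c) :=
          mul_le_mul_of_nonneg_left (by linarith) (by positivity)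
  · intro h I hI
    unfold del
    rw [map_sum]
    have e1 : ∀ i ∈ I, (M ^ (-(h : ℤ))) ((M ^ ((q * i : ℕ) : ℤ)) c) =
        (M ^ ((q * i - h : ℕ) : ℤ)) c := by
      intro i hi
      rw [← Mp_add, Nat.cast_sub (hI i hi)]
      congr 2
      ring
    rw [Finset.sum_congr rfl e1]
    refine ⟨B.sum_mem fun i _ => Hy.mem_pow hcB _, ?_⟩
    refine (Hy.ns_sum _ _).trans ?_
    have h1 : ∀ i ∈ I, ns ((M ^ ((q * i - h : ℕ) : ℤ)) c) ≤ C * r ^ (q * i - h) * ns c := by
      intro i hi
      rw [← hdiv]
      exact Hy.ns_con _ _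
    refine (Finset.sum_le_sum h1).trans ?_
    rw [← Finset.sum_mul, ← Finset.mul_sum]
    have h2 : ∑ i ∈ I, r ^ (q * i - h) ≤ (1 - r)⁻¹ := by
      refine geom_le hr0.le hr1 I (fun i => q * i - h) ?_
      intro i hi j hj hij
      have a1 := hI i hi
      have a2 := hI j hj
      simp only at hij
      have a3 : q * i = q * j := by omega
      exact Nat.eq_of_mul_eq_mul_left hq1 a3
    have h3 : 0 ≤ (1 - r)⁻¹ := inv_nonneg.2 h1r.le
    calc C * (∑ i ∈ I, r ^ (q * i - h)) * ns c ≤ C * (1 - r)⁻¹ * ns c :=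
          mul_le_mul_of_nonneg_right (mul_le_mul_of_nonneg_left h2 Hy.C_pos.le) hns0
      _ ≤ C * (1 - r)⁻¹ * (nu c + ns c) :=
          mul_le_mul_of_nonneg_left (by linarith) (by positivity)
  · intro H I v n hI hp
    have hcS : c ∈ Sm B nu ns (nu c + ns c) := ⟨hcB, by linarith, by linarith⟩
    induction I using Finset.induction_on generalizing v n with
    | empty => simpa [del] using hp
    | insert i I hi ih =>
      have h1 := hN c hcS 0 H ((q * i : ℕ) : ℤ) v n (by positivity)
        (by exact_mod_cast hI i (Finset.mem_insert_self _ _)) hp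
      have h2 := ih (v + (M ^ ((q * i : ℕ) : ℤ)) c) (n + N)
        (fun j hj => hI j (Finset.mem_insert_of_mem hj)) h1
      refine h2.of_eq ?_ ?_
      · unfold del
        rw [Finset.sum_insert hi, add_assoc]
      · rw [Finset.card_insert_of_notMem hi, mul_add, mul_one]
        omega

end MPa1853dH
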