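import Mathlib
import Pool.Agent.Lib.MP_a1853d_al.HY.Spec
import Pool.Agent.Lib.MP_a1853d_al.HY.Cong

set_option autoImplicit false

/-! # Cyclic words: reassembling a path inside one period -/

namespace MPa1853dH

variable {V : Type*} [AddCommGroup V] {M : V ≃ₗ[ℤ] V} {B : AddSubgroup V}
  {L : Finset (V × ℤ)} {E Ct : ℕ}

/-- clamp to the window `[q H, (q+1) H]` -/
def clq (H : ℤ) (q : ℤ) (h : ℤ) : ℤ := max (q * H) (min h ((q + 1) * H))

/-- the window -/
def innq (H : ℤ) (q : ℤ) (h : ℤ) : Prop := q * H ≤ h ∧ h < (q + 1) * H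

/-- position in the window -/
def gq (H s q : ℤ) : ℤ := max 0 (min (s - q * H) H)

theorem clq_eq {H : ℤ} {q h : ℤ} (h1 : innq H q h) : clq H q h = h := by
  unfold clq
  rw [min_eq_left h1.2.le, max_eq_right h1.1]

theorem clq_sub (H s q : ℤ) : clq H q s - q * H = gq H s q := by
  unfold clq gq
  have : (q + 1) * H = q * H + H := by ring
  rw [this]
  omega

theorem clq_sub' (H s q : ℤ) : clq H q (s + H) - q * H = gq H s (q - 1) := by
  unfold clq gq
  have : (q + 1) * H = q * H + H := by ring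
  rw [this]
  have : (q - 1) * H = q * H - H := by ring
  rw [this]
  omega

theorem sum_clq (H : ℤ) (hH : 0 ≤ H) (q₁ : ℤ) (a b : ℤ) (m₀ : ℕ) :
    ∑ i ∈ Finset.range m₀, (clq H (q₁ - i) b - clq H (q₁ - i) a) =
      max ((q₁ - m₀ + 1) * H) (min b ((q₁ + 1) * H)) -
        max ((q₁ - m₀ + 1) * H) (min a ((q₁ + 1) * H)) := by
  induction m₀ with
  | zero =>
    simp only [Finset.range_zero, Finset.sum_empty, Nat.cast_zero, sub_zero]
    omega
  | succ m₀ ih =>
    rw [Finset.sum_range_succ, ih]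
    unfold clq
    have e1 : (q₁ - ((m₀ + 1 : ℕ) : ℤ) + 1) * H = (q₁ - m₀) * H := by push_cast; ring
    have e2 : (q₁ - (m₀ : ℤ) + 1) * H = (q₁ - m₀) * H + H := by ring
    have e3 : (q₁ + 1) * H = (q₁ - m₀) * H + H + m₀ * H := by ring
    have e4 : 0 ≤ (m₀ : ℤ) * H := by positivity
    rw [e1, e2, e3]
    generalize (q₁ - (m₀ : ℤ)) * H = x at *
    generalize (m₀ : ℤ) * H = y at *
    omega

theorem sum_abs_clq (H : ℤ) (hH : 0 ≤ H) (q₁ : ℤ) (a b : ℤ) (m₀ : ℕ) :
    ∑ i ∈ Finset.range m₀, |clq H (q₁ - i) b - clq H (q₁ - i) a| ≤ |b - a| := by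
  wlog hab : a ≤ b with Hw
  · have := Hw H hH q₁ b a m₀ (le_of_lt (not_le.1 hab))
    rw [abs_sub_comm b a]
    refine le_trans (le_of_eq ?_) this
    apply Finset.sum_congr rfl
    intro i _
    rw [abs_sub_comm]
  · have h1 : ∀ i ∈ Finset.range m₀, |clq H (q₁ - i) b - clq H (q₁ - i) a| =
        clq H (q₁ - i) b - clq H (q₁ - i) a := by
      intro i _
      apply abs_of_nonneg
      unfold clq
      omega
    rw [Finset.sum_congr rfl h1, sum_clq H hH]
    have h2 : (q₁ - (m₀ : ℤ) + 1) * H ≤ (q₁ + 1) * H := by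
      have e4 : 0 ≤ (m₀ : ℤ) * H := by positivity
      nlinarith
    rw [abs_of_nonneg (sub_nonneg.2 hab)]
    generalize (q₁ - (m₀ : ℤ) + 1) * H = x at *
    generalize (q₁ + 1) * H = y at *
    omega

theorem innq_iff {H : ℕ} (hH : 1 ≤ H) (q h : ℤ) : innq H q h ↔ q = h / (H : ℤ) := by
  have hH' : (0 : ℤ) < H := by exact_mod_cast hH
  unfold innq
  constructor
  · rintro ⟨h1, h2⟩
    have a1 : q ≤ h / (H : ℤ) := (Int.le_ediv_iff_mul_le hH').2 h1
    have a2 : h / (H : ℤ) < q + 1 := (Int.ediv_lt_iff_lt_mul hH').2 h2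
    omega
  · rintro rfl
    constructor
    · exact Int.ediv_mul_le h hH'.ne'
    · have := Int.lt_ediv_add_one_mul_self h hH'
      exact this

theorem cost_letter (S : Sys M B L E Ct) {H : ℕ} (hH : 1 ≤ H) (q₁ : ℤ) (m₀ : ℕ) (h : ℤ)
    (p : V × ℤ) (hp : p ∈ L) :
    ∑ i ∈ Finset.range m₀, ccost Ct (clq H (q₁ - i)) (innq H (q₁ - i)) h p ≤
      1 + 2 * Ct * E * near E H h p := by
  classical
  have hE := S.hE p hp
  have hH' : (0 : ℤ) < H := by exact_mod_cast hH
  -- at most one window contains `h`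
  have hcard : ((Finset.range m₀).filter (fun i : ℕ => innq H (q₁ - i) h)).card ≤ 1 := by
    rw [Finset.card_le_one]
    intro i hi j hj
    rw [Finset.mem_filter, innq_iff hH] at hi hj
    omega
  by_cases hn : (h % (H : ℤ)) < E ∨ (H : ℤ) - h % (H : ℤ) < E
  · -- crude bound
    have h1 : ∀ i ∈ Finset.range m₀, ccost Ct (clq H (q₁ - i)) (innq H (q₁ - i)) h p ≤
        (if innq H (q₁ - i) h then 1 + Ct * E else 0) +
          Ct * (clq H (q₁ - i) (h + p.2) - clq H (q₁ - i) h).natAbs := by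
      intro i _
      unfold ccost
      by_cases hi : innq H (q₁ - i) h
      · rw [if_pos hi, if_pos hi]
        have h2 : (clq H (q₁ - i) (h + p.2) - (h + p.2)).natAbs ≤ E := by
          obtain ⟨a1, a2⟩ := hi
          unfold clq
          rw [abs_le] at hE
          omega
        have := Nat.mul_le_mul_left Ct h2
        omega
      · rw [if_neg hi, if_neg hi]
        omega
    refine (Finset.sum_le_sum h1).trans ?_
    rw [Finset.sum_add_distrib, ← Finset.sum_filter, Finset.sum_const, ← Finset.mul_sum,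
      smul_eq_mul]
    have h2 : ∑ i ∈ Finset.range m₀, (clq H (q₁ - i) (h + p.2) - clq H (q₁ - i) h).natAbs ≤ E := by
      have h3 := sum_abs_clq (H : ℤ) hH'.le q₁ h (h + p.2) m₀
      have h4 : |h + p.2 - h| ≤ (E : ℤ) := by
        have : h + p.2 - h = p.2 := by ring
        rw [this]; exact hE
      have h5 : ((∑ i ∈ Finset.range m₀,
          (clq H (q₁ - i) (h + p.2) - clq H (q₁ - i) h).natAbs : ℕ) : ℤ) ≤ E := by
        push_cast
        exact h3.trans h4
      exact_mod_cast h5
    have h6 := Nat.mul_le_mul_left Ct h2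
    have h7 := Nat.mul_le_mul_right (1 + Ct * E) hcard
    unfold near
    rw [if_pos hn]
    have : 2 * Ct * E * 1 = Ct * E + Ct * E := by ring
    omega
  · -- exact
    unfold near
    rw [if_neg hn]
    push Not at hn
    have h1 : ∀ i ∈ Finset.range m₀, ccost Ct (clq H (q₁ - i)) (innq H (q₁ - i)) h p ≤
        (if innq H (q₁ - i) h then 1 else 0) := by
      intro i _
      have hdm := Int.emod_add_mul_ediv h (H : ℤ)
      have hw := (innq_iff hH (h / (H : ℤ)) h).2 rfl
      obtain ⟨w1, w2⟩ := hw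
      have e1 : (h / (H : ℤ) + 1) * (H : ℤ) = h / (H : ℤ) * (H : ℤ) + H := by ring
      have e2 : (H : ℤ) * (h / (H : ℤ)) = h / (H : ℤ) * (H : ℤ) := by ring
      rw [e2] at hdm
      rw [e1] at w2
      rw [abs_le] at hE
      unfold ccost
      by_cases hi : innq H (q₁ - i) h
      · rw [if_pos hi, if_pos hi]
        have hq := (innq_iff hH _ _).1 hi
        have h2 : (clq H (q₁ - i) (h + p.2) - (h + p.2)).natAbs = 0 := by
          rw [hq]
          unfold clq
          rw [e1]
          generalize h / (H : ℤ) * (H : ℤ) = x at *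
          omega
        rw [h2]
        simp
      · rw [if_neg hi, if_neg hi]
        have h2 : (clq H (q₁ - i) (h + p.2) - clq H (q₁ - i) h).natAbs = 0 := by
          rw [innq_iff hH] at hi
          unfold clq
          rcases lt_or_gt_of_ne hi with hlt | hgt
          · have h3 : (q₁ - i + 1) * (H : ℤ) ≤ h / (H : ℤ) * (H : ℤ) :=
              mul_le_mul_of_nonneg_right (by omega) hH'.le
            have h4 : (q₁ - i) * (H : ℤ) ≤ (q₁ - i + 1) * (H : ℤ) :=
              mul_le_mul_of_nonneg_right (by omega) hH'.le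
            generalize h / (H : ℤ) * (H : ℤ) = x at *
            generalize (q₁ - i + 1) * (H : ℤ) = y at *
            generalize (q₁ - i) * (H : ℤ) = t at *
            omega
          · have h3 : h / (H : ℤ) * (H : ℤ) + H ≤ (q₁ - i) * (H : ℤ) := by
              rw [← e1]
              exact mul_le_mul_of_nonneg_right (by omega) hH'.le
            have h4 : (q₁ - i) * (H : ℤ) ≤ (q₁ - i + 1) * (H : ℤ) :=
              mul_le_mul_of_nonneg_right (by omega) hH'.le
            generalize h / (H : ℤ) * (H : ℤ) = x at *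
            generalize (q₁ - i + 1) * (H : ℤ) = y at *
            generalize (q₁ - i) * (H : ℤ) = t at *
            omega
        rw [h2]
        simp
    refine (Finset.sum_le_sum h1).trans ?_
    rw [← Finset.sum_filter, Finset.sum_const, smul_eq_mul]
    omega

theorem reassemble (S : Sys M B L E Ct) {H : ℕ} (hH : 1 ≤ H) (l : List (V × ℤ))
    (hl : ∀ p ∈ l, p ∈ L) (s : ℤ) (hfin : fin s l = s + H) :
    PP M L 0 H (psum (cyc M H) s l) (l.length + 2 * Ct * E * psum (near E H) s l) := by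
  classical
  have hH' : (0 : ℤ) < H := by exact_mod_cast hH
  -- bound of the heights
  set b₀ : ℕ := s.natAbs + E * l.length with hB
  have hBs : |s| + E * l.length ≤ (b₀ : ℤ) := by
    rw [hB]; push_cast; simp
  have hall := (allH_bound l (fun p hp => S.hE p (hl p hp)) s b₀ hBs).1
  have hsB : |s| ≤ (b₀ : ℤ) := by
    have : (0 : ℤ) ≤ E * l.length := by positivity
    linarith
  rw [abs_le] at hsB
  have hBH : (b₀ : ℤ) ≤ b₀ * H := by
    have : (0 : ℤ) ≤ b₀ := by positivity
    nlinarith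
  -- one window
  have hwin : ∀ q : ℤ, PP M L (gq H s q) (gq H s (q - 1))
      ((M ^ (-(q * (H : ℤ)))) (psum (cctr M (innq H q)) s l))
      (psum (ccost Ct (clq H q) (innq H q)) s l) := by
    intro q
    have p1 := clamp_path S (clq H q) (innq H q) (fun h hh => clq_eq hh) l hl s
    rw [hfin] at p1
    have p2 := p1.shift (-(q * (H : ℤ)))
    have e1 := clq_sub (H : ℤ) s q
    have e2 := clq_sub' (H : ℤ) s q
    rw [sub_eq_add_neg] at e1 e2
    rw [e1, e2] at p2
    exact p2
  -- all windows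
  have hchain : ∀ m₀ : ℕ, PP M L (gq H s b₀) (gq H s (b₀ - m₀))
      (∑ i ∈ Finset.range m₀, (M ^ (-(((b₀ : ℤ) - i) * (H : ℤ))))
        (psum (cctr M (innq H ((b₀ : ℤ) - i))) s l))
      (∑ i ∈ Finset.range m₀, psum (ccost Ct (clq H ((b₀ : ℤ) - i)) (innq H ((b₀ : ℤ) - i))) s l) := by
    intro m₀
    induction m₀ with
    | zero => simpa using PP.refl (M := M) (L := L) (gq H s b₀)
    | succ m₀ ih =>
      rw [Finset.sum_range_succ, Finset.sum_range_succ]
      have h1 := hwin ((b₀ : ℤ) - m₀)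
      have e : (b₀ : ℤ) - m₀ - 1 = b₀ - ((m₀ + 1 : ℕ) : ℤ) := by push_cast; ring
      rw [e] at h1
      exact ih.trans h1
  have h0 := hchain (2 * b₀ + 1)
  have g1 : gq H s b₀ = 0 := by
    unfold gq
    generalize (b₀ : ℤ) * H = x at *
    omega
  have g2 : gq H s ((b₀ : ℤ) - ((2 * b₀ + 1 : ℕ) : ℤ)) = H := by
    unfold gq
    have : ((b₀ : ℤ) - ((2 * b₀ + 1 : ℕ) : ℤ)) * H = -(b₀ * H) - H := by push_cast; ring
    rw [this]
    generalize (b₀ : ℤ) * H = x at *
    omega
  rw [g1, g2] at h0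
  refine h0.of_eq ?_ ?_
  · -- values
    have h3 : ∀ i : ℕ, (M ^ (-(((b₀ : ℤ) - i) * (H : ℤ))))
        (psum (cctr M (innq H ((b₀ : ℤ) - i))) s l) =
        psum (fun h p => (M ^ (-(((b₀ : ℤ) - i) * (H : ℤ)))) (cctr M (innq H ((b₀ : ℤ) - i)) h p))
          s l := by
      intro i
      rw [Mp_psum]
    rw [Finset.sum_congr rfl (fun i _ => h3 i), ← psum_finset_sum]
    apply psum_congr l s hall
    intro h hh p _
    rw [abs_le] at hh
    have hq1 : -(b₀ : ℤ) ≤ h / (H : ℤ) := by
      rw [Int.le_ediv_iff_mul_le hH']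
      nlinarith
    have hq2 : h / (H : ℤ) ≤ b₀ := by
      have : h / (H : ℤ) < b₀ + 1 := by
        rw [Int.ediv_lt_iff_lt_mul hH']
        nlinarith
      omega
    rw [Finset.sum_eq_single ((b₀ : ℤ) - h / (H : ℤ)).toNat]
    · have e : (b₀ : ℤ) - (((b₀ : ℤ) - h / (H : ℤ)).toNat : ℤ) = h / (H : ℤ) := by omega
      rw [e]
      have hi := (innq_iff hH (h / (H : ℤ)) h).2 rfl
      unfold cctr cyc ctr
      rw [if_pos hi, ← Mp_add]
      have hdm := Int.emod_add_mul_ediv h (H : ℤ)
      have e3 : -(h / (H : ℤ) * H) + h = h % (H : ℤ) := by linarith [mul_comm (H : ℤ) (h / (H : ℤ))]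
      rw [e3]
    · intro i _ hi
      have : ¬ innq H ((b₀ : ℤ) - i) h := by
        rw [innq_iff hH]
        omega
      unfold cctr
      rw [if_neg this, map_zero]
    · intro hnot
      exfalso
      apply hnot
      rw [Finset.mem_range]
      omega
  · -- costs
    rw [← psum_finset_sum]
    have h1 : psum (fun h p => ∑ i ∈ Finset.range (2 * b₀ + 1),
        ccost Ct (clq H ((b₀ : ℤ) - i)) (innq H ((b₀ : ℤ) - i)) h p) s l ≤
        psum (fun h p => 1 + 2 * Ct * E * near E H h p) s l :=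
      psum_le _ _ (fun h p hp => cost_letter S hH (b₀ : ℤ) (2 * b₀ + 1) h p (hl p hp))
    refine h1.trans ?_
    rw [psum_add (fun _ _ => (1 : ℕ)), psum_const, psum_mul_left]
    simp

theorem inJ_cyc (M : V ≃ₗ[ℤ] V) (H : ℕ) (s : ℤ) (l : List (V × ℤ)) :
    InJ M H (psum (cyc M H) s l - psum (ctr M) s l) := by
  induction l generalizing s with
  | nil => simpa using InJ.zero M H
  | cons p l ih =>
    simp only [psum_cons]
    have h1 := ih (s + p.2)
    have h2 : InJ M H (cyc M H s p - ctr M s p) := (InJ.emod M H s p.1).symm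
    have h4 := h2.add h1
    convert h4 using 1
    abel

theorem specReas : SpecReas := by
  intro V _ M B L E Ct S H hH l s hl hfin
  exact ⟨reassemble S hH l hl s hfin, inJ_cyc M H s l⟩

end MPa1853dH
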