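import Mathlib
import Pool.Agent.Lib.MP_a1853d_al.HY.Spec

set_option autoImplicit false

/-! # Rotations of a path of positive height -/

namespace MPa1853dH

namespace ROTAux

/-- the weight of a height: large near the multiples of `H` -/
noncomputable def Om (x : ℝ) (H : ℕ) (h : ℤ) : ℝ :=
  x ^ (h % (H : ℤ)).toNat + x ^ ((H : ℤ) - h % (H : ℤ)).toNat

theorem Om_nonneg {x : ℝ} (h0 : 0 ≤ x) (H : ℕ) (h : ℤ) : 0 ≤ Om x H h :=
  add_nonneg (pow_nonneg h0 _) (pow_nonneg h0 _)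

theorem geom_le {x : ℝ} (h0 : 0 ≤ x) (h1 : x < 1) (H : ℕ) :
    ∑ r ∈ Finset.range H, x ^ r ≤ (1 - x)⁻¹ := by
  have := Summable.sum_le_tsum (Finset.range H) (fun i _ => pow_nonneg h0 i)
    (summable_geometric_of_lt_one h0 h1)
  rwa [tsum_geometric_of_lt_one h0 h1] at this

theorem sum_Om_le {x : ℝ} (h0 : 0 ≤ x) (h1 : x < 1) {H : ℕ} (hH : 1 ≤ H) (h : ℤ) :
    ∑ j ∈ Finset.range H, Om x H (h + j) ≤ 2 * (1 - x)⁻¹ := by
  have hH' : (0 : ℤ) < H := by exact_mod_cast hH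
  have key : ∑ j ∈ Finset.range H, Om x H (h + j) ≤
      ∑ r ∈ Finset.range H, (x ^ r + x ^ (H - r)) := by
    apply sum_le_of_inj _ _ (fun j : ℕ => ((h + j) % (H : ℤ)).toNat)
    · intro j _
      have a1 := Int.emod_nonneg (h + j) hH'.ne'
      have a2 := Int.emod_lt_of_pos (h + j) hH'
      rw [Finset.mem_range]
      omega
    · intro j hj j' hj' hjj
      rw [Finset.mem_coe, Finset.mem_range] at hj hj'
      have a1 := Int.emod_nonneg (h + j) hH'.ne'
      have a2 := Int.emod_nonneg (h + j') hH'.ne'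
      have a3 : (h + j) % (H : ℤ) = (h + j') % (H : ℤ) := by
        have : ((h + j) % (H : ℤ)).toNat = ((h + j') % (H : ℤ)).toNat := hjj
        omega
      have a4 := Int.emod_eq_emod_iff_emod_sub_eq_zero.1 a3
      have a5 : (H : ℤ) ∣ ((h + j) - (h + j')) := Int.dvd_of_emod_eq_zero a4
      have a6 : |((h + j) - (h + j'))| < (H : ℤ) := by
        rw [abs_lt]
        constructor <;> omega
      have a7 := Int.eq_zero_of_abs_lt_dvd a5 a6
      omega
    · intro j _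
      have a1 := Int.emod_nonneg (h + j) hH'.ne'
      have a2 := Int.emod_lt_of_pos (h + j) hH'
      unfold Om
      apply le_of_eq
      show _ = x ^ ((h + j) % (H : ℤ)).toNat + x ^ (H - ((h + j) % (H : ℤ)).toNat)
      generalize (h + (j : ℤ)) % (H : ℤ) = m at *
      congr 2
      omega
    · intro r _
      positivity
  refine key.trans ?_
  rw [Finset.sum_add_distrib]
  have e1 := geom_le h0 h1 H
  have e2 : ∑ r ∈ Finset.range H, x ^ (H - r) ≤ ∑ r ∈ Finset.range H, x ^ r := by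
    have e3 := Finset.sum_range_reflect (fun r => x ^ (r + 1)) H
    have e4 : ∑ r ∈ Finset.range H, x ^ (H - r) =
        ∑ r ∈ Finset.range H, (fun r => x ^ (r + 1)) (H - 1 - r) := by
      apply Finset.sum_congr rfl
      intro r hr
      rw [Finset.mem_range] at hr
      show x ^ (H - r) = x ^ (H - 1 - r + 1)
      congr 1
      omega
    rw [e4, e3]
    apply Finset.sum_le_sum
    intro r _
    exact pow_le_pow_of_le_one h0 h1.le (Nat.le_succ r)
  linarith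

variable {V : Type*} [AddCommGroup V] {M : V ≃ₗ[ℤ] V} {B : AddSubgroup V} {nu ns : V → ℝ}
  {C κ : ℝ} {L : Finset (V × ℤ)} {E Ct : ℕ}

theorem near_le (hκ : 1 < κ) (H : ℕ) (E : ℕ) (h : ℤ) (p : V × ℤ) :
    ((near E H h p : ℕ) : ℝ) ≤ κ ^ E * Om κ⁻¹ H h := by
  have hκ0 : 0 < κ := one_pos.trans hκ
  have hx0 : 0 ≤ κ⁻¹ := inv_nonneg.2 hκ0.le
  have hx1 : κ⁻¹ ≤ 1 := inv_le_one_of_one_le₀ hκ.le
  have key : ∀ r : ℕ, r ≤ E → 1 ≤ κ ^ E * κ⁻¹ ^ r := by
    intro r hr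
    have h1 : κ⁻¹ ^ E ≤ κ⁻¹ ^ r := pow_le_pow_of_le_one hx0 hx1 hr
    calc (1 : ℝ) = κ ^ E * κ⁻¹ ^ E := by rw [← mul_pow, mul_inv_cancel₀ hκ0.ne', one_pow]
      _ ≤ _ := mul_le_mul_of_nonneg_left h1 (by positivity)
  unfold near Om
  rw [mul_add]
  have n1 : 0 ≤ κ ^ E * κ⁻¹ ^ (h % (H : ℤ)).toNat := by positivity
  have n2 : 0 ≤ κ ^ E * κ⁻¹ ^ ((H : ℤ) - h % (H : ℤ)).toNat := by positivity
  by_cases hc : (h % (H : ℤ)) < E ∨ (H : ℤ) - h % (H : ℤ) < E
  · rw [if_pos hc, Nat.cast_one]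
    rcases hc with hc | hc
    · have := key (h % (H : ℤ)).toNat (by omega)
      linarith
    · have := key ((H : ℤ) - h % (H : ℤ)).toNat (by omega)
      linarith
  · rw [if_neg hc, Nat.cast_zero]
    linarith

theorem psum_near_le (hκ : 1 < κ) (H : ℕ) (E : ℕ) (l : List (V × ℤ)) (s : ℤ) :
    ((psum (near E H) s l : ℕ) : ℝ) ≤ κ ^ E * psum (fun h _ => Om κ⁻¹ H h) s l := by
  induction l generalizing s with
  | nil => simp
  | cons p l ih =>
    simp only [psum_cons]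
    push_cast
    rw [mul_add]
    exact add_le_add (near_le hκ H E s p) (ih _)

theorem cyc_mem (Hy : Hyp M B nu ns C κ) {H : ℕ} (hH : 1 ≤ H) (l : List (V × ℤ))
    (hl : ∀ p ∈ l, p.1 ∈ B) (s : ℤ) : psum (cyc M H) s l ∈ B := by
  induction l generalizing s with
  | nil => exact B.zero_mem
  | cons p l ih =>
    rw [psum_cons]
    refine B.add_mem ?_ (ih (fun q hq => hl q (by simp [hq])) _)
    unfold cyc
    exact Hy.mem_zpow (hl p (by simp)) (Int.emod_nonneg _ (by positivity))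

theorem nu_cyc_le (Hy : Hyp M B nu ns C κ) {H : ℕ} (hH : 1 ≤ H) {A : ℝ}
    (l : List (V × ℤ)) (hl : ∀ p ∈ l, nu p.1 ≤ A) (s : ℤ) :
    nu ((M ^ (-(H : ℤ))) (psum (cyc M H) s l)) ≤
      C * A * psum (fun h _ => Om κ⁻¹ H h) s l := by
  have hH' : (0 : ℤ) < H := by exact_mod_cast hH
  have hκ0 := Hy.κ_pos
  have hC := Hy.C_pos
  induction l generalizing s with
  | nil => simp [Hy.nu_zero]
  | cons p l ih =>
    rw [psum_cons, psum_cons, map_add, mul_add]
    refine (Hy.nu_add _ _).trans (add_le_add ?_ (ih (fun q hq => hl q (by simp [hq])) _))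
    unfold cyc
    have a1 := Int.emod_nonneg s hH'.ne'
    have a2 := Int.emod_lt_of_pos s hH'
    obtain ⟨r, hr⟩ := Int.eq_ofNat_of_zero_le (sub_nonneg.2 a2.le)
    have e : (M ^ (-(H : ℤ))) ((M ^ (s % (H : ℤ))) p.1) = (M ^ (-(r : ℤ))) p.1 := by
      rw [← Mp_add]
      congr 2
      linarith
    rw [e]
    refine (Hy.nu_con r p.1).trans ?_
    have h1 : C / κ ^ r * nu p.1 ≤ C / κ ^ r * A :=
      mul_le_mul_of_nonneg_left (hl p (by simp)) (by positivity)
    refine h1.trans ?_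
    have hA : 0 ≤ A := (Hy.nu_nonneg p.1).trans (hl p (by simp))
    have h2 : κ⁻¹ ^ r ≤ Om κ⁻¹ H s := by
      unfold Om
      rw [hr]
      have : (0 : ℝ) ≤ κ⁻¹ ^ (s % (H : ℤ)).toNat := by positivity
      simp only [Int.toNat_natCast]
      linarith
    calc C / κ ^ r * A = C * A * κ⁻¹ ^ r := by rw [inv_pow]; ring
      _ ≤ _ := mul_le_mul_of_nonneg_left h2 (by positivity)

theorem ns_cyc_le (Hy : Hyp M B nu ns C κ) {H : ℕ} (hH : 1 ≤ H) {A : ℝ}
    (l : List (V × ℤ)) (hl : ∀ p ∈ l, ns p.1 ≤ A) (s : ℤ) :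
    ns (psum (cyc M H) s l) ≤ C * A * psum (fun h _ => Om κ⁻¹ H h) s l := by
  have hH' : (0 : ℤ) < H := by exact_mod_cast hH
  have hκ0 := Hy.κ_pos
  have hC := Hy.C_pos
  induction l generalizing s with
  | nil => simp [Hy.ns_zero]
  | cons p l ih =>
    rw [psum_cons, psum_cons, mul_add]
    refine (Hy.ns_add _ _).trans (add_le_add ?_ (ih (fun q hq => hl q (by simp [hq])) _))
    unfold cyc
    have a1 := Int.emod_nonneg s hH'.ne'
    obtain ⟨r, hr⟩ := Int.eq_ofNat_of_zero_le a1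
    rw [hr]
    refine (Hy.ns_con r p.1).trans ?_
    have h1 : C / κ ^ r * ns p.1 ≤ C / κ ^ r * A :=
      mul_le_mul_of_nonneg_left (hl p (by simp)) (by positivity)
    refine h1.trans ?_
    have hA : 0 ≤ A := (Hy.ns_nonneg p.1).trans (hl p (by simp))
    have h2 : κ⁻¹ ^ r ≤ Om κ⁻¹ H s := by
      unfold Om
      rw [hr]
      have : (0 : ℝ) ≤ κ⁻¹ ^ ((H : ℤ) - (r : ℤ)).toNat := by positivity
      simp only [Int.toNat_natCast]
      linarith
    calc C / κ ^ r * A = C * A * κ⁻¹ ^ r := by rw [inv_pow]; ring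
      _ ≤ _ := mul_le_mul_of_nonneg_left h2 (by positivity)

/-- many indices have a small value -/
theorem many {H : ℕ} (Ψ : ℕ → ℝ) (h0 : ∀ j, 0 ≤ Ψ j) {G K : ℝ} (hK : 0 < K)
    (hGK : 2 * G ≤ K) (hsum : ∑ j ∈ Finset.range H, Ψ j ≤ G * H) :
    H ≤ 2 * ((Finset.range H).filter (fun j => Ψ j ≤ K)).card := by
  classical
  have h1 := Finset.card_filter_add_card_filter_not (s := Finset.range H) (fun j => Ψ j ≤ K)
  rw [Finset.card_range] at h1
  have h2 : K * (((Finset.range H).filter (fun j => ¬ Ψ j ≤ K)).card : ℝ) ≤ G * H := by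
    calc K * (((Finset.range H).filter (fun j => ¬ Ψ j ≤ K)).card : ℝ)
        = ∑ j ∈ (Finset.range H).filter (fun j => ¬ Ψ j ≤ K), K := by
          rw [Finset.sum_const, nsmul_eq_mul, mul_comm]
      _ ≤ ∑ j ∈ (Finset.range H).filter (fun j => ¬ Ψ j ≤ K), Ψ j := by
          apply Finset.sum_le_sum
          intro j hj
          exact (not_le.1 (Finset.mem_filter.1 hj).2).le
      _ ≤ ∑ j ∈ Finset.range H, Ψ j :=
          Finset.sum_le_sum_of_subset_of_nonneg (Finset.filter_subset _ _) fun j _ _ => h0 j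
      _ ≤ G * H := hsum
  have h3 : 2 * (((Finset.range H).filter (fun j => ¬ Ψ j ≤ K)).card : ℝ) ≤ H := by
    have hH0 : (0 : ℝ) ≤ H := by positivity
    have h4 : K * (2 * (((Finset.range H).filter (fun j => ¬ Ψ j ≤ K)).card : ℝ)) ≤ K * H := by
      nlinarith
    exact le_of_mul_le_mul_left h4 hK
  have h5 : 2 * ((Finset.range H).filter (fun j => ¬ Ψ j ≤ K)).card ≤ H := by exact_mod_cast h3
  omega

end ROTAux

open ROTAux

theorem specRot (hE : SpecExpd) (hJ : SpecJmod) (hR : SpecReas) : SpecRot := by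
  classical
  intro V _ M B nu ns C κ L E Ct Hy S
  obtain ⟨_, ⟨R1, hR1⟩, _⟩ := hJ V M B nu ns C κ Hy
  obtain ⟨C1, hC1⟩ := hE V M B nu ns C κ L E Ct Hy S R1
  have hκ0 := Hy.κ_pos
  have hκ1 := Hy.one_lt
  have hC := Hy.C_pos
  have hx0 : 0 ≤ κ⁻¹ := inv_nonneg.2 hκ0.le
  have hx1 : κ⁻¹ < 1 := inv_lt_one_of_one_lt₀ hκ1
  obtain ⟨G, hG⟩ : ∃ G : ℝ, G = 2 * (1 - κ⁻¹)⁻¹ := ⟨_, rfl⟩
  have hG0 : 0 ≤ G := by
    rw [hG]
    have : 0 < 1 - κ⁻¹ := by linarith
    positivity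
  obtain ⟨K, hK⟩ : ∃ K : ℝ, K = 2 * (G * (2 * C1)) + 1 := ⟨_, rfl⟩
  have hK0 : 0 < K := by rw [hK]; positivity
  obtain ⟨A, hA⟩ : ∃ A : ℝ, A = ∑ p ∈ L, (nu p.1 + ns p.1) := ⟨_, rfl⟩
  have hA1 : ∀ p ∈ L, nu p.1 + ns p.1 ≤ A := by
    intro p hp
    rw [hA]
    exact Finset.single_le_sum (f := fun p : V × ℤ => nu p.1 + ns p.1)
      (fun q _ => add_nonneg (Hy.nu_nonneg _) (Hy.ns_nonneg _)) hp
  have hA0 : 0 ≤ A := by
    rw [hA]
    exact Finset.sum_nonneg fun q _ => add_nonneg (Hy.nu_nonneg _) (Hy.ns_nonneg _)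
  refine ⟨C * A * K, ⌈2 * Ct * E * (κ ^ E * K)⌉₊, ?_⟩
  intro H hH x n hx hmin
  obtain ⟨l, hl1, hl2, hl3, hl4⟩ := hx
  have hlin : n ≤ 2 * C1 * H := by
    obtain ⟨v, hv, hvJ⟩ := hR1 H hH x
    have h1 : InJ M H (v - x) := by
      obtain ⟨y, hy⟩ := hvJ
      refine ⟨-y, ?_⟩
      rw [map_neg, ← neg_sub x v, hy]
      abel
    have h2 := hmin v (yl M L H v) (yl_spec S ((Hy.mem_Box).1 hv).1 H) h1
    have h3 := hC1 H v hv
    calc n ≤ C1 * (H + 1) := h2.trans h3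
      _ ≤ C1 * (2 * H) := Nat.mul_le_mul_left _ (by omega)
      _ = 2 * C1 * H := by ring
  have hΨ0 : ∀ j : ℕ, 0 ≤ psum (fun h _ => Om κ⁻¹ H h) (0 + (j : ℤ)) l := by
    intro j
    have : ∀ (l : List (V × ℤ)) (s : ℤ), 0 ≤ psum (fun h _ => Om κ⁻¹ H h) s l := by
      intro l
      induction l with
      | nil => intro s; simp
      | cons p l ih =>
        intro s
        rw [psum_cons]
        exact add_nonneg (Om_nonneg hx0 H s) (ih _)
    exact this _ _
  have hsum : ∑ j ∈ Finset.range H, psum (fun h _ => Om κ⁻¹ H h) (0 + (j : ℤ)) l ≤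
      (G * (2 * C1)) * H := by
    have e1 : ∑ j ∈ Finset.range H, psum (fun h _ => Om κ⁻¹ H h) (0 + (j : ℤ)) l =
        psum (fun h _ => ∑ j ∈ Finset.range H, Om κ⁻¹ H (h + j)) 0 l := by
      rw [psum_finset_sum (Finset.range H) (fun (j : ℕ) h (_ : V × ℤ) => Om κ⁻¹ H (h + j)) l 0]
      apply Finset.sum_congr rfl
      intro j _
      exact psum_shift _ l 0 j
    rw [e1]
    have e2 : psum (fun h (_ : V × ℤ) => ∑ j ∈ Finset.range H, Om κ⁻¹ H (h + j)) 0 l ≤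
        psum (fun _ _ => G) 0 l := by
      apply psum_le
      intro h p _
      rw [hG]
      exact sum_Om_le hx0 hx1 hH h
    refine e2.trans ?_
    rw [psum_const, nsmul_eq_mul]
    have e3 : (l.length : ℝ) ≤ 2 * C1 * H := by exact_mod_cast hl2.trans hlin
    calc (l.length : ℝ) * G ≤ (2 * C1 * H) * G := mul_le_mul_of_nonneg_right e3 hG0
      _ = _ := by ring
  refine ⟨(Finset.range H).filter
    (fun j => psum (fun h _ => Om κ⁻¹ H h) (0 + (j : ℤ)) l ≤ K), Finset.filter_subset _ _,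
    many _ hΨ0 hK0 (by rw [hK]; linarith) hsum, ?_⟩
  intro j hj
  have hjK := (Finset.mem_filter.1 hj).2
  have hfin : fin (0 + (j : ℤ)) l = (0 + (j : ℤ)) + H := by
    rw [fin_shift, hl3]
    ring
  obtain ⟨p1, p2⟩ := hR V M B L E Ct S H hH l (0 + (j : ℤ)) hl1 hfin
  refine ⟨psum (cyc M H) (0 + (j : ℤ)) l, ?_, ?_, ?_⟩
  · rw [Hy.mem_Box]
    refine ⟨cyc_mem Hy hH l (fun p hp => S.int p (hl1 p hp)) _, ?_, ?_⟩
    · refine (nu_cyc_le Hy hH (A := A) l (fun p hp => ?_) _).trans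
        (mul_le_mul_of_nonneg_left hjK (by positivity))
      have := hA1 p (hl1 p hp)
      linarith [Hy.ns_nonneg p.1]
    · refine (ns_cyc_le Hy hH (A := A) l (fun p hp => ?_) _).trans
        (mul_le_mul_of_nonneg_left hjK (by positivity))
      have := hA1 p (hl1 p hp)
      linarith [Hy.nu_nonneg p.1]
  · have e : psum (ctr M) (0 + (j : ℤ)) l = (M ^ (j : ℤ)) x := by
      rw [psum_shift, ← hl4, Mp_psum]
      apply psum_congr'
      intro h p _
      unfold ctr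
      rw [← Mp_add, add_comm]
    rw [e] at p2
    exact p2
  · refine (yl_le p1).trans ?_
    refine Nat.add_le_add hl2 ?_
    have h1 := psum_near_le hκ1 H E l (0 + (j : ℤ))
    have h2 : ((psum (near E H) (0 + (j : ℤ)) l : ℕ) : ℝ) ≤ κ ^ E * K :=
      h1.trans (mul_le_mul_of_nonneg_left hjK (by positivity))
    have h3 : ((2 * Ct * E * psum (near E H) (0 + (j : ℤ)) l : ℕ) : ℝ) ≤
        2 * Ct * E * (κ ^ E * K) := by
      push_cast
      exact mul_le_mul_of_nonneg_left h2 (by positivity)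
    have h4 := h3.trans (Nat.le_ceil _)
    exact_mod_cast h4

end MPa1853dH
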