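import Mathlib
import Pool.Agent.Lib.MP_a1853d_al.HY.Spec

set_option autoImplicit false

/-! # Supermultiplicativity of the partition functions -/

namespace MPa1853dH

theorem specSuper : SpecSuper := by
  classical
  intro V _ M B nu ns C κ L E Ct Hy S z₀ hz₀
  have hC := Hy.one_le
  have hR0 := Hy.one_le_R0
  obtain ⟨C₁, hC₁, hbox⟩ := Hy.YY_box S (R0 C + C * R0 C) hz₀
  set F := (Hy.Sm_finite (2 * R0 C)).toFinset with hF
  have hFm : ∀ b, b ∈ F ↔ b ∈ Sm B nu ns (2 * R0 C) := fun b => Set.Finite.mem_toFinset _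
  refine ⟨(F.card : ℝ) * C₁ + 1, by positivity, ?_⟩
  intro z hz hz1 m n
  have hzpos : 0 < z := hz₀.trans_le hz
  have hmain := sum_le_of_fiber (Box M B nu ns m (R0 C) ×ˢ Box M B nu ns n (R0 C))
    (Box M B nu ns (m + n) (R0 C + C * R0 C))
    (fun p => p.1 + (M ^ (m : ℤ)) p.2) (fun p => z ^ yl M L m p.1 * z ^ yl M L n p.2)
    (fun v => z ^ yl M L (m + n) v) F.card ?_ ?_ ?_ ?_
  · have h1 : YY M B nu ns L (R0 C) m z * YY M B nu ns L (R0 C) n z =
        ∑ p ∈ Box M B nu ns m (R0 C) ×ˢ Box M B nu ns n (R0 C),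
          z ^ yl M L m p.1 * z ^ yl M L n p.2 := by
      unfold YY
      rw [Finset.sum_mul_sum, Finset.sum_product]
    rw [h1]
    refine hmain.trans ?_
    have h2 := hbox z hz hz1 (m + n)
    have h3 : 0 ≤ YY M B nu ns L (R0 C) (m + n) z := YY_nonneg _ hzpos.le
    have h4 : (F.card : ℝ) * YY M B nu ns L (R0 C + C * R0 C) (m + n) z ≤
        F.card * (C₁ * YY M B nu ns L (R0 C) (m + n) z) :=
      mul_le_mul_of_nonneg_left h2 (by positivity)
    have h5 : (F.card : ℝ) * ∑ v ∈ Box M B nu ns (m + n) (R0 C + C * R0 C),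
        z ^ yl M L (m + n) v = F.card * YY M B nu ns L (R0 C + C * R0 C) (m + n) z := rfl
    rw [h5]
    linarith
  · intro p hp
    rw [Finset.mem_product, Hy.mem_Box, Hy.mem_Box] at hp
    obtain ⟨⟨a1, a2, a3⟩, b1, b2, b3⟩ := hp
    rw [Hy.mem_Box]
    refine ⟨B.add_mem a1 (Hy.mem_pow b1 m), ?_, ?_⟩
    · have e1 : (M ^ (-((m + n : ℕ) : ℤ))) (p.1 + (M ^ (m : ℤ)) p.2) =
          (M ^ (-(n : ℤ))) ((M ^ (-(m : ℤ))) p.1) + (M ^ (-(n : ℤ))) p.2 := by
        rw [map_add, ← Mp_add, ← Mp_add]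
        congr 3 <;> push_cast <;> ring_nf
      rw [e1]
      refine (Hy.nu_add _ _).trans ?_
      have c1 := Hy.nu_down n ((M ^ (-(m : ℤ))) p.1)
      have c2 : C * nu ((M ^ (-(m : ℤ))) p.1) ≤ C * R0 C := mul_le_mul_of_nonneg_left a2 Hy.C_pos.le
      linarith
    · refine (Hy.ns_add _ _).trans ?_
      have c1 := Hy.ns_up m p.2
      have c2 : C * ns p.2 ≤ C * R0 C := mul_le_mul_of_nonneg_left b3 Hy.C_pos.le
      linarith
  · intro b _ u hu hub
    rcases u.eq_empty_or_nonempty with rfl | ⟨q, hq⟩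
    · simp
    apply Finset.card_le_card_of_injOn (fun p => p.2 - q.2)
    · intro p hp
      have e0 : p.1 + (M ^ (m : ℤ)) p.2 = q.1 + (M ^ (m : ℤ)) q.2 := by
        rw [hub p hp, hub q hq]
      have hp' := hu hp
      have hq' := hu hq
      rw [Finset.mem_product, Hy.mem_Box, Hy.mem_Box] at hp' hq'
      obtain ⟨⟨a1, a2, a3⟩, b1, b2, b3⟩ := hp'
      obtain ⟨⟨c1, c2, c3⟩, d1, d2, d3⟩ := hq'
      rw [Finset.mem_coe, hFm]
      refine ⟨B.sub_mem b1 d1, ?_, ?_⟩
      · have e1 : p.2 - q.2 = (M ^ (-(m : ℤ))) q.1 - (M ^ (-(m : ℤ))) p.1 := by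
          apply Mp_inj (M := M) (a := (m : ℤ))
          rw [map_sub, map_sub, Mp_neg', Mp_neg', sub_eq_sub_iff_add_eq_add, add_comm, e0]
        show nu (p.2 - q.2) ≤ _
        rw [e1]
        refine (Hy.nu_sub _ _).trans ?_
        linarith
      · refine (Hy.ns_sub _ _).trans ?_
        linarith
    · intro p hp p' hp' he
      have e0 : p.1 + (M ^ (m : ℤ)) p.2 = p'.1 + (M ^ (m : ℤ)) p'.2 := by
        rw [hub p hp, hub p' hp']
      have e1 : p.2 = p'.2 := sub_left_injective he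
      rw [e1] at e0
      exact Prod.ext (add_right_cancel e0) e1
  · intro p hp
    rw [Finset.mem_product, Hy.mem_Box, Hy.mem_Box] at hp
    rw [← pow_add]
    apply pow_le_pow_of_le_one hzpos.le hz1
    apply yl_le
    have p1 := yl_spec S hp.1.1 m
    have p2 := PP.shift' (yl_spec S hp.2.1 n) (m : ℤ) (m : ℤ) ((m + n : ℕ) : ℤ) (by ring)
      (by push_cast; ring)
    exact p1.trans p2
  · intro b _
    positivity

end MPa1853dH
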