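import Pool.Agent.Lib.MP_a1853d_al.HY.Spec

set_option autoImplicit false

/-! # Module SYS: the letters of a generating set (helper27) -/

namespace MPa1853dH

namespace SYSM

open Classical in
theorem aux (G : Type) [Group G] (V : Type) [AddCommGroup V] (M : V ≃ₗ[ℤ] V) (Mo : Model G V M)
    (B : AddSubgroup V) (nu ns : V → ℝ) (C κ : ℝ) (S : Finset G) (Hy : Hyp M B nu ns C κ)
    (hS : Subgroup.closure (S : Set G) = ⊤) :
    ∃ (c₀ : ℕ) (L : Finset (V × ℤ)) (E Ct : ℕ), Sys M B L E Ct ∧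
      ∀ (g : G) (n : ℕ), MPa1853d.Rch S g n ↔
        PP M L 0 (Mo.ht g) ((M ^ (c₀ : ℤ)) (Mo.val g)) n := by
  have hht1 : Mo.ht 1 = 0 := by
    have := Mo.ht_mul 1 1
    rw [mul_one] at this
    omega
  have hval1 : Mo.val 1 = 0 := by
    have := Mo.val_mul 1 1
    rw [mul_one, hht1, Mp_zero] at this
    simpa using this
  have hhtinv : ∀ g : G, Mo.ht g⁻¹ = - Mo.ht g := by
    intro g
    have := Mo.ht_mul g⁻¹ g
    rw [inv_mul_cancel, hht1] at this
    omega
  have hvalinv : ∀ g : G, Mo.val g⁻¹ = - ((M ^ (- Mo.ht g)) (Mo.val g)) := by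
    intro g
    have := Mo.val_mul g⁻¹ g
    rw [inv_mul_cancel, hval1, hhtinv] at this
    exact eq_neg_of_add_eq_zero_left this.symm
  choose j hj using Hy.exh
  let Sg : Finset G := S ∪ S.image (fun x => x⁻¹)
  have hSg : ∀ x : G, x ∈ Sg ↔ (x ∈ S ∨ x⁻¹ ∈ S) := by
    intro x
    simp only [Sg, Finset.mem_union, Finset.mem_image]
    constructor
    · rintro (h | ⟨y, hy, rfl⟩)
      · exact Or.inl h
      · right; rwa [inv_inv]
    · rintro (h | h)
      · exact Or.inl h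
      · right; exact ⟨x⁻¹, h, inv_inv x⟩
  let c₀ : ℕ := Sg.sup fun s => j (Mo.val s)
  let a : G → V := fun s => (M ^ (c₀ : ℤ)) (Mo.val s)
  have haB : ∀ s ∈ Sg, a s ∈ B := by
    intro s hs
    have h1 : j (Mo.val s) ≤ c₀ := Finset.le_sup (f := fun s => j (Mo.val s)) hs
    have h2 := Hy.mem_pow (hj (Mo.val s)) (c₀ - j (Mo.val s))
    rw [← Mp_add] at h2
    have h3 : ((c₀ - j (Mo.val s) : ℕ) : ℤ) + (j (Mo.val s) : ℤ) = (c₀ : ℤ) := by omega
    rwa [h3] at h2
  let φ : G → V × ℤ := fun s => (a s, Mo.ht s)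
  let L : Finset (V × ℤ) := Sg.image φ
  -- words correspond
  have hfin : ∀ (l : List G) (h : ℤ), fin h (l.map φ) = h + Mo.ht l.prod := by
    intro l
    induction l with
    | nil => intro h; simp [hht1]
    | cons s l ih =>
      intro h
      rw [List.map_cons, fin_cons, ih, List.prod_cons, Mo.ht_mul]
      simp only [φ]
      ring
  have hpsum : ∀ (l : List G) (h : ℤ),
      psum (ctr M) h (l.map φ) = (M ^ h) ((M ^ (c₀ : ℤ)) (Mo.val l.prod)) := by
    intro l
    induction l with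
    | nil => intro h; simp [hval1]
    | cons s l ih =>
      intro h
      rw [List.map_cons, psum_cons, ih _, List.prod_cons, Mo.val_mul]
      simp only [φ, ctr, a]
      rw [map_add, map_add, Mp_add M h (Mo.ht s), Mp_comm M (Mo.ht s) (c₀ : ℤ)]
  have hiff : ∀ (g : G) (n : ℕ), MPa1853d.Rch S g n ↔
      PP M L 0 (Mo.ht g) ((M ^ (c₀ : ℤ)) (Mo.val g)) n := by
    intro g n
    constructor
    · rintro ⟨l, h1, h2, rfl⟩
      refine ⟨l.map φ, ?_, by simpa using h1, ?_, ?_⟩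
      · intro p hp
        obtain ⟨x, hx, rfl⟩ := List.mem_map.1 hp
        exact Finset.mem_image_of_mem _ ((hSg x).2 (h2 x hx))
      · rw [hfin, zero_add]
      · rw [hpsum l 0, Mp_zero]
    · rintro ⟨l', h1, h2, h3, h4⟩
      -- preimages
      have hpre : ∀ p : V × ℤ, ∃ x : G, p ∈ L → (x ∈ Sg ∧ φ x = p) := by
        intro p
        by_cases hp : p ∈ L
        · obtain ⟨x, hx, hxp⟩ := Finset.mem_image.1 hp
          exact ⟨x, fun _ => ⟨hx, hxp⟩⟩
        · exact ⟨1, fun h => absurd h hp⟩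
      choose ψ hψ using hpre
      have hmem : ∀ x ∈ l'.map ψ, x ∈ Sg := by
        intro x hx
        obtain ⟨p, hp, rfl⟩ := List.mem_map.1 hx
        exact (hψ p (h1 p hp)).1
      have hmap : (l'.map ψ).map φ = l' := by
        rw [List.map_map]
        conv_rhs => rw [← List.map_id l']
        apply List.map_congr_left
        intro p hp
        exact (hψ p (h1 p hp)).2
      refine ⟨l'.map ψ, by simpa using h2, fun x hx => (hSg x).1 (hmem x hx), ?_⟩
      have e1 := hfin (l'.map ψ) 0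
      have e2 := hpsum (l'.map ψ) 0
      rw [hmap] at e1 e2
      rw [h3, zero_add] at e1
      rw [h4, Mp_zero] at e2
      refine Mo.inj _ _ ?_ e1.symm
      exact (Mp_inj M e2).symm
  have hgen : ∀ g : G, ∃ n : ℕ, MPa1853d.Rch S g n := by
    intro g
    have hg : g ∈ Subgroup.closure (S : Set G) := by rw [hS]; trivial
    have hg' : g ∈ (Subgroup.closure (S : Set G)).toSubmonoid := hg
    rw [Subgroup.closure_toSubmonoid] at hg'
    obtain ⟨l, h1, h2⟩ := Submonoid.exists_list_of_mem_closure hg'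
    exact ⟨l.length, l, le_rfl, fun x hx => by simpa using h1 x hx, h2⟩
  have hpp : ∀ (v : V) (i : ℤ), ∃ n : ℕ, PP M L 0 i v n := by
    intro v i
    obtain ⟨g, hg, hg'⟩ := Mo.surj ((M ^ (-(c₀ : ℤ))) v) i
    obtain ⟨n, hn⟩ := hgen g
    have := (hiff g n).1 hn
    rw [hg', hg, Mp_neg'] at this
    exact ⟨n, this⟩
  obtain ⟨Ct, hCt⟩ := hpp 0 1
  refine ⟨c₀, L, max 1 (L.sup (fun p => p.2.natAbs)), Ct, ⟨?_, ?_, ?_, le_max_left _ _, hCt,
    fun b _ => hpp b 0⟩, hiff⟩
  · intro p hp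
    obtain ⟨s, hs, rfl⟩ := Finset.mem_image.1 hp
    exact haB s hs
  · intro p hp
    obtain ⟨s, hs, rfl⟩ := Finset.mem_image.1 hp
    have hs' : s⁻¹ ∈ Sg := by
      rw [hSg] at hs ⊢
      rcases hs with h | h
      · right; rwa [inv_inv]
      · exact Or.inl h
    refine ⟨φ s⁻¹, Finset.mem_image_of_mem _ hs', hhtinv s, ?_⟩
    change (M ^ (c₀ : ℤ)) (Mo.val s⁻¹) = - ((M ^ (- Mo.ht s)) ((M ^ (c₀ : ℤ)) (Mo.val s)))
    rw [hvalinv, map_neg, Mp_comm]
  · intro p hp
    have h1 : p.2.natAbs ≤ L.sup (fun p : V × ℤ => p.2.natAbs) :=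
      Finset.le_sup (f := fun p : V × ℤ => p.2.natAbs) hp
    have h2 : p.2.natAbs ≤ max 1 (L.sup (fun p : V × ℤ => p.2.natAbs)) :=
      h1.trans (le_max_right _ _)
    have h3 : (p.2.natAbs : ℤ) ≤ ((max 1 (L.sup (fun p : V × ℤ => p.2.natAbs)) : ℕ) : ℤ) := by
      exact_mod_cast h2
    rwa [Int.natCast_natAbs] at h3

end SYSM

theorem specSys : SpecSys := by
  intro G _ V _ M Mo B nu ns C κ S Hy hS
  exact SYSM.aux G V M Mo B nu ns C κ S Hy hS

end MPa1853dH
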