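import Mathlib
import Pool.Agent.Lib.MP_a1853d_al.HY.Spec
import Pool.Agent.Lib.MP_a1853d_al.HY.Cong

set_option autoImplicit false

/-! # Conjugacy classes of positive height: the bound -/

namespace MPa1853dH

namespace UPX

variable {V : Type*} [AddCommGroup V] {M : V ≃ₗ[ℤ] V}

/-- two congruent rotations of `x` give a period at most half of `H`. -/
theorem per_of {H : ℕ} {x : V} {j j' : ℕ} (hjj : j < j') (hj' : j' < H)
    (h : InJ M H ((M ^ (j : ℤ)) x - (M ^ (j' : ℤ)) x)) :
    ∃ d : ℕ, 1 ≤ d ∧ 2 * d ≤ H ∧ InJ M H ((M ^ (d : ℤ)) x - x) := by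
  have h1 := (h.symm).zpow_sub (-(j : ℤ))
  have h2 : InJ M H ((M ^ ((j' - j : ℕ) : ℤ)) x - x) := by
    rw [← Mp_add, Mp_neg, show -(j : ℤ) + (j' : ℤ) = ((j' - j : ℕ) : ℤ) by
      rw [Nat.cast_sub hjj.le]; ring] at h1
    exact h1
  by_cases hd : 2 * (j' - j) ≤ H
  · exact ⟨j' - j, by omega, hd, h2⟩
  · refine ⟨H - (j' - j), by omega, by omega, ?_⟩
    -- `M^(H - d) x ~ M^(H - d) M^d x = M^H x ~ x`
    have h3 := (h2.symm).zpow_sub ((H - (j' - j) : ℕ) : ℤ)
    rw [← Mp_add, show ((H - (j' - j) : ℕ) : ℤ) + ((j' - j : ℕ) : ℤ) = (H : ℤ) by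
      rw [Nat.cast_sub (by omega : j' - j ≤ H)]; ring] at h3
    have h4 : InJ M H ((M ^ (H : ℤ)) x - x) := ⟨x, rfl⟩
    exact h3.trans h4

end UPX

theorem specUp (hR : SpecRot) (hP : SpecPer) : SpecUp := by
  classical
  intro V _ M B nu ns C κ L E Ct Hy S z₀ hz₀
  obtain ⟨R, N, hrot⟩ := hR V M B nu ns C κ L E Ct Hy S
  obtain ⟨CB, hCB, hbox⟩ := Hy.YY_box S R hz₀
  by_cases hz₀1 : z₀ ≤ 1
  swap
  · exact ⟨1, 0, one_pos, le_rfl, one_pos, fun z h1 h2 => absurd (h1.trans h2) hz₀1⟩
  obtain ⟨CP, θ, hCP, hθ0, hθ1, hper⟩ := hP V M B nu ns C κ L E Ct Hy S R z₀ hz₀ hz₀1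
  set a : ℝ := (z₀ ^ N)⁻¹ with ha
  have hapos : 0 < a := by rw [ha]; positivity
  refine ⟨2 * (a * CB) + a * CP, θ, by positivity, hθ0, hθ1, ?_⟩
  intro z hz hz1 H hH ι s n x hPP hmin hdist
  have hzpos : 0 < z := hz₀.trans_le hz
  have hHR : (0 : ℝ) < H := by exact_mod_cast hH
  -- rotations
  have hr : ∀ i ∈ s, ∃ J : Finset ℕ, J ⊆ Finset.range H ∧ H ≤ 2 * J.card ∧
      ∀ j ∈ J, ∃ v ∈ Box M B nu ns H R, InJ M H (v - (M ^ (j : ℤ)) (x i)) ∧
        yl M L H v ≤ n i + N := by
    intro i hi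
    apply hrot H hH (x i) (n i) (hPP i hi)
    intro v m hv hJ
    exact hmin i hi 0 v m hv (by rwa [Mp_zero])
  choose! J hJ1 hJ2 hJ3 using hr
  choose! q hq1 hq2 hq3' using hJ3
  have hq3 : ∀ i ∈ s, ∀ j ∈ J i, z ^ n i ≤ a * z ^ yl M L H (q i j) := by
    intro i hi j hj
    exact pow_le_of_le hz₀ hz hz1 (hq3' i hi j hj)
  -- equality of rotations
  have hqeq : ∀ i ∈ s, ∀ i' ∈ s, ∀ j ∈ J i, ∀ j' ∈ J i', q i j = q i' j' →
      i = i' ∧ InJ M H ((M ^ (j' : ℤ)) (x i') - (M ^ (j : ℤ)) (x i)) := by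
    intro i hi i' hi' j hj j' hj' hqq
    have a1 := hq2 i hi j hj
    have a2 := hq2 i' hi' j' hj'
    rw [hqq] at a1
    have a4 : InJ M H ((M ^ (j' : ℤ)) (x i') - (M ^ (j : ℤ)) (x i)) := a2.symm.trans a1
    refine ⟨?_, a4⟩
    apply hdist i hi i' hi' (-(j' : ℤ) + j)
    have a5 := a4.zpow_sub (-(j' : ℤ))
    rw [Mp_neg, ← Mp_add] at a5
    exact a5
  set Per : ι → Prop := fun i => ∃ d : ℕ, 1 ≤ d ∧ 2 * d ≤ H ∧
    InJ M H ((M ^ (d : ℤ)) (x i) - x i) with hPer
  have hY := YY_nonneg (M := M) (B := B) (nu := nu) (ns := ns) (L := L) (R := R0 C) H hzpos.le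
  have hYR : YY M B nu ns L R H z ≤ CB * YY M B nu ns L (R0 C) H z := hbox z hz hz1 H
  -- the sum over nonperiodic classes
  have hnonper : ∑ i ∈ s.filter (fun i => ¬ Per i), z ^ n i ≤
      2 * (a * CB) / H * YY M B nu ns L (R0 C) H z := by
    have h1 : (H : ℝ) * ∑ i ∈ s.filter (fun i => ¬ Per i), z ^ n i ≤
        2 * (a * YY M B nu ns L R H z) := by
      calc (H : ℝ) * ∑ i ∈ s.filter (fun i => ¬ Per i), z ^ n i
          = ∑ i ∈ s.filter (fun i => ¬ Per i), (H : ℝ) * z ^ n i := by rw [Finset.mul_sum]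
        _ ≤ ∑ i ∈ s.filter (fun i => ¬ Per i),
              2 * ∑ j ∈ Finset.range H, (if j ∈ J i then z ^ n i else 0) := by
            apply Finset.sum_le_sum
            intro i hi
            have his := (Finset.mem_filter.1 hi).1
            rw [← Finset.sum_filter, Finset.sum_const, nsmul_eq_mul]
            have e : (Finset.range H).filter (fun j => j ∈ J i) = J i := by
              ext j
              rw [Finset.mem_filter]
              exact ⟨fun h => h.2, fun h => ⟨hJ1 i his h, h⟩⟩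
            rw [e]
            have h1 : (H : ℝ) ≤ 2 * ((J i).card : ℝ) := by
              exact_mod_cast hJ2 i his
            have h2 : 0 ≤ z ^ n i := by positivity
            nlinarith
        _ = 2 * ∑ p ∈ ((s.filter (fun i => ¬ Per i)) ×ˢ Finset.range H).filter
              (fun p => p.2 ∈ J p.1), z ^ n p.1 := by
            conv_rhs => rw [Finset.sum_filter, Finset.sum_product]
            rw [← Finset.mul_sum]
        _ ≤ 2 * ∑ v ∈ Box M B nu ns H R, a * z ^ yl M L H v := by
            apply mul_le_mul_of_nonneg_left _ (by norm_num)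
            apply sum_le_of_inj _ _ (fun p : ι × ℕ => q p.1 p.2)
            · intro p hp
              rw [Finset.mem_filter, Finset.mem_product, Finset.mem_filter] at hp
              exact hq1 p.1 hp.1.1.1 p.2 hp.2
            · intro p hp p' hp' hpp
              rw [Finset.mem_coe, Finset.mem_filter, Finset.mem_product, Finset.mem_filter,
                Finset.mem_range] at hp hp'
              obtain ⟨⟨⟨b1, b2⟩, b3⟩, b4⟩ := hp
              obtain ⟨⟨⟨c1, c2⟩, c3⟩, c4⟩ := hp'
              obtain ⟨hii, hJ⟩ := hqeq p.1 b1 p'.1 c1 p.2 b4 p'.2 c4 hpp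
              have hjj : p.2 = p'.2 := by
                rw [← hii] at hJ
                rcases lt_trichotomy p.2 p'.2 with hlt | heq | hgt
                · exfalso
                  apply b2
                  exact UPX.per_of hlt c3 hJ.symm
                · exact heq
                · exfalso
                  apply b2
                  exact UPX.per_of hgt b3 hJ
              exact Prod.ext hii hjj
            · intro p hp
              rw [Finset.mem_filter, Finset.mem_product, Finset.mem_filter] at hp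
              exact hq3 p.1 hp.1.1.1 p.2 hp.2
            · intro b _; positivity
        _ = 2 * (a * YY M B nu ns L R H z) := by
            rw [← Finset.mul_sum]
            rfl
    rw [div_mul_eq_mul_div, le_div_iff₀ hHR]
    have h2 : a * YY M B nu ns L R H z ≤ a * (CB * YY M B nu ns L (R0 C) H z) :=
      mul_le_mul_of_nonneg_left hYR hapos.le
    linarith
  -- the sum over periodic classes
  have hperiodic : ∑ i ∈ s.filter (fun i => Per i), z ^ n i ≤
      H * (a * CP) * θ ^ H * YY M B nu ns L (R0 C) H z := by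
    set P : ℕ → Finset V := fun d =>
      (Box M B nu ns H R).filter (fun v => InJ M H ((M ^ (d : ℤ)) v - v)) with hPdef
    have hdata : ∀ i ∈ s.filter (fun i => Per i), ∃ r : ℕ × V,
        r.1 ∈ Finset.Icc 1 (H / 2) ∧ r.2 ∈ Box M B nu ns H R ∧
        r.2 ∈ P r.1 ∧ z ^ n i ≤ a * z ^ yl M L H r.2 ∧
        ∃ j ∈ J i, q i j = r.2 := by
      intro i hi
      obtain ⟨his, d, hd1, hd2, hd3⟩ := Finset.mem_filter.1 hi
      have hne : (J i).Nonempty := by
        rw [← Finset.card_pos]
        have := hJ2 i his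
        omega
      obtain ⟨j, hj⟩ := hne
      refine ⟨(d, q i j), ?_, hq1 i his j hj, ?_, hq3 i his j hj, j, hj, rfl⟩
      · rw [Finset.mem_Icc]
        constructor
        · exact hd1
        · show d ≤ H / 2
          omega
      · rw [hPdef]
        simp only [Finset.mem_filter]
        refine ⟨hq1 i his j hj, ?_⟩
        have a1 := hq2 i his j hj
        -- `M^d v ~ M^d M^j x = M^j M^d x ~ M^j x ~ v`
        have b1 := a1.zpow_sub (d : ℤ)
        have b2 := hd3.zpow_sub (j : ℤ)
        rw [Mp_comm M (d : ℤ) (j : ℤ)] at b1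
        exact (b1.trans b2).trans a1.symm
    choose! r hr1 hr2 hr3 hr4 hr5 using hdata
    have hstep1 : ∑ i ∈ s.filter (fun i => Per i), z ^ n i ≤
        ∑ t ∈ ((Finset.Icc 1 (H / 2)) ×ˢ (Box M B nu ns H R)).filter (fun t => t.2 ∈ P t.1),
          a * z ^ yl M L H t.2 := by
      apply sum_le_of_inj _ _ r
      · intro i hi
        rw [Finset.mem_filter, Finset.mem_product]
        exact ⟨⟨hr1 i hi, hr2 i hi⟩, hr3 i hi⟩
      · intro i hi i' hi' hii
        obtain ⟨j, hj1, hj2⟩ := hr5 i hi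
        obtain ⟨j', hj1', hj2'⟩ := hr5 i' hi'
        have hqq : q i j = q i' j' := by rw [hj2, hj2', hii]
        exact (hqeq i (Finset.mem_filter.1 hi).1 i' (Finset.mem_filter.1 hi').1 j hj1 j' hj1' hqq).1
      · intro i hi
        exact hr4 i hi
      · intro t _; positivity
    refine hstep1.trans ?_
    rw [Finset.sum_filter, Finset.sum_product]
    have hinner : ∀ d ∈ Finset.Icc 1 (H / 2),
        ∑ v ∈ Box M B nu ns H R, (if v ∈ P d then a * z ^ yl M L H v else 0) ≤
          a * CP * θ ^ H * YY M B nu ns L (R0 C) H z := by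
      intro d hd
      rw [Finset.mem_Icc] at hd
      have hd3 : 2 * d ≤ H := by omega
      have h1 := hper z hz hz1 H d hd.1 hd3 (P d) (Finset.filter_subset _ _)
        (fun v hv => (Finset.mem_filter.1 hv).2)
      have h2 : ∑ v ∈ Box M B nu ns H R, (if v ∈ P d then a * z ^ yl M L H v else 0) =
          a * ∑ v ∈ P d, z ^ yl M L H v := by
        rw [← Finset.sum_filter, Finset.mul_sum]
        apply Finset.sum_congr _ (fun _ _ => rfl)
        ext v
        rw [hPdef]
        simp only [Finset.mem_filter]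
        tauto
      rw [h2]
      calc a * ∑ v ∈ P d, z ^ yl M L H v ≤
            a * (CP * θ ^ H * YY M B nu ns L (R0 C) H z) :=
            mul_le_mul_of_nonneg_left h1 hapos.le
        _ = _ := by ring
    refine (Finset.sum_le_sum hinner).trans ?_
    rw [Finset.sum_const, nsmul_eq_mul, Nat.card_Icc]
    have h7 : ((H / 2 + 1 - 1 : ℕ) : ℝ) ≤ H := by
      have : H / 2 + 1 - 1 ≤ H := by omega
      exact_mod_cast this
    calc ((H / 2 + 1 - 1 : ℕ) : ℝ) * (a * CP * θ ^ H * YY M B nu ns L (R0 C) H z) ≤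
          (H : ℝ) * (a * CP * θ ^ H * YY M B nu ns L (R0 C) H z) :=
          mul_le_mul_of_nonneg_right h7 (by positivity)
      _ = _ := by ring
  -- total
  calc ∑ i ∈ s, z ^ n i = ∑ i ∈ s.filter (fun i => Per i), z ^ n i +
        ∑ i ∈ s.filter (fun i => ¬ Per i), z ^ n i :=
        (Finset.sum_filter_add_sum_filter_not s Per _).symm
    _ ≤ H * (a * CP) * θ ^ H * YY M B nu ns L (R0 C) H z +
        2 * (a * CB) / H * YY M B nu ns L (R0 C) H z := add_le_add hperiodic hnonper
    _ ≤ _ := by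
        have e1 : 0 ≤ a * CP / H * YY M B nu ns L (R0 C) H z := by positivity
        have e2 : 0 ≤ 2 * (a * CB) * H * θ ^ H * YY M B nu ns L (R0 C) H z := by positivity
        have e3 : ((2 * (a * CB) + a * CP) / H +
          (2 * (a * CB) + a * CP) * H * θ ^ H) * YY M B nu ns L (R0 C) H z =
          H * (a * CP) * θ ^ H * YY M B nu ns L (R0 C) H z +
          2 * (a * CB) / H * YY M B nu ns L (R0 C) H z +
          (a * CP / H * YY M B nu ns L (R0 C) H z +
           2 * (a * CB) * H * θ ^ H * YY M B nu ns L (R0 C) H z) := by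
          field_simp
          ring
        rw [e3]
        linarith

end MPa1853dH
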