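import Mathlib
import Pool.Agent.Lib.MP_a1853d_al.HY.Spec

set_option autoImplicit false

/-! # Module ZERO: the conjugacy classes of height zero -/

namespace MPa1853dH

namespace ZEROAux

variable {V : Type*}

theorem allH_append (p : ℤ → Prop) (l₁ l₂ : List (V × ℤ)) (h : ℤ) :
    allH p h (l₁ ++ l₂) ↔ allH p h l₁ ∧ allH p (fin h l₁) l₂ := by
  induction l₁ generalizing h with
  | nil => simp [allH]
  | cons q l ih => simp [allH, ih, and_assoc]

theorem allH_imp {p q : ℤ → Prop} (l : List (V × ℤ)) (h : ℤ) (hl : allH p h l)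
    (hpq : ∀ x, p x → q x) : allH q h l := by
  induction l generalizing h with
  | nil => trivial
  | cons r l ih => exact ⟨hpq _ hl.1, ih _ hl.2⟩

theorem allH_and {p q : ℤ → Prop} (l : List (V × ℤ)) (h : ℤ) (hp : allH p h l)
    (hq : allH q h l) : allH (fun x => p x ∧ q x) h l := by
  induction l generalizing h with
  | nil => trivial
  | cons r l ih => exact ⟨⟨hp.1, hq.1⟩, ih _ hp.2 hq.2⟩

theorem allH_shift (p : ℤ → Prop) (l : List (V × ℤ)) (h i : ℤ)
    (hl : allH (fun x => p (x + i)) h l) : allH p (h + i) l := by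
  induction l generalizing h with
  | nil => trivial
  | cons q l ih =>
    refine ⟨hl.1, ?_⟩
    have e : h + i + q.2 = h + q.2 + i := by ring
    rw [e]
    exact ih _ hl.2

/-- An extremal point of a path. -/
theorem split_gen (r : ℤ → ℤ → Prop) (hr : ∀ a, r a a) (ht : ∀ a b c, r a b → r b c → r a c)
    (htot : ∀ a b, r a b ∨ r b a) (l : List (V × ℤ)) (h : ℤ) :
    ∃ l₁ l₂, l = l₁ ++ l₂ ∧ allH (r (fin h l₁)) h l ∧ r (fin h l₁) (fin h l) := by
  induction l generalizing h with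
  | nil => exact ⟨[], [], rfl, trivial, hr _⟩
  | cons p l ih =>
    obtain ⟨l₁, l₂, h1, h2, h3⟩ := ih (h + p.2)
    rcases htot (fin (h + p.2) l₁) h with hc | hc
    · exact ⟨p :: l₁, l₂, by rw [h1]; rfl, ⟨hc, h2⟩, h3⟩
    · exact ⟨[], p :: l, rfl, ⟨hr _, allH_imp _ _ h2 fun x hx => ht _ _ _ hc hx⟩, ht _ _ _ hc h3⟩

variable [AddCommGroup V] {M : V ≃ₗ[ℤ] V} {B : AddSubgroup V} {nu ns : V → ℝ}
  {C κ : ℝ} {L : Finset (V × ℤ)} {E Ct : ℕ}

/-- Contributions of a path between the levels `0` and `m` are integral and of bounded sizes. -/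
theorem int_bound (Hy : Hyp M B nu ns C κ) (S : Sys M B L E Ct) (A : ℝ)
    (hA : ∀ p ∈ L, nu p.1 ≤ A ∧ ns p.1 ≤ A) (m : ℕ) (l : List (V × ℤ)) (hl : ∀ p ∈ l, p ∈ L)
    (h : ℤ) (hh : allH (fun x => 0 ≤ x ∧ x ≤ (m : ℤ)) h l) :
    psum (ctr M) h l ∈ B ∧ nu ((M ^ (-(m : ℤ))) (psum (ctr M) h l)) ≤ C * A * l.length ∧
      ns (psum (ctr M) h l) ≤ C * A * l.length := by
  induction l generalizing h with
  | nil => simp [Hy.nu_zero, Hy.ns_zero]
  | cons p l ih =>
    obtain ⟨h1, h2, h3⟩ := ih (fun q hq => hl q (by simp [hq])) (h + p.2) hh.2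
    obtain ⟨⟨h4, h5⟩, -⟩ := hh
    have hp := hl p (by simp)
    obtain ⟨a, rfl⟩ := Int.eq_ofNat_of_zero_le h4
    have ham : a ≤ m := by exact_mod_cast h5
    obtain ⟨b, rfl⟩ := Nat.exists_eq_add_of_le ham
    have hlen : C * A * ((p :: l).length : ℝ) = C * A + C * A * l.length := by
      rw [List.length_cons]; push_cast; ring
    rw [hlen, psum_cons]
    unfold ctr at h1 h2 h3 ⊢
    refine ⟨B.add_mem (Hy.mem_pow (S.int p hp) a) h1, ?_, ?_⟩
    · rw [map_add]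
      refine (Hy.nu_add _ _).trans (add_le_add ?_ h2)
      rw [← Mp_add, show -((a + b : ℕ) : ℤ) + ((a : ℕ) : ℤ) = -((b : ℕ) : ℤ) by push_cast; ring]
      exact (Hy.nu_down b _).trans (mul_le_mul_of_nonneg_left (hA p hp).1 Hy.C_pos.le)
    · refine (Hy.ns_add _ _).trans (add_le_add ?_ h3)
      exact (Hy.ns_up a _).trans (mul_le_mul_of_nonneg_left (hA p hp).2 Hy.C_pos.le)

/-- A closed path can be moved to the levels between `0` and some `m` and cut into two paths from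
level `0` to level `m`. -/
theorem step1 (Hy : Hyp M B nu ns C κ) (S : Sys M B L E Ct) (A : ℝ) (hA0 : 0 ≤ A)
    (hA : ∀ p ∈ L, nu p.1 ≤ A ∧ ns p.1 ≤ A) {x : V} {n : ℕ} (hx : PP M L 0 0 x n) :
    ∃ (j : ℤ) (m : ℕ) (u v : V) (n₁ n₂ : ℕ), PP M L 0 m u n₁ ∧ PP M L 0 m v n₂ ∧
      n₁ + n₂ ≤ n ∧ (M ^ j) x = u - v ∧
      (u ∈ B ∧ nu ((M ^ (-(m : ℤ))) u) ≤ C * A * n ∧ ns u ≤ C * A * n) ∧
      (v ∈ B ∧ nu ((M ^ (-(m : ℤ))) v) ≤ C * A * n ∧ ns v ≤ C * A * n) := by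
  obtain ⟨l, hl, hn, hf, hv⟩ := hx
  -- lowest point
  obtain ⟨l₁, l₂, rfl, h2, h3⟩ := split_gen (fun a b => a ≤ b) (fun a => le_rfl)
    (fun a b c hab hbc => hab.trans hbc) (fun a b => le_total a b) l 0
  set m := fin 0 l₁ with hm
  rw [allH_append, ← hm] at h2
  rw [fin_append, ← hm] at hf
  -- the rotated path, started at level `0`
  have hf' : fin (m + -m) (l₂ ++ l₁) = 0 := by
    rw [fin_shift, fin_append, hf, ← hm]; ring
  have hv' : psum (ctr M) (m + -m) (l₂ ++ l₁) = (M ^ (-m)) x := by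
    rw [psum_shift, ← hv, Mp_psum, psum_append, psum_append, ← hm, hf, add_comm]
    congr 1 <;>
    · apply psum_congr'
      intro h p _
      unfold ctr
      rw [← Mp_add, add_comm]
  have hh' : allH (fun y => 0 ≤ y) (m + -m) (l₂ ++ l₁) := by
    apply allH_shift
    rw [allH_append, hf]
    exact ⟨allH_imp _ _ h2.2 fun y hy => by simpa using hy,
      allH_imp _ _ h2.1 fun y hy => by simpa using hy⟩
  have e0 : m + -m = 0 := by ring
  rw [e0] at hf' hv' hh'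
  have hlen : (l₂ ++ l₁).length ≤ n := by
    rw [List.length_append, add_comm, ← List.length_append]; exact hn
  have hl' : ∀ p ∈ l₂ ++ l₁, p ∈ L := by
    intro p hp
    apply hl p
    rw [List.mem_append] at hp ⊢
    exact hp.symm
  clear hn hl hv hf h2 h3
  generalize l₂ ++ l₁ = l' at hf' hv' hh' hlen hl'
  -- highest point
  obtain ⟨l₃, l₄, rfl, h4, h5⟩ := split_gen (fun a b => b ≤ a) (fun a => le_rfl)
    (fun a b c hab hbc => hbc.trans hab) (fun a b => le_total b a) l' 0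
  have hM : 0 ≤ fin 0 l₃ := by rw [hf'] at h5; exact h5
  obtain ⟨m', hMe⟩ := Int.eq_ofNat_of_zero_le hM
  rw [hMe] at h4
  have h6 := allH_and _ _ hh' h4
  rw [allH_append, hMe] at h6
  rw [fin_append, hMe] at hf'
  rw [psum_append, hMe] at hv'
  have hl3 : ∀ p ∈ l₃, p ∈ L := fun p hp => hl' p (List.mem_append_left _ hp)
  have hl4 : ∀ p ∈ l₄, p ∈ L := fun p hp => hl' p (List.mem_append_right _ hp)
  obtain ⟨a1, a2, a3⟩ := int_bound Hy S A hA m' l₃ hl3 0 h6.1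
  obtain ⟨b1, b2, b3⟩ := int_bound Hy S A hA m' l₄ hl4 m' h6.2
  rw [List.length_append] at hlen
  have hCA : 0 ≤ C * A := mul_nonneg Hy.C_pos.le hA0
  have c3 : C * A * (l₃.length : ℝ) ≤ C * A * n :=
    mul_le_mul_of_nonneg_left (by exact_mod_cast (by omega : l₃.length ≤ n)) hCA
  have c4 : C * A * (l₄.length : ℝ) ≤ C * A * n :=
    mul_le_mul_of_nonneg_left (by exact_mod_cast (by omega : l₄.length ≤ n)) hCA
  refine ⟨-m, m', psum (ctr M) 0 l₃, -psum (ctr M) m' l₄, l₃.length, l₄.length,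
    ⟨l₃, hl3, le_rfl, hMe, rfl⟩, ?_, hlen, ?_, ⟨a1, a2.trans c3, a3.trans c3⟩,
    ⟨B.neg_mem b1, ?_, ?_⟩⟩
  · have h7 : PP M L m' 0 (psum (ctr M) m' l₄) l₄.length := ⟨l₄, hl4, le_rfl, hf', rfl⟩
    exact h7.symm S
  · rw [← hv', sub_neg_eq_add]
  · rw [map_neg, Hy.nu_neg]
    exact b2.trans c4
  · rw [Hy.ns_neg]
    exact b3.trans c4

/-- The two elements of a box attached to a closed path of minimal length. -/
theorem step2 (Hy : Hyp M B nu ns C κ) (S : Sys M B L E Ct) (A : ℝ) (hA0 : 0 ≤ A)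
    (hA : ∀ p ∈ L, nu p.1 ≤ A ∧ ns p.1 ≤ A) (N₁ CN C₁ : ℕ)
    (hN : ∀ n : ℕ, C / κ ^ (n / N₁ + CN) * (C * A * n) ≤ 1)
    (hC₁ : ∀ H : ℕ, ∀ v ∈ Box M B nu ns H 1, yl M L H v ≤ C₁ * (H + 1))
    {x : V} {n : ℕ} (h1 : PP M L 0 0 x n)
    (h2 : ∀ (j : ℤ) (m : ℕ), PP M L 0 0 ((M ^ j) x) m → n ≤ m) :
    ∃ (j : ℤ) (H : ℕ) (u v : V), u ∈ Box M B nu ns H 1 ∧ v ∈ Box M B nu ns H 1 ∧
      (M ^ j) x = u - v ∧
      yl M L H u + yl M L H v ≤ n + 4 * Ct * (n / N₁ + CN) ∧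
      n ≤ 2 * C₁ * (H + 1) := by
  obtain ⟨j, m, u, v, n₁, n₂, hu, hv, hn, hx, ⟨u1, u2, u3⟩, v1, v2, v3⟩ := step1 Hy S A hA0 hA h1
  set r := n / N₁ + CN with hr
  have hNn : C / κ ^ r * (C * A * n) ≤ 1 := hN n
  have hκ := Hy.κ_pos
  have hCκ : 0 ≤ C / κ ^ r := div_nonneg Hy.C_pos.le (by positivity)
  have key : ∀ (w : V) (a : ℕ), w ∈ B → nu ((M ^ (-(m : ℤ))) w) ≤ C * A * n →
      ns w ≤ C * A * n → PP M L 0 m w a →
      (M ^ (r : ℤ)) w ∈ Box M B nu ns (m + 2 * r) 1 ∧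
      yl M L (m + 2 * r) ((M ^ (r : ℤ)) w) ≤ a + 2 * Ct * r := by
    intro w a hw hw1 hw2 hp
    constructor
    · rw [Hy.mem_Box]
      refine ⟨Hy.mem_pow hw r, ?_, ?_⟩
      · have e1 : (M ^ (-((m + 2 * r : ℕ) : ℤ))) ((M ^ (r : ℤ)) w) =
            (M ^ (-(r : ℤ))) ((M ^ (-(m : ℤ))) w) := by
          rw [← Mp_add, ← Mp_add]
          congr 2
          push_cast
          ring
        rw [e1]
        exact ((Hy.nu_con r _).trans (mul_le_mul_of_nonneg_left hw1 hCκ)).trans hNn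
      · exact ((Hy.ns_con r _).trans (mul_le_mul_of_nonneg_left hw2 hCκ)).trans hNn
    · apply yl_le
      have b1 := PP.tmove S 0 (r : ℤ)
      have b2 := hp.shift' (r : ℤ) (r : ℤ) ((m + r : ℕ) : ℤ) (by ring) (by push_cast; ring)
      have b3 := PP.tmove S ((m + r : ℕ) : ℤ) ((m + 2 * r : ℕ) : ℤ)
      refine ((b1.trans b2).trans b3).of_eq (by simp) ?_
      have e1 : ((r : ℤ) - 0).natAbs = r := by simp
      have e2 : (((m + 2 * r : ℕ) : ℤ) - ((m + r : ℕ) : ℤ)).natAbs = r := by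
        push_cast
        rw [show (m : ℤ) + 2 * r - (m + r) = r by ring]
        simp
      rw [e1, e2]
      have : 2 * Ct * r = Ct * r + Ct * r := by ring
      omega
  obtain ⟨k1, k2⟩ := key u n₁ u1 u2 u3 hu
  obtain ⟨k3, k4⟩ := key v n₂ v1 v2 v3 hv
  have hx2 : (M ^ (r + j)) x = (M ^ (r : ℤ)) u - (M ^ (r : ℤ)) v := by
    rw [Mp_add, hx, map_sub]
  have hmin : n ≤ yl M L (m + 2 * r) ((M ^ (r : ℤ)) u) + yl M L (m + 2 * r) ((M ^ (r : ℤ)) v) := by
    apply h2 (r + j)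
    have b1 := yl_spec S (Hy.mem_Box.1 k1).1 (m + 2 * r)
    have b3 := (yl_spec S (Hy.mem_Box.1 k3).1 (m + 2 * r)).symm S
    refine (b1.trans b3).of_eq ?_ le_rfl
    rw [hx2, sub_eq_add_neg]
  have y1 := hC₁ _ _ k1
  have y2 := hC₁ _ _ k3
  refine ⟨r + j, m + 2 * r, (M ^ (r : ℤ)) u, (M ^ (r : ℤ)) v, k1, k3, hx2, ?_, ?_⟩
  · have : 4 * Ct * r = 2 * Ct * r + 2 * Ct * r := by ring
    omega
  · have : 2 * C₁ * (m + 2 * r + 1) = C₁ * (m + 2 * r + 1) + C₁ * (m + 2 * r + 1) := by ring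
    omega

/-- A power estimate. -/
theorem exists_CN (κ : ℝ) (hκ : 1 < κ) (A : ℝ) (hA : 0 ≤ A) (N : ℕ) (hN : 1 ≤ N) :
    ∃ CN : ℕ, ∀ n : ℕ, A * n ≤ κ ^ (n / N + CN) := by
  have hκ1 : 0 < κ - 1 := by linarith
  have hκ0 : 0 < κ := by linarith
  obtain ⟨CN, hCN⟩ := pow_unbounded_of_one_lt (A * N * (1 + (κ - 1)⁻¹)) hκ
  refine ⟨CN, fun n => ?_⟩
  have h1 : n ≤ N * (n / N + 1) := by
    have := Nat.div_add_mod n N
    have h2 := Nat.mod_lt n hN
    rw [Nat.mul_add, Nat.mul_one]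
    omega
  have h1' : (n : ℝ) ≤ N * (((n / N : ℕ) : ℝ) + 1) := by exact_mod_cast h1
  have h2 := one_add_mul_le_pow (a := κ - 1) (by linarith) (n / N)
  rw [add_sub_cancel] at h2
  have h3 : ((n / N : ℕ) : ℝ) ≤ (κ - 1)⁻¹ * κ ^ (n / N) := by
    rw [← div_eq_inv_mul, le_div_iff₀ hκ1]
    linarith
  have h4 : (1 : ℝ) ≤ κ ^ (n / N) := one_le_pow₀ hκ.le
  have h5 : ((n / N : ℕ) : ℝ) + 1 ≤ (1 + (κ - 1)⁻¹) * κ ^ (n / N) := by
    rw [add_mul, one_mul]
    linarith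
  calc A * n ≤ A * (N * (((n / N : ℕ) : ℝ) + 1)) := mul_le_mul_of_nonneg_left h1' hA
    _ ≤ A * (N * ((1 + (κ - 1)⁻¹) * κ ^ (n / N))) := by
        apply mul_le_mul_of_nonneg_left _ hA
        exact mul_le_mul_of_nonneg_left h5 (by positivity)
    _ = κ ^ (n / N) * (A * N * (1 + (κ - 1)⁻¹)) := by ring
    _ ≤ κ ^ (n / N) * κ ^ CN := mul_le_mul_of_nonneg_left hCN.le (by positivity)
    _ = κ ^ (n / N + CN) := (pow_add _ _ _).symm

/-- Sum over one height. -/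
theorem fibre (Hy : Hyp M B nu ns C κ) (S : Sys M B L E Ct) {q N : ℕ} {c : V} {R : ℝ}
    (P : Pert M B nu ns L q c N R) {z : ℝ} (hz0 : 0 < z) (hz1 : z ≤ 1) (H : ℕ) {ι : Type}
    (s : Finset ι) (u v : ι → V) (hu : ∀ i ∈ s, u i ∈ Box M B nu ns H 1)
    (hv : ∀ i ∈ s, v i ∈ Box M B nu ns H 1)
    (hdist : ∀ i ∈ s, ∀ i' ∈ s, u i - v i = u i' - v i' → i = i') :
    (∑ i ∈ s, z ^ (yl M L H (u i) + yl M L H (v i))) * (1 + z ^ (2 * N)) ^ (H / q + 1) ≤
      YY M B nu ns L (1 + R) H z * YY M B nu ns L (1 + R) H z := by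
  classical
  have hq := P.q_pos
  have hI : ∀ I ∈ (Finset.range (H / q + 1)).powerset, ∀ i ∈ I, q * i ≤ H := by
    intro I hI i hi
    rw [Finset.mem_powerset] at hI
    have h1 := hI hi
    rw [Finset.mem_range] at h1
    calc q * i ≤ q * (H / q) := Nat.mul_le_mul_left _ (by omega)
      _ ≤ H := Nat.mul_div_le _ _
  have hbox : ∀ w ∈ Box M B nu ns H 1, ∀ I ∈ (Finset.range (H / q + 1)).powerset,
      w + del M q c I ∈ Box M B nu ns H (1 + R) ∧
      yl M L H (w + del M q c I) ≤ yl M L H w + N * I.card := by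
    intro w hw I hI'
    rw [Hy.mem_Box] at hw
    obtain ⟨w1, w2, w3⟩ := hw
    have p1 := P.nu_le H I (hI I hI')
    have p2 := P.ns_le 0 I (fun i _ => Nat.zero_le _)
    have e0 : (M ^ (-((0 : ℕ) : ℤ))) (del M q c I) = del M q c I := by
      rw [Nat.cast_zero, neg_zero, Mp_zero]
    rw [e0] at p2
    refine ⟨Hy.mem_Box.2 ⟨B.add_mem w1 p2.1, ?_, ?_⟩, ?_⟩
    · rw [map_add]
      exact (Hy.nu_add _ _).trans (add_le_add w2 p1)
    · exact (Hy.ns_add _ _).trans (add_le_add w3 p2.2)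
    · exact yl_le (P.path H I w _ (hI I hI') (yl_spec S w1 H))
  have hmain := sum_le_of_inj (s ×ˢ (Finset.range (H / q + 1)).powerset)
    (Box M B nu ns H (1 + R) ×ˢ Box M B nu ns H (1 + R))
    (fun p => (u p.1 + del M q c p.2, v p.1 + del M q c p.2))
    (fun p => z ^ (yl M L H (u p.1) + yl M L H (v p.1)) * (z ^ (2 * N)) ^ p.2.card)
    (fun p => z ^ yl M L H p.1 * z ^ yl M L H p.2) ?_ ?_ ?_ ?_
  · have h1 : ∑ p ∈ s ×ˢ (Finset.range (H / q + 1)).powerset,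
        z ^ (yl M L H (u p.1) + yl M L H (v p.1)) * (z ^ (2 * N)) ^ p.2.card =
        (∑ i ∈ s, z ^ (yl M L H (u i) + yl M L H (v i))) * (1 + z ^ (2 * N)) ^ (H / q + 1) := by
      rw [Finset.sum_product, Finset.sum_mul]
      apply Finset.sum_congr rfl
      intro i _
      simp only
      rw [← Finset.mul_sum]
      congr 1
      have h2 := Finset.sum_pow_mul_eq_add_pow (z ^ (2 * N)) 1 (Finset.range (H / q + 1))
      rw [Finset.card_range] at h2
      rw [add_comm (1 : ℝ), ← h2]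
      apply Finset.sum_congr rfl
      intro I _
      rw [one_pow, mul_one]
    rw [← h1]
    refine hmain.trans (le_of_eq ?_)
    unfold YY
    rw [Finset.sum_mul_sum, Finset.sum_product]
  · intro p hp
    rw [Finset.mem_product] at hp
    rw [Finset.mem_product]
    exact ⟨(hbox _ (hu _ hp.1) _ hp.2).1, (hbox _ (hv _ hp.1) _ hp.2).1⟩
  · intro p hp p' hp' he
    rw [Finset.mem_coe, Finset.mem_product] at hp hp'
    have he1 := congrArg Prod.fst he
    have he2 := congrArg Prod.snd he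
    simp only at he1 he2
    have h3 : u p.1 - v p.1 = u p'.1 - v p'.1 := by
      have : (u p.1 + del M q c p.2) - (v p.1 + del M q c p.2) =
          (u p'.1 + del M q c p'.2) - (v p'.1 + del M q c p'.2) := by rw [he1, he2]
      rwa [add_sub_add_right_eq_sub, add_sub_add_right_eq_sub] at this
    have h4 := hdist _ hp.1 _ hp'.1 h3
    rw [h4] at he1
    exact Prod.ext h4 (P.inj _ _ (add_left_cancel he1))
  · intro p hp
    rw [Finset.mem_product] at hp
    have h1 := (hbox _ (hu _ hp.1) _ hp.2).2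
    have h2 := (hbox _ (hv _ hp.1) _ hp.2).2
    simp only
    rw [← pow_mul, ← pow_add, ← pow_add]
    apply pow_le_pow_of_le_one hz0.le hz1
    have : 2 * N * p.2.card = N * p.2.card + N * p.2.card := by ring
    omega
  · intro p _
    positivity

theorem exists_root {a : ℝ} (ha : 1 < a) (m : ℕ) : ∃ ν : ℝ, 1 < ν ∧ ν ^ m < a := by
  have h1 : Filter.Tendsto (fun ν : ℝ => ν ^ m) (nhdsWithin 1 (Set.Ioi 1)) (nhds (1 ^ m)) :=
    ((continuous_pow m).tendsto 1).mono_left nhdsWithin_le_nhds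
  have h2 : (1 : ℝ) ^ m < a := by rw [one_pow]; exact ha
  have h3 := (h1.eventually_lt_const h2).and self_mem_nhdsWithin
  obtain ⟨ν, h4, h5⟩ := h3.exists
  exact ⟨ν, h5, h4⟩

end ZEROAux

open ZEROAux in
theorem specZero (hE : SpecExpd) (hP : SpecPert) : SpecZero := by
  classical
  intro V _ M B nu ns C κ L E Ct Hy S z₀ C₂ hz₀
  by_cases hz₀1 : z₀ ≤ 1
  swap
  · refine ⟨1, one_pos, fun z hz hz1 => ?_⟩
    exact absurd (hz.trans hz1) hz₀1
  obtain ⟨q, c, N, R, P⟩ := hP V M B nu ns C κ L E Ct Hy S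
  obtain ⟨C₁, hC₁⟩ := hE V M B nu ns C κ L E Ct Hy S 1
  obtain ⟨C₃, hC₃, hbox⟩ := Hy.YY_box S (1 + R) hz₀
  have hCpos := Hy.C_pos
  have hκ1 := Hy.one_lt
  have hκ0 := Hy.κ_pos
  -- the sizes of the letters
  set A : ℝ := ∑ p ∈ L, (nu p.1 + ns p.1) with hAdef
  have hA0 : 0 ≤ A := Finset.sum_nonneg fun p _ => add_nonneg (Hy.nu_nonneg _) (Hy.ns_nonneg _)
  have hA : ∀ p ∈ L, nu p.1 ≤ A ∧ ns p.1 ≤ A := by
    intro p hp
    have h1 := Finset.single_le_sum (f := fun p : V × ℤ => nu p.1 + ns p.1)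
      (fun p _ => add_nonneg (Hy.nu_nonneg _) (Hy.ns_nonneg _)) hp
    have h2 := Hy.nu_nonneg p.1
    have h3 := Hy.ns_nonneg p.1
    constructor <;> linarith
  -- the constants
  obtain ⟨lam, hlam1, hlam⟩ := exists_root (a := 1 + z₀ ^ (2 * N)) (by
    have : 0 < z₀ ^ (2 * N) := by positivity
    linarith) q
  obtain ⟨ν, hν1, hν⟩ := exists_root (a := (1 + lam) / 2) (by linarith) (2 * C₁)
  set b : ℝ := 1 / z₀ with hb
  have hb1 : 1 ≤ b := by rw [hb, le_div_iff₀ hz₀]; linarith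
  obtain ⟨N₁, hN₁⟩ := pow_unbounded_of_one_lt (b ^ (4 * Ct)) hν1
  have hN11 : 1 ≤ N₁ := by
    rcases Nat.eq_zero_or_pos N₁ with h | h
    · subst h
      rw [pow_zero] at hN₁
      exact absurd hN₁ (not_lt.2 (one_le_pow₀ hb1))
    · exact h
  obtain ⟨CN, hCN⟩ := exists_CN κ hκ1 (C * (C * A)) (by positivity) N₁ hN11
  have hCN' : ∀ n : ℕ, C / κ ^ (n / N₁ + CN) * (C * A * n) ≤ 1 := by
    intro n
    rw [div_mul_eq_mul_div, div_le_one (by positivity)]
    have := hCN n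
    linarith
  have hlam0 : 0 < lam := by linarith
  set σ : ℝ := (1 + lam) / 2 * lam⁻¹ with hσ
  have hσ0 : 0 < σ := by positivity
  have hσ1 : σ < 1 := by
    rw [hσ, ← div_eq_mul_inv, div_lt_one hlam0]
    linarith
  have hν0 : 0 < ν := by linarith
  have hb0 : 0 < b := by linarith
  set c' : ℝ := b ^ (4 * Ct * CN) * ν ^ (2 * C₁) with hc'
  have hc0 : 0 < c' := by positivity
  have hσ2 : 0 < 1 - σ := by linarith
  set K : ℝ := (C₃ * C₂) * (C₃ * C₂) with hK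
  have hK0 : 0 ≤ K := mul_self_nonneg _
  refine ⟨c' * K * (1 - σ)⁻¹ + 1, by positivity, ?_⟩
  intro z hz hz1 hY ι s n x h1 h2 h3
  have hz0 : 0 < z := hz₀.trans_le hz
  have key : ∀ i : ι, ∃ (j : ℤ) (H : ℕ) (u v : V), i ∈ s →
      (u ∈ Box M B nu ns H 1 ∧ v ∈ Box M B nu ns H 1 ∧
      (M ^ j) (x i) = u - v ∧
      yl M L H u + yl M L H v ≤ n i + 4 * Ct * (n i / N₁ + CN) ∧
      n i ≤ 2 * C₁ * (H + 1)) := by
    intro i
    by_cases hi : i ∈ s
    · obtain ⟨j, H, u, v, hh⟩ := step2 Hy S A hA0 hA N₁ CN C₁ hCN' hC₁ (h1 i hi) (h2 i hi)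
      exact ⟨j, H, u, v, fun _ => hh⟩
    · exact ⟨0, 0, 0, 0, fun h => absurd h hi⟩
  choose j H u v hh using key
  -- termwise bound
  have hterm : ∀ i ∈ s, z ^ (n i) ≤
      c' * (ν ^ (2 * C₁)) ^ (H i) * z ^ (yl M L (H i) (u i) + yl M L (H i) (v i)) := by
    intro i hi
    obtain ⟨-, -, -, a3, a4⟩ := hh i hi
    set q := n i / N₁ with hq
    set y := yl M L (H i) (u i) + yl M L (H i) (v i) with hy
    set e := 4 * Ct * (q + CN) with he
    have b1 : z ^ (n i) * z ^ e ≤ z ^ y := by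
      rw [← pow_add]
      exact pow_le_pow_of_le_one hz0.le hz1 a3
    have b2 : (1 : ℝ) ≤ b ^ e * z ^ e := by
      rw [← mul_pow]
      apply one_le_pow₀
      rw [hb, one_div, ← div_eq_inv_mul, le_div_iff₀ hz₀]
      linarith
    have b3 : z ^ (n i) ≤ b ^ e * z ^ y := by
      calc z ^ (n i) = z ^ (n i) * 1 := (mul_one _).symm
        _ ≤ z ^ (n i) * (b ^ e * z ^ e) := mul_le_mul_of_nonneg_left b2 (by positivity)
        _ = b ^ e * (z ^ (n i) * z ^ e) := by ring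
        _ ≤ b ^ e * z ^ y := mul_le_mul_of_nonneg_left b1 (by positivity)
    have b4 : b ^ e ≤ c' * (ν ^ (2 * C₁)) ^ (H i) := by
      have e1 : e = 4 * Ct * CN + 4 * Ct * q := by rw [he]; ring
      have e2 : c' * (ν ^ (2 * C₁)) ^ (H i) =
          b ^ (4 * Ct * CN) * (ν ^ (2 * C₁) * (ν ^ (2 * C₁)) ^ (H i)) := by
        rw [hc']; ring
      rw [e1, pow_add b (4 * Ct * CN) (4 * Ct * q), e2]
      apply mul_le_mul_of_nonneg_left _ (by positivity)
      calc b ^ (4 * Ct * q) = (b ^ (4 * Ct)) ^ q := pow_mul _ _ _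
        _ ≤ (ν ^ N₁) ^ q := pow_le_pow_left₀ (by positivity) hN₁.le _
        _ = ν ^ (N₁ * q) := (pow_mul _ _ _).symm
        _ ≤ ν ^ (2 * C₁ + 2 * C₁ * H i) := by
            apply pow_le_pow_right₀ hν1.le
            have h7 : N₁ * q ≤ n i := by rw [hq]; exact Nat.mul_div_le _ _
            have h8 : 2 * C₁ * (H i + 1) = 2 * C₁ + 2 * C₁ * H i := by ring
            omega
        _ = ν ^ (2 * C₁) * (ν ^ (2 * C₁)) ^ (H i) := by
            rw [pow_add, pow_mul ν (2 * C₁) (H i)]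
    exact b3.trans (mul_le_mul_of_nonneg_right b4 (by positivity))
  -- sum over the fibres
  have hfib : ∀ h ∈ Finset.range (s.sup H + 1),
      ∑ i ∈ s.filter (fun i => H i = h), z ^ (n i) ≤ c' * K * σ ^ h := by
    intro h _
    have h5 : ∀ i ∈ s.filter (fun i => H i = h), i ∈ s ∧ H i = h := by
      intro i hi
      rw [Finset.mem_filter] at hi
      exact hi
    have h6 := fibre Hy S P hz0 hz1 h (s.filter (fun i => H i = h)) u v
      (by
        intro i hi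
        obtain ⟨c1, c2⟩ := h5 i hi
        have := (hh i c1).1
        rw [c2] at this
        exact this)
      (by
        intro i hi
        obtain ⟨c1, c2⟩ := h5 i hi
        have := (hh i c1).2.1
        rw [c2] at this
        exact this)
      (by
        intro i hi i' hi' he
        have d1 := (hh i (h5 i hi).1).2.2.1
        have d2 := (hh i' (h5 i' hi').1).2.2.1
        rw [he, ← d2] at d1
        apply h3 i (h5 i hi).1 i' (h5 i' hi').1 (-(j i') + j i)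
        rw [Mp_add, d1, Mp_neg])
    set Sh := ∑ i ∈ s.filter (fun i => H i = h), z ^ (yl M L h (u i) + yl M L h (v i)) with hSd
    have hS0 : 0 ≤ Sh := Finset.sum_nonneg fun i _ => pow_nonneg hz0.le _
    have h7 : YY M B nu ns L (1 + R) h z ≤ C₃ * C₂ :=
      (hbox z hz hz1 h).trans (mul_le_mul_of_nonneg_left (hY h) hC₃.le)
    have h8 : 0 ≤ YY M B nu ns L (1 + R) h z := YY_nonneg h hz0.le
    have h9 : Sh * (1 + z ^ (2 * N)) ^ (h / q + 1) ≤ K :=
      h6.trans (mul_le_mul h7 h7 h8 (h8.trans h7))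
    have h10 : lam ^ h ≤ (1 + z ^ (2 * N)) ^ (h / q + 1) := by
      have e1 : h ≤ q * (h / q + 1) := by
        have := Nat.div_add_mod h q
        have h2 := Nat.mod_lt h P.q_pos
        rw [Nat.mul_add, Nat.mul_one]
        omega
      calc lam ^ h ≤ lam ^ (q * (h / q + 1)) := pow_le_pow_right₀ hlam1.le e1
        _ = (lam ^ q) ^ (h / q + 1) := pow_mul _ _ _
        _ ≤ (1 + z ^ (2 * N)) ^ (h / q + 1) := by
            apply pow_le_pow_left₀ (by positivity)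
            have : z₀ ^ (2 * N) ≤ z ^ (2 * N) := pow_le_pow_left₀ hz₀.le hz _
            linarith
    have h11 : Sh ≤ K * (lam⁻¹) ^ h := by
      rw [inv_pow, ← div_eq_mul_inv, le_div_iff₀ (by positivity)]
      exact (mul_le_mul_of_nonneg_left h10 hS0).trans h9
    calc ∑ i ∈ s.filter (fun i => H i = h), z ^ (n i)
        ≤ ∑ i ∈ s.filter (fun i => H i = h),
            c' * (ν ^ (2 * C₁)) ^ h * z ^ (yl M L h (u i) + yl M L h (v i)) := by
          apply Finset.sum_le_sum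
          intro i hi
          obtain ⟨c1, c2⟩ := h5 i hi
          have := hterm i c1
          rw [c2] at this
          exact this
      _ = c' * (ν ^ (2 * C₁)) ^ h * Sh := by rw [hSd, Finset.mul_sum]
      _ ≤ c' * (ν ^ (2 * C₁)) ^ h * (K * (lam⁻¹) ^ h) :=
          mul_le_mul_of_nonneg_left h11 (by positivity)
      _ ≤ c' * ((1 + lam) / 2) ^ h * (K * (lam⁻¹) ^ h) := by
          apply mul_le_mul_of_nonneg_right _ (by positivity)
          exact mul_le_mul_of_nonneg_left (pow_le_pow_left₀ (by positivity) hν.le _) hc0.le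
      _ = c' * K * σ ^ h := by rw [hσ, mul_pow]; ring
  have hmaps : ∀ i ∈ s, H i ∈ Finset.range (s.sup H + 1) := by
    intro i hi
    rw [Finset.mem_range]
    exact Nat.lt_succ_of_le (Finset.le_sup (f := H) hi)
  calc ∑ i ∈ s, z ^ (n i)
      = ∑ h ∈ Finset.range (s.sup H + 1), ∑ i ∈ s.filter (fun i => H i = h), z ^ (n i) :=
        (Finset.sum_fiberwise_of_maps_to hmaps _).symm
    _ ≤ ∑ h ∈ Finset.range (s.sup H + 1), c' * K * σ ^ h := Finset.sum_le_sum hfib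
    _ = c' * K * ∑ h ∈ Finset.range (s.sup H + 1), σ ^ h := by rw [Finset.mul_sum]
    _ ≤ c' * K * (1 - σ)⁻¹ := by
        apply mul_le_mul_of_nonneg_left _ (by positivity)
        rw [← tsum_geometric_of_lt_one hσ0.le hσ1]
        exact (summable_geometric_of_lt_one hσ0.le hσ1).sum_le_tsum _ (fun i _ => by positivity)
    _ ≤ c' * K * (1 - σ)⁻¹ + 1 := by linarith

end MPa1853dH
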